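import Pool.Agent.MP_a77edb_an.CMod

/-!
# Consequences of the vanishing condition
-/

set_option autoImplicit false
set_option linter.unusedSectionVars false

noncomputable section

namespace Pool.Agent.MP_a77edb_an

universe u v w

open ContinuousLinearMap Filter Topology
open scoped ENNReal

namespace CS

open PT
open Classical

variable {A E F : Type u} [NonUnitalNormedRing A] [NormedSpace ℂ A]
    [NormedAddCommGroup E] [NormedSpace ℂ E] [NormedAddCommGroup F] [NormedSpace ℂ F]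

/-- Families concentrated at one point. -/
def sg (γ : Gam A) : E →L[ℂ] Linf (Gam A) E := lp.singleContinuousLinearMap ℂ (fun _ => E) ⊤ γ

theorem sg_apply_self (γ : Gam A) (v : E) : sg γ v γ = v :=
  lp.single_apply_self (E := fun _ : Gam A => E) ⊤ γ v

theorem sg_apply_ne {γ γ' : Gam A} (h : γ' ≠ γ) (v : E) : sg γ v γ' = 0 :=
  lp.single_apply_ne (E := fun _ : Gam A => E) ⊤ γ v h

theorem sg_apply (γ γ' : Gam A) (v : E) : sg γ v γ' = if γ' = γ then v else 0 := by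
  by_cases h : γ' = γ
  · rw [if_pos h, h, sg_apply_self]
  · rw [if_neg h, sg_apply_ne h]

theorem lam_sg (aE : A →L[ℂ] E →L[ℂ] E) (γ : Gam A) (a : A) (e : E) :
    lam (Gam A) aE a (sg γ e) = sg γ (aE a e) := by
  refine linf_ext fun γ' => ?_
  rw [lam_apply, sg_apply, sg_apply]
  split_ifs
  · rfl
  · rw [map_zero]

/-- Multiplication of a bounded family of vectors by scalars. -/
def Bx (e : Gam A → E) (he : ∀ γ, ‖e γ‖ ≤ 1) : LC (Gam A) →L[ℂ] Linf (Gam A) E :=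
  LinearMap.mkContinuous
    { toFun := fun c => ⟨fun γ => c γ • e γ, linf_mem (C := ‖c‖ * 1) fun γ => by
        rw [norm_smul]
        exact mul_le_mul (lc_apply_le c γ) (he γ) (norm_nonneg _) (norm_nonneg _)⟩
      map_add' := fun c c' => linf_ext fun γ => add_smul _ _ _
      map_smul' := fun c x => linf_ext fun γ => mul_smul _ _ _ } 1
    (fun c => by
      refine lp.norm_le_of_forall_le (by positivity) fun γ => ?_
      show ‖c γ • e γ‖ ≤ _
      rw [norm_smul, mul_comm 1]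
      exact mul_le_mul (lc_apply_le c γ) (he γ) (norm_nonneg _) (norm_nonneg _))

theorem Bx_apply (e : Gam A → E) (he : ∀ γ, ‖e γ‖ ≤ 1) (c : LC (Gam A)) (γ : Gam A) :
    Bx e he c γ = c γ • e γ := rfl

theorem norm_Bx_apply_le (e : Gam A → E) (he : ∀ γ, ‖e γ‖ ≤ 1) (c : LC (Gam A)) :
    ‖Bx e he c‖ ≤ ‖c‖ := by
  have := (Bx e he).le_of_opNorm_le (LinearMap.mkContinuous_norm_le _ zero_le_one _) c
  rwa [one_mul] at this

theorem Bx_ind (e : Gam A → E) (he : ∀ γ, ‖e γ‖ ≤ 1) (γ : Gam A) :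
    Bx e he (indLC {γ}) = sg γ (e γ) := by
  refine linf_ext fun γ' => ?_
  rw [Bx_apply, sg_apply, indLC_apply]
  by_cases h : γ' = γ
  · rw [if_pos h, if_pos (Set.mem_singleton_iff.2 h), one_smul, h]
  · rw [if_neg h, if_neg (fun h' => h (Set.mem_singleton_iff.1 h')), zero_smul]

/-- The family `Σ c_j e_{γ_j} ⊗ v_{γ_j}` is bounded by `1`. -/
theorem norm_sum_sg_le (e : Gam A → E) (he : ∀ γ, ‖e γ‖ ≤ 1) (γ : ℕ → Gam A)
    (hγ : Function.Injective γ) (c : ℕ → ℂ)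
    (hc : ∀ j, ‖c j‖ ≤ 1) (n : ℕ) :
    ‖∑ j ∈ Finset.range n, c j • sg (γ j) (e (γ j))‖ ≤ 1 := by
  refine lp.norm_le_of_forall_le (by norm_num) fun γ' => ?_
  have h1 : (∑ j ∈ Finset.range n, c j • sg (γ j) (e (γ j)) : Linf (Gam A) E) γ' =
      ∑ j ∈ Finset.range n, c j • (if γ' = γ j then e (γ j) else 0) := by
    rw [lp.coeFn_sum, Finset.sum_apply]
    refine Finset.sum_congr rfl fun j _ => ?_
    rw [linf_smul_apply, sg_apply]
  rw [h1]
  by_cases h : ∃ i ∈ Finset.range n, γ' = γ i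
  · obtain ⟨i, hi, rfl⟩ := h
    rw [Finset.sum_eq_single i]
    · rw [if_pos rfl, norm_smul]
      calc ‖c i‖ * ‖e (γ i)‖ ≤ 1 * 1 :=
            mul_le_mul (hc i) (he _) (norm_nonneg _) zero_le_one
        _ = 1 := one_mul _
    · intro j _ hj
      rw [if_neg fun h => hj (hγ h).symm, smul_zero]
    · intro h
      exact absurd hi h
  · push Not at h
    rw [Finset.sum_eq_zero]
    · rw [norm_zero]
      norm_num
    · intro j hj
      rw [if_neg (h j hj), smul_zero]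

variable [CompleteSpace A] [IsScalarTower ℂ A A] [SMulCommClass ℂ A A]
  [CompleteSpace E] [CompleteSpace F]

section Diag

/-- Averaging over roots of unity. -/
theorem exists_diag_tensor (S : ℕ → PT A (Z0 (Gam A) F)) (γ : ℕ → Gam A)
    (hγ : Function.Injective γ) (C : ℝ) (n : ℕ) (hn : n ≠ 0)
    (hS : ∀ c : ℕ → ℂ, (∀ j, ‖c j‖ ≤ 1) → ‖∑ j ∈ Finset.range n, c j • S j‖ ≤ C) :
    ∃ t : PT A (Z0 (Gam A) F), ‖t‖ ≤ C ∧
      ∀ j, j < n → mapR (ev (γ j)) t = mapR (ev (γ j)) (S j) := by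
  have hω := Complex.isPrimitiveRoot_exp n hn
  set ω : ℂ := Complex.exp (2 * Real.pi * Complex.I / n) with hωdef
  have hω1 : ‖ω‖ = 1 := Complex.norm_eq_one_of_pow_eq_one hω.pow_eq_one hn
  let d : ℕ → Gam A → ℂ := fun k => Function.extend γ (fun j => (ω ^ (k * j))⁻¹) 0
  have hd1 : ∀ k j, d k (γ j) = (ω ^ (k * j))⁻¹ := fun k j => hγ.extend_apply _ _ j
  have hd : ∀ k x, ‖d k x‖ ≤ 1 := by
    intro k x
    by_cases h : ∃ j, γ j = x
    · obtain ⟨j, rfl⟩ := h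
      rw [hd1, norm_inv, norm_pow, hω1, one_pow, inv_one]
    · have : d k x = 0 := Function.extend_apply' _ _ _ h
      rw [this, norm_zero]
      exact zero_le_one
  let Sk : ℕ → PT A (Z0 (Gam A) F) := fun k => ∑ j ∈ Finset.range n, ω ^ (k * j) • S j
  have hSk : ∀ k, ‖Sk k‖ ≤ C := fun k => hS _ fun j => by
    rw [norm_pow, hω1, one_pow]
  refine ⟨(n : ℂ)⁻¹ • ∑ k ∈ Finset.range n, mapR (diagZ (d k) (hd k)) (Sk k), ?_, fun j hj => ?_⟩
  · rw [norm_smul, norm_inv, Complex.norm_natCast]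
    have h1 : ‖∑ k ∈ Finset.range n, mapR (diagZ (d k) (hd k)) (Sk k)‖ ≤ n * C := by
      refine (norm_sum_le _ _).trans ?_
      have h2 : ∀ k ∈ Finset.range n, ‖mapR (diagZ (d k) (hd k)) (Sk k)‖ ≤ C := fun k _ => by
        refine (norm_mapR_apply_le _ _).trans ?_
        exact (mul_le_of_le_one_left (norm_nonneg _) (norm_diagZ_le _ _)).trans (hSk k)
      refine (Finset.sum_le_sum h2).trans ?_
      rw [Finset.sum_const, Finset.card_range, nsmul_eq_mul]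
    have h3 : (0 : ℝ) < n := by exact_mod_cast Nat.pos_of_ne_zero hn
    calc (n : ℝ)⁻¹ * ‖∑ k ∈ Finset.range n, mapR (diagZ (d k) (hd k)) (Sk k)‖ ≤
          (n : ℝ)⁻¹ * (n * C) := by gcongr
      _ = C := by field_simp
  · rw [map_smul, map_sum]
    have h1 : ∀ k ∈ Finset.range n, mapR (ev (γ j)) (mapR (diagZ (d k) (hd k)) (Sk k)) =
        ∑ i ∈ Finset.range n, ((ω ^ (k * j))⁻¹ * ω ^ (k * i)) • mapR (ev (γ j)) (S i) := by
      intro k _
      rw [mapR_ev_diagZ, hd1]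
      show _ • mapR (ev (γ j)) (∑ i ∈ Finset.range n, ω ^ (k * i) • S i) = _
      rw [map_sum, Finset.smul_sum]
      refine Finset.sum_congr rfl fun i _ => ?_
      rw [map_smul, smul_smul]
    rw [Finset.sum_congr rfl h1, Finset.sum_comm]
    have h2 : ∀ i ∈ Finset.range n, ∑ k ∈ Finset.range n,
        ((ω ^ (k * j))⁻¹ * ω ^ (k * i)) • mapR (ev (γ j)) (S i) =
        (if i = j then (n : ℂ) else 0) • mapR (ev (γ j)) (S i) := by
      intro i hi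
      rw [← Finset.sum_smul, sum_roots hω (Finset.mem_range.1 hi) hj]
    rw [Finset.sum_congr rfl h2, Finset.sum_eq_single j]
    · rw [if_pos rfl, smul_smul, inv_mul_cancel₀ (by exact_mod_cast hn), one_smul]
    · intro i _ hij
      rw [if_neg hij, zero_smul]
    · intro h
      exact absurd (Finset.mem_range.2 hj) h

/-- Double averaging. -/
theorem exists_double_diag (S : ℕ → ℕ → PT A (Z0 (Gam A) F)) (γ : ℕ → Gam A)
    (hγ : Function.Injective γ) (C : ℝ) (n : ℕ) (hn : n ≠ 0)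
    (hS : ∀ c d : ℕ → ℂ, (∀ j, ‖c j‖ ≤ 1) → (∀ j, ‖d j‖ ≤ 1) →
      ‖∑ i ∈ Finset.range n, c i • ∑ j ∈ Finset.range n, d j • S i j‖ ≤ C) :
    ∃ t : PT A (Z0 (Gam A) F), ‖t‖ ≤ C ∧
      ∀ j, j < n → mapR (ev (γ j)) t = mapR (ev (γ j)) (S j j) := by
  have hω := Complex.isPrimitiveRoot_exp n hn
  set ω : ℂ := Complex.exp (2 * Real.pi * Complex.I / n) with hωdef
  have hω1 : ‖ω‖ = 1 := Complex.norm_eq_one_of_pow_eq_one hω.pow_eq_one hn
  have h1 : ∀ k : ℕ, ∃ t : PT A (Z0 (Gam A) F), ‖t‖ ≤ C ∧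
      ∀ i, i < n → mapR (ev (γ i)) t =
        mapR (ev (γ i)) (∑ j ∈ Finset.range n, ω ^ (k * j) • S i j) := fun k =>
    exists_diag_tensor (fun i => ∑ j ∈ Finset.range n, ω ^ (k * j) • S i j) γ hγ C n hn
      fun c hc => hS c _ hc fun j => by rw [norm_pow, hω1, one_pow]
  choose t ht1 ht2 using h1
  let d : ℕ → Gam A → ℂ := fun k => Function.extend γ (fun j => (ω ^ (k * j))⁻¹) 0
  have hd1 : ∀ k j, d k (γ j) = (ω ^ (k * j))⁻¹ := fun k j => hγ.extend_apply _ _ j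
  have hd : ∀ k x, ‖d k x‖ ≤ 1 := by
    intro k x
    by_cases h : ∃ j, γ j = x
    · obtain ⟨j, rfl⟩ := h
      rw [hd1, norm_inv, norm_pow, hω1, one_pow, inv_one]
    · have : d k x = 0 := Function.extend_apply' _ _ _ h
      rw [this, norm_zero]
      exact zero_le_one
  refine ⟨(n : ℂ)⁻¹ • ∑ k ∈ Finset.range n, mapR (diagZ (d k) (hd k)) (t k), ?_, fun j hj => ?_⟩
  · rw [norm_smul, norm_inv, Complex.norm_natCast]
    have h1 : ‖∑ k ∈ Finset.range n, mapR (diagZ (d k) (hd k)) (t k)‖ ≤ n * C := by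
      refine (norm_sum_le _ _).trans ?_
      have h2 : ∀ k ∈ Finset.range n, ‖mapR (diagZ (d k) (hd k)) (t k)‖ ≤ C := fun k _ => by
        refine (norm_mapR_apply_le _ _).trans ?_
        exact (mul_le_of_le_one_left (norm_nonneg _) (norm_diagZ_le _ _)).trans (ht1 k)
      refine (Finset.sum_le_sum h2).trans ?_
      rw [Finset.sum_const, Finset.card_range, nsmul_eq_mul]
    have h3 : (0 : ℝ) < n := by exact_mod_cast Nat.pos_of_ne_zero hn
    calc (n : ℝ)⁻¹ * ‖∑ k ∈ Finset.range n, mapR (diagZ (d k) (hd k)) (t k)‖ ≤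
          (n : ℝ)⁻¹ * (n * C) := by gcongr
      _ = C := by field_simp
  · rw [map_smul, map_sum]
    have h1 : ∀ k ∈ Finset.range n, mapR (ev (γ j)) (mapR (diagZ (d k) (hd k)) (t k)) =
        ∑ i ∈ Finset.range n, ((ω ^ (k * j))⁻¹ * ω ^ (k * i)) • mapR (ev (γ j)) (S j i) := by
      intro k _
      rw [mapR_ev_diagZ, hd1, ht2 k j hj, map_sum, Finset.smul_sum]
      refine Finset.sum_congr rfl fun i _ => ?_
      rw [map_smul, smul_smul]
    rw [Finset.sum_congr rfl h1, Finset.sum_comm]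
    have h2 : ∀ i ∈ Finset.range n, ∑ k ∈ Finset.range n,
        ((ω ^ (k * j))⁻¹ * ω ^ (k * i)) • mapR (ev (γ j)) (S j i) =
        (if i = j then (n : ℂ) else 0) • mapR (ev (γ j)) (S j i) := by
      intro i hi
      rw [← Finset.sum_smul, sum_roots hω (Finset.mem_range.1 hi) hj]
    rw [Finset.sum_congr rfl h2, Finset.sum_eq_single j]
    · rw [if_pos rfl, smul_smul, inv_mul_cancel₀ (by exact_mod_cast hn), one_smul]
    · intro i _ hij
      rw [if_neg hij, zero_smul]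
    · intro h
      exact absurd (Finset.mem_range.2 hj) h

end Diag

/-! ### The fibres of `ψ` -/

namespace NData

variable (D : NData A E F)
  (ψ : A →L[ℂ] Linf (Gam A) E →L[ℂ] PT A (Z0 (Gam A) F))
  (hψ : ∀ a b m, (tmul a (D.coc b m) : PT A (Z0 (Gam A) F)) =
        (lact a (ψ b m) - tmul a (sig (zam (Gam A) D.aF) (ψ b m))) - ψ (a * b) m +
          ψ a (lam (Gam A) D.aE b m))

/-- the fibre of `ψ` -/
def ps (γ : Gam A) (a : A) (e : E) : PT A F := mapR (ev γ) (ψ a (sg γ e))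

/-- the fibre of `θ` -/
def th (γ : Gam A) (a : A) (e : E) : F :=
  (D.aF a (D.x γ e) - D.x γ (D.aE a e)) + sig D.aF (ps ψ γ a e)

omit [IsScalarTower ℂ A A] [SMulCommClass ℂ A A] [CompleteSpace E] [CompleteSpace F] in
theorem ev_coc_sg (γ : Gam A) (a : A) (e : E) :
    ev γ (D.coc a (sg γ e)) = D.aF a (D.x γ e) - D.x γ (D.aE a e) := by
  rw [ev_coc, sg_apply_self]

include hψ in
theorem star_eq (γ : Gam A) (a b : A) (e : E) :
    (tmul a (D.th ψ γ b e) : PT A F) =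
      lact a (ps ψ γ b e) - ps ψ γ (a * b) e + ps ψ γ a (D.aE b e) := by
  have h := congrArg (mapR (ev γ)) (hψ a b (sg γ e))
  have h3 : ∀ (R : PT A (Z0 (Gam A) F) →L[ℂ] PT A F) (u v w z : PT A (Z0 (Gam A) F)),
      R (u - v - w + z) = R u - R v - R w + R z := fun R u v w z => by
    rw [map_add, map_sub, map_sub]
  rw [mapR_tmul, ev_coc_sg, h3, mapR_lact, mapR_tmul,
    ← sig_mapR (zam (Gam A) D.aF) D.aF (ev γ) (fun a z => ev_zam D.aF a z γ), lam_sg] at h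
  have h2 : (tmul a (D.th ψ γ b e) : PT A F) =
      tmul a (D.aF b (D.x γ e) - D.x γ (D.aE b e)) + tmul a (sig D.aF (ps ψ γ b e)) := by
    rw [← map_add]
    rfl
  rw [h2, h]
  show lact a (ps ψ γ b e) - tmul a (sig D.aF (ps ψ γ b e)) - ps ψ γ (a * b) e +
    ps ψ γ a (D.aE b e) + tmul a (sig D.aF (ps ψ γ b e)) = _
  abel

theorem ps_zero (γ : Gam A) (e : E) : ps ψ γ 0 e = 0 := by
  rw [ps, map_zero, zero_apply, map_zero]

/-- The functional `Φ_γ (c ⊗ f) = η(c y_γ f)`. -/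
def Phi (γ : Gam A) : PT A F →L[ℂ] ℂ :=
  lift ((compL ℂ F E ℂ (D.η (D.k γ))).comp (((compL ℂ F E E).flip (D.y γ)).comp D.aE))

theorem Phi_tmul (γ : Gam A) (c : A) (f : F) :
    D.Phi γ (tmul c f) = D.η (D.k γ) (D.aE c (D.y γ f)) := by
  rw [Phi, lift_tmul]
  rfl

theorem eta_bound (γ : Gam A) (c : A) (f : F) :
    ‖D.η (D.k γ) (D.aE c (D.y γ f))‖ ≤ ‖D.aE‖ * D.K * ‖c‖ * ‖f‖ := by
  have h0 := D.K_nonneg
  refine ((D.η (D.k γ)).le_opNorm _).trans ?_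
  refine (mul_le_of_le_one_left (norm_nonneg _) (D.norm_η _)).trans ?_
  refine (D.aE.le_opNorm₂ _ _).trans ?_
  have h1 : ‖D.aE‖ * ‖c‖ * ‖D.y γ f‖ ≤ ‖D.aE‖ * ‖c‖ * (D.K * ‖f‖) :=
    mul_le_mul_of_nonneg_left (D.y_le γ f) (by positivity)
  refine h1.trans (le_of_eq ?_)
  ring

theorem norm_Phi_apply_le (γ : Gam A) (t : PT A F) :
    ‖D.Phi γ t‖ ≤ ‖D.aE‖ * D.K * ‖t‖ := by
  have h0 := D.K_nonneg
  refine (norm_lift_apply_le _ t).trans ?_
  refine mul_le_mul_of_nonneg_right ?_ (norm_nonneg _)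
  refine ContinuousLinearMap.opNorm_le_bound₂ _ (by positivity) fun c f => ?_
  exact D.eta_bound γ c f

theorem Phi_lact_b (γ : Gam A) (t : PT A F) :
    D.Phi γ (lact (D.b (D.k γ)) t) = D.Phi γ t := by
  have h : (D.Phi γ).comp (lact (D.b (D.k γ))) = D.Phi γ := by
    refine ext' fun u z => ?_
    rw [comp_apply, lact_tmul, Phi_tmul, Phi_tmul, D.aE_mul, D.η_b]
  exact congrArg (fun (T : PT A F →L[ℂ] ℂ) => T t) h

theorem Phi_tmul_b (γ : Gam A) (f : F) :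
    D.Phi γ (tmul (D.b (D.k γ)) f) = D.η (D.k γ) (D.y γ f) := by
  rw [Phi_tmul, D.η_b]

/-- convergence of the functionals -/
theorem tendsto_Phi (t : PT A F) :
    Tendsto (fun γ => D.Phi γ t) atTop (𝓝 (D.ηi (sig D.aF t))) := by
  have h0 := D.K_nonneg
  obtain ⟨α, rfl⟩ := PT.mkQ_surjective t
  have h1 : ∀ γ : Gam A, HasSum (fun w : UBall F => D.η (D.k γ) (D.aE (α w) (D.y γ (w : F))))
      (D.Phi γ (PT.mkQ A F α)) := by
    intro γ
    have := (D.Phi γ).hasSum (PT.hasSum_mkQ α)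
    simpa [Phi_tmul] using this
  have h2 : HasSum (fun w : UBall F => D.ηi (D.aF (α w) (w : F)))
      (D.ηi (sig D.aF (PT.mkQ A F α))) := by
    have := D.ηi.hasSum ((sig D.aF).hasSum (PT.hasSum_mkQ α))
    simpa [sig_tmul] using this
  have h3 : (fun γ : Gam A => D.Phi γ (PT.mkQ A F α)) =
      fun γ => ∑' w : UBall F, D.η (D.k γ) (D.aE (α w) (D.y γ (w : F))) := by
    funext γ
    exact (h1 γ).tsum_eq.symm
  rw [h3, ← h2.tsum_eq]
  refine tendsto_tsum_of_dominated_convergence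
    (bound := fun w : UBall F => ‖D.aE‖ * D.K * ‖α w‖)
    ((l1_summable_norm α).mul_left _) (fun w => ?_)
    (Eventually.of_forall fun γ w => ?_)
  · have e1 : Tendsto (fun γ => D.η (D.k γ) (D.y γ (D.aF (α w) (w : F)))) atTop
        (𝓝 (D.ηi (D.aF (α w) (w : F)))) := D.tend_η _
    have e2 : Tendsto (fun γ => D.η (D.k γ)
        (((D.aE (α w)).comp (D.y γ) - (D.y γ).comp (D.aF (α w))) (w : F))) atTop (𝓝 0) := by
      have e3 := (D.tend_y (α w)).mul_const ‖(w : F)‖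
      rw [zero_mul] at e3
      refine squeeze_zero_norm (fun γ => ?_) e3
      refine ((D.η (D.k γ)).le_opNorm _).trans ?_
      refine (mul_le_of_le_one_left (norm_nonneg _) (D.norm_η _)).trans ?_
      exact ContinuousLinearMap.le_opNorm _ _
    have e3 := e2.add e1
    rw [zero_add] at e3
    refine e3.congr fun γ => ?_
    rw [sub_apply, comp_apply, comp_apply, map_sub]
    ring
  · have h4 : ‖(w : F)‖ ≤ 1 := w.2
    refine (D.eta_bound γ _ _).trans ?_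
    exact mul_le_of_le_one_right (by positivity) h4

/-- `ω_γ` -/
def om (γ : Gam A) : PT A F := ps ψ γ (D.b (D.k γ)) (D.ξ (D.k γ))

/-- `θ_γ` -/
def tt (γ : Gam A) : F := D.th ψ γ (D.b (D.k γ)) (D.ξ (D.k γ))

/-- The matrix. -/
def M (γ γ' : Gam A) : ℂ := D.Phi γ' (D.om ψ γ) - D.η (D.k γ') (D.y γ' (D.tt ψ γ))

include hψ in
theorem M_eq {γ γ' : Gam A} (h : D.k γ' ≠ D.k γ) :
    D.M ψ γ γ' = -D.Phi γ' (ps ψ γ (D.b (D.k γ')) (D.ξ (D.k γ))) := by
  have h1 := D.star_eq ψ hψ γ (D.b (D.k γ')) (D.b (D.k γ)) (D.ξ (D.k γ))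
  rw [D.b_orth _ _ h, ps_zero, sub_zero, D.b_ξ] at h1
  rw [M, ← D.Phi_lact_b, ← D.Phi_tmul_b, tt, h1, map_add]
  show D.Phi γ' (lact (D.b (D.k γ')) (ps ψ γ (D.b (D.k γ)) (D.ξ (D.k γ)))) - _ = _
  abel

theorem M_tendsto (γ : Gam A) :
    Tendsto (fun γ' => D.M ψ γ γ') atTop (𝓝 (D.ηi (D.x γ (D.ξ (D.k γ))))) := by
  have h1 := (D.tendsto_Phi (D.om ψ γ)).sub (D.tend_η (D.tt ψ γ))
  have h2 : D.ηi (sig D.aF (D.om ψ γ)) - D.ηi (D.tt ψ γ) = D.ηi (D.x γ (D.ξ (D.k γ))) := by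
    rw [tt, th, map_add, map_sub, D.ηi_b, D.b_ξ]
    show D.ηi (sig D.aF (ps ψ γ (D.b (D.k γ)) (D.ξ (D.k γ)))) - _ = _
    ring
  rw [h2] at h1
  exact h1

theorem norm_ps_le (γ : Gam A) (a : A) (e : E) : ‖ps ψ γ a e‖ ≤ ‖ψ‖ * ‖a‖ * ‖e‖ := by
  refine (norm_mapR_apply_le _ _).trans ?_
  refine (mul_le_of_le_one_left (norm_nonneg _) (norm_ev_le γ)).trans ?_
  refine (ψ.le_opNorm₂ _ _).trans ?_
  refine mul_le_mul_of_nonneg_left ?_ (by
    have : 0 ≤ ‖ψ‖ := ContinuousLinearMap.opNorm_nonneg ψ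
    positivity)
  refine lp.norm_le_of_forall_le (norm_nonneg _) fun γ' => ?_
  rw [sg_apply]
  split_ifs
  · exact le_rfl
  · rw [norm_zero]
    exact norm_nonneg _

/-- the Rosenthal argument -/
theorem exists_small (J : Finset ℕ) {ε : ℝ} (hε : 0 < ε) (γ₀ : Gam A) :
    ∃ γ, γ₀ ≤ γ ∧ ∀ j ∈ J, ‖ps ψ γ (D.b j) (D.ξ (D.k γ))‖ < ε := by
  by_contra hcon
  push Not at hcon
  have hK := D.K_nonneg
  -- the choice of `j`
  have hj : ∀ γ, ∃ j, γ₀ ≤ γ → j ∈ J ∧ ε ≤ ‖ps ψ γ (D.b j) (D.ξ (D.k γ))‖ := by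
    intro γ
    by_cases h : γ₀ ≤ γ
    · obtain ⟨j, h1, h2⟩ := hcon γ h
      exact ⟨j, fun _ => ⟨h1, h2⟩⟩
    · exact ⟨0, fun h' => absurd h' h⟩
  choose j hj using hj
  have hh : ∀ γ, ∃ h : PT A F →L[ℂ] ℂ, ‖h‖ ≤ 1 ∧ h (ps ψ γ (D.b (j γ)) (D.ξ (D.k γ))) =
      ((‖ps ψ γ (D.b (j γ)) (D.ξ (D.k γ))‖ : ℝ) : ℂ) := fun γ => by
    obtain ⟨h, h1, h2⟩ := exists_dual_vector'' ℂ (ps ψ γ (D.b (j γ)) (D.ξ (D.k γ)))
    exact ⟨h, h1, h2⟩
  choose h hh1 hh2 using hh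
  have heb : ∀ γ : Gam A, ‖(fun γ => D.ξ (D.k γ)) γ‖ ≤ 1 := fun γ => D.norm_ξ _
  let B : LC (Gam A) →L[ℂ] Linf (Gam A) E := Bx (fun γ => D.ξ (D.k γ)) heb
  let L : Gam A → (LC (Gam A) →L[ℂ] ℂ) := fun γ =>
    (h γ).comp ((mapR (ev γ)).comp ((ψ (D.b (j γ))).comp B))
  have hL : ∀ γ c, L γ c = h γ (mapR (ev γ) (ψ (D.b (j γ)) (B c))) := fun γ c => rfl
  have hLle : ∀ γ c, ‖L γ c‖ ≤ ‖mapR (ev γ) (ψ (D.b (j γ)) (B c))‖ := fun γ c => by
    rw [hL]
    exact ((h γ).le_opNorm _).trans (mul_le_of_le_one_left (norm_nonneg _) (hh1 γ))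
  have hψ0 : 0 ≤ ‖ψ‖ := ContinuousLinearMap.opNorm_nonneg ψ
  have hLn : ∀ γ, ‖L γ‖ ≤ ‖ψ‖ * D.K := by
    intro γ
    refine ContinuousLinearMap.opNorm_le_bound _ (by positivity) fun c => ?_
    refine (hLle γ c).trans ?_
    refine (norm_mapR_apply_le _ _).trans ?_
    refine (mul_le_of_le_one_left (norm_nonneg _) (norm_ev_le γ)).trans ?_
    refine (ψ.le_opNorm₂ _ _).trans ?_
    have h1 : ‖B c‖ ≤ ‖c‖ := norm_Bx_apply_le _ heb c
    have h2 := D.norm_b (j γ)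
    calc ‖ψ‖ * ‖D.b (j γ)‖ * ‖B c‖ ≤ ‖ψ‖ * D.K * ‖c‖ := by gcongr
      _ = _ := by ring
  obtain ⟨M, hM, hMμ⟩ := rosenthal (Γ := Gam A) (fun x y => x ≤ y) (fun x => le_refl x)
    (fun x y z => le_trans) Idx.node (fun x y x' y' h => by simpa using h)
    (fun x y => Idx.le_node_left x y) (fun x y => Idx.le_node_right x y)
    (fun γ S => variation (L γ) S) _ (fun γ S => variation_nonneg _ _)
    (fun γ S => (variation_le (L γ) S).trans (hLn γ))
    (fun γ S S' hd => variation_add_le (L γ) S S' hd) (ε := ε / 2) (by positivity)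
  -- lower bound on M
  have hlow : ∀ γ ∈ M, γ₀ ≤ γ → ε / 2 ≤ ‖mapR (ev γ) (ψ (D.b (j γ)) (B (indLC M)))‖ := by
    intro γ hγ hγ₀
    refine le_trans ?_ (hLle γ _)
    rw [indLC_eq hγ, map_add]
    have h1 : ‖L γ (indLC (M \ {γ}))‖ ≤ variation (L γ) (M \ {γ}) :=
      le_variation _ (norm_indLC_le _) fun γ' hγ' => by rw [indLC_apply, if_neg hγ']
    have h2 := hMμ γ hγ
    have h3 : L γ (indLC {γ}) = ((‖ps ψ γ (D.b (j γ)) (D.ξ (D.k γ))‖ : ℝ) : ℂ) := by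
      rw [hL]
      show h γ (mapR (ev γ) (ψ (D.b (j γ)) (Bx (fun γ => D.ξ (D.k γ)) heb (indLC {γ})))) = _
      rw [Bx_ind]
      exact hh2 γ
    have h4 : ‖L γ (indLC {γ})‖ = ‖ps ψ γ (D.b (j γ)) (D.ξ (D.k γ))‖ := by
      rw [h3, Complex.norm_real, norm_norm]
    have h5 := (hj γ hγ₀).2
    have h6 : ‖L γ (indLC {γ})‖ - ‖L γ (indLC (M \ {γ}))‖ ≤
        ‖L γ (indLC {γ}) + L γ (indLC (M \ {γ}))‖ := by
      have := norm_sub_norm_le (L γ (indLC {γ})) (-(L γ (indLC (M \ {γ}))))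
      rwa [norm_neg, sub_neg_eq_add] at this
    linarith
  have hev : ∀ᶠ γ : Gam A in atTop, ∀ i ∈ J,
      ‖mapR (ev γ) (ψ (D.b i) (B (indLC M)))‖ < ε / 2 := by
    rw [Filter.eventually_all_finset]
    intro x _
    exact NormedAddGroup.tendsto_nhds_zero.1 (tendsto_mapR _) _ (by positivity)
  obtain ⟨γ₁, hγ₁⟩ := eventually_atTop.1 hev
  obtain ⟨γ, hγM, hγ⟩ := hM (Idx.node γ₀ γ₁)
  have g0 : γ₀ ≤ γ := (Idx.le_node_left γ₀ γ₁).trans hγ
  have g1 : γ₁ ≤ γ := (Idx.le_node_right γ₀ γ₁).trans hγ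
  have h1 := hγ₁ γ g1 (j γ) (hj γ g0).1
  have h2 := hlow γ hγM g0
  linarith

/-- the diagonal tensor -/
theorem exists_tensor (γ : ℕ → Gam A) (hγ : Function.Injective fun i => D.k (γ i)) (n : ℕ)
    (hn : n ≠ 0) :
    ∃ t : PT A (Z0 (Gam A) F), ‖t‖ ≤ ‖ψ‖ * D.K ∧
      ∀ i, i < n → mapR (ev (γ i)) t = D.om ψ (γ i) := by
  have hK := D.K_nonneg
  have hψ0 : 0 ≤ ‖ψ‖ := ContinuousLinearMap.opNorm_nonneg ψ
  have hγ' : Function.Injective γ := fun i j h => hγ (congrArg D.k h)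
  have heb : ∀ γ : Gam A, ‖(fun γ => D.ξ (D.k γ)) γ‖ ≤ 1 := fun γ => D.norm_ξ _
  refine exists_double_diag (fun i j => ψ (D.b (D.k (γ j))) (sg (γ i) (D.ξ (D.k (γ i))))) γ
    hγ' _ n hn fun c d hc hd => ?_
  have h1 : ∑ i ∈ Finset.range n, c i • ∑ j ∈ Finset.range n,
      d j • ψ (D.b (D.k (γ j))) (sg (γ i) (D.ξ (D.k (γ i)))) =
      ψ (∑ j ∈ Finset.range n, d j • D.b (D.k (γ j)))
        (∑ i ∈ Finset.range n, c i • sg (γ i) (D.ξ (D.k (γ i)))) := by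
    rw [map_sum]
    refine Finset.sum_congr rfl fun i _ => ?_
    rw [map_smul, map_sum, sum_apply]
    congr 1
    refine Finset.sum_congr rfl fun j _ => ?_
    rw [map_smul, smul_apply]
  rw [h1]
  refine (ψ.le_opNorm₂ _ _).trans ?_
  have h2 : ‖∑ j ∈ Finset.range n, d j • D.b (D.k (γ j))‖ ≤ D.K :=
    D.b_bound n (fun j => D.k (γ j)) hγ d hd
  have h3 : ‖∑ i ∈ Finset.range n, c i • sg (γ i) (D.ξ (D.k (γ i)))‖ ≤ 1 :=
    norm_sum_sg_le (fun γ => D.ξ (D.k γ)) heb γ hγ' c hc n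
  calc _ ≤ ‖ψ‖ * D.K * 1 := by
        refine mul_le_mul (mul_le_mul_of_nonneg_left h2 hψ0) h3 (norm_nonneg _) (by positivity)
    _ = _ := by ring

end NData

end CS

end Pool.Agent.MP_a77edb_an
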