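import Mathlib

/-!
# Homological dimensions of Banach algebras (definitions)

`A` is a complex Banach algebra, not assumed to have an identity.

* `LeftMod A` : Banach left `A`-modules (Banach spaces with a bounded bilinear associative action).
* `Bimod A`   : Banach `A`-bimodules.
* `IsProjective` : every morphism onto `P` that has a right inverse as a bounded linear map has a
  right inverse which is a morphism.
* `ProjRes X` : projective resolutions, i.e. complexes `0 ← X ← P 0 ← P 1 ← ...` of projective
  modules that split as complexes of Banach spaces.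
* `dh`, `dg`, `db` : homological dimension of a module, left global dimension and bidimension.
-/

set_option autoImplicit false

noncomputable section

namespace Pool.Agent.MP_a77edb_an

universe u

/-! ### Left modules -/

section Left

variable (A : Type u) [NonUnitalNormedRing A] [NormedSpace ℂ A]

/-- A Banach left module over the complex Banach algebra `A`: a complex Banach space with a bounded
bilinear map `act : A × X → X` such that `(ab)·x = a·(b·x)`. -/
structure LeftMod where
  /-- the underlying Banach space -/
  carrier : Type u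
  [instNormedAddCommGroup : NormedAddCommGroup carrier]
  [instNormedSpace : NormedSpace ℂ carrier]
  [instCompleteSpace : CompleteSpace carrier]
  /-- the outer multiplication `a·x` -/
  act : A →L[ℂ] carrier →L[ℂ] carrier
  act_mul : ∀ (a b : A) (x : carrier), act (a * b) x = act a (act b x)

end Left

namespace LeftMod

variable {A : Type u} [NonUnitalNormedRing A] [NormedSpace ℂ A]

instance : CoeSort (LeftMod A) (Type u) := ⟨LeftMod.carrier⟩

attribute [instance] LeftMod.instNormedAddCommGroup LeftMod.instNormedSpace
  LeftMod.instCompleteSpace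

/-- A morphism of Banach left modules: a bounded linear map commuting with the actions. -/
structure Hom (X Y : LeftMod A) where
  /-- the underlying bounded linear map -/
  toCLM : X →L[ℂ] Y
  map_act : ∀ (a : A) (x : X), toCLM (X.act a x) = Y.act a (toCLM x)

/-- `P` is projective: every morphism `f : Y → P` which has a right inverse as a bounded linear map
of Banach spaces has a right inverse which is a morphism. -/
def IsProjective (P : LeftMod A) : Prop :=
  ∀ (Y : LeftMod A) (f : Hom Y P), (∃ s : P →L[ℂ] Y, ∀ x, f.toCLM (s x) = x) →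
    ∃ g : Hom P Y, ∀ x, f.toCLM (g.toCLM x) = x

/-- A projective resolution `0 ← X ← P 0 ← P 1 ← ...`: a complex of left modules, all `P k` being
projective, together with bounded linear maps `s`, `h k` which split it as a complex of Banach
spaces. -/
structure ProjRes (X : LeftMod A) where
  /-- the modules of the resolution -/
  P : ℕ → LeftMod A
  proj : ∀ k, (P k).IsProjective
  /-- the augmentation -/
  ε : Hom (P 0) X
  /-- the differentials -/
  d : ∀ k, Hom (P (k + 1)) (P k)
  ε_d : ∀ y, ε.toCLM ((d 0).toCLM y) = 0
  d_d : ∀ k y, (d k).toCLM ((d (k + 1)).toCLM y) = 0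
  /-- contracting homotopy (bounded linear maps), in degree `-1` -/
  s : X →L[ℂ] P 0
  /-- contracting homotopy (bounded linear maps), in degrees `≥ 0` -/
  h : ∀ k, P k →L[ℂ] P (k + 1)
  ε_s : ∀ x, ε.toCLM (s x) = x
  split_zero : ∀ y, s (ε.toCLM y) + (d 0).toCLM (h 0 y) = y
  split_succ : ∀ k y, h k ((d k).toCLM y) + (d (k + 1)).toCLM (h (k + 1) y) = y

/-- The homological dimension `dh_A X`: the least `n` such that `X` has a projective resolution with
`P k = 0` for all `k > n`, and `⊤` if there is none. -/
def dh (X : LeftMod A) : ℕ∞ :=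
  ⨅ (n : ℕ) (_ : ∃ R : ProjRes X, ∀ k, n < k → Subsingleton (R.P k)), (n : ℕ∞)

end LeftMod

/-- The left global dimension `dg A`: the supremum of `dh_A X` over all Banach left modules `X`. -/
def dg (A : Type u) [NonUnitalNormedRing A] [NormedSpace ℂ A] : ℕ∞ :=
  ⨆ X : LeftMod A, X.dh

/-! ### Bimodules -/

section Bi

variable (A : Type u) [NonUnitalNormedRing A] [NormedSpace ℂ A]

/-- A Banach `A`-bimodule: a complex Banach space with bounded bilinear maps `act a x = a·x` and
`ract a x = x·a` such that `(ab)·x = a·(b·x)`, `x·(ab) = (x·a)·b` and `a·(x·b) = (a·x)·b`. -/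
structure Bimod where
  /-- the underlying Banach space -/
  carrier : Type u
  [instNormedAddCommGroup : NormedAddCommGroup carrier]
  [instNormedSpace : NormedSpace ℂ carrier]
  [instCompleteSpace : CompleteSpace carrier]
  /-- the left outer multiplication `a·x` -/
  act : A →L[ℂ] carrier →L[ℂ] carrier
  /-- the right outer multiplication: `ract a x` is `x·a` -/
  ract : A →L[ℂ] carrier →L[ℂ] carrier
  act_mul : ∀ (a b : A) (x : carrier), act (a * b) x = act a (act b x)
  ract_mul : ∀ (a b : A) (x : carrier), ract (a * b) x = ract b (ract a x)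
  act_ract : ∀ (a b : A) (x : carrier), act a (ract b x) = ract b (act a x)

end Bi

namespace Bimod

variable {A : Type u} [NonUnitalNormedRing A] [NormedSpace ℂ A]

instance : CoeSort (Bimod A) (Type u) := ⟨Bimod.carrier⟩

attribute [instance] Bimod.instNormedAddCommGroup Bimod.instNormedSpace
  Bimod.instCompleteSpace

/-- A morphism of Banach bimodules. -/
structure Hom (X Y : Bimod A) where
  /-- the underlying bounded linear map -/
  toCLM : X →L[ℂ] Y
  map_act : ∀ (a : A) (x : X), toCLM (X.act a x) = Y.act a (toCLM x)
  map_ract : ∀ (a : A) (x : X), toCLM (X.ract a x) = Y.ract a (toCLM x)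

/-- `P` is projective: every morphism `f : Y → P` of bimodules which has a right inverse as a
bounded linear map of Banach spaces has a right inverse which is a morphism. -/
def IsProjective (P : Bimod A) : Prop :=
  ∀ (Y : Bimod A) (f : Hom Y P), (∃ s : P →L[ℂ] Y, ∀ x, f.toCLM (s x) = x) →
    ∃ g : Hom P Y, ∀ x, f.toCLM (g.toCLM x) = x

/-- A projective resolution in the category of bimodules (see `LeftMod.ProjRes`). -/
structure ProjRes (X : Bimod A) where
  /-- the modules of the resolution -/
  P : ℕ → Bimod A
  proj : ∀ k, (P k).IsProjective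
  /-- the augmentation -/
  ε : Hom (P 0) X
  /-- the differentials -/
  d : ∀ k, Hom (P (k + 1)) (P k)
  ε_d : ∀ y, ε.toCLM ((d 0).toCLM y) = 0
  d_d : ∀ k y, (d k).toCLM ((d (k + 1)).toCLM y) = 0
  /-- contracting homotopy (bounded linear maps), in degree `-1` -/
  s : X →L[ℂ] P 0
  /-- contracting homotopy (bounded linear maps), in degrees `≥ 0` -/
  h : ∀ k, P k →L[ℂ] P (k + 1)
  ε_s : ∀ x, ε.toCLM (s x) = x
  split_zero : ∀ y, s (ε.toCLM y) + (d 0).toCLM (h 0 y) = y
  split_succ : ∀ k y, h k ((d k).toCLM y) + (d (k + 1)).toCLM (h (k + 1) y) = y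

/-- The homological dimension `dh_{A-A} X` of a bimodule. -/
def dh (X : Bimod A) : ℕ∞ :=
  ⨅ (n : ℕ) (_ : ∃ R : ProjRes X, ∀ k, n < k → Subsingleton (R.P k)), (n : ℕ∞)

end Bimod

/-- The unitization `A₊` with the norm `‖λ + a‖ = |λ| + ‖a‖`, as a Banach `A`-bimodule
(multiplication in `A₊` on both sides). -/
def unitizationBimod (A : Type u) [NonUnitalNormedRing A] [NormedSpace ℂ A]
    [IsScalarTower ℂ A A] [SMulCommClass ℂ A A] [CompleteSpace A] : Bimod A where
  carrier := WithLp 1 (Unitization ℂ A)
  act := LinearMap.mkContinuous₂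
    (LinearMap.mk₂ ℂ (fun (a : A) (x : WithLp 1 (Unitization ℂ A)) =>
        WithLp.toLp 1 (a : Unitization ℂ A) * x)
      (fun a b x => by
        rw [← add_mul, Unitization.inr_add]; rfl)
      (fun c a x => by
        rw [← smul_mul_assoc, Unitization.inr_smul]; rfl)
      (fun a x y => mul_add _ _ _)
      (fun c a x => mul_smul_comm _ _ _)) 1
    (fun a x => by
      rw [one_mul]
      refine (norm_mul_le _ _).trans (le_of_eq ?_)
      rw [WithLp.unitization_norm_inr])
  ract := LinearMap.mkContinuous₂
    (LinearMap.mk₂ ℂ (fun (a : A) (x : WithLp 1 (Unitization ℂ A)) =>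
        x * WithLp.toLp 1 (a : Unitization ℂ A))
      (fun a b x => by
        rw [← mul_add, Unitization.inr_add]; rfl)
      (fun c a x => by
        rw [← mul_smul_comm, Unitization.inr_smul]; rfl)
      (fun a x y => add_mul _ _ _)
      (fun c a x => smul_mul_assoc _ _ _)) 1
    (fun a x => by
      rw [one_mul]
      refine (norm_mul_le _ _).trans (le_of_eq ?_)
      rw [WithLp.unitization_norm_inr, mul_comm])
  act_mul := fun a b x => by
    simp only [LinearMap.mkContinuous₂_apply, LinearMap.mk₂_apply]
    rw [Unitization.inr_mul, ← mul_assoc]; rfl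
  ract_mul := fun a b x => by
    simp only [LinearMap.mkContinuous₂_apply, LinearMap.mk₂_apply]
    rw [Unitization.inr_mul, mul_assoc]; rfl
  act_ract := fun a b x => by
    simp only [LinearMap.mkContinuous₂_apply, LinearMap.mk₂_apply]
    rw [mul_assoc]

/-- The bidimension `db A = dh_{A-A} A₊`. -/
def db (A : Type u) [NonUnitalNormedRing A] [NormedSpace ℂ A]
    [IsScalarTower ℂ A A] [SMulCommClass ℂ A A] [CompleteSpace A] : ℕ∞ :=
  (unitizationBimod A).dh

/-- `A` is radical: it equals its Jacobson radical, i.e. the Jacobson radical of the unitization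
contains `A`. -/
def IsRadicalAlgebra (A : Type u) [NonUnitalNormedRing A] [NormedSpace ℂ A]
    [IsScalarTower ℂ A A] [SMulCommClass ℂ A A] : Prop :=
  ∀ a : A, (a : Unitization ℂ A) ∈ Ring.jacobson (Unitization ℂ A)

end Pool.Agent.MP_a77edb_an
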