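import Pool.Agent.MP_a77edb_an.HomDim
import Pool.Agent.MP_a77edb_an.Defs

/-!
# Comparison of the two versions of the definitions
-/

set_option autoImplicit false

noncomputable section

namespace Pool.Agent.MP_a77edb_an

universe u

section Left

variable {A : Type u} [NonUnitalNormedRing A] [NormedSpace ℂ A]

/-- From the plain version to the bundled version. -/
def toLeft (X : HomDim.LMod A) : LeftMod A where
  carrier := X.carrier
  act := X.bilinear.toContinuousLinearMap
  act_mul := X.mul_act

/-- From the bundled version to the plain version. -/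
def ofLeft (X : LeftMod A) : HomDim.LMod A where
  carrier := X.carrier
  act := fun a x => X.act a x
  bilinear := X.act.isBoundedBilinearMap
  mul_act := X.act_mul

theorem ofLeft_toLeft (X : HomDim.LMod A) : ofLeft (toLeft X) = X := rfl

/-- Morphisms. -/
def homOf {X Y : LeftMod A} {f : X → Y} (hf : HomDim.LMod.IsHom (ofLeft X) (ofLeft Y) f) :
    LeftMod.Hom X Y where
  toCLM := hf.1.toContinuousLinearMap
  map_act := hf.2

theorem isHom_of {X Y : LeftMod A} (f : LeftMod.Hom X Y) :
    HomDim.LMod.IsHom (ofLeft X) (ofLeft Y) f.toCLM := ⟨f.toCLM.isBoundedLinearMap, f.map_act⟩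

theorem isProjective_ofLeft_iff (P : LeftMod A) :
    (ofLeft P).IsProjective ↔ P.IsProjective := by
  constructor
  · intro h Y f hs
    obtain ⟨s, hs⟩ := hs
    obtain ⟨g, hg, hg'⟩ := h (ofLeft Y) f.toCLM (isHom_of f) ⟨s, s.isBoundedLinearMap, hs⟩
    exact ⟨homOf (X := P) (Y := Y) hg, hg'⟩
  · intro h Y f hf hs
    obtain ⟨s, hs, hs'⟩ := hs
    obtain ⟨g, hg⟩ := h (toLeft Y) (homOf (X := toLeft Y) (Y := P) hf)
      ⟨hs.toContinuousLinearMap, hs'⟩
    exact ⟨g.toCLM, isHom_of g, hg⟩

theorem dh_ofLeft (X : LeftMod A) : (ofLeft X).dh = X.dh := by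
  refine le_antisymm ?_ ?_
  · refine le_iInf₂ fun n hn => ?_
    obtain ⟨R, hR⟩ := hn
    refine iInf₂_le n ⟨?_, ?_⟩
    · exact
      { P := fun k => ofLeft (R.P k)
        proj := fun k => (isProjective_ofLeft_iff _).2 (R.proj k)
        ε := R.ε.toCLM
        d := fun k => (R.d k).toCLM
        s := R.s
        h := fun k => R.h k
        hom_ε := isHom_of R.ε
        hom_d := fun k => isHom_of (R.d k)
        bdd_s := R.s.isBoundedLinearMap
        bdd_h := fun k => (R.h k).isBoundedLinearMap
        ε_d := R.ε_d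
        d_d := R.d_d
        ε_s := R.ε_s
        split_zero := R.split_zero
        split_succ := R.split_succ }
    · exact hR
  · refine le_iInf₂ fun n hn => ?_
    obtain ⟨R, hR⟩ := hn
    refine iInf₂_le n ⟨?_, ?_⟩
    · exact
      { P := fun k => toLeft (R.P k)
        proj := fun k => (isProjective_ofLeft_iff _).1 (R.proj k)
        ε := homOf (X := toLeft (R.P 0)) (Y := X) R.hom_ε
        d := fun k => homOf (X := toLeft (R.P (k + 1))) (Y := toLeft (R.P k)) (R.hom_d k)
        s := R.bdd_s.toContinuousLinearMap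
        h := fun k => (R.bdd_h k).toContinuousLinearMap
        ε_d := R.ε_d
        d_d := R.d_d
        ε_s := R.ε_s
        split_zero := R.split_zero
        split_succ := R.split_succ }
    · exact hR

theorem dg_eq : HomDim.dg A = dg A := by
  refine le_antisymm (iSup_le fun X => ?_) (iSup_le fun X => ?_)
  · rw [← ofLeft_toLeft X, dh_ofLeft]
    exact le_iSup (fun X : LeftMod A => X.dh) _
  · rw [← dh_ofLeft]
    exact le_iSup (fun X : HomDim.LMod A => X.dh) _

end Left

section Bi

variable {A : Type u} [NonUnitalNormedRing A] [NormedSpace ℂ A]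

/-- From the plain version to the bundled version. -/
def toBi (X : HomDim.BMod A) : Bimod A where
  carrier := X.carrier
  act := X.act_bilinear.toContinuousLinearMap
  ract := X.ract_bilinear.toContinuousLinearMap.flip
  act_mul := X.mul_act
  ract_mul := fun a b x => X.ract_mul x a b
  act_ract := fun a b x => (X.act_ract a x b).symm

/-- From the bundled version to the plain version. -/
def ofBi (X : Bimod A) : HomDim.BMod A where
  carrier := X.carrier
  act := fun a x => X.act a x
  ract := fun x a => X.ract a x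
  act_bilinear := X.act.isBoundedBilinearMap
  ract_bilinear := X.ract.flip.isBoundedBilinearMap
  mul_act := X.act_mul
  ract_mul := fun x a b => X.ract_mul a b x
  act_ract := fun a x b => (X.act_ract a b x).symm

theorem ofBi_toBi (X : HomDim.BMod A) : ofBi (toBi X) = X := rfl

/-- Morphisms. -/
def homOfBi {X Y : Bimod A} {f : X → Y} (hf : HomDim.BMod.IsHom (ofBi X) (ofBi Y) f) :
    Bimod.Hom X Y where
  toCLM := hf.1.toContinuousLinearMap
  map_act := hf.2.1
  map_ract := fun a x => hf.2.2 x a

theorem isHom_ofBi {X Y : Bimod A} (f : Bimod.Hom X Y) :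
    HomDim.BMod.IsHom (ofBi X) (ofBi Y) f.toCLM :=
  ⟨f.toCLM.isBoundedLinearMap, f.map_act, fun x a => f.map_ract a x⟩

theorem isProjective_ofBi_iff (P : Bimod A) :
    (ofBi P).IsProjective ↔ P.IsProjective := by
  constructor
  · intro h Y f hs
    obtain ⟨s, hs⟩ := hs
    obtain ⟨g, hg, hg'⟩ := h (ofBi Y) f.toCLM (isHom_ofBi f) ⟨s, s.isBoundedLinearMap, hs⟩
    exact ⟨homOfBi (X := P) (Y := Y) hg, hg'⟩
  · intro h Y f hf hs
    obtain ⟨s, hs, hs'⟩ := hs
    obtain ⟨g, hg⟩ := h (toBi Y) (homOfBi (X := toBi Y) (Y := P) hf)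
      ⟨hs.toContinuousLinearMap, hs'⟩
    exact ⟨g.toCLM, isHom_ofBi g, hg⟩

theorem dh_ofBi (X : Bimod A) : (ofBi X).dh = X.dh := by
  refine le_antisymm ?_ ?_
  · refine le_iInf₂ fun n hn => ?_
    obtain ⟨R, hR⟩ := hn
    refine iInf₂_le n ⟨?_, ?_⟩
    · exact
      { P := fun k => ofBi (R.P k)
        proj := fun k => (isProjective_ofBi_iff _).2 (R.proj k)
        ε := R.ε.toCLM
        d := fun k => (R.d k).toCLM
        s := R.s
        h := fun k => R.h k
        hom_ε := isHom_ofBi R.ε
        hom_d := fun k => isHom_ofBi (R.d k)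
        bdd_s := R.s.isBoundedLinearMap
        bdd_h := fun k => (R.h k).isBoundedLinearMap
        ε_d := R.ε_d
        d_d := R.d_d
        ε_s := R.ε_s
        split_zero := R.split_zero
        split_succ := R.split_succ }
    · exact hR
  · refine le_iInf₂ fun n hn => ?_
    obtain ⟨R, hR⟩ := hn
    refine iInf₂_le n ⟨?_, ?_⟩
    · exact
      { P := fun k => toBi (R.P k)
        proj := fun k => (isProjective_ofBi_iff _).1 (R.proj k)
        ε := homOfBi (X := toBi (R.P 0)) (Y := X) R.hom_ε
        d := fun k => homOfBi (X := toBi (R.P (k + 1))) (Y := toBi (R.P k)) (R.hom_d k)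
        s := R.bdd_s.toContinuousLinearMap
        h := fun k => (R.bdd_h k).toContinuousLinearMap
        ε_d := R.ε_d
        d_d := R.d_d
        ε_s := R.ε_s
        split_zero := R.split_zero
        split_succ := R.split_succ }
    · exact hR

variable [IsScalarTower ℂ A A] [SMulCommClass ℂ A A] [CompleteSpace A]

theorem ofBi_unitization : ofBi (unitizationBimod A) = HomDim.unitizationBMod A := rfl

theorem db_eq : HomDim.db A = db A := by
  rw [HomDim.db, db, ← ofBi_unitization, dh_ofBi]

end Bi

end Pool.Agent.MP_a77edb_an
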