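import Pool.Agent.MP_a77edb_an.CQuasi

/-!
# Almost intertwining operators between two representations
-/

set_option autoImplicit false
set_option linter.unusedSectionVars false

noncomputable section

namespace Pool.Agent.MP_a77edb_an

universe u v w

open ContinuousLinearMap Filter Topology
open scoped InnerProductSpace

namespace CS

section

variable {B : Type u} [Ring B] [StarRing B] [Algebra ℂ B]
variable {E : Type v} [NormedAddCommGroup E] [InnerProductSpace ℂ E] [CompleteSpace E]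
variable {F : Type w} [NormedAddCommGroup F] [InnerProductSpace ℂ F] [CompleteSpace F]

theorem exists_lin_section (Λ : B →ₗ[ℂ] F) :
    ∃ s : F →ₗ[ℂ] B, ∀ b, Λ (s (Λ b)) = Λ b := by
  obtain ⟨s, hs⟩ := Λ.rangeRestrict.exists_rightInverse_of_surjective Λ.range_rangeRestrict
  obtain ⟨s', hs'⟩ := s.exists_extend
  refine ⟨s', fun b => ?_⟩
  have h1 : s' (Λ b) = s (Λ.rangeRestrict b) := congrArg (fun T => T (Λ.rangeRestrict b)) hs'
  have h2 : Λ.rangeRestrict (s (Λ.rangeRestrict b)) = Λ.rangeRestrict b :=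
    congrArg (fun T => T (Λ.rangeRestrict b)) hs
  rw [h1]
  exact congrArg Subtype.val h2

theorem exists_approx_eventually (π : B →⋆ₐ[ℂ] (E →L[ℂ] E)) (ρ : B →⋆ₐ[ℂ] (F →L[ℂ] F))
    (ξ : ℕ → E) (ξi : F) {l : Filter ℕ}
    (hlim : ∀ c : B, Tendsto (fun k => ⟪ξ k, π c (ξ k)⟫_ℂ) l (𝓝 ⟪ξi, ρ c ξi⟫_ℂ))
    (S : Finset B) {ε : ℝ} (hε : 0 < ε) :
    ∀ᶠ k in l, ∃ y : F →L[ℂ] E, ‖y‖ ≤ 2 ∧ (∀ a ∈ S, ‖(π a).comp y - y.comp (ρ a)‖ ≤ ε) ∧
      ∀ f, ‖⟪ξ k, y f⟫_ℂ - ⟪ξi, f⟫_ℂ‖ ≤ ε * ‖f‖ := by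
  classical
  -- the subspaces
  let V : Submodule ℂ B := Submodule.span ℂ ((insert 1 (S ∪ S.image star) : Finset B) : Set B)
  have hV1 : (1 : B) ∈ V := Submodule.subset_span (by simp)
  have hVS : ∀ a ∈ S, a ∈ V := fun a ha => Submodule.subset_span (by simp [ha])
  have hVS' : ∀ a ∈ S, star a ∈ V := fun a ha => Submodule.subset_span (by
    simp only [Finset.coe_insert, Finset.coe_union, Finset.coe_image]
    exact Or.inr (Or.inr ⟨a, ha, rfl⟩))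
  have hVfg : V.FG := ⟨_, rfl⟩
  let Λ : B →ₗ[ℂ] F := ((ContinuousLinearMap.apply ℂ F ξi : (F →L[ℂ] F) →L[ℂ] F) :
    (F →L[ℂ] F) →ₗ[ℂ] F) ∘ₗ (ρ.toAlgHom.toLinearMap)
  have hΛ : ∀ b, Λ b = ρ b ξi := fun b => rfl
  have hΛ1 : Λ 1 = ξi := by rw [hΛ, map_one]; rfl
  have hΛm : ∀ a b, ρ a (Λ b) = Λ (a * b) := fun a b => by
    rw [hΛ, hΛ, map_mul]; rfl
  let G : ℕ → Submodule ℂ F := fun n => (V ^ n).map Λ
  have hGfin : ∀ n, FiniteDimensional ℂ (G n) := fun n => by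
    have h1 : (G n).FG := (hVfg.pow n).map Λ
    exact Module.Finite.iff_fg.2 h1
  have hVmul : ∀ a ∈ V, ∀ n, ∀ v ∈ V ^ n, a * v ∈ V ^ (n + 1) := fun a ha n v hv => by
    rw [pow_succ']
    exact Submodule.mul_mem_mul ha hv
  have hGmul : ∀ a ∈ V, ∀ n, ∀ g ∈ G n, ρ a g ∈ G (n + 1) := by
    rintro a ha n _ ⟨v, hv, rfl⟩
    rw [hΛm]
    exact ⟨a * v, hVmul a ha n v hv, rfl⟩
  have hGle : ∀ n, ∀ g ∈ G n, g ∈ G (n + 1) := by
    rintro n _ ⟨v, hv, rfl⟩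
    refine ⟨v, ?_, rfl⟩
    have := hVmul 1 hV1 n v hv
    rwa [one_mul] at this
  have hGmono : Monotone G := monotone_nat_of_le_succ fun n => hGle n
  have hξG : ∀ n, ξi ∈ G n := by
    intro n
    refine hGmono (Nat.zero_le n) ⟨1, ?_, hΛ1⟩
    rw [pow_zero]
    exact Submodule.one_le.1 le_rfl
  have hGΛ : ∀ n, ∀ g ∈ G n, ∃ b, Λ b = g := by
    rintro n _ ⟨v, hv, rfl⟩
    exact ⟨v, rfl⟩
  -- the projections
  let P : ℕ → (F →L[ℂ] F) := fun n => (G n).starProjection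
  have hPmem : ∀ n u, P n u ∈ G n := fun n u => Submodule.starProjection_apply_mem _ _
  have hPeq : ∀ n u, u ∈ G n → P n u = u := fun n u hu =>
    Submodule.starProjection_eq_self_iff.2 hu
  have hPn : ∀ n u, ‖P n u‖ ≤ ‖u‖ := fun n u => Submodule.norm_starProjection_apply_le _ _
  have hPsa : ∀ n u v, ⟪P n u, v⟫_ℂ = ⟪u, P n v⟫_ℂ := fun n u v =>
    Submodule.inner_starProjection_left_eq_right _ _ _
  -- the number of steps
  obtain ⟨R, hR0, hR⟩ : ∃ R : ℝ, 0 ≤ R ∧ ∀ a ∈ S, ‖ρ a‖ ≤ R :=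
    ⟨∑ a ∈ S, ‖ρ a‖, Finset.sum_nonneg fun _ _ => norm_nonneg _, fun a ha =>
      Finset.single_le_sum (f := fun a => ‖ρ a‖) (fun _ _ => norm_nonneg _) ha⟩
  obtain ⟨m₀, hm₀⟩ := exists_nat_gt (8 * R / ε)
  obtain ⟨m, hm⟩ : ∃ m, m = m₀ + 1 := ⟨_, rfl⟩
  have hmpos : (0 : ℝ) < m := by rw [hm]; push_cast; positivity
  have hmR : 8 * R < m * ε := by
    rw [div_lt_iff₀ hε] at hm₀
    have : (m₀ : ℝ) ≤ m := by rw [hm]; push_cast; linarith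
    nlinarith
  -- the averages
  let e : F →L[ℂ] F := (m : ℂ)⁻¹ • ∑ n ∈ Finset.range m, P (n + 1)
  have he : ∀ f, e f = (m : ℂ)⁻¹ • ∑ n ∈ Finset.range m, P (n + 1) f := fun f => by
    show ((m : ℂ)⁻¹ • ∑ n ∈ Finset.range m, P (n + 1)) f = _
    rw [smul_apply, sum_apply]
  have heG : ∀ f, e f ∈ G m := fun f => by
    rw [he]
    refine Submodule.smul_mem _ _ (Submodule.sum_mem _ fun n hn => ?_)
    have : n + 1 ≤ m := by
      have := Finset.mem_range.1 hn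
      omega
    exact hGmono this (hPmem _ _)
  have hmn : ‖(m : ℂ)⁻¹‖ = (m : ℝ)⁻¹ := by
    rw [norm_inv, Complex.norm_natCast]
  have hen : ∀ f, ‖e f‖ ≤ ‖f‖ := fun f => by
    rw [he, norm_smul, hmn]
    have h1 : ‖∑ n ∈ Finset.range m, P (n + 1) f‖ ≤ m * ‖f‖ := by
      refine (norm_sum_le _ _).trans ?_
      refine (Finset.sum_le_sum fun n _ => hPn (n + 1) f).trans ?_
      rw [Finset.sum_const, Finset.card_range, nsmul_eq_mul]
    calc (m : ℝ)⁻¹ * ‖∑ n ∈ Finset.range m, P (n + 1) f‖ ≤ (m : ℝ)⁻¹ * (m * ‖f‖) := by gcongr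
      _ = ‖f‖ := by field_simp
  have heξ : ∀ f, ⟪ξi, e f⟫_ℂ = ⟪ξi, f⟫_ℂ := fun f => by
    rw [he, inner_smul_right, inner_sum]
    have h1 : ∀ n ∈ Finset.range m, ⟪ξi, P (n + 1) f⟫_ℂ = ⟪ξi, f⟫_ℂ := fun n _ => by
      rw [← hPsa, hPeq _ _ (hξG _)]
    rw [Finset.sum_congr rfl h1, Finset.sum_const, Finset.card_range, nsmul_eq_mul]
    have : (m : ℂ) ≠ 0 := by exact_mod_cast hmpos.ne'
    field_simp
  have hecomm : ∀ a ∈ S, ∀ f, ‖ρ a (e f) - e (ρ a f)‖ ≤ ε / 4 * ‖f‖ := by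
    intro a ha f
    have hadj : adjoint (ρ a) = ρ (star a) := by
      rw [map_star]; rfl
    have h1 := comm_bound P (ρ a) hPsa (fun n u => hPeq _ _ (hGle n _ (hPmem n u)))
      (fun n u => hPeq _ _ (hPmem n u)) hPn
      (fun n u => hPeq _ _ (hGmul a (hVS a ha) n _ (hPmem n u)))
      (fun n u => by
        rw [hadj]
        exact hPeq _ _ (hGmul (star a) (hVS' a ha) n _ (hPmem n u))) m f
    have h2 : ρ a (e f) - e (ρ a f) = (m : ℂ)⁻¹ • (ρ a (∑ n ∈ Finset.range m, P (n + 1) f) -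
        ∑ n ∈ Finset.range m, P (n + 1) (ρ a f)) := by
      rw [he, he, map_smul, smul_sub]
    rw [h2, norm_smul, hmn]
    have h3 : 2 * ‖ρ a‖ * ‖f‖ ≤ m * (ε / 4 * ‖f‖) := by
      have := hR a ha
      have h4 : 2 * ‖ρ a‖ ≤ m * (ε / 4) := by linarith
      calc 2 * ‖ρ a‖ * ‖f‖ ≤ (m * (ε / 4)) * ‖f‖ := by gcongr
        _ = _ := by ring
    calc (m : ℝ)⁻¹ * ‖ρ a (∑ n ∈ Finset.range m, P (n + 1) f) -
        ∑ n ∈ Finset.range m, P (n + 1) (ρ a f)‖ ≤ (m : ℝ)⁻¹ * (m * (ε / 4 * ‖f‖)) := by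
          gcongr
          exact h1.trans h3
      _ = _ := by field_simp
  -- the maps `u k`
  obtain ⟨s, hs⟩ := exists_lin_section Λ
  let u : ℕ → (F →ₗ[ℂ] E) := fun k =>
    ((ContinuousLinearMap.apply ℂ E (ξ k) : (E →L[ℂ] E) →L[ℂ] E) :
    (E →L[ℂ] E) →ₗ[ℂ] E) ∘ₗ (π.toAlgHom.toLinearMap) ∘ₗ s
  have hu : ∀ k f, u k f = π (s f) (ξ k) := fun k f => rfl
  have hsG : ∀ n, ∀ g ∈ G n, ρ (s g) ξi = g := by
    intro n g hg
    obtain ⟨b, rfl⟩ := hGΛ n g hg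
    exact hs b
  have hin : ∀ c d : B, Tendsto (fun k => ⟪π c (ξ k), π d (ξ k)⟫_ℂ) l
      (𝓝 ⟪ρ c ξi, ρ d ξi⟫_ℂ) := by
    intro c d
    have h1 := hlim (star c * d)
    have h2 : ∀ k, ⟪ξ k, π (star c * d) (ξ k)⟫_ℂ = ⟪π c (ξ k), π d (ξ k)⟫_ℂ := fun k => by
      rw [map_mul, map_star]
      show ⟪ξ k, (star (π c)) (π d (ξ k))⟫_ℂ = _
      rw [ContinuousLinearMap.star_eq_adjoint, adjoint_inner_right]
    have h3 : ⟪ξi, ρ (star c * d) ξi⟫_ℂ = ⟪ρ c ξi, ρ d ξi⟫_ℂ := by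
      rw [map_mul, map_star]
      show ⟪ξi, (star (ρ c)) (ρ d ξi)⟫_ℂ = _
      rw [ContinuousLinearMap.star_eq_adjoint, adjoint_inner_right]
    rw [h3] at h1
    exact h1.congr h2
  have hzero : ∀ d : B, ρ d ξi = 0 → Tendsto (fun k => π d (ξ k)) l (𝓝 0) := by
    intro d hd
    have h1 := hin d d
    rw [hd, inner_zero_left] at h1
    rw [tendsto_zero_iff_norm_tendsto_zero]
    have h2 : Tendsto (fun k => ‖π d (ξ k)‖ ^ 2) l (𝓝 0) := by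
      have h3 := h1.norm
      rw [norm_zero] at h3
      refine h3.congr fun k => ?_
      rw [inner_self_eq_norm_sq_to_K]
      simp
    have h3 := h2.sqrt
    rw [Real.sqrt_zero] at h3
    refine h3.congr fun k => ?_
    rw [Real.sqrt_sq (norm_nonneg _)]
  have f1 : ∀ᶠ k in l, ∀ g ∈ G (m + 1), ‖u k g‖ ≤ 2 * ‖g‖ := by
    refine eventually_norm_le_two (G (m + 1)) u fun g hg h hh => ?_
    have h1 := hin (s g) (s h)
    rw [hsG _ g hg, hsG _ h hh] at h1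
    exact h1
  have f2 : ∀ᶠ k in l, ∀ a ∈ S, ∀ g ∈ G m, ‖u k (ρ a g) - π a (u k g)‖ ≤ ε / 2 * ‖g‖ := by
    rw [Filter.eventually_all_finset]
    intro a ha
    refine eventually_le_of_finite (G m) (fun k => (u k) ∘ₗ ((ρ a : F →L[ℂ] F) : F →ₗ[ℂ] F) -
      ((π a : E →L[ℂ] E) : E →ₗ[ℂ] E) ∘ₗ (u k)) (fun g hg => ?_) (by positivity)
    have h1 : ρ (s (ρ a g) - a * s g) ξi = 0 := by
      rw [map_sub, map_mul]
      show ρ (s (ρ a g)) ξi - ρ a (ρ (s g) ξi) = 0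
      rw [hsG (m + 1) _ (hGmul a (hVS a ha) m g hg), hsG m g hg, sub_self]
    refine (hzero _ h1).congr fun k => ?_
    show π (s (ρ a g) - a * s g) (ξ k) = u k (ρ a g) - π a (u k g)
    rw [map_sub, map_mul]
    rfl
  have f3 : ∀ᶠ k in l, ∀ g ∈ G m, ‖⟪ξ k, u k g⟫_ℂ - ⟪ξi, g⟫_ℂ‖ ≤ ε * ‖g‖ := by
    refine eventually_le_of_finite (G m) (fun k => ((innerₛₗ ℂ (ξ k)) ∘ₗ (u k)) -
      (innerₛₗ ℂ ξi)) (fun g hg => ?_) hε
    have h1 := (hlim (s g)).sub_const ⟪ξi, g⟫_ℂ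
    rw [hsG _ g hg, sub_self] at h1
    exact h1
  filter_upwards [f1, f2, f3] with k h1 h2 h3
  have hb : ∀ f, ‖(u k ∘ₗ (e : F →ₗ[ℂ] F)) f‖ ≤ 2 * ‖f‖ := fun f => by
    show ‖u k (e f)‖ ≤ _
    refine (h1 _ (hGle m _ (heG f))).trans ?_
    have := hen f
    linarith
  refine ⟨LinearMap.mkContinuous (u k ∘ₗ (e : F →ₗ[ℂ] F)) 2 hb,
    LinearMap.mkContinuous_norm_le _ (by norm_num) _, fun a ha => ?_, fun f => ?_⟩
  · refine ContinuousLinearMap.opNorm_le_bound _ hε.le fun f => ?_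
    show ‖π a (u k (e f)) - u k (e (ρ a f))‖ ≤ ε * ‖f‖
    have e1 : π a (u k (e f)) - u k (e (ρ a f)) =
        -(u k (ρ a (e f)) - π a (u k (e f))) + u k (ρ a (e f) - e (ρ a f)) := by
      rw [map_sub]
      abel
    rw [e1]
    refine (norm_add_le _ _).trans ?_
    rw [norm_neg]
    have e2 : ‖u k (ρ a (e f)) - π a (u k (e f))‖ ≤ ε / 2 * ‖f‖ := by
      refine (h2 a ha _ (heG f)).trans ?_
      have := hen f
      gcongr
    have e3 : ‖u k (ρ a (e f) - e (ρ a f))‖ ≤ ε / 2 * ‖f‖ := by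
      refine (h1 _ (Submodule.sub_mem _ (hGmul a (hVS a ha) m _ (heG f))
        (hGle m _ (heG _)))).trans ?_
      have := hecomm a ha f
      linarith
    linarith
  · show ‖⟪ξ k, u k (e f)⟫_ℂ - ⟪ξi, f⟫_ℂ‖ ≤ ε * ‖f‖
    rw [← heξ f]
    refine (h3 _ (heG f)).trans ?_
    have := hen f
    gcongr

end

end CS

end Pool.Agent.MP_a77edb_an
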