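import Pool.Agent.MP_a77edb_an.Radical4

/-!
# Close dyadic blocks, Hilbert space version
-/

set_option autoImplicit false
set_option linter.unusedSectionVars false

noncomputable section

namespace Pool.Agent.MP_a77edb_an

universe u v w

namespace CS

/-- The parallelogram identity in the form which is used below. -/
def Par (G : Type v) [NormedAddCommGroup G] [NormedSpace ℂ G] : Prop :=
  ∀ x y : G, ‖(1 / 2 : ℂ) • (x + y)‖ ^ 2 = (‖x‖ ^ 2 + ‖y‖ ^ 2) / 2 - ‖x - y‖ ^ 2 / 4

/-- The dual of a Hilbert space satisfies the parallelogram identity. -/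
theorem par_dual (F : Type v) [NormedAddCommGroup F] [InnerProductSpace ℂ F] [CompleteSpace F] :
    Par (F →L[ℂ] ℂ) := by
  intro x y
  obtain ⟨x, rfl⟩ := (InnerProductSpace.toDual ℂ F).surjective x
  obtain ⟨y, rfl⟩ := (InnerProductSpace.toDual ℂ F).surjective y
  have h1 : ‖(InnerProductSpace.toDual ℂ F) x + (InnerProductSpace.toDual ℂ F) y‖ = ‖x + y‖ := by
    rw [← map_add, LinearIsometryEquiv.norm_map]
  have h2 : ‖(InnerProductSpace.toDual ℂ F) x - (InnerProductSpace.toDual ℂ F) y‖ = ‖x - y‖ := by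
    rw [← map_sub, LinearIsometryEquiv.norm_map]
  have h3 : ‖(InnerProductSpace.toDual ℂ F) x‖ = ‖x‖ := LinearIsometryEquiv.norm_map _ _
  have h4 : ‖(InnerProductSpace.toDual ℂ F) y‖ = ‖y‖ := LinearIsometryEquiv.norm_map _ _
  have h5 : ‖(1 / 2 : ℂ)‖ = 1 / 2 := by simp
  have h := parallelogram_law_with_norm ℂ x y
  rw [norm_smul, h5]
  erw [h1, h2, h3, h4]
  nlinarith

/-- For bounded families of vectors in Hilbert spaces with summable weights, there are two
consecutive dyadic blocks with almost the same averages. -/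
theorem exists_close_blocks {G : Type v} [NormedAddCommGroup G] [NormedSpace ℂ G] (hG : Par G)
    {ι : Type w} (α : ι → ℝ) (hα0 : ∀ i, 0 ≤ α i) (hα : Summable α) {C : ℝ}
    (hαC : ∑' i, α i ≤ C) (w : ι → ℕ → G) (hw : ∀ i j, ‖w i j‖ ≤ 1)
    {t : ℝ} (ht : 0 < t) (m : ℕ) (hm : 4 * C < m * t ^ 2) :
    ∃ l s, l < m ∧ s + 2 ^ (l + 1) ≤ 2 ^ m ∧
      (Summable fun i => α i * ‖dav (w i) l s - dav (w i) l (s + 2 ^ l)‖) ∧
      ∑' i, α i * ‖dav (w i) l s - dav (w i) l (s + 2 ^ l)‖ ≤ t * (C + 1) / 2 := by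
  have hC0 : 0 ≤ C := (tsum_nonneg hα0).trans hαC
  have hdb : ∀ i l s, ‖dav (w i) l s‖ ≤ 1 := fun i l s =>
    dav_norm_le _ _ _ fun j _ _ => hw i j
  have hdd : ∀ i l s s', ‖dav (w i) l s - dav (w i) l s'‖ ≤ 2 := fun i l s s' => by
    have := norm_sub_le (dav (w i) l s) (dav (w i) l s')
    linarith [hdb i l s, hdb i l s']
  have hsumV : ∀ (x : ι → G), (∀ i, ‖x i‖ ≤ 2) → Summable fun i => α i * ‖x i‖ ^ 2 := by
    intro x hx
    refine Summable.of_nonneg_of_le (fun i => mul_nonneg (hα0 i) (by positivity)) (fun i => ?_)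
      (hα.mul_right 4)
    refine mul_le_mul_of_nonneg_left ?_ (hα0 i)
    nlinarith [hx i, norm_nonneg (x i)]
  let V : (ι → G) → ℝ := fun x => ∑' i, α i * ‖x i‖ ^ 2
  have hV0 : ∀ x, 0 ≤ V x := fun x => tsum_nonneg fun i => mul_nonneg (hα0 i) (by positivity)
  have hVs : ∀ l s, V (fun i => dav (w i) (l + 1) s) =
      (V (fun i => dav (w i) l s) + V (fun i => dav (w i) l (s + 2 ^ l))) / 2 -
        V (fun i => dav (w i) l s - dav (w i) l (s + 2 ^ l)) / 4 := by
    intro l s
    have e1 := hsumV (fun i => dav (w i) l s) (fun i => (hdb i l s).trans (by norm_num))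
    have e2 := hsumV (fun i => dav (w i) l (s + 2 ^ l))
      (fun i => (hdb i l (s + 2 ^ l)).trans (by norm_num))
    have e3 := hsumV (fun i => dav (w i) l s - dav (w i) l (s + 2 ^ l))
      (fun i => hdd i l s _)
    have e4 : HasSum (fun i => α i * ‖dav (w i) (l + 1) s‖ ^ 2)
        ((V (fun i => dav (w i) l s) + V (fun i => dav (w i) l (s + 2 ^ l))) / 2 -
        V (fun i => dav (w i) l s - dav (w i) l (s + 2 ^ l)) / 4) := by
      have e5 := ((e1.hasSum.add e2.hasSum).div_const 2).sub (e3.hasSum.div_const 4)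
      have e6 : (fun i => α i * ‖dav (w i) (l + 1) s‖ ^ 2) =
          fun i => (α i * ‖dav (w i) l s‖ ^ 2 + α i * ‖dav (w i) l (s + 2 ^ l)‖ ^ 2) / 2 -
            α i * ‖dav (w i) l s - dav (w i) l (s + 2 ^ l)‖ ^ 2 / 4 := by
        funext i
        rw [dav_succ, hG]
        ring
      rw [e6]
      exact e5
    exact e4.tsum_eq
  have hclaim : ∃ l s, l < m ∧ s + 2 ^ (l + 1) ≤ 2 ^ m ∧
      V (fun i => dav (w i) l s - dav (w i) l (s + 2 ^ l)) < t ^ 2 := by
    by_contra hcon
    push Not at hcon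
    have h1 : ∀ l, l ≤ m → ∀ s, s + 2 ^ l ≤ 2 ^ m →
        V (fun i => dav (w i) l s) ≤ C - l * (t ^ 2 / 4) := by
      intro l
      induction l with
      | zero =>
        intro _ s _
        refine le_trans ?_ (le_trans hαC (by simp))
        refine Summable.tsum_le_tsum (fun i => ?_)
          (hsumV _ fun i => (hdb i 0 s).trans (by norm_num)) hα
        refine mul_le_of_le_one_right (hα0 i) ?_
        exact pow_le_one₀ (norm_nonneg _) (hw i s)
      | succ l ih =>
        intro hl s hs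
        have e1 := ih (by omega) s (by rw [pow_succ] at hs; omega)
        have e2 := ih (by omega) (s + 2 ^ l) (by rw [pow_succ] at hs; omega)
        have e3 := hcon l s (by omega) hs
        rw [hVs]
        push_cast
        linarith
    have h2 := h1 m le_rfl 0 (by simp)
    have h3 := hV0 (fun i => dav (w i) m 0)
    linarith
  obtain ⟨l, s, hl, hs, hV⟩ := hclaim
  have e3 := hsumV (fun i => dav (w i) l s - dav (w i) l (s + 2 ^ l))
    (fun i => hdd i l s _)
  have e5 : Summable fun i => α i * (t / 2) + α i * ‖dav (w i) l s -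
      dav (w i) l (s + 2 ^ l)‖ ^ 2 / (2 * t) :=
    (hα.mul_right _).add (e3.div_const _)
  have e6 : ∀ i, α i * ‖dav (w i) l s - dav (w i) l (s + 2 ^ l)‖ ≤
      α i * (t / 2) + α i * ‖dav (w i) l s - dav (w i) l (s + 2 ^ l)‖ ^ 2 / (2 * t) := by
    intro i
    set d := ‖dav (w i) l s - dav (w i) l (s + 2 ^ l)‖ with hd
    have h7 : d ≤ t / 2 + d ^ 2 / (2 * t) := by
      rw [div_add_div _ _ (by norm_num) (by positivity), le_div_iff₀ (by positivity)]
      nlinarith [sq_nonneg (t - d)]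
    calc α i * d ≤ α i * (t / 2 + d ^ 2 / (2 * t)) := mul_le_mul_of_nonneg_left h7 (hα0 i)
      _ = _ := by ring
  have e7 : Summable fun i => α i * ‖dav (w i) l s - dav (w i) l (s + 2 ^ l)‖ :=
    Summable.of_nonneg_of_le (fun i => mul_nonneg (hα0 i) (norm_nonneg _)) e6 e5
  refine ⟨l, s, hl, hs, e7, ?_⟩
  refine (Summable.tsum_le_tsum e6 e7 e5).trans ?_
  rw [(hα.mul_right _).tsum_add (e3.div_const _), tsum_mul_right, tsum_div_const]
  have h8 : (∑' i, α i * ‖dav (w i) l s - dav (w i) l (s + 2 ^ l)‖ ^ 2) / (2 * t) ≤ t / 2 := by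
    rw [div_le_iff₀ (by positivity)]
    have : t / 2 * (2 * t) = t ^ 2 := by ring
    rw [this]
    exact hV.le
  nlinarith

end CS

end Pool.Agent.MP_a77edb_an
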