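import Pool.Agent.MP_a77edb_an.CPsi

/-!
# The contradiction
-/

set_option autoImplicit false
set_option linter.unusedSectionVars false

noncomputable section

namespace Pool.Agent.MP_a77edb_an

universe u v w

open ContinuousLinearMap Filter Topology
open scoped ENNReal

namespace CS

open PT
open Classical

theorem map_dav' {E₁ : Type v} [AddCommGroup E₁] [Module ℂ E₁] {E₂ : Type w} [AddCommGroup E₂]
    [Module ℂ E₂] (T : E₁ →ₗ[ℂ] E₂) (f : ℕ → E₁) (l s : ℕ) :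
    T (dav f l s) = dav (fun j => T (f j)) l s := by
  induction l generalizing s with
  | zero => rfl
  | succ l ih => rw [dav_succ, dav_succ, map_smul, map_add, ih, ih]

theorem hasSum_dav {ι : Type v} (f : ι → ℕ → ℂ) (a : ℕ → ℂ)
    (h : ∀ j, HasSum (fun i => f i j) (a j)) (l s : ℕ) :
    HasSum (fun i => dav (f i) l s) (dav a l s) := by
  induction l generalizing s with
  | zero => exact h s
  | succ l ih =>
    have h1 := ((ih s).add (ih (s + 2 ^ l))).const_smul (1 / 2 : ℂ)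
    exact h1

theorem dav_sub_const (a : ℕ → ℂ) (c : ℂ) (l s : ℕ) :
    dav (fun j => a j - c) l s = dav a l s - c := by
  induction l generalizing s with
  | zero => rfl
  | succ l ih =>
    rw [dav_succ, dav_succ, ih, ih]
    simp only [smul_eq_mul]
    ring

variable {A E F : Type u} [NonUnitalNormedRing A] [NormedSpace ℂ A]
    [NormedAddCommGroup E] [NormedSpace ℂ E] [NormedAddCommGroup F] [NormedSpace ℂ F]
variable [CompleteSpace A] [IsScalarTower ℂ A A] [SMulCommClass ℂ A A]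
  [CompleteSpace E] [CompleteSpace F]

namespace NData

variable (D : NData A E F)
  (ψ : A →L[ℂ] Linf (Gam A) E →L[ℂ] PT A (Z0 (Gam A) F))
  (hψ : ∀ a b m, (tmul a (D.coc b m) : PT A (Z0 (Gam A) F)) =
        (lact a (ψ b m) - tmul a (sig (zam (Gam A) D.aF) (ψ b m))) - ψ (a * b) m +
          ψ a (lam (Gam A) D.aE b m))

/-- a bound for `θ_γ` -/
theorem norm_tt_le (γ : Gam A) :
    ‖D.tt ψ γ‖ ≤ (‖D.aF‖ + ‖D.aE‖) * D.K * D.K + ‖D.aF‖ * (‖ψ‖ * D.K) := by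
  have hK := D.K_nonneg
  have hψ0 : 0 ≤ ‖ψ‖ := ContinuousLinearMap.opNorm_nonneg ψ
  have h1 : ‖D.aF (D.b (D.k γ)) (D.x γ (D.ξ (D.k γ))) -
      D.x γ (D.aE (D.b (D.k γ)) (D.ξ (D.k γ)))‖ ≤ (‖D.aF‖ + ‖D.aE‖) * D.K * D.K := by
    have e1 : ‖D.aF (D.b (D.k γ)) (D.x γ (D.ξ (D.k γ)))‖ ≤ ‖D.aF‖ * D.K * (D.K * 1) := by
      refine (D.aF.le_opNorm₂ _ _).trans ?_
      refine mul_le_mul (mul_le_mul_of_nonneg_left (D.norm_b _) (by positivity)) ?_
        (norm_nonneg _) (by positivity)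
      exact (D.x_le γ _).trans (mul_le_mul_of_nonneg_left (D.norm_ξ _) hK)
    have e2 : ‖D.x γ (D.aE (D.b (D.k γ)) (D.ξ (D.k γ)))‖ ≤ D.K * (‖D.aE‖ * D.K * 1) := by
      refine (D.x_le γ _).trans (mul_le_mul_of_nonneg_left ?_ hK)
      refine (D.aE.le_opNorm₂ _ _).trans ?_
      exact mul_le_mul (mul_le_mul_of_nonneg_left (D.norm_b _) (by positivity)) (D.norm_ξ _)
        (norm_nonneg _) (by positivity)
    have e3 := norm_sub_le (D.aF (D.b (D.k γ)) (D.x γ (D.ξ (D.k γ))))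
      (D.x γ (D.aE (D.b (D.k γ)) (D.ξ (D.k γ))))
    nlinarith
  have h2 : ‖sig D.aF (D.om ψ γ)‖ ≤ ‖D.aF‖ * (‖ψ‖ * D.K) := by
    refine (norm_lift_apply_le _ _).trans ?_
    refine mul_le_mul_of_nonneg_left ?_ (by positivity)
    refine (norm_ps_le ψ γ _ _).trans ?_
    calc ‖ψ‖ * ‖D.b (D.k γ)‖ * ‖D.ξ (D.k γ)‖ ≤ ‖ψ‖ * D.K * 1 := by
          refine mul_le_mul (mul_le_mul_of_nonneg_left (D.norm_b _) hψ0) (D.norm_ξ _)
            (norm_nonneg _) (by positivity)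
      _ = _ := by ring
  exact (norm_add_le _ _).trans (add_le_add h1 h2)

include hψ in
/-- the sequence -/
theorem exists_seq : ∃ γ : ℕ → Gam A, ∀ i j, i < j → D.k (γ i) < D.k (γ j) ∧
    ‖D.M ψ (γ i) (γ j) - 1‖ ≤ 1 / 8 ∧ ‖D.M ψ (γ j) (γ i)‖ ≤ 1 / 8 := by
  have hK := D.K_nonneg
  obtain ⟨γ, -, hγ⟩ := exists_seq_of_forall_finset_exists
    (fun γ : Gam A => ‖D.ηi (D.x γ (D.ξ (D.k γ))) - 1‖ ≤ 1 / 16)
    (fun γ γ' : Gam A => D.k γ < D.k γ' ∧ ‖D.M ψ γ γ' - 1‖ ≤ 1 / 8 ∧ ‖D.M ψ γ' γ‖ ≤ 1 / 8)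
    (fun s hs => by
      have e1 : ∀ᶠ γ' in atTop, ∀ γ ∈ s, D.k γ + 1 ≤ D.k γ' := by
        rw [Filter.eventually_all_finset]
        intro γ _
        exact D.tend_k _
      have e2 : ∀ᶠ γ' in atTop, ∀ γ ∈ s,
          ‖D.M ψ γ γ' - D.ηi (D.x γ (D.ξ (D.k γ)))‖ < 1 / 16 := by
        rw [Filter.eventually_all_finset]
        intro γ _
        have := tendsto_iff_norm_sub_tendsto_zero.1 (D.M_tendsto ψ γ)
        exact this.eventually (gt_mem_nhds (by norm_num))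
      have e3 : ∀ᶠ γ' in atTop, ‖D.ηi (D.x γ' (D.ξ (D.k γ'))) - 1‖ < 1 / 16 := by
        have := tendsto_iff_norm_sub_tendsto_zero.1 D.tend_ηi
        exact this.eventually (gt_mem_nhds (by norm_num))
      obtain ⟨γ₀, hγ₀⟩ := eventually_atTop.1 (e1.and (e2.and e3))
      obtain ⟨γ', hγ', hsmall⟩ := D.exists_small ψ (s.image D.k)
        (ε := 1 / (8 * (‖D.aE‖ * D.K + 1))) (by positivity) γ₀
      obtain ⟨f1, f2, f3⟩ := hγ₀ γ' hγ'
      refine ⟨γ', f3.le, fun γ hγ => ⟨f1 γ hγ, ?_, ?_⟩⟩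
      · have g1 := f2 γ hγ
        have g2 := hs γ hγ
        have g3 : D.M ψ γ γ' - 1 = (D.M ψ γ γ' - D.ηi (D.x γ (D.ξ (D.k γ)))) +
          (D.ηi (D.x γ (D.ξ (D.k γ))) - 1) := by ring
        rw [g3]
        refine (norm_add_le _ _).trans ?_
        linarith
      · have g1 : D.k γ ≠ D.k γ' := by
          have := f1 γ hγ
          omega
        rw [D.M_eq ψ hψ g1, norm_neg]
        refine (D.norm_Phi_apply_le _ _).trans ?_
        have g2 := (hsmall (D.k γ) (Finset.mem_image_of_mem _ hγ)).le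
        calc ‖D.aE‖ * D.K * ‖ps ψ γ' (D.b (D.k γ)) (D.ξ (D.k γ'))‖ ≤
              ‖D.aE‖ * D.K * (1 / (8 * (‖D.aE‖ * D.K + 1))) := by gcongr
          _ ≤ 1 / 8 := by
            rw [mul_one_div, div_le_div_iff₀ (by positivity) (by norm_num)]
            linarith)
  exact ⟨γ, hγ⟩

/-- The functionals occurring in the matrix. -/
def Lf (α : PreT A (Z0 (Gam A) F)) (γ : Gam A) : Option (UBall (Z0 (Gam A) F)) → (F →L[ℂ] ℂ)
  | none => (D.η (D.k γ)).comp (D.y γ)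
  | some w => (D.η (D.k γ)).comp ((D.aE (α w)).comp (D.y γ))

/-- The weights. -/
def Wf (α : PreT A (Z0 (Gam A) F)) : Option (UBall (Z0 (Gam A) F)) → ℝ
  | none => D.K
  | some w => ‖D.aE‖ * D.K * ‖α w‖

theorem norm_Lf_le (α : PreT A (Z0 (Gam A) F)) (γ : Gam A)
    (l : Option (UBall (Z0 (Gam A) F))) : ‖D.Lf α γ l‖ ≤ D.Wf α l := by
  have hK := D.K_nonneg
  cases l with
  | none =>
    refine ContinuousLinearMap.opNorm_le_bound _ hK fun f => ?_
    refine ((D.η (D.k γ)).le_opNorm _).trans ?_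
    exact (mul_le_of_le_one_left (norm_nonneg _) (D.norm_η _)).trans (D.y_le γ f)
  | some w =>
    refine ContinuousLinearMap.opNorm_le_bound _ ?_ fun f => D.eta_bound γ _ _
    show 0 ≤ ‖D.aE‖ * D.K * ‖α w‖
    positivity

theorem Wf_nonneg (α : PreT A (Z0 (Gam A) F)) (l : Option (UBall (Z0 (Gam A) F))) :
    0 ≤ D.Wf α l := (norm_nonneg _).trans (D.norm_Lf_le α (Classical.arbitrary _) l)

theorem hasSum_option_of {ι : Type v} (f : Option ι → ℝ) (a b : ℝ) (hb : f none = b)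
    (h : HasSum (fun i => f (some i)) a) : HasSum f (a + b) := by
  have h1 : HasSum (fun o : Option ι => o.elim 0 fun i => f (some i)) a := by
    rw [← (Option.some_injective ι).hasSum_iff (f := fun o : Option ι => o.elim 0 fun i => f (some i))]
    · exact h
    · intro x hx
      cases x with
      | none => rfl
      | some i => exact absurd ⟨i, rfl⟩ hx
  have h2 : HasSum (fun o : Option ι => if o = none then b else 0) b := hasSum_ite_eq none b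
  have h3 := h1.add h2
  convert h3 using 2 with o
  cases o with
  | none => simp [hb]
  | some i => simp

theorem hasSum_Wf (α : PreT A (Z0 (Gam A) F)) :
    HasSum (D.Wf α) (‖D.aE‖ * D.K * ‖α‖ + D.K) := by
  refine hasSum_option_of _ _ _ rfl ?_
  have h2 : HasSum (fun w => ‖α w‖) ‖α‖ := by
    have h3 := (l1_summable_norm α).hasSum
    rw [← l1_norm_eq α] at h3
    exact h3
  exact h2.mul_left _

theorem hasSum_Phi (α : PreT A (Z0 (Gam A) F)) (γ γ' : Gam A)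
    (h : mapR (ev γ) (mkQ A (Z0 (Gam A) F) α) = D.om ψ γ) :
    HasSum (fun w : UBall (Z0 (Gam A) F) => D.Lf α γ' (some w) (ev γ (w : Z0 (Gam A) F)))
      (D.Phi γ' (D.om ψ γ)) := by
  have h1 := (D.Phi γ').hasSum ((mapR (ev γ)).hasSum (PT.hasSum_mkQ α))
  rw [h] at h1
  have h2 : (fun w : UBall (Z0 (Gam A) F) => D.Lf α γ' (some w) (ev γ (w : Z0 (Gam A) F))) =
      fun w : UBall (Z0 (Gam A) F) =>
        D.Phi γ' (mapR (ev γ) (tmul (α w) (w : Z0 (Gam A) F))) := by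
    funext w
    rw [mapR_tmul, Phi_tmul]
    rfl
  rw [h2]
  exact h1

include D in
/-- The vanishing condition fails. -/
theorem not_vanish (hF : Par (F →L[ℂ] ℂ)) : ¬ Vanish A := by
  intro hV
  obtain ⟨ψ, hψ⟩ := D.exists_psi hV
  have hK := D.K_nonneg
  have hψ0 : 0 ≤ ‖ψ‖ := ContinuousLinearMap.opNorm_nonneg ψ
  obtain ⟨Ct, hCt0, hCt⟩ : ∃ Ct : ℝ, 0 ≤ Ct ∧ ∀ γ, ‖D.tt ψ γ‖ ≤ Ct :=
    ⟨_, by positivity, D.norm_tt_le ψ⟩
  obtain ⟨γ, hγ⟩ := D.exists_seq ψ hψ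
  have hmono : StrictMono fun i => D.k (γ i) := fun i j hij => (hγ i j hij).1
  -- the constants
  obtain ⟨C, hC⟩ : ∃ C : ℝ, C = ‖D.aE‖ * D.K * (‖ψ‖ * D.K + 1) + D.K := ⟨_, rfl⟩
  have hC0 : 0 ≤ C := by rw [hC]; positivity
  obtain ⟨t, ht, htC⟩ : ∃ t : ℝ, 0 < t ∧ (1 + Ct) * (t * (C + 1) / 2) ≤ 1 / 2 := by
    refine ⟨1 / ((1 + Ct) * (C + 1)), by positivity, le_of_eq ?_⟩
    field_simp
  obtain ⟨m, hm⟩ := exists_nat_gt (4 * C / t ^ 2)
  have hm' : 4 * C < m * t ^ 2 := by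
    rwa [div_lt_iff₀ (by positivity)] at hm
  -- the tensor
  obtain ⟨τ, hτ1, hτ2⟩ := D.exists_tensor ψ γ hmono.injective (2 * 2 ^ m + 2) (by omega)
  obtain ⟨α, hα, hαn⟩ := exists_rep τ one_pos
  have hαn' : ‖α‖ ≤ ‖ψ‖ * D.K + 1 := by linarith
  have hsumW := D.hasSum_Wf α
  have hWC : ∑' l, D.Wf α l ≤ C := by
    rw [hsumW.tsum_eq, hC]
    gcongr
  -- normalised functionals
  let wv : Option (UBall (Z0 (Gam A) F)) → ℕ → (F →L[ℂ] ℂ) := fun l j =>
    (((D.Wf α l)⁻¹ : ℝ) : ℂ) • D.Lf α (γ (2 * j + 1)) l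
  have hwv : ∀ l j, ‖wv l j‖ ≤ 1 := by
    intro l j
    show ‖(((D.Wf α l)⁻¹ : ℝ) : ℂ) • D.Lf α (γ (2 * j + 1)) l‖ ≤ 1
    rw [norm_smul, Complex.norm_real, norm_inv, Real.norm_of_nonneg (D.Wf_nonneg α l)]
    by_cases h0 : D.Wf α l = 0
    · rw [h0, inv_zero, zero_mul]
      exact zero_le_one
    · rw [inv_mul_le_iff₀ (lt_of_le_of_ne (D.Wf_nonneg α l) (Ne.symm h0)), mul_one]
      exact D.norm_Lf_le α _ l
  have hwvL : ∀ l j, D.Lf α (γ (2 * j + 1)) l = ((D.Wf α l : ℝ) : ℂ) • wv l j := by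
    intro l j
    show _ = ((D.Wf α l : ℝ) : ℂ) • ((((D.Wf α l)⁻¹ : ℝ) : ℂ) • D.Lf α (γ (2 * j + 1)) l)
    by_cases h0 : D.Wf α l = 0
    · have h1 := D.norm_Lf_le α (γ (2 * j + 1)) l
      rw [h0] at h1
      have h2 : D.Lf α (γ (2 * j + 1)) l = 0 := norm_le_zero_iff.1 h1
      refine ContinuousLinearMap.ext fun f => ?_
      have h3 : D.Lf α (γ (2 * j + 1)) l f = 0 := by
        rw [h2]
        rfl
      rw [h3]
      show (0 : ℂ) = ((D.Wf α l : ℝ) : ℂ) *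
        ((((D.Wf α l)⁻¹ : ℝ) : ℂ) * D.Lf α (γ (2 * j + 1)) l f)
      rw [h3, mul_zero, mul_zero]
    · rw [smul_smul, ← Complex.ofReal_mul, mul_inv_cancel₀ h0, Complex.ofReal_one, one_smul]
  obtain ⟨l, s, hl, hs, hsum, hle⟩ := exists_close_blocks hF (D.Wf α) (D.Wf_nonneg α)
    hsumW.summable hWC wv hwv ht m hm'
  -- the row index
  have hpow : 2 ^ (l + 1) = 2 ^ l + 2 ^ l := by rw [pow_succ]; ring
  obtain ⟨i, hi⟩ : ∃ i, i = 2 * (s + 2 ^ l) := ⟨_, rfl⟩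
  have hpos : 0 < 2 ^ l := by positivity
  have hin : i < 2 * 2 ^ m + 2 := by omega
  obtain ⟨a, ha⟩ : ∃ a : ℕ → ℂ, a = fun j => D.M ψ (γ i) (γ (2 * j + 1)) := ⟨_, rfl⟩
  -- first block
  have hb1 : ‖dav a l s‖ ≤ 1 / 8 := by
    refine dav_norm_le _ _ _ fun j hj hj' => ?_
    rw [ha]
    exact (hγ (2 * j + 1) i (by omega)).2.2
  have hb2 : ‖dav a l (s + 2 ^ l) - 1‖ ≤ 1 / 8 := by
    rw [← dav_sub_const]
    refine dav_norm_le _ _ _ fun j hj hj' => ?_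
    rw [ha]
    exact (hγ i (2 * j + 1) (by omega)).2.1
  -- the difference
  have hτi : mapR (ev (γ i)) (mkQ A (Z0 (Gam A) F) α) = D.om ψ (γ i) := by
    rw [hα]
    exact hτ2 i hin
  have hdiff : ∀ s', HasSum (fun w : UBall (Z0 (Gam A) F) =>
      (((D.Wf α (some w) : ℝ) : ℂ) • dav (wv (some w)) l s') (ev (γ i) (w : Z0 (Gam A) F)))
      (dav a l s' + (((D.Wf α none : ℝ) : ℂ) • dav (wv none) l s') (D.tt ψ (γ i))) := by
    intro s'
    have e1 := hasSum_dav (fun (w : UBall (Z0 (Gam A) F)) j =>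
      D.Lf α (γ (2 * j + 1)) (some w) (ev (γ i) (w : Z0 (Gam A) F)))
      (fun j => D.Phi (γ (2 * j + 1)) (D.om ψ (γ i)))
      (fun j => D.hasSum_Phi ψ α (γ i) (γ (2 * j + 1)) hτi) l s'
    have e2 : ∀ (o : Option (UBall (Z0 (Gam A) F))) (f : F),
        (((D.Wf α o : ℝ) : ℂ) • dav (wv o) l s') f =
          dav (fun j => D.Lf α (γ (2 * j + 1)) o f) l s' := by
      intro o f
      have e3 := map_dav' (LinearMap.smulRight (1 : ℂ →ₗ[ℂ] ℂ) ((D.Wf α o : ℝ) : ℂ) ∘ₗ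
        ((ContinuousLinearMap.apply ℂ ℂ f : (F →L[ℂ] ℂ) →L[ℂ] ℂ) : (F →L[ℂ] ℂ) →ₗ[ℂ] ℂ))
        (wv o) l s'
      have e4 : (((D.Wf α o : ℝ) : ℂ) • dav (wv o) l s') f =
          (LinearMap.smulRight (1 : ℂ →ₗ[ℂ] ℂ) ((D.Wf α o : ℝ) : ℂ) ∘ₗ
        ((ContinuousLinearMap.apply ℂ ℂ f : (F →L[ℂ] ℂ) →L[ℂ] ℂ) : (F →L[ℂ] ℂ) →ₗ[ℂ] ℂ))
        (dav (wv o) l s') := by
        simp [mul_comm]
      rw [e4, e3]
      congr 1
      funext j
      rw [hwvL]
      simp [mul_comm]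
    have e5 : (fun w : UBall (Z0 (Gam A) F) =>
        (((D.Wf α (some w) : ℝ) : ℂ) • dav (wv (some w)) l s') (ev (γ i) (w : Z0 (Gam A) F))) =
        fun w => dav (fun j => D.Lf α (γ (2 * j + 1)) (some w)
          (ev (γ i) (w : Z0 (Gam A) F))) l s' := by
      funext w
      exact e2 _ _
    have e6 : dav a l s' + (((D.Wf α none : ℝ) : ℂ) • dav (wv none) l s') (D.tt ψ (γ i)) =
        dav (fun j => D.Phi (γ (2 * j + 1)) (D.om ψ (γ i))) l s' := by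
      rw [e2, ha]
      have e7 : ∀ (f g : ℕ → ℂ) (l s : ℕ), dav f l s + dav g l s = dav (fun j => f j + g j) l s := by
        intro f g l
        induction l with
        | zero => exact fun s => rfl
        | succ l ih =>
          intro s
          rw [dav_succ, dav_succ, dav_succ, ← ih, ← ih, ← smul_add]
          congr 1
          ring
      rw [e7]
      congr 1
      funext j
      show D.Phi (γ (2 * j + 1)) (D.om ψ (γ i)) -
        D.η (D.k (γ (2 * j + 1))) (D.y (γ (2 * j + 1)) (D.tt ψ (γ i))) +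
        D.η (D.k (γ (2 * j + 1))) (D.y (γ (2 * j + 1)) (D.tt ψ (γ i))) = _
      ring
    rw [e5, e6]
    exact e1
  have hfin := (hdiff s).sub (hdiff (s + 2 ^ l))
  -- bounds
  have hg : ∀ o, 0 ≤ D.Wf α o * ‖dav (wv o) l s - dav (wv o) l (s + 2 ^ l)‖ := fun o =>
    mul_nonneg (D.Wf_nonneg α o) (norm_nonneg _)
  have hsum1 : Summable fun w : UBall (Z0 (Gam A) F) =>
      D.Wf α (some w) * ‖dav (wv (some w)) l s - dav (wv (some w)) l (s + 2 ^ l)‖ :=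
    hsum.comp_injective (Option.some_injective _)
  have hle1 : ∑' w : UBall (Z0 (Gam A) F),
      D.Wf α (some w) * ‖dav (wv (some w)) l s - dav (wv (some w)) l (s + 2 ^ l)‖ ≤
      t * (C + 1) / 2 := by
    refine le_trans ?_ hle
    exact tsum_comp_le_tsum_of_inj hsum hg (Option.some_injective _)
  have hle2 : D.Wf α none * ‖dav (wv none) l s - dav (wv none) l (s + 2 ^ l)‖ ≤
      t * (C + 1) / 2 := by
    refine le_trans ?_ hle
    exact hsum.le_tsum none fun o _ => hg o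
  have hterm : ∀ (o : Option (UBall (Z0 (Gam A) F))) (f : F),
      ‖(((D.Wf α o : ℝ) : ℂ) • dav (wv o) l s) f -
        (((D.Wf α o : ℝ) : ℂ) • dav (wv o) l (s + 2 ^ l)) f‖ ≤
      D.Wf α o * ‖dav (wv o) l s - dav (wv o) l (s + 2 ^ l)‖ * ‖f‖ := by
    intro o f
    have e1 : (((D.Wf α o : ℝ) : ℂ) • dav (wv o) l s) f -
        (((D.Wf α o : ℝ) : ℂ) • dav (wv o) l (s + 2 ^ l)) f =
        ((D.Wf α o : ℝ) : ℂ) * ((dav (wv o) l s - dav (wv o) l (s + 2 ^ l)) f) := by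
      simp [mul_sub]
    rw [e1, norm_mul, Complex.norm_real, Real.norm_of_nonneg (D.Wf_nonneg α o), mul_assoc]
    exact mul_le_mul_of_nonneg_left (ContinuousLinearMap.le_opNorm _ _) (D.Wf_nonneg α o)
  have hB1 : ‖(dav a l s + (((D.Wf α none : ℝ) : ℂ) • dav (wv none) l s) (D.tt ψ (γ i))) -
      (dav a l (s + 2 ^ l) + (((D.Wf α none : ℝ) : ℂ) • dav (wv none) l (s + 2 ^ l))
        (D.tt ψ (γ i)))‖ ≤ t * (C + 1) / 2 := by
    rw [← hfin.tsum_eq]
    refine (tsum_of_norm_bounded hsum1.hasSum fun w => ?_).trans hle1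
    refine (hterm _ _).trans ?_
    refine mul_le_of_le_one_right (hg _) ?_
    exact (norm_ev_apply_le _ _).trans w.2
  have hB2 : ‖(((D.Wf α none : ℝ) : ℂ) • dav (wv none) l s) (D.tt ψ (γ i)) -
      (((D.Wf α none : ℝ) : ℂ) • dav (wv none) l (s + 2 ^ l)) (D.tt ψ (γ i))‖ ≤
      t * (C + 1) / 2 * Ct := by
    refine (hterm _ _).trans ?_
    exact mul_le_mul hle2 (hCt _) (norm_nonneg _) (by positivity)
  have hB3 : ‖dav a l s - dav a l (s + 2 ^ l)‖ ≤ 1 / 2 := by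
    have e1 : dav a l s - dav a l (s + 2 ^ l) =
      ((dav a l s + (((D.Wf α none : ℝ) : ℂ) • dav (wv none) l s) (D.tt ψ (γ i))) -
      (dav a l (s + 2 ^ l) + (((D.Wf α none : ℝ) : ℂ) • dav (wv none) l (s + 2 ^ l))
        (D.tt ψ (γ i)))) -
      ((((D.Wf α none : ℝ) : ℂ) • dav (wv none) l s) (D.tt ψ (γ i)) -
      (((D.Wf α none : ℝ) : ℂ) • dav (wv none) l (s + 2 ^ l)) (D.tt ψ (γ i))) := by ring
    rw [e1]
    refine (norm_sub_le _ _).trans ?_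
    have e2 : t * (C + 1) / 2 + t * (C + 1) / 2 * Ct = (1 + Ct) * (t * (C + 1) / 2) := by ring
    calc _ ≤ t * (C + 1) / 2 + t * (C + 1) / 2 * Ct := add_le_add hB1 hB2
      _ = _ := e2
      _ ≤ 1 / 2 := htC
  have hB4 : (1 : ℝ) ≤ ‖dav a l s‖ + ‖dav a l s - dav a l (s + 2 ^ l)‖ +
      ‖dav a l (s + 2 ^ l) - 1‖ := by
    have e1 : (1 : ℂ) = dav a l s - (dav a l s - dav a l (s + 2 ^ l)) -
      (dav a l (s + 2 ^ l) - 1) := by ring
    calc (1 : ℝ) = ‖(1 : ℂ)‖ := by simp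
      _ = ‖dav a l s - (dav a l s - dav a l (s + 2 ^ l)) - (dav a l (s + 2 ^ l) - 1)‖ := by
        rw [← e1]
      _ ≤ ‖dav a l s - (dav a l s - dav a l (s + 2 ^ l))‖ + ‖dav a l (s + 2 ^ l) - 1‖ :=
        norm_sub_le _ _
      _ ≤ _ := by
        gcongr
        exact norm_sub_le _ _
  linarith

end NData

/-- The main abstract result. -/
theorem not_vanish_of_data (D : HData A E F) (hF : Par (F →L[ℂ] ℂ)) : ¬ Vanish A := by
  obtain ⟨D'⟩ := D.exists_ndata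
  exact D'.not_vanish hF

end CS

end Pool.Agent.MP_a77edb_an
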