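import Pool.Agent.MP_a77edb_an.CState
import Pool.Agent.MP_a77edb_an.CMain

/-!
# The data for a C*-algebra with an orthogonal sequence
-/

set_option autoImplicit false
set_option linter.unusedSectionVars false

noncomputable section

namespace Pool.Agent.MP_a77edb_an

universe u v w

open ContinuousLinearMap Filter Topology
open scoped InnerProductSpace ComplexOrder

namespace CS

section

variable {A : Type u} [NonUnitalCStarAlgebra A]

/-- The action of `A` given by a representation of its unitization. -/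
def repAct {E : Type v} [NormedAddCommGroup E] [InnerProductSpace ℂ E] [CompleteSpace E]
    (π : Unitization ℂ A →⋆ₐ[ℂ] (E →L[ℂ] E)) : A →L[ℂ] E →L[ℂ] E :=
  LinearMap.mkContinuous
    { toFun := fun a => π (a : Unitization ℂ A)
      map_add' := fun a b => by rw [Unitization.inr_add, map_add]
      map_smul' := fun c a => by rw [Unitization.inr_smul, map_smul, RingHom.id_apply] } 1
    (fun a => by
      rw [one_mul]
      show ‖π (a : Unitization ℂ A)‖ ≤ ‖a‖
      refine (NonUnitalStarAlgHom.norm_apply_le π _).trans ?_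
      rw [Unitization.norm_inr])

theorem repAct_apply {E : Type v} [NormedAddCommGroup E] [InnerProductSpace ℂ E] [CompleteSpace E]
    (π : Unitization ℂ A →⋆ₐ[ℂ] (E →L[ℂ] E)) (a : A) :
    repAct π a = π (a : Unitization ℂ A) := rfl

theorem rep_mul {E : Type v} [NormedAddCommGroup E] [InnerProductSpace ℂ E] [CompleteSpace E]
    (π : Unitization ℂ A →⋆ₐ[ℂ] (E →L[ℂ] E)) (a b : Unitization ℂ A) (v : E) :
    π (a * b) v = π a (π b v) := by
  rw [map_mul]
  rfl

theorem rep_one {E : Type v} [NormedAddCommGroup E] [InnerProductSpace ℂ E] [CompleteSpace E]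
    (π : Unitization ℂ A →⋆ₐ[ℂ] (E →L[ℂ] E)) (v : E) : π 1 v = v := by
  rw [map_one]
  rfl

theorem rep_adj {E : Type v} [NormedAddCommGroup E] [InnerProductSpace ℂ E] [CompleteSpace E]
    (π : Unitization ℂ A →⋆ₐ[ℂ] (E →L[ℂ] E)) (a : A) (v w : E) :
    ⟪v, π (a : Unitization ℂ A) w⟫_ℂ = ⟪π ((star a : A) : Unitization ℂ A) v, w⟫_ℂ := by
  rw [Unitization.inr_star, map_star, ContinuousLinearMap.star_eq_adjoint, adjoint_inner_left]

theorem repAct_mul {E : Type v} [NormedAddCommGroup E] [InnerProductSpace ℂ E] [CompleteSpace E]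
    (π : Unitization ℂ A →⋆ₐ[ℂ] (E →L[ℂ] E)) (a b : A) (v : E) :
    repAct π (a * b) v = repAct π a (repAct π b v) := by
  rw [repAct_apply, repAct_apply, repAct_apply, Unitization.inr_mul, rep_mul]

theorem not_vanish_of_orth (b c : ℕ → A) (K : ℝ) (hb : ∀ k, IsSelfAdjoint (b k))
    (horth : ∀ i j, i ≠ j → b i * b j = 0) (hbc : ∀ k, b k * c k = c k) (hc : ∀ k, c k ≠ 0)
    (hK : ∀ k, ‖b k‖ ≤ K)
    (hbK : ∀ (n : ℕ) (κ : ℕ → ℕ), Function.Injective κ → ∀ (δ : ℕ → ℂ), (∀ j, ‖δ j‖ ≤ 1) →
      ‖∑ j ∈ Finset.range n, δ j • b (κ j)‖ ≤ K) :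
    ¬ Vanish A := by
  classical
  let _ : PartialOrder (Unitization ℂ A) := CStarAlgebra.spectralOrder _
  have _ : StarOrderedRing (Unitization ℂ A) := CStarAlgebra.spectralOrderedRing _
  obtain ⟨φ, ξ, hξ1, hbξ⟩ := exists_vectors (fun k => (b k : Unitization ℂ A))
    (fun k => (c k : Unitization ℂ A))
    (fun k h => hc k (Unitization.inr_injective (h.trans (Unitization.inr_zero ℂ).symm)))
    (fun k => by rw [← Unitization.inr_mul, hbc])
  obtain ⟨φi, hφi⟩ := exists_limit φ.gnsStarAlgHom ξ hξ1 (hyperfilter ℕ)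
  let ξi : φi.GNS := ((φi.toPreGNS 1 : φi.PreGNS) : φi.GNS)
  have hξi : ∀ a, ⟪ξi, φi.gnsStarAlgHom a ξi⟫_ℂ = φi a := fun a => gns_cyclic φi a
  have hlim : ∀ a, Tendsto (fun k => ⟪ξ k, φ.gnsStarAlgHom a (ξ k)⟫_ℂ) (hyperfilter ℕ)
      (𝓝 ⟪ξi, φi.gnsStarAlgHom a ξi⟫_ℂ) := fun a => by
    rw [hξi]
    exact hφi a
  have hξi1 : ⟪ξi, ξi⟫_ℂ = 1 := by
    have h1 := hlim 1
    have h2 : Tendsto (fun _ : ℕ => (1 : ℂ)) (hyperfilter ℕ)
        (𝓝 ⟪ξi, φi.gnsStarAlgHom 1 ξi⟫_ℂ) := by
      refine h1.congr fun k => ?_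
      rw [rep_one, inner_self_eq_norm_sq_to_K, hξ1]
      simp
    have h3 := tendsto_nhds_unique h2 tendsto_const_nhds
    rw [rep_one] at h3
    exact h3
  have hξin : ‖ξi‖ = 1 := by
    rw [inner_self_eq_norm_sq_to_K] at hξi1
    have h2 : ‖ξi‖ ^ 2 = 1 := by
      have h3 : ((‖ξi‖ ^ 2 : ℝ) : ℂ) = 1 := by
        push_cast
        exact hξi1
      exact_mod_cast h3
    nlinarith [norm_nonneg ξi]
  -- vanishing at infinity
  have hbi : ∀ k, φi.gnsStarAlgHom (b k : Unitization ℂ A) ξi = 0 := by
    intro k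
    have h1 := hlim ((b k * b k : A) : Unitization ℂ A)
    have h2 : ∀ᶠ j in (hyperfilter ℕ : Filter ℕ),
        ⟪ξ j, φ.gnsStarAlgHom ((b k * b k : A) : Unitization ℂ A) (ξ j)⟫_ℂ = 0 := by
      have h3 : ∀ᶠ j in (hyperfilter ℕ : Filter ℕ), j ≠ k := by
        have : ∀ᶠ j in cofinite, j ≠ k := by
          rw [Filter.eventually_cofinite]
          simp
        exact hyperfilter_le_cofinite this
      filter_upwards [h3] with j hj
      have h4 : φ.gnsStarAlgHom ((b k * b k : A) : Unitization ℂ A) (ξ j) = 0 := by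
        rw [← hbξ j, ← rep_mul, ← Unitization.inr_mul, mul_assoc,
          horth k j hj.symm, mul_zero, Unitization.inr_zero, map_zero, zero_apply]
      rw [h4, inner_zero_right]
    have h3 : ⟪ξi, φi.gnsStarAlgHom ((b k * b k : A) : Unitization ℂ A) ξi⟫_ℂ = 0 :=
      tendsto_nhds_unique h1 ((tendsto_congr' h2).2 tendsto_const_nhds)
    rw [Unitization.inr_mul, rep_mul, rep_adj, (hb k).star_eq] at h3
    exact inner_self_eq_zero.1 h3
  have hK0 : 0 ≤ K := (norm_nonneg _).trans (hK 0)
  let D : HData A φ.GNS φi.GNS :=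
    { aE := repAct φ.gnsStarAlgHom
      aE_mul := repAct_mul _
      aF := repAct φi.gnsStarAlgHom
      aF_mul := repAct_mul _
      K := K + 2
      b := b
      norm_b := fun k => (hK k).trans (by linarith)
      b_bound := fun n κ hκ δ hδ => (hbK n κ hκ δ hδ).trans (by linarith)
      b_orth := horth
      ξ := ξ
      norm_ξ := fun k => (hξ1 k).le
      b_ξ := fun k => hbξ k
      η := fun k => innerSL ℂ (ξ k)
      norm_η := fun k => by rw [innerSL_apply_norm, hξ1]
      η_b := fun k v => by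
        show ⟪ξ k, φ.gnsStarAlgHom (b k : Unitization ℂ A) v⟫_ℂ = ⟪ξ k, v⟫_ℂ
        rw [rep_adj, (hb k).star_eq]
        congr 1
        exact hbξ k
      ηi := innerSL ℂ ξi
      ηi_b := fun k v => by
        show ⟪ξi, φi.gnsStarAlgHom (b k : Unitization ℂ A) v⟫_ℂ = 0
        rw [rep_adj, (hb k).star_eq, hbi, inner_zero_left]
      approx := fun S n => by
        have hε : (0 : ℝ) < 1 / (n + 1) := by positivity
        have h1 := exists_approx_eventually φ.gnsStarAlgHom φi.gnsStarAlgHom ξ ξi hlim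
          ((S ∪ S.image star).image fun a : A => (a : Unitization ℂ A)) hε
        have h2 : ∀ᶠ k in (hyperfilter ℕ : Filter ℕ), n ≤ k := by
          have : ∀ᶠ j in cofinite, n ≤ j := by
            rw [Nat.cofinite_eq_atTop]
            exact eventually_ge_atTop n
          exact hyperfilter_le_cofinite this
        obtain ⟨k, ⟨y, hy1, hy2, hy3⟩, hk⟩ := (h1.and h2).exists
        have hy2' : ∀ a ∈ S, ‖(φ.gnsStarAlgHom (a : Unitization ℂ A)).comp y -
            y.comp (φi.gnsStarAlgHom (a : Unitization ℂ A))‖ ≤ 1 / (n + 1) := fun a ha =>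
          hy2 _ (Finset.mem_image_of_mem _ (Finset.mem_union_left _ ha))
        have hy2'' : ∀ a ∈ S, ‖(φ.gnsStarAlgHom ((star a : A) : Unitization ℂ A)).comp y -
            y.comp (φi.gnsStarAlgHom ((star a : A) : Unitization ℂ A))‖ ≤ 1 / (n + 1) :=
          fun a ha => hy2 _ (Finset.mem_image_of_mem _ (Finset.mem_union_right _
            (Finset.mem_image_of_mem _ ha)))
        refine ⟨k, hk, adjoint y, y, ?_, hy1.trans (by linarith), fun a ha => ?_, hy2',
          fun f => hy3 f, ?_⟩
        · have : ‖adjoint y‖ = ‖y‖ := LinearIsometryEquiv.norm_map adjoint y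
          rw [this]
          exact hy1.trans (by linarith)
        · refine ContinuousLinearMap.opNorm_le_bound _ hε.le fun v => ?_
          show ‖φi.gnsStarAlgHom (a : Unitization ℂ A) (adjoint y v) -
            adjoint y (φ.gnsStarAlgHom (a : Unitization ℂ A) v)‖ ≤ _
          have e1 : ∀ f, ‖⟪f, φi.gnsStarAlgHom (a : Unitization ℂ A) (adjoint y v) -
              adjoint y (φ.gnsStarAlgHom (a : Unitization ℂ A) v)⟫_ℂ‖ ≤
              1 / (n + 1) * ‖v‖ * ‖f‖ := by
            intro f
            have e2 : ⟪f, φi.gnsStarAlgHom (a : Unitization ℂ A) (adjoint y v) -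
              adjoint y (φ.gnsStarAlgHom (a : Unitization ℂ A) v)⟫_ℂ =
              -⟪((φ.gnsStarAlgHom ((star a : A) : Unitization ℂ A)).comp y -
            y.comp (φi.gnsStarAlgHom ((star a : A) : Unitization ℂ A))) f, v⟫_ℂ := by
              rw [inner_sub_right, rep_adj, adjoint_inner_right, adjoint_inner_right, rep_adj,
                sub_apply, comp_apply, comp_apply, inner_sub_left]
              ring
            rw [e2, norm_neg]
            refine (norm_inner_le_norm _ _).trans ?_
            have e3 := (ContinuousLinearMap.le_opNorm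
              ((φ.gnsStarAlgHom ((star a : A) : Unitization ℂ A)).comp y -
            y.comp (φi.gnsStarAlgHom ((star a : A) : Unitization ℂ A))) f)
            calc _ ≤ (1 / (n + 1) * ‖f‖) * ‖v‖ := by
                  refine mul_le_mul_of_nonneg_right (e3.trans ?_) (norm_nonneg _)
                  exact mul_le_mul_of_nonneg_right (hy2'' a ha) (norm_nonneg _)
              _ = _ := by ring
          have e4 := e1 (φi.gnsStarAlgHom (a : Unitization ℂ A) (adjoint y v) -
              adjoint y (φ.gnsStarAlgHom (a : Unitization ℂ A) v))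
          rw [inner_self_eq_norm_sq_to_K] at e4
          have e5 : ‖((‖φi.gnsStarAlgHom (a : Unitization ℂ A) (adjoint y v) -
              adjoint y (φ.gnsStarAlgHom (a : Unitization ℂ A) v)‖ : ℂ)) ^ 2‖ =
              ‖φi.gnsStarAlgHom (a : Unitization ℂ A) (adjoint y v) -
              adjoint y (φ.gnsStarAlgHom (a : Unitization ℂ A) v)‖ ^ 2 := by
            rw [norm_pow, Complex.norm_real, norm_norm]
          by_cases h0 : ‖φi.gnsStarAlgHom (a : Unitization ℂ A) (adjoint y v) -
              adjoint y (φ.gnsStarAlgHom (a : Unitization ℂ A) v)‖ = 0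
          · rw [h0]
            positivity
          · have h3 := lt_of_le_of_ne (norm_nonneg _) (Ne.symm h0)
            refine le_of_mul_le_mul_right ?_ h3
            rw [← sq, ← e5]
            exact e4
        · show ‖⟪ξi, adjoint y (ξ k)⟫_ℂ - 1‖ ≤ _
          have e1 := hy3 ξi
          rw [hξi1, hξin, mul_one] at e1
          rw [adjoint_inner_right, ← inner_conj_symm, ← RCLike.norm_conj, map_sub, map_one,
            Complex.conj_conj]
          exact e1 }
  exact not_vanish_of_data D (par_dual _)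

end

end CS

end Pool.Agent.MP_a77edb_an
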