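import Mathlib

/-!
# Orthogonal sequences in infinite-dimensional C*-algebras
-/

set_option autoImplicit false
set_option linter.unusedSectionVars false

noncomputable section

namespace Pool.Agent.MP_a77edb_an

universe u v w

open Filter Topology

namespace CS

variable {A : Type u} [NonUnitalCStarAlgebra A]

/-! ### Norms of sums of orthogonal elements -/

theorem norm_sum_pow_le (s : Finset ℕ) (n : ℕ) (c : ℕ → A) (hc : ∀ j, IsSelfAdjoint (c j))
    (horth : ∀ i ∈ s, ∀ j ∈ s, i ≠ j → c i * c j = 0) (hc1 : ∀ j, ‖c j‖ ≤ 1) :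
    ‖∑ j ∈ s, c j‖ ^ (2 ^ n) ≤ s.card := by
  induction n generalizing c with
  | zero =>
    rw [pow_zero, pow_one]
    refine (norm_sum_le _ _).trans ?_
    refine (Finset.sum_le_sum fun j _ => hc1 j).trans ?_
    simp
  | succ n ih =>
    have hsa : IsSelfAdjoint (∑ j ∈ s, c j) := by
      rw [IsSelfAdjoint, star_sum]
      exact Finset.sum_congr rfl fun j _ => (hc j).star_eq
    have h1 : ‖∑ j ∈ s, c j‖ ^ 2 = ‖(∑ j ∈ s, c j) * (∑ j ∈ s, c j)‖ := by
      have h2 := CStarRing.norm_star_mul_self (x := ∑ j ∈ s, c j)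
      rw [hsa.star_eq] at h2
      rw [h2, sq]
    have h2 : (∑ j ∈ s, c j) * (∑ j ∈ s, c j) = ∑ j ∈ s, c j * c j := by
      rw [Finset.sum_mul]
      refine Finset.sum_congr rfl fun i hi => ?_
      rw [Finset.mul_sum, Finset.sum_eq_single i]
      · intro j hj hji
        exact horth i hi j hj hji.symm
      · intro h
        exact absurd hi h
    rw [pow_succ, mul_comm, pow_mul, h1, h2]
    refine ih (fun j => c j * c j) (fun j => ?_) (fun i hi j hj hij => ?_) (fun j => ?_)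
    · rw [IsSelfAdjoint, star_mul, (hc j).star_eq]
    · rw [mul_assoc, ← mul_assoc (c i) (c j), horth i hi j hj hij, zero_mul, mul_zero]
    · refine (norm_mul_le _ _).trans ?_
      exact mul_le_one₀ (hc1 j) (norm_nonneg _) (hc1 j)

theorem norm_sum_orth_le (s : Finset ℕ) (c : ℕ → A) (hc : ∀ j, IsSelfAdjoint (c j))
    (horth : ∀ i ∈ s, ∀ j ∈ s, i ≠ j → c i * c j = 0) (hc1 : ∀ j, ‖c j‖ ≤ 1) :
    ‖∑ j ∈ s, c j‖ ≤ 1 := by
  by_contra hcon
  push Not at hcon
  obtain ⟨n, hn⟩ := pow_unbounded_of_one_lt (s.card : ℝ) hcon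
  have h1 : ‖∑ j ∈ s, c j‖ ^ n ≤ ‖∑ j ∈ s, c j‖ ^ (2 ^ n) :=
    pow_le_pow_right₀ hcon.le (Nat.lt_two_pow_self).le
  have h2 := norm_sum_pow_le s n c hc horth hc1
  linarith

theorem norm_sum_smul_le (b : ℕ → A) (hb : ∀ j, IsSelfAdjoint (b j))
    (horth : ∀ i j, i ≠ j → b i * b j = 0) (hb1 : ∀ j, ‖b j‖ ≤ 1) (n : ℕ) (κ : ℕ → ℕ)
    (hκ : Function.Injective κ) (δ : ℕ → ℂ) (hδ : ∀ j, ‖δ j‖ ≤ 1) :
    ‖∑ j ∈ Finset.range n, δ j • b (κ j)‖ ≤ 2 := by
  have key : ∀ r : ℕ → ℝ, (∀ j, |r j| ≤ 1) →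
      ‖∑ j ∈ Finset.range n, (r j : ℂ) • b (κ j)‖ ≤ 1 := by
    intro r hr
    refine norm_sum_orth_le _ _ (fun j => ?_) (fun i _ j _ hij => ?_) (fun j => ?_)
    · rw [IsSelfAdjoint, star_smul, (hb _).star_eq]
      simp
    · rw [smul_mul_smul_comm, horth _ _ fun h => hij (hκ h), smul_zero]
    · rw [norm_smul, Complex.norm_real, Real.norm_eq_abs]
      exact mul_le_one₀ (hr j) (norm_nonneg _) (hb1 _)
  have h1 : ∑ j ∈ Finset.range n, δ j • b (κ j) =
      ∑ j ∈ Finset.range n, ((δ j).re : ℂ) • b (κ j) +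
      Complex.I • ∑ j ∈ Finset.range n, ((δ j).im : ℂ) • b (κ j) := by
    rw [Finset.smul_sum, ← Finset.sum_add_distrib]
    refine Finset.sum_congr rfl fun j _ => ?_
    rw [smul_smul, ← add_smul]
    congr 1
    rw [mul_comm, Complex.re_add_im]
  rw [h1]
  refine (norm_add_le _ _).trans ?_
  rw [norm_smul, Complex.norm_I, one_mul]
  have e1 := key (fun j => (δ j).re) fun j => (Complex.abs_re_le_norm _).trans (hδ j)
  have e2 := key (fun j => (δ j).im) fun j => (Complex.abs_im_le_norm _).trans (hδ j)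
  linarith

/-! ### An element with infinite spectrum -/

theorem exists_orth_of_infinite (h : A) (hh : IsSelfAdjoint h)
    (hinf : (quasispectrum ℝ h).Infinite) :
    ∃ b c : ℕ → A, (∀ k, IsSelfAdjoint (b k)) ∧ (∀ i j, i ≠ j → b i * b j = 0) ∧
      (∀ k, b k * c k = c k) ∧ (∀ k, c k ≠ 0) ∧ ∀ k, ‖b k‖ ≤ 1 := by
  have : Infinite (quasispectrum ℝ h) := hinf.to_subtype
  obtain ⟨U, hUinf, hUo, hUd⟩ := exists_seq_infinite_isOpen_pairwise_disjoint (quasispectrum ℝ h)
  have hsel : ∀ n, ∃ t : quasispectrum ℝ h, t ∈ U n ∧ (t : ℝ) ≠ 0 := by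
    intro n
    obtain ⟨t, ht, ht'⟩ := (hUinf n).exists_notMem_finset
      ({⟨0, quasispectrum.zero_mem ℝ h⟩} : Finset (quasispectrum ℝ h))
    refine ⟨t, ht, fun h0 => ht' ?_⟩
    rw [Finset.mem_singleton]
    exact Subtype.ext h0
  choose t ht ht0 using hsel
  have hr : ∀ n, ∃ r : ℝ, 0 < r ∧ 2 * r ≤ |(t n : ℝ)| ∧
      ∀ s : quasispectrum ℝ h, |(s : ℝ) - t n| < 2 * r → s ∈ U n := by
    intro n
    obtain ⟨ρ, hρ, hball⟩ := Metric.isOpen_iff.1 (hUo n) (t n) (ht n)
    have h0 : 0 < |(t n : ℝ)| := abs_pos.2 (ht0 n)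
    refine ⟨min (ρ / 2) (|(t n : ℝ)| / 2), by positivity, ?_, fun s hs => ?_⟩
    · have := min_le_right (ρ / 2) (|(t n : ℝ)| / 2)
      linarith
    · apply hball
      rw [Metric.mem_ball, Subtype.dist_eq, Real.dist_eq]
      have := min_le_left (ρ / 2) (|(t n : ℝ)| / 2)
      linarith
  choose r hr0 hr1 hr2 using hr
  let g : ℕ → ℝ → ℝ := fun n s => max 0 (min 1 (2 - |s - t n| / r n))
  let f : ℕ → ℝ → ℝ := fun n s => max 0 (1 - |s - t n| / r n)
  have hgc : ∀ n, Continuous (g n) := fun n => by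
    have h1 := (hr0 n).ne'
    fun_prop
  have hfc : ∀ n, Continuous (f n) := fun n => by
    have h1 := (hr0 n).ne'
    fun_prop
  have hg0' : ∀ n (s : ℝ), 2 * r n ≤ |s - (t n : ℝ)| → g n s = 0 := fun n s hs => by
    refine max_eq_left ?_
    refine (min_le_right _ _).trans ?_
    rw [sub_nonpos, le_div_iff₀ (hr0 n)]
    exact hs
  have hf0' : ∀ n (s : ℝ), r n ≤ |s - (t n : ℝ)| → f n s = 0 := fun n s hs => by
    refine max_eq_left ?_
    rw [sub_nonpos, le_div_iff₀ (hr0 n), one_mul]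
    exact hs
  have hg1' : ∀ n (s : ℝ), |s - (t n : ℝ)| < r n → g n s = 1 := fun n s hs => by
    have h1 : |s - t n| / r n ≤ 1 := by
      rw [div_le_one (hr0 n)]
      exact hs.le
    have h2 : min 1 (2 - |s - t n| / r n) = 1 := min_eq_left (by linarith)
    show max 0 (min 1 (2 - |s - t n| / r n)) = 1
    rw [h2]
    exact max_eq_right zero_le_one
  have hg0 : ∀ n, g n 0 = 0 := fun n => hg0' n 0 (by
    rw [zero_sub, abs_neg]
    exact hr1 n)
  have hf0 : ∀ n, f n 0 = 0 := fun n => hf0' n 0 (by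
    rw [zero_sub, abs_neg]
    have := hr1 n
    have := hr0 n
    linarith)
  refine ⟨fun n => cfcₙ (g n) h, fun n => cfcₙ (f n) h, fun n => IsSelfAdjoint.cfcₙ,
    fun i j hij => ?_, fun n => ?_, fun n h0 => ?_, fun n => ?_⟩
  · show cfcₙ (g i) h * cfcₙ (g j) h = 0
    rw [← cfcₙ_mul (g i) (g j) h (hgc i).continuousOn (hg0 i) (hgc j).continuousOn (hg0 j)]
    rw [← cfcₙ_const_zero ℝ h]
    refine cfcₙ_congr fun s hs => ?_
    show g i s * g j s = 0
    by_cases h1 : 2 * r i ≤ |s - t i|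
    · rw [hg0' i s h1, zero_mul]
    by_cases h2 : 2 * r j ≤ |s - t j|
    · rw [hg0' j s h2, mul_zero]
    push Not at h1 h2
    exact absurd (hr2 j ⟨s, hs⟩ h2) (Set.disjoint_left.1 (hUd hij) (hr2 i ⟨s, hs⟩ h1))
  · show cfcₙ (g n) h * cfcₙ (f n) h = cfcₙ (f n) h
    rw [← cfcₙ_mul (g n) (f n) h (hgc n).continuousOn (hg0 n) (hfc n).continuousOn (hf0 n)]
    refine cfcₙ_congr fun s hs => ?_
    show g n s * f n s = f n s
    by_cases h1 : r n ≤ |s - t n|
    · rw [hf0' n s h1, mul_zero]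
    · push Not at h1
      rw [hg1' n s h1, one_mul]
  · have h1 := norm_apply_le_norm_cfcₙ (f n) h (t n).2 (hfc n).continuousOn (hf0 n) hh
    have h0' : cfcₙ (f n) h = 0 := h0
    rw [h0', norm_zero] at h1
    have h2 : f n (t n) = 1 := by
      show max 0 (1 - |(t n : ℝ) - t n| / r n) = 1
      rw [sub_self, abs_zero, zero_div, sub_zero]
      exact max_eq_right zero_le_one
    rw [h2] at h1
    norm_num at h1
  · refine norm_cfcₙ_le fun s hs => ?_
    rw [Real.norm_of_nonneg (le_max_left _ _)]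
    exact max_le zero_le_one (min_le_left _ _)

/-! ### All spectra finite -/

/-- spectral projection -/
theorem exists_spectral_proj (x : A) (hx : IsSelfAdjoint x) (hx0 : x ≠ 0)
    (hfin : (quasispectrum ℝ x).Finite) :
    ∃ (t : ℝ) (p y : A), t ≠ 0 ∧ IsStarProjection p ∧ p ≠ 0 ∧ p = x * y ∧ p = y * x ∧
      x * p = (t : ℂ) • p := by
  have ht : ∃ t ∈ quasispectrum ℝ x, t ≠ 0 := by
    by_contra hcon
    push Not at hcon
    apply hx0
    rw [← cfcₙ_id' ℝ x hx, ← cfcₙ_const_zero ℝ x]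
    exact cfcₙ_congr fun s hs => hcon s hs
  obtain ⟨t, hts, ht0⟩ := ht
  classical
  let f : ℝ → ℝ := fun s => if s = t then 1 else 0
  let g : ℝ → ℝ := fun s => if s = t then t⁻¹ else 0
  have hfc : ContinuousOn f (quasispectrum ℝ x) := hfin.continuousOn _
  have hgc : ContinuousOn g (quasispectrum ℝ x) := hfin.continuousOn _
  have hf0 : f 0 = 0 := if_neg ht0.symm
  have hg0 : g 0 = 0 := if_neg ht0.symm
  have hidc : ContinuousOn (fun s : ℝ => s) (quasispectrum ℝ x) := continuousOn_id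
  have e1 : cfcₙ f x * cfcₙ f x = cfcₙ f x := by
    rw [← cfcₙ_mul f f x hfc hf0 hfc hf0]
    refine cfcₙ_congr fun s _ => ?_
    show (if s = t then (1 : ℝ) else 0) * (if s = t then (1 : ℝ) else 0) = _
    by_cases h : s = t <;> simp [f, h]
  have e2 : cfcₙ f x = x * cfcₙ g x := by
    conv_rhs => arg 1; rw [← cfcₙ_id' ℝ x hx]
    rw [← cfcₙ_mul _ g x hidc rfl hgc hg0]
    refine cfcₙ_congr fun s _ => ?_
    show (if s = t then (1 : ℝ) else 0) = s * (if s = t then t⁻¹ else 0)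
    by_cases h : s = t
    · rw [if_pos h, if_pos h, h, mul_inv_cancel₀ ht0]
    · rw [if_neg h, if_neg h, mul_zero]
  have e3 : cfcₙ f x = cfcₙ g x * x := by
    conv_rhs => arg 2; rw [← cfcₙ_id' ℝ x hx]
    rw [← cfcₙ_mul g _ x hgc hg0 hidc rfl]
    refine cfcₙ_congr fun s _ => ?_
    show (if s = t then (1 : ℝ) else 0) = (if s = t then t⁻¹ else 0) * s
    by_cases h : s = t
    · rw [if_pos h, if_pos h, h, inv_mul_cancel₀ ht0]
    · rw [if_neg h, if_neg h, zero_mul]
  have e4 : x * cfcₙ f x = (t : ℂ) • cfcₙ f x := by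
    conv_lhs => arg 1; rw [← cfcₙ_id' ℝ x hx]
    rw [← cfcₙ_mul _ f x hidc rfl hfc hf0]
    have e5 : (t : ℂ) • cfcₙ f x = t • cfcₙ f x := by simp
    rw [e5, ← cfcₙ_const_mul t f x hfc hf0]
    refine cfcₙ_congr fun s _ => ?_
    show s * (if s = t then (1 : ℝ) else 0) = t * (if s = t then (1 : ℝ) else 0)
    by_cases h : s = t
    · rw [if_pos h, h]
    · rw [if_neg h, mul_zero, mul_zero]
  refine ⟨t, cfcₙ f x, cfcₙ g x, ht0, ⟨e1, IsSelfAdjoint.cfcₙ⟩, fun h0 => ?_, e2, e3, e4⟩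
  have h1 := norm_apply_le_norm_cfcₙ f x hts hfc hf0 hx
  rw [h0, norm_zero] at h1
  have h2 : f t = 1 := if_pos rfl
  rw [h2] at h1
  norm_num at h1

/-- minimal projections -/
def MinP (e : A) : Prop := IsStarProjection e ∧ e ≠ 0 ∧ ∀ a, ∃ z : ℂ, e * a * e = z • e

/-- splitting of non-minimal projections -/
theorem exists_smaller (hfin : ∀ x : A, IsSelfAdjoint x → (quasispectrum ℝ x).Finite) (q : A)
    (hq : IsStarProjection q) (hq0 : q ≠ 0) (hmin : ¬ MinP q) :
    ∃ p : A, IsStarProjection p ∧ p ≠ 0 ∧ p ≠ q ∧ q * p = p := by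
  have h1 : ∃ a, ∀ z : ℂ, q * a * q ≠ z • q := by
    by_contra hcon
    push Not at hcon
    exact hmin ⟨hq, hq0, hcon⟩
  obtain ⟨a, ha⟩ := h1
  -- a self-adjoint element of the corner which is not a multiple of `q`
  have h2 : ∃ r : A, IsSelfAdjoint r ∧ ∀ z : ℂ, q * r * q ≠ z • q := by
    by_contra hcon
    push Not at hcon
    obtain ⟨z₁, hz₁⟩ := hcon (realPart a : A) (realPart a).2
    obtain ⟨z₂, hz₂⟩ := hcon (imaginaryPart a : A) (imaginaryPart a).2
    apply ha (z₁ + Complex.I * z₂)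
    conv_lhs => rw [← realPart_add_I_smul_imaginaryPart a]
    rw [mul_add, add_mul, mul_smul_comm, smul_mul_assoc, hz₁, hz₂, add_smul, smul_smul]
  obtain ⟨r, hr, hrz⟩ := h2
  have hqq : q * q = q := hq.isIdempotentElem
  have hqs : star q = q := hq.isSelfAdjoint
  have hxsa : IsSelfAdjoint (q * r * q) := by
    rw [IsSelfAdjoint, star_mul, star_mul, hqs, hr.star_eq, mul_assoc]
  have hx0 : q * r * q ≠ 0 := by
    intro h0
    apply hrz 0
    rw [h0, zero_smul]
  obtain ⟨t, p, y, ht, hp, hp0, hpx, hpy, hxp⟩ := exists_spectral_proj _ hxsa hx0 (hfin _ hxsa)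
  refine ⟨p, hp, hp0, fun hpq => ?_, ?_⟩
  · apply hrz t
    rw [hpq, mul_assoc (q * r), hqq] at hxp
    exact hxp
  · rw [hpx, ← mul_assoc, ← mul_assoc, ← mul_assoc, hqq]

theorem exists_min (hfin : ∀ x : A, IsSelfAdjoint x → (quasispectrum ℝ x).Finite)
    (hNI : ¬ ∃ p : ℕ → A, (∀ k, IsStarProjection (p k)) ∧ (∀ k, p k ≠ 0) ∧
      ∀ i j, i ≠ j → p i * p j = 0)
    (p₀ : A) (hp₀ : IsStarProjection p₀) (hp₀0 : p₀ ≠ 0) : ∃ q, MinP q ∧ p₀ * q = q := by
  by_contra hcon
  push Not at hcon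
  apply hNI
  have hnext : ∀ q : {q : A // IsStarProjection q ∧ q ≠ 0 ∧ p₀ * q = q},
      ∃ q' : {q : A // IsStarProjection q ∧ q ≠ 0 ∧ p₀ * q = q},
        (q' : A) ≠ q ∧ (q : A) * q' = q' := by
    rintro ⟨q, hq, hq0, hpq⟩
    obtain ⟨p, hp, hp0, hpq', hqp⟩ := exists_smaller hfin q hq hq0 fun h => hcon q h hpq
    refine ⟨⟨p, hp, hp0, ?_⟩, hpq', hqp⟩
    rw [← hqp, ← mul_assoc, hpq]
  choose next hnext1 hnext2 using hnext
  obtain ⟨Q, hQs⟩ : ∃ Q : ℕ → {q : A // IsStarProjection q ∧ q ≠ 0 ∧ p₀ * q = q},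
      ∀ n, Q (n + 1) = next (Q n) :=
    ⟨fun n => Nat.rec ⟨p₀, hp₀, hp₀0, hp₀.isIdempotentElem⟩ (fun _ q => next q) n, fun n => rfl⟩
  obtain ⟨q, hq⟩ : ∃ q : ℕ → A, ∀ n, q n = Subtype.val (Q n) := ⟨_, fun n => rfl⟩
  have hproj : ∀ n, IsStarProjection (q n) := fun n => by
    rw [hq]
    exact (Q n).2.1
  have hne : ∀ n, q (n + 1) ≠ q n := fun n => by
    rw [hq, hq, hQs]
    exact hnext1 (Q n)
  have hstep : ∀ n, q n * q (n + 1) = q (n + 1) := fun n => by
    rw [hq, hq, hQs]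
    exact hnext2 (Q n)
  have hmul : ∀ i k : ℕ, q i * q (i + k) = q (i + k) := by
    intro i k
    induction k with
    | zero => exact (hproj i).isIdempotentElem
    | succ k ih =>
      have h1 : q (i + k) * q (i + (k + 1)) = q (i + (k + 1)) := hstep (i + k)
      rw [← h1, ← mul_assoc, ih]
  have hmul' : ∀ i j, i ≤ j → q i * q j = q j := fun i j hij => by
    obtain ⟨k, rfl⟩ := Nat.exists_eq_add_of_le hij
    exact hmul i k
  have hstar : ∀ i, star (q i) = q i := fun i => (hproj i).isSelfAdjoint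
  have hmul'' : ∀ i j, i ≤ j → q j * q i = q j := fun i j hij => by
    have := congrArg star (hmul' i j hij)
    rwa [star_mul, hstar, hstar] at this
  have horth : ∀ i j, i < j → (q i - q (i + 1)) * (q j - q (j + 1)) = 0 := by
    intro i j hij
    rw [sub_mul, mul_sub, mul_sub, hmul' i j hij.le, hmul' i (j + 1) (by omega),
      hmul' (i + 1) j (by omega), hmul' (i + 1) (j + 1) (by omega)]
    abel
  refine ⟨fun n => q n - q (n + 1), fun n => ⟨?_, ?_⟩, fun n h0 => ?_, fun i j hij => ?_⟩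
  · show (q n - q (n + 1)) * (q n - q (n + 1)) = q n - q (n + 1)
    rw [sub_mul, mul_sub, mul_sub, hmul' n n le_rfl, hmul' n (n + 1) (by omega),
      hmul'' n (n + 1) (by omega), hmul' (n + 1) (n + 1) le_rfl]
    abel
  · rw [IsSelfAdjoint, star_sub, hstar, hstar]
  · exact hne n (sub_eq_zero.1 h0).symm
  · rcases lt_or_gt_of_ne hij with h | h
    · exact horth i j h
    · have h1 := congrArg star (horth j i h)
      rw [star_mul, star_sub, star_sub, hstar, hstar, hstar, hstar, star_zero] at h1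
      exact h1

theorem finiteDimensional_of (hfin : ∀ x : A, IsSelfAdjoint x → (quasispectrum ℝ x).Finite)
    (hNI : ¬ ∃ p : ℕ → A, (∀ k, IsStarProjection (p k)) ∧ (∀ k, p k ≠ 0) ∧
      ∀ i j, i ≠ j → p i * p j = 0) : FiniteDimensional ℂ A := by
  classical
  -- a maximal orthogonal family of minimal projections
  obtain ⟨M, hM⟩ := zorn_subset {M : Set A | (∀ x ∈ M, MinP x) ∧
      ∀ x ∈ M, ∀ y ∈ M, x ≠ y → x * y = 0} (fun c hc hchain => by
    refine ⟨⋃₀ c, ⟨fun x hx => ?_, fun x hx y hy hxy => ?_⟩, fun s hs =>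
      Set.subset_sUnion_of_mem hs⟩
    · obtain ⟨s, hs, hxs⟩ := hx
      exact (hc hs).1 x hxs
    · obtain ⟨s, hs, hxs⟩ := hx
      obtain ⟨s', hs', hys⟩ := hy
      rcases hchain.total hs hs' with h | h
      · exact (hc hs').2 x (h hxs) y hys hxy
      · exact (hc hs).2 x hxs y (h hys) hxy)
  have hMin := hM.prop.1
  have hMorth := hM.prop.2
  have hMfin : M.Finite := by
    by_contra hinf
    have hinf' : M.Infinite := hinf
    apply hNI
    let f := hinf'.natEmbedding M
    refine ⟨fun n => f n, fun n => (hMin _ (f n).2).1, fun n => (hMin _ (f n).2).2.1,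
      fun i j hij => ?_⟩
    refine hMorth _ (f i).2 _ (f j).2 fun h => hij ?_
    exact f.injective (Subtype.ext h)
  -- no projection is orthogonal to the family
  have hmax : ∀ p : A, IsStarProjection p → (∀ x ∈ M, x * p = 0) → p = 0 := by
    intro p hp hxp
    by_contra hp0
    obtain ⟨q, hq, hpq⟩ := exists_min hfin hNI p hp hp0
    have hxq : ∀ x ∈ M, x * q = 0 := fun x hx => by
      rw [← hpq, ← mul_assoc, hxp x hx, zero_mul]
    have hqx : ∀ x ∈ M, q * x = 0 := fun x hx => by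
      have := congrArg star (hxq x hx)
      rwa [star_mul, hq.1.isSelfAdjoint.star_eq, (hMin x hx).1.isSelfAdjoint.star_eq,
        star_zero] at this
    have hmem : insert q M ∈ {M : Set A | (∀ x ∈ M, MinP x) ∧
        ∀ x ∈ M, ∀ y ∈ M, x ≠ y → x * y = 0} := by
      refine ⟨fun x hx => ?_, fun x hx y hy hxy => ?_⟩
      · rcases hx with rfl | hx
        · exact hq
        · exact hMin x hx
      · rcases hx with rfl | hx
        · rcases hy with rfl | hy
          · exact absurd rfl hxy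
          · exact hqx y hy
        · rcases hy with rfl | hy
          · exact hxq x hx
          · exact hMorth x hx y hy hxy
    have hqM : q ∈ M := hM.le_of_ge hmem (Set.subset_insert q M) (Set.mem_insert q M)
    have h1 := hxq q hqM
    have h2 : q * q = q := hq.1.isIdempotentElem
    rw [h2] at h1
    exact hq.2.1 h1
  -- the unit
  let e : A := ∑ x ∈ hMfin.toFinset, x
  have hxe : ∀ x ∈ M, x * e = x := by
    intro x hx
    show x * ∑ y ∈ hMfin.toFinset, y = x
    rw [Finset.mul_sum, Finset.sum_eq_single x]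
    · exact (hMin x hx).1.isIdempotentElem
    · intro y hy hyx
      exact hMorth x hx y (hMfin.mem_toFinset.1 hy) hyx.symm
    · intro h
      exact absurd (hMfin.mem_toFinset.2 hx) h
  have hesa : star e = e := by
    show star (∑ y ∈ hMfin.toFinset, y) = ∑ y ∈ hMfin.toFinset, y
    rw [star_sum]
    exact Finset.sum_congr rfl fun y hy =>
      (hMin y (hMfin.mem_toFinset.1 hy)).1.isSelfAdjoint.star_eq
  have hz : ∀ a : A, IsSelfAdjoint a → a - e * a - a * e + e * a * e = 0 := by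
    intro a ha
    by_contra h0
    have hsa : IsSelfAdjoint (a - e * a - a * e + e * a * e) := by
      rw [IsSelfAdjoint, star_add, star_sub, star_sub, star_mul, star_mul, star_mul, star_mul,
        hesa, ha.star_eq, ← mul_assoc]
      abel
    obtain ⟨t, p, y, ht, hp, hp0, hpx, hpy, hxp⟩ := exists_spectral_proj _ hsa h0 (hfin _ hsa)
    apply hp0
    refine hmax p hp fun x hx => ?_
    rw [hpx, ← mul_assoc]
    have h1 : x * (a - e * a - a * e + e * a * e) = 0 := by
      rw [mul_add, mul_sub, mul_sub, ← mul_assoc x e a, hxe x hx, ← mul_assoc x (e * a) e,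
        ← mul_assoc x e a, hxe x hx, ← mul_assoc]
      abel
    rw [h1, zero_mul]
  have hae : ∀ a : A, a * e = a := by
    intro a
    have h1 := hz (star a * a) (IsSelfAdjoint.star_mul_self a)
    have h2 : star (a - a * e) * (a - a * e) =
        star a * a - e * (star a * a) - star a * a * e + e * (star a * a) * e := by
      rw [star_sub, star_mul, hesa]
      noncomm_ring
    rw [← h2] at h1
    have h3 := CStarRing.star_mul_self_eq_zero_iff (a - a * e) |>.1 h1
    exact (sub_eq_zero.1 h3).symm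
  have hea : ∀ a : A, e * a = a := by
    intro a
    have := congrArg star (hae (star a))
    rwa [star_mul, hesa, star_star] at this
  -- the corners
  have hcorner : ∀ p ∈ M, ∀ q ∈ M, ∃ v : A, ∀ a, ∃ z : ℂ, p * a * q = z • v := by
    intro p hp q hq
    by_cases hall : ∀ a, p * a * q = 0
    · exact ⟨0, fun a => ⟨0, by rw [hall, zero_smul]⟩⟩
    push Not at hall
    obtain ⟨a₀, ha₀⟩ := hall
    refine ⟨p * a₀ * q, fun a => ?_⟩
    have hpp : p * p = p := (hMin p hp).1.isIdempotentElem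
    have hqq : q * q = q := (hMin q hq).1.isIdempotentElem
    have hps : star p = p := (hMin p hp).1.isSelfAdjoint
    have hqs : star q = q := (hMin q hq).1.isSelfAdjoint
    obtain ⟨μ, hμ⟩ := (hMin p hp).2.2 (a₀ * q * star a₀)
    obtain ⟨ν, hν⟩ := (hMin q hq).2.2 (star a₀ * p * a)
    have hvv : (p * a₀ * q) * star (p * a₀ * q) = μ • p := by
      rw [← hμ, star_mul, star_mul, hps, hqs]
      calc p * a₀ * q * (q * (star a₀ * p)) = p * a₀ * (q * q) * (star a₀ * p) := by
            simp only [mul_assoc]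
        _ = p * (a₀ * q * star a₀) * p := by rw [hqq]; simp only [mul_assoc]
    have hμ0 : μ ≠ 0 := by
      intro h0
      rw [h0, zero_smul] at hvv
      exact ha₀ (CStarRing.mul_star_self_eq_zero_iff _ |>.1 hvv)
    have hvw : star (p * a₀ * q) * (p * a * q) = ν • q := by
      rw [← hν, star_mul, star_mul, hps, hqs]
      calc q * (star a₀ * p) * (p * a * q) = q * (star a₀ * (p * p) * a) * q := by
            simp only [mul_assoc]
        _ = q * (star a₀ * p * a) * q := by rw [hpp]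
    refine ⟨μ⁻¹ * ν, ?_⟩
    have h1 : μ • (p * a * q) = ν • (p * a₀ * q) := by
      calc μ • (p * a * q) = (μ • p) * (p * a * q) := by
            rw [smul_mul_assoc, ← mul_assoc, ← mul_assoc, hpp]
        _ = (p * a₀ * q) * (star (p * a₀ * q) * (p * a * q)) := by rw [← hvv, mul_assoc]
        _ = (p * a₀ * q) * (ν • q) := by rw [hvw]
        _ = ν • (p * a₀ * q) := by rw [mul_smul_comm, mul_assoc, hqq]
    rw [mul_smul, ← h1, smul_smul, inv_mul_cancel₀ hμ0, one_smul]
  choose! v hv using hcorner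
  -- conclusion
  have hspan : ∀ a : A, a ∈ Submodule.span ℂ
      ((hMfin.toFinset ×ˢ hMfin.toFinset).image fun x : A × A => v x.1 x.2 : Finset A) := by
    intro a
    have h1 : a = ∑ p ∈ hMfin.toFinset, ∑ q ∈ hMfin.toFinset, p * a * q := by
      have h2 : a = e * a * e := by rw [hae, hea]
      conv_lhs => rw [h2]
      show (∑ x ∈ hMfin.toFinset, x) * a * (∑ x ∈ hMfin.toFinset, x) = _
      rw [Finset.sum_mul, Finset.sum_mul]
      refine Finset.sum_congr rfl fun p _ => ?_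
      rw [Finset.mul_sum]
    rw [h1]
    refine Submodule.sum_mem _ fun p hp => Submodule.sum_mem _ fun q hq => ?_
    obtain ⟨z, hz⟩ := hv p (hMfin.mem_toFinset.1 hp) q (hMfin.mem_toFinset.1 hq) a
    rw [hz]
    refine Submodule.smul_mem _ _ (Submodule.subset_span ?_)
    rw [Finset.coe_image]
    exact ⟨(p, q), by simpa using ⟨hMfin.mem_toFinset.1 hp, hMfin.mem_toFinset.1 hq⟩, rfl⟩
  exact ⟨⟨_, Submodule.eq_top_iff'.2 hspan⟩⟩

end CS

end Pool.Agent.MP_a77edb_an
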