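import Pool.Agent.MP_a77edb_an.CData
import Pool.Agent.MP_a77edb_an.COrth

/-!
# Infinite-dimensional C*-algebras
-/

set_option autoImplicit false
set_option linter.unusedSectionVars false

noncomputable section

namespace Pool.Agent.MP_a77edb_an

universe u

namespace CS

variable {A : Type u} [NonUnitalCStarAlgebra A]

/-- An infinite-dimensional C*-algebra contains an orthogonal sequence of self-adjoint contractions
with nonzero local units. -/
theorem exists_orth (hA : ¬ FiniteDimensional ℂ A) :
    ∃ b c : ℕ → A, (∀ k, IsSelfAdjoint (b k)) ∧ (∀ i j, i ≠ j → b i * b j = 0) ∧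
      (∀ k, b k * c k = c k) ∧ (∀ k, c k ≠ 0) ∧ ∀ k, ‖b k‖ ≤ 1 := by
  by_cases hinf : ∃ h : A, IsSelfAdjoint h ∧ (quasispectrum ℝ h).Infinite
  · obtain ⟨h, hh, hi⟩ := hinf
    exact exists_orth_of_infinite h hh hi
  push Not at hinf
  have hfin : ∀ x : A, IsSelfAdjoint x → (quasispectrum ℝ x).Finite := fun x hx => hinf x hx
  by_cases hNI : ∃ p : ℕ → A, (∀ k, IsStarProjection (p k)) ∧ (∀ k, p k ≠ 0) ∧
      ∀ i j, i ≠ j → p i * p j = 0
  · obtain ⟨p, hp, hp0, horth⟩ := hNI
    refine ⟨p, p, fun k => (hp k).isSelfAdjoint, horth, fun k => (hp k).isIdempotentElem, hp0,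
      fun k => ?_⟩
    have h1 := CStarRing.norm_star_mul_self (x := p k)
    rw [(hp k).isSelfAdjoint.star_eq, (hp k).isIdempotentElem] at h1
    nlinarith [norm_nonneg (p k)]
  · exact absurd (finiteDimensional_of hfin hNI) hA

/-- An infinite-dimensional C*-algebra does not have the vanishing property. -/
theorem not_vanish (hA : ¬ FiniteDimensional ℂ A) : ¬ Vanish A := by
  obtain ⟨b, c, hb, horth, hbc, hc, hb1⟩ := exists_orth hA
  exact not_vanish_of_orth b c 2 hb horth hbc hc (fun k => (hb1 k).trans (by norm_num))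
    (fun n κ hκ δ hδ => norm_sum_smul_le b hb horth hb1 n κ hκ δ hδ)

/-- Both assertions for infinite-dimensional C*-algebras. -/
theorem one_lt_dg_and_db (hA : ¬ FiniteDimensional ℂ A) : 1 < dg A ∧ 1 < db A := by
  have h := not_vanish hA
  constructor
  · by_contra hcon
    exact h (vanish_of_dg (not_lt.1 hcon))
  · by_contra hcon
    exact h (vanish_of_db (not_lt.1 hcon))

end CS

end Pool.Agent.MP_a77edb_an
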