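import Pool.Agent.MP_a77edb_an.CNet
import Pool.Agent.MP_a77edb_an.CBlocks

/-!
# The modules and the 1-cocycles
-/

set_option autoImplicit false
set_option linter.unusedSectionVars false

noncomputable section

namespace Pool.Agent.MP_a77edb_an

universe u v w

open ContinuousLinearMap Filter Topology
open scoped ENNReal

namespace CS

open PT

/-! ### The twisted action -/

section Twist

variable {A : Type u} [NonUnitalNormedRing A] [NormedSpace ℂ A]
  [IsScalarTower ℂ A A] [SMulCommClass ℂ A A] [CompleteSpace A]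
variable {Z : Type u} [NormedAddCommGroup Z] [NormedSpace ℂ Z] [CompleteSpace Z]
variable {Z' : Type u} [NormedAddCommGroup Z'] [NormedSpace ℂ Z'] [CompleteSpace Z']

/-- `c ⊗ z ↦ c z`. -/
def sig (aZ : A →L[ℂ] Z →L[ℂ] Z) : PT A Z →L[ℂ] Z := lift aZ

theorem sig_tmul (aZ : A →L[ℂ] Z →L[ℂ] Z) (c : A) (z : Z) :
    sig aZ (tmul c z : PT A Z) = aZ c z := lift_tmul _ _ _

theorem sig_lact (aZ : A →L[ℂ] Z →L[ℂ] Z) (haZ : ∀ a b z, aZ (a * b) z = aZ a (aZ b z))
    (a : A) (t : PT A Z) : sig aZ (lact a t) = aZ a (sig aZ t) := by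
  have h : (sig aZ).comp (lact a : PT A Z →L[ℂ] PT A Z) = (aZ a).comp (sig aZ) := by
    refine ext' fun u z => ?_
    rw [comp_apply, lact_tmul, sig_tmul, comp_apply, sig_tmul, haZ]
  exact congrArg (fun (T : PT A Z →L[ℂ] Z) => T t) h

theorem sig_mapR (aZ : A →L[ℂ] Z →L[ℂ] Z) (aZ' : A →L[ℂ] Z' →L[ℂ] Z') (R : Z →L[ℂ] Z')
    (hR : ∀ a z, R (aZ a z) = aZ' a (R z)) (t : PT A Z) :
    sig aZ' (mapR R t) = R (sig aZ t) := by
  have h : (sig aZ').comp (mapR R : PT A Z →L[ℂ] PT A Z') = R.comp (sig aZ) := by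
    refine ext' fun u z => ?_
    rw [comp_apply, mapR_tmul, sig_tmul, comp_apply, sig_tmul, hR]
  exact congrArg (fun (T : PT A Z →L[ℂ] Z') => T t) h

/-- `A ⊗ Z` with the action `a * t = a t - a ⊗ σ t`. -/
def twMod (aZ : A →L[ℂ] Z →L[ℂ] Z) (haZ : ∀ a b z, aZ (a * b) z = aZ a (aZ b z)) :
    LeftMod A where
  carrier := PT A Z
  act := lact - ((compL ℂ (PT A Z) Z (PT A Z)).flip (sig aZ)).comp tmul
  act_mul := fun a b t => by
    show lact (a * b) t - tmul (a * b) (sig aZ t) =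
      lact a (lact b t - tmul b (sig aZ t)) - tmul a (sig aZ (lact b t - tmul b (sig aZ t)))
    rw [map_sub (sig aZ), sig_lact aZ haZ, sig_tmul, sub_self, map_zero, sub_zero, map_sub,
      lact_tmul, lact_mul]

end Twist

/-! ### The data -/

/-- The data for the main argument. -/
structure HData (A E F : Type u) [NonUnitalNormedRing A] [NormedSpace ℂ A]
    [NormedAddCommGroup E] [NormedSpace ℂ E] [NormedAddCommGroup F] [NormedSpace ℂ F] where
  /-- the action on `E` -/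
  aE : A →L[ℂ] E →L[ℂ] E
  aE_mul : ∀ a b x, aE (a * b) x = aE a (aE b x)
  /-- the action on `F` -/
  aF : A →L[ℂ] F →L[ℂ] F
  aF_mul : ∀ a b x, aF (a * b) x = aF a (aF b x)
  /-- a bound -/
  K : ℝ
  /-- orthogonal elements -/
  b : ℕ → A
  norm_b : ∀ k, ‖b k‖ ≤ K
  b_bound : ∀ (n : ℕ) (κ : ℕ → ℕ), Function.Injective κ → ∀ (δ : ℕ → ℂ), (∀ j, ‖δ j‖ ≤ 1) →
    ‖∑ j ∈ Finset.range n, δ j • b (κ j)‖ ≤ K
  b_orth : ∀ i j, i ≠ j → b i * b j = 0
  /-- unit vectors -/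
  ξ : ℕ → E
  norm_ξ : ∀ k, ‖ξ k‖ ≤ 1
  b_ξ : ∀ k, aE (b k) (ξ k) = ξ k
  /-- functionals -/
  η : ℕ → (E →L[ℂ] ℂ)
  norm_η : ∀ k, ‖η k‖ ≤ 1
  η_b : ∀ k v, η k (aE (b k) v) = η k v
  /-- the functional at infinity -/
  ηi : F →L[ℂ] ℂ
  ηi_b : ∀ k v, ηi (aF (b k) v) = 0
  approx : ∀ (S : Finset A) (n : ℕ), ∃ k, n ≤ k ∧ ∃ (x : E →L[ℂ] F) (y : F →L[ℂ] E),
    ‖x‖ ≤ K ∧ ‖y‖ ≤ K ∧ (∀ a ∈ S, ‖(aF a).comp x - x.comp (aE a)‖ ≤ 1 / (n + 1)) ∧
    (∀ a ∈ S, ‖(aE a).comp y - y.comp (aF a)‖ ≤ 1 / (n + 1)) ∧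
    (∀ f, ‖η k (y f) - ηi f‖ ≤ 1 / (n + 1) * ‖f‖) ∧ ‖ηi (x (ξ k)) - 1‖ ≤ 1 / (n + 1)

/-- The data indexed by the net. -/
structure NData (A E F : Type u) [NonUnitalNormedRing A] [NormedSpace ℂ A]
    [NormedAddCommGroup E] [NormedSpace ℂ E] [NormedAddCommGroup F] [NormedSpace ℂ F]
    extends HData A E F where
  /-- index -/
  k : Gam A → ℕ
  /-- almost intertwining operators -/
  x : Gam A → (E →L[ℂ] F)
  /-- almost intertwining operators -/
  y : Gam A → (F →L[ℂ] E)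
  norm_x : ∀ γ, ‖x γ‖ ≤ K
  norm_y : ∀ γ, ‖y γ‖ ≤ K
  tend_k : ∀ n, ∀ᶠ γ in atTop, n ≤ k γ
  tend_x : ∀ a, Tendsto (fun γ => ‖(aF a).comp (x γ) - (x γ).comp (aE a)‖) atTop (𝓝 0)
  tend_y : ∀ a, Tendsto (fun γ => ‖(aE a).comp (y γ) - (y γ).comp (aF a)‖) atTop (𝓝 0)
  tend_η : ∀ f, Tendsto (fun γ => η (k γ) (y γ f)) atTop (𝓝 (ηi f))
  tend_ηi : Tendsto (fun γ => ηi (x γ (ξ (k γ)))) atTop (𝓝 1)

section Net

variable {A E F : Type u} [NonUnitalNormedRing A] [NormedSpace ℂ A]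
    [NormedAddCommGroup E] [NormedSpace ℂ E] [NormedAddCommGroup F] [NormedSpace ℂ F]

/-- auxiliary: convergence along the net -/
theorem tendsto_of_lab [Nonempty A] (a : A) (r : Gam A → ℝ) (h0 : ∀ γ, 0 ≤ r γ)
    (h : ∀ γ, ∀ n : ℕ, (a, n) ∈ γ.lab → r γ ≤ 1 / (n + 1)) : Tendsto r atTop (𝓝 0) := by
  rw [Metric.tendsto_nhds]
  intro ε hε
  obtain ⟨n, hn⟩ := exists_nat_one_div_lt hε
  filter_upwards [Idx.eventually_mem_lab ((a, n) : A × ℕ)] with γ hγ
  rw [Real.dist_eq, sub_zero, abs_of_nonneg (h0 γ)]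
  exact (h γ n hγ).trans_lt hn

theorem HData.exists_ndata (D : HData A E F) : Nonempty (NData A E F) := by
  classical
  have h := fun γ : Gam A => D.approx (γ.lab_finite.toFinset.image Prod.fst)
    (∑ p ∈ γ.lab_finite.toFinset, p.2)
  choose k hk x y h1 h2 h3 h4 h5 h6 using h
  have hle : ∀ γ : Gam A, ∀ a n, (a, n) ∈ γ.lab →
      (1 : ℝ) / (((∑ p ∈ γ.lab_finite.toFinset, p.2 : ℕ) : ℝ) + 1) ≤ 1 / (n + 1) := by
    intro γ a n hn
    have hn' : (a, n) ∈ γ.lab_finite.toFinset := by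
      rw [Set.Finite.mem_toFinset]
      exact hn
    have e1 : n ≤ ∑ p ∈ γ.lab_finite.toFinset, p.2 :=
      Finset.single_le_sum (f := fun p : A × ℕ => p.2) (fun _ _ => Nat.zero_le _) hn'
    have e2 : (n : ℝ) ≤ ((∑ p ∈ γ.lab_finite.toFinset, p.2 : ℕ) : ℝ) := by exact_mod_cast e1
    exact one_div_le_one_div_of_le (by positivity) (by linarith)
  have hmem : ∀ γ : Gam A, ∀ a n, (a, n) ∈ γ.lab →
      a ∈ γ.lab_finite.toFinset.image Prod.fst := by
    intro γ a n hn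
    refine Finset.mem_image.2 ⟨(a, n), ?_, rfl⟩
    rw [Set.Finite.mem_toFinset]
    exact hn
  refine ⟨{ D with
    k := k
    x := x
    y := y
    norm_x := h1
    norm_y := h2
    tend_k := fun n => ?_
    tend_x := fun a => ?_
    tend_y := fun a => ?_
    tend_η := fun f => ?_
    tend_ηi := ?_ }⟩
  · filter_upwards [Idx.eventually_mem_lab ((0, n) : A × ℕ)] with γ hγ
    refine le_trans ?_ (hk γ)
    have hn' : ((0 : A), n) ∈ γ.lab_finite.toFinset := by
      rw [Set.Finite.mem_toFinset]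
      exact hγ
    exact Finset.single_le_sum (f := fun p : A × ℕ => p.2) (fun _ _ => Nat.zero_le _) hn'
  · exact tendsto_of_lab a _ (fun γ => norm_nonneg _) fun γ n hn =>
      (h3 γ a (hmem γ a n hn)).trans (hle γ a n hn)
  · exact tendsto_of_lab a _ (fun γ => norm_nonneg _) fun γ n hn =>
      (h4 γ a (hmem γ a n hn)).trans (hle γ a n hn)
  · rw [tendsto_iff_norm_sub_tendsto_zero]
    have e1 : Tendsto (fun γ : Gam A =>
        (1 : ℝ) / (((∑ p ∈ γ.lab_finite.toFinset, p.2 : ℕ) : ℝ) + 1) * ‖f‖) atTop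
        (𝓝 (0 * ‖f‖)) :=
      (tendsto_of_lab (0 : A) _ (fun γ => by positivity) fun γ n hn => hle γ 0 n hn).mul_const _
    rw [zero_mul] at e1
    exact squeeze_zero (fun γ => norm_nonneg _) (fun γ => h5 γ f) e1
  · rw [tendsto_iff_norm_sub_tendsto_zero]
    exact tendsto_of_lab (0 : A) _ (fun γ => norm_nonneg _) fun γ n hn =>
      (h6 γ).trans (hle γ 0 n hn)

end Net

/-! ### The modules -/

section Modules

variable {A E : Type u} [NonUnitalNormedRing A] [NormedSpace ℂ A]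
    [NormedAddCommGroup E] [NormedSpace ℂ E]
variable (Γ : Type u)

/-- pointwise action on bounded families, as a function -/
def lfun (aE : A →L[ℂ] E →L[ℂ] E) (a : A) (m : Linf Γ E) : Linf Γ E :=
  ⟨fun γ => aE a (m γ), linf_mem (C := ‖aE‖ * ‖a‖ * ‖m‖) fun γ =>
    (aE.le_opNorm₂ a (m γ)).trans (mul_le_mul_of_nonneg_left (linf_apply_le m γ)
      (by positivity))⟩

variable {Γ}

theorem lfun_apply (aE : A →L[ℂ] E →L[ℂ] E) (a : A) (m : Linf Γ E) (γ : Γ) :
    lfun Γ aE a m γ = aE a (m γ) := rfl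

variable (Γ) in
/-- pointwise action on bounded families -/
def lam (aE : A →L[ℂ] E →L[ℂ] E) : A →L[ℂ] Linf Γ E →L[ℂ] Linf Γ E :=
  LinearMap.mkContinuous₂
    (LinearMap.mk₂ ℂ (lfun Γ aE)
      (fun a b x => linf_ext fun γ => by
        rw [linf_add_apply, lfun_apply, lfun_apply, lfun_apply, map_add, add_apply])
      (fun c a x => linf_ext fun γ => by
        rw [linf_smul_apply, lfun_apply, lfun_apply, map_smul, smul_apply])
      (fun a x y => linf_ext fun γ => by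
        rw [linf_add_apply, lfun_apply, lfun_apply, lfun_apply, linf_add_apply, map_add])
      (fun c a x => linf_ext fun γ => by
        rw [linf_smul_apply, lfun_apply, lfun_apply, linf_smul_apply, map_smul])) ‖aE‖
    (fun a m => by
      rw [LinearMap.mk₂_apply]
      refine lp.norm_le_of_forall_le (by positivity) fun γ => ?_
      exact (aE.le_opNorm₂ a (m γ)).trans (mul_le_mul_of_nonneg_left (linf_apply_le m γ)
        (by positivity)))

theorem lam_apply (aE : A →L[ℂ] E →L[ℂ] E) (a : A) (m : Linf Γ E) (γ : Γ) :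
    lam Γ aE a m γ = aE a (m γ) := rfl

variable (Γ) in
/-- The module of bounded families. -/
def lMod [CompleteSpace E] (aE : A →L[ℂ] E →L[ℂ] E)
    (haE : ∀ a b z, aE (a * b) z = aE a (aE b z)) : LeftMod A where
  carrier := Linf Γ E
  act := lam Γ aE
  act_mul := fun a b m => linf_ext fun γ => by
    rw [lam_apply, lam_apply, lam_apply, haE]

variable {F : Type u} [NormedAddCommGroup F] [NormedSpace ℂ F] [Preorder Γ]

variable (Γ) in
/-- pointwise action on families tending to zero, as a function -/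
def zfun (aF : A →L[ℂ] F →L[ℂ] F) (a : A) (m : Z0 Γ F) : Z0 Γ F :=
  mkZ0 (fun γ => aF a (ev γ m))
    (linf_mem (C := ‖aF‖ * ‖a‖ * ‖m‖) fun γ =>
      (aF.le_opNorm₂ a (ev γ m)).trans (mul_le_mul_of_nonneg_left (norm_ev_apply_le γ m)
        (by positivity)))
    (by
      have h := ((aF a).continuous.tendsto 0).comp (tendsto_ev m)
      rw [map_zero] at h
      exact h)

theorem ev_zfun (aF : A →L[ℂ] F →L[ℂ] F) (a : A) (m : Z0 Γ F) (γ : Γ) :
    ev γ (zfun Γ aF a m) = aF a (ev γ m) := rfl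

variable (Γ) in
/-- pointwise action on families tending to zero -/
def zam (aF : A →L[ℂ] F →L[ℂ] F) : A →L[ℂ] Z0 Γ F →L[ℂ] Z0 Γ F :=
  LinearMap.mkContinuous₂
    (LinearMap.mk₂ ℂ (zfun Γ aF)
      (fun a b x => Z0_ext fun γ => by
        rw [map_add, ev_zfun, ev_zfun, ev_zfun, map_add, add_apply])
      (fun c a x => Z0_ext fun γ => by
        rw [map_smul, ev_zfun, ev_zfun, map_smul, smul_apply])
      (fun a x y => Z0_ext fun γ => by
        rw [map_add, ev_zfun, ev_zfun, ev_zfun, map_add, map_add])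
      (fun c a x => Z0_ext fun γ => by
        rw [map_smul, ev_zfun, ev_zfun, map_smul, map_smul])) ‖aF‖
    (fun a m => by
      rw [LinearMap.mk₂_apply]
      refine norm_Z0_le (by positivity) fun γ => ?_
      exact (aF.le_opNorm₂ a (ev γ m)).trans (mul_le_mul_of_nonneg_left (norm_ev_apply_le γ m)
        (by positivity)))

theorem ev_zam (aF : A →L[ℂ] F →L[ℂ] F) (a : A) (m : Z0 Γ F) (γ : Γ) :
    ev γ (zam Γ aF a m) = aF a (ev γ m) := rfl

theorem zam_mul (aF : A →L[ℂ] F →L[ℂ] F) (haF : ∀ a b z, aF (a * b) z = aF a (aF b z))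
    (a b : A) (m : Z0 Γ F) : zam Γ aF (a * b) m = zam Γ aF a (zam Γ aF b m) :=
  Z0_ext fun γ => by rw [ev_zam, ev_zam, ev_zam, haF]

variable (Γ) in
/-- The module of families tending to zero. -/
def zMod [CompleteSpace F] (aF : A →L[ℂ] F →L[ℂ] F)
    (haF : ∀ a b z, aF (a * b) z = aF a (aF b z)) : LeftMod A where
  carrier := Z0 Γ F
  act := zam Γ aF
  act_mul := zam_mul aF haF

end Modules

/-! ### The cocycle -/

section Cocycle

variable {A E F : Type u} [NonUnitalNormedRing A] [NormedSpace ℂ A]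
    [NormedAddCommGroup E] [NormedSpace ℂ E] [NormedAddCommGroup F] [NormedSpace ℂ F]

namespace NData

variable (D : NData A E F)

theorem K_nonneg : 0 ≤ D.K := (norm_nonneg _).trans (D.norm_b 0)

theorem x_le (γ : Gam A) (e : E) : ‖D.x γ e‖ ≤ D.K * ‖e‖ :=
  (D.x γ).le_of_opNorm_le (D.norm_x γ) e

theorem y_le (γ : Gam A) (e : F) : ‖D.y γ e‖ ≤ D.K * ‖e‖ :=
  (D.y γ).le_of_opNorm_le (D.norm_y γ) e

theorem cocFun_bound (a : A) (m : Linf (Gam A) E) (γ : Gam A) :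
    ‖D.aF a (D.x γ (m γ)) - D.x γ (D.aE a (m γ))‖ ≤
      ((‖D.aF‖ + ‖D.aE‖) * D.K) * ‖a‖ * ‖m‖ := by
  have h0 := D.K_nonneg
  have h1 : ‖D.aF a (D.x γ (m γ))‖ ≤ ‖D.aF‖ * ‖a‖ * (D.K * ‖m‖) := by
    refine (D.aF.le_opNorm₂ _ _).trans ?_
    refine mul_le_mul_of_nonneg_left ?_ (by positivity)
    exact (D.x_le γ _).trans (mul_le_mul_of_nonneg_left (linf_apply_le m γ) h0)
  have h2 : ‖D.x γ (D.aE a (m γ))‖ ≤ D.K * (‖D.aE‖ * ‖a‖ * ‖m‖) := by
    refine (D.x_le γ _).trans ?_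
    refine mul_le_mul_of_nonneg_left ?_ h0
    exact (D.aE.le_opNorm₂ _ _).trans (mul_le_mul_of_nonneg_left (linf_apply_le m γ)
      (by positivity))
  have h3 := norm_sub_le (D.aF a (D.x γ (m γ))) (D.x γ (D.aE a (m γ)))
  nlinarith

theorem cocFun_tendsto (a : A) (m : Linf (Gam A) E) :
    Tendsto (fun γ => D.aF a (D.x γ (m γ)) - D.x γ (D.aE a (m γ))) atTop (𝓝 0) := by
  have h := (D.tend_x a).mul_const ‖m‖
  rw [zero_mul] at h
  refine squeeze_zero_norm (fun γ => ?_) h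
  have h1 : D.aF a (D.x γ (m γ)) - D.x γ (D.aE a (m γ)) =
      ((D.aF a).comp (D.x γ) - (D.x γ).comp (D.aE a)) (m γ) := rfl
  rw [h1]
  exact (ContinuousLinearMap.le_opNorm _ _).trans
    (mul_le_mul_of_nonneg_left (linf_apply_le m γ) (norm_nonneg _))

/-- The 1-cocycle, as a function. -/
def cocf (a : A) (m : Linf (Gam A) E) : Z0 (Gam A) F :=
  mkZ0 (fun γ => D.aF a (D.x γ (m γ)) - D.x γ (D.aE a (m γ)))
        (linf_mem (D.cocFun_bound a m)) (D.cocFun_tendsto a m)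

theorem ev_cocf (a : A) (m : Linf (Gam A) E) (γ : Gam A) :
    ev γ (D.cocf a m) = D.aF a (D.x γ (m γ)) - D.x γ (D.aE a (m γ)) := rfl

/-- The 1-cocycle. -/
def coc : A →L[ℂ] Linf (Gam A) E →L[ℂ] Z0 (Gam A) F :=
  LinearMap.mkContinuous₂
    (LinearMap.mk₂ ℂ D.cocf
      (fun a b m => Z0_ext fun γ => by
        rw [map_add, ev_cocf, ev_cocf, ev_cocf, map_add, add_apply, map_add, add_apply, map_add]
        abel)
      (fun c a m => Z0_ext fun γ => by
        rw [map_smul, ev_cocf, ev_cocf, map_smul, smul_apply, map_smul, smul_apply, map_smul,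
          smul_sub])
      (fun a x y => Z0_ext fun γ => by
        rw [map_add, ev_cocf, ev_cocf, ev_cocf, linf_add_apply, map_add, map_add, map_add,
          map_add]
        abel)
      (fun c a x => Z0_ext fun γ => by
        rw [map_smul, ev_cocf, ev_cocf, linf_smul_apply, map_smul, map_smul, map_smul, map_smul,
          smul_sub])) ((‖D.aF‖ + ‖D.aE‖) * D.K)
    (fun a x => by
      have h0 := D.K_nonneg
      rw [LinearMap.mk₂_apply]
      exact norm_Z0_le (by positivity) (D.cocFun_bound a x))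

theorem ev_coc (a : A) (m : Linf (Gam A) E) (γ : Gam A) :
    ev γ (D.coc a m) = D.aF a (D.x γ (m γ)) - D.x γ (D.aE a (m γ)) := rfl

variable [CompleteSpace A] [IsScalarTower ℂ A A] [SMulCommClass ℂ A A]
  [CompleteSpace E] [CompleteSpace F]

/-- The consequence of the vanishing condition. -/
theorem exists_psi (hV : Vanish A) :
    ∃ ψ : A →L[ℂ] Linf (Gam A) E →L[ℂ] PT A (Z0 (Gam A) F), ∀ a b m,
      (tmul a (D.coc b m) : PT A (Z0 (Gam A) F)) =
        (lact a (ψ b m) - tmul a (sig (zam (Gam A) D.aF) (ψ b m))) - ψ (a * b) m +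
          ψ a (lam (Gam A) D.aE b m) := by
  let D₂ : A →L[ℂ] Z0 (Gam A) F →L[ℂ] PT A (Z0 (Gam A) F) := tmul
  have hD₁ : ∀ a b m, D.coc (a * b) m = zam (Gam A) D.aF a (D.coc b m) +
      D.coc a (lam (Gam A) D.aE b m) := fun a b m => by
    refine Z0_ext fun γ => ?_
    rw [map_add, ev_zam, ev_coc, ev_coc, ev_coc, D.aF_mul, D.aE_mul, map_sub, lam_apply]
    abel
  have hD₂ : ∀ a b n, D₂ (a * b) n =
      (lact a (D₂ b n) - tmul a (sig (zam (Gam A) D.aF) (D₂ b n))) +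
      D₂ a (zam (Gam A) D.aF b n) := fun a b n => by
    show tmul (a * b) n = (lact a (tmul b n) - tmul a (sig (zam (Gam A) D.aF) (tmul b n))) +
      tmul a (zam (Gam A) D.aF b n)
    rw [lact_tmul, sig_tmul, sub_add_cancel]
  obtain ⟨ψ', hψ⟩ := hV (lMod (Gam A) D.aE D.aE_mul) (zMod (Gam A) D.aF D.aF_mul)
    (twMod (zam (Gam A) D.aF) (zam_mul D.aF D.aF_mul)) D.coc D₂ hD₁ hD₂
  exact ⟨ψ', hψ⟩

end NData

end Cocycle

end CS

end Pool.Agent.MP_a77edb_an
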