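import Pool.Agent.MP_a77edb_an.Radical4

/-!
# Vector-valued bounded families over a directed set, and tensor products with them
-/

set_option autoImplicit false
set_option linter.unusedSectionVars false

noncomputable section

namespace Pool.Agent.MP_a77edb_an

universe u v w

open ContinuousLinearMap Filter Topology
open scoped ENNReal

namespace CS

/-! ### Vector-valued families tending to zero -/

section Z0

variable (Γ : Type u) [Preorder Γ] (F : Type u) [NormedAddCommGroup F] [NormedSpace ℂ F]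

/-- Bounded families of vectors tending to zero in norm along the directed set. -/
def Z0 : Submodule ℂ (Linf Γ F) where
  carrier := {w | Tendsto (fun γ => w γ) atTop (𝓝 0)}
  add_mem' := by
    intro v w hv hw
    have hv' : Tendsto (fun γ => v γ) atTop (𝓝 0) := hv
    have hw' : Tendsto (fun γ => w γ) atTop (𝓝 0) := hw
    have h := hv'.add hw'
    rw [add_zero] at h
    exact h
  zero_mem' := by
    show Tendsto (fun _ : Γ => (0 : F)) atTop (𝓝 0)
    exact tendsto_const_nhds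
  smul_mem' := by
    intro c w hw
    have hw' : Tendsto (fun γ => w γ) atTop (𝓝 0) := hw
    have h := hw'.const_smul c
    rw [smul_zero] at h
    exact h

variable {Γ F}

theorem mem_Z0 {w : Linf Γ F} : w ∈ Z0 Γ F ↔ Tendsto (fun γ => w γ) atTop (𝓝 0) := Iff.rfl

theorem isClosed_Z0 : IsClosed (Z0 Γ F : Set (Linf Γ F)) := by
  refine isClosed_of_closure_subset fun w hw => ?_
  rw [SetLike.mem_coe, mem_Z0, NormedAddGroup.tendsto_nhds_zero]
  intro ε hε
  obtain ⟨v, hv, hvw⟩ := Metric.mem_closure_iff.1 hw (ε / 2) (by positivity)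
  have hv' := NormedAddGroup.tendsto_nhds_zero.1 (mem_Z0.1 hv) (ε / 2) (by positivity)
  filter_upwards [hv'] with γ hγ
  have h1 : ‖(w - v) γ‖ ≤ ‖w - v‖ := linf_apply_le _ _
  rw [dist_eq_norm] at hvw
  have h2 : w γ = (w - v) γ + v γ := by
    rw [lp.coeFn_sub, Pi.sub_apply, sub_add_cancel]
  rw [h2]
  calc ‖(w - v) γ + v γ‖ ≤ ‖(w - v) γ‖ + ‖v γ‖ := norm_add_le _ _
    _ < ε := by linarith

instance [CompleteSpace F] : CompleteSpace (Z0 Γ F) := isClosed_Z0.completeSpace_coe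

/-- Evaluation. -/
def ev (γ : Γ) : Z0 Γ F →L[ℂ] F := (lp.evalCLM ℂ (fun _ : Γ => F) ⊤ γ).comp (Z0 Γ F).subtypeL

theorem ev_apply (γ : Γ) (w : Z0 Γ F) : ev γ w = (w : Linf Γ F) γ := rfl

theorem norm_ev_apply_le (γ : Γ) (w : Z0 Γ F) : ‖ev γ w‖ ≤ ‖w‖ := linf_apply_le (w : Linf Γ F) γ

theorem norm_ev_le (γ : Γ) : ‖(ev γ : Z0 Γ F →L[ℂ] F)‖ ≤ 1 := by
  refine ContinuousLinearMap.opNorm_le_bound _ zero_le_one fun w => ?_
  rw [one_mul]
  exact norm_ev_apply_le γ w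

theorem Z0_ext {v w : Z0 Γ F} (h : ∀ γ, ev γ v = ev γ w) : v = w :=
  Subtype.ext (lp.ext (funext h))

theorem norm_Z0_le {w : Z0 Γ F} {C : ℝ} (hC : 0 ≤ C) (h : ∀ γ, ‖ev γ w‖ ≤ C) : ‖w‖ ≤ C := by
  show ‖(w : Linf Γ F)‖ ≤ C
  exact lp.norm_le_of_forall_le hC h

theorem tendsto_ev (w : Z0 Γ F) : Tendsto (fun γ => ev γ w) atTop (𝓝 0) := w.2

/-- Construct an element of `Z0`. -/
def mkZ0 (f : Γ → F) (hb : Memℓp f ⊤) (ht : Tendsto f atTop (𝓝 0)) : Z0 Γ F := ⟨⟨f, hb⟩, ht⟩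

@[simp] theorem ev_mkZ0 (f : Γ → F) (hb : Memℓp f ⊤) (ht : Tendsto f atTop (𝓝 0)) (γ : Γ) :
    ev γ (mkZ0 f hb ht) = f γ := rfl

/-- Multiplication by a bounded family of scalars of absolute value at most one, as a function. -/
def diagFun (d : Γ → ℂ) (hd : ∀ γ, ‖d γ‖ ≤ 1) (w : Z0 Γ F) : Z0 Γ F :=
  mkZ0 (fun γ => d γ • ev γ w)
    (linf_mem (C := ‖w‖) fun γ => by
      rw [norm_smul]
      have h1 : ‖ev γ w‖ ≤ ‖w‖ := norm_ev_apply_le γ w
      nlinarith [hd γ, norm_nonneg (ev γ w)])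
    (by
      refine squeeze_zero_norm (a := fun γ => ‖ev γ w‖) (fun γ => ?_)
        (tendsto_zero_iff_norm_tendsto_zero.1 (tendsto_ev w))
      rw [norm_smul]
      exact mul_le_of_le_one_left (norm_nonneg _) (hd γ))

theorem ev_diagFun (d : Γ → ℂ) (hd : ∀ γ, ‖d γ‖ ≤ 1) (γ : Γ) (w : Z0 Γ F) :
    ev γ (diagFun d hd w) = d γ • ev γ w := rfl

/-- Multiplication by a bounded family of scalars, as a linear map. -/
def diagLin (d : Γ → ℂ) (hd : ∀ γ, ‖d γ‖ ≤ 1) : Z0 Γ F →ₗ[ℂ] Z0 Γ F where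
  toFun := diagFun d hd
  map_add' := fun v w => Z0_ext fun γ => by
    rw [ev_diagFun, map_add, map_add, ev_diagFun, ev_diagFun, smul_add]
  map_smul' := fun c w => Z0_ext fun γ => by
    rw [ev_diagFun, RingHom.id_apply, map_smul, map_smul, ev_diagFun, smul_comm]

/-- Multiplication by a bounded family of scalars of absolute value at most one. -/
def diagZ (d : Γ → ℂ) (hd : ∀ γ, ‖d γ‖ ≤ 1) : Z0 Γ F →L[ℂ] Z0 Γ F :=
  LinearMap.mkContinuous (diagLin d hd) 1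
    (fun w => by
      rw [one_mul]
      refine norm_Z0_le (norm_nonneg _) fun γ => ?_
      show ‖d γ • ev γ w‖ ≤ ‖w‖
      rw [norm_smul]
      have h1 : ‖ev γ w‖ ≤ ‖w‖ := norm_ev_apply_le γ w
      nlinarith [hd γ, norm_nonneg (ev γ w)])

theorem ev_diagZ (d : Γ → ℂ) (hd : ∀ γ, ‖d γ‖ ≤ 1) (γ : Γ) (w : Z0 Γ F) :
    ev γ (diagZ d hd w) = d γ • ev γ w := rfl

theorem norm_diagZ_le (d : Γ → ℂ) (hd : ∀ γ, ‖d γ‖ ≤ 1) :
    ‖(diagZ d hd : Z0 Γ F →L[ℂ] Z0 Γ F)‖ ≤ 1 :=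
  LinearMap.mkContinuous_norm_le _ zero_le_one _

variable {A : Type u} [NormedAddCommGroup A] [NormedSpace ℂ A] [CompleteSpace A] [CompleteSpace F]

theorem mapR_ev_diagZ (d : Γ → ℂ) (hd : ∀ γ, ‖d γ‖ ≤ 1) (γ : Γ) (t : PT A (Z0 Γ F)) :
    PT.mapR (ev γ) (PT.mapR (diagZ d hd) t) = d γ • PT.mapR (ev γ) t := by
  have h : (PT.mapR (ev γ)).comp (PT.mapR (E := A) (diagZ d hd : Z0 Γ F →L[ℂ] Z0 Γ F)) =
      d γ • PT.mapR (ev γ) := by
    refine PT.ext' fun u w => ?_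
    rw [comp_apply, PT.mapR_tmul, PT.mapR_tmul, smul_apply, PT.mapR_tmul, ev_diagZ, map_smul]
  exact congrArg (fun (T : PT A (Z0 Γ F) →L[ℂ] PT A F) => T t) h

/-- slices along the net tend to zero -/
theorem tendsto_mapR (t : PT A (Z0 Γ F)) :
    Tendsto (fun γ => PT.mapR (ev γ) t) atTop (𝓝 0) := by
  obtain ⟨α, rfl⟩ := PT.mkQ_surjective t
  have h1 : ∀ γ : Γ, HasSum (fun w : UBall (Z0 Γ F) => (PT.tmul (α w) (ev γ (w : Z0 Γ F)) : PT A F))
      (PT.mapR (ev γ) (PT.mkQ A (Z0 Γ F) α)) := by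
    intro γ
    have := (PT.mapR (ev γ)).hasSum (PT.hasSum_mkQ α)
    simpa using this
  have h2 : (fun γ : Γ => PT.mapR (ev γ) (PT.mkQ A (Z0 Γ F) α)) =
      fun γ => ∑' w : UBall (Z0 Γ F), (PT.tmul (α w) (ev γ (w : Z0 Γ F)) : PT A F) := by
    funext γ
    exact (h1 γ).tsum_eq.symm
  rw [h2]
  have h3 : Tendsto (fun γ => ∑' w : UBall (Z0 Γ F),
      (PT.tmul (α w) (ev γ (w : Z0 Γ F)) : PT A F)) atTop
      (𝓝 (∑' w : UBall (Z0 Γ F), (0 : PT A F))) := by
    refine tendsto_tsum_of_dominated_convergence (l1_summable_norm α) (fun w => ?_)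
      (Eventually.of_forall fun γ w => ?_)
    · have h4 : Tendsto (fun γ => (PT.tmul (α w) (ev γ (w : Z0 Γ F)) : PT A F)) atTop
          (𝓝 (PT.tmul (α w) (0 : F))) :=
        ((PT.tmul (α w) : F →L[ℂ] PT A F).continuous.tendsto 0).comp (tendsto_ev (w : Z0 Γ F))
      rwa [map_zero] at h4
    · have h4 : ‖ev γ (w : Z0 Γ F)‖ ≤ 1 := (norm_ev_apply_le γ _).trans w.2
      exact (PT.norm_tmul_le _ _).trans (mul_le_of_le_one_right (norm_nonneg _) h4)
  rwa [tsum_zero] at h3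

end Z0

/-! ### Left action on a tensor product -/

section Act

variable {A : Type u} [NonUnitalNormedRing A] [NormedSpace ℂ A]
  [IsScalarTower ℂ A A] [SMulCommClass ℂ A A] [CompleteSpace A]
variable {Z : Type u} [NormedAddCommGroup Z] [NormedSpace ℂ Z]
variable {Z' : Type u} [NormedAddCommGroup Z'] [NormedSpace ℂ Z']

open PT

/-- The left action of `A` on `A ⊗ Z`. -/
def lact : A →L[ℂ] PT A Z →L[ℂ] PT A Z :=
  liftL.comp (((compL ℂ A A (Z →L[ℂ] PT A Z)) (tmul : A →L[ℂ] Z →L[ℂ] PT A Z)).comp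
    (ContinuousLinearMap.mul ℂ A))

@[simp] theorem lact_tmul (a u : A) (z : Z) :
    lact a (tmul u z : PT A Z) = tmul (a * u) z := by
  show lift _ (tmul u z) = _
  rw [lift_tmul]
  rfl

theorem lact_mul (a b : A) (t : PT A Z) : lact (a * b) t = lact a (lact b t) := by
  have h : (lact (a * b) : PT A Z →L[ℂ] PT A Z) = (lact a).comp (lact b) := by
    refine ext' fun u z => ?_
    rw [lact_tmul, comp_apply, lact_tmul, lact_tmul, mul_assoc]
  exact congrArg (fun (T : PT A Z →L[ℂ] PT A Z) => T t) h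

theorem mapR_lact (R : Z →L[ℂ] Z') (a : A) (t : PT A Z) :
    mapR R (lact a t) = lact a (mapR R t) := by
  have h : (mapR R).comp (lact a : PT A Z →L[ℂ] PT A Z) = (lact a).comp (mapR R) := by
    refine ext' fun u z => ?_
    rw [comp_apply, lact_tmul, mapR_tmul, comp_apply, mapR_tmul, lact_tmul]
  exact congrArg (fun (T : PT A Z →L[ℂ] PT A Z') => T t) h

end Act

end CS

end Pool.Agent.MP_a77edb_an
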