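import Mathlib

/-!
# Quasi-central finite rank operators and almost intertwining operators
-/

set_option autoImplicit false
set_option linter.unusedSectionVars false

noncomputable section

namespace Pool.Agent.MP_a77edb_an

universe u v w

open ContinuousLinearMap Filter Topology
open scoped InnerProductSpace

namespace CS

section Comm

variable {F : Type u} [NormedAddCommGroup F] [InnerProductSpace ℂ F] [CompleteSpace F]

/-- The averages of an increasing sequence of projections almost commute with an operator which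
(together with its adjoint) maps each range into the next one. -/
theorem comm_bound (P : ℕ → (F →L[ℂ] F)) (T : F →L[ℂ] F)
    (hsa : ∀ n u v, ⟪P n u, v⟫_ℂ = ⟪u, P n v⟫_ℂ)
    (hinc : ∀ n u, P (n + 1) (P n u) = P n u) (hidem : ∀ n u, P n (P n u) = P n u)
    (hP1 : ∀ n u, ‖P n u‖ ≤ ‖u‖)
    (hT : ∀ n u, P (n + 1) (T (P n u)) = T (P n u))
    (hT' : ∀ n u, P (n + 1) (adjoint T (P n u)) = adjoint T (P n u))
    (m : ℕ) (f : F) :
    ‖T (∑ n ∈ Finset.range m, P (n + 1) f) - ∑ n ∈ Finset.range m, P (n + 1) (T f)‖ ≤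
      2 * ‖T‖ * ‖f‖ := by
  obtain ⟨Q, hQ⟩ : ∃ Q : ℕ → F → F, Q = fun n u => P (n + 1) u - P n u := ⟨_, rfl⟩
  have hQ' : ∀ n u, Q n u = P (n + 1) u - P n u := fun n u => by rw [hQ]
  have hnorm : ∀ n u, ‖Q n u‖ ^ 2 = ‖P (n + 1) u‖ ^ 2 - ‖P n u‖ ^ 2 := by
    intro n u
    have e1 : ⟪P (n + 1) u, P n u⟫_ℂ = ⟪P n u, P n u⟫_ℂ := by
      rw [hsa, hinc, ← hidem, ← hsa, hidem]
    have e2 : ‖Q n u‖ ^ 2 = ‖P (n + 1) u‖ ^ 2 - 2 * RCLike.re ⟪P (n + 1) u, P n u⟫_ℂ +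
        ‖P n u‖ ^ 2 := by
      rw [hQ']
      exact norm_sub_sq (𝕜 := ℂ) _ _
    have e3 : RCLike.re ⟪P (n + 1) u, P n u⟫_ℂ = ‖P n u‖ ^ 2 := by
      rw [e1]
      exact (norm_sq_eq_re_inner (𝕜 := ℂ) (P n u)).symm
    rw [e2, e3]
    ring
  have hsum : ∀ (u : F) (m : ℕ), ∑ n ∈ Finset.range m, ‖Q n u‖ ^ 2 ≤ ‖u‖ ^ 2 := by
    intro u m
    have e1 : ∑ n ∈ Finset.range m, ‖Q n u‖ ^ 2 = ‖P m u‖ ^ 2 - ‖P 0 u‖ ^ 2 := by
      rw [← Finset.sum_range_sub (fun n => ‖P n u‖ ^ 2)]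
      exact Finset.sum_congr rfl fun n _ => hnorm n u
    have e2 : ‖P m u‖ ^ 2 ≤ ‖u‖ ^ 2 := by
      have := hP1 m u
      gcongr
    rw [e1]
    nlinarith [sq_nonneg ‖P 0 u‖]
  have hsum' : ∀ (u : F) (m : ℕ), ∑ n ∈ Finset.range m, ‖Q (n + 1) u‖ ^ 2 ≤ ‖u‖ ^ 2 := by
    intro u m
    refine le_trans ?_ (hsum u (m + 1))
    rw [Finset.sum_range_succ' (fun n => ‖Q n u‖ ^ 2)]
    have := sq_nonneg ‖Q 0 u‖
    linarith
  have hcs : ∀ a b : ℕ → ℝ, (∑ n ∈ Finset.range m, a n ^ 2 ≤ ‖f‖ ^ 2) → ∀ r : ℝ, 0 ≤ r →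
      (∑ n ∈ Finset.range m, b n ^ 2 ≤ r ^ 2) → ∑ n ∈ Finset.range m, a n * b n ≤ ‖f‖ * r := by
    intro a b ha r hr hb
    have e1 := Finset.sum_mul_sq_le_sq_mul_sq (Finset.range m) a b
    have e2 : (∑ n ∈ Finset.range m, a n * b n) ^ 2 ≤ (‖f‖ * r) ^ 2 := by
      refine e1.trans ?_
      rw [mul_pow]
      exact mul_le_mul ha hb (Finset.sum_nonneg fun _ _ => sq_nonneg _) (sq_nonneg _)
    exact le_of_sq_le_sq e2 (by positivity) |> fun h => h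
  have hkey : ∀ n g, ⟪g, T (P (n + 1) f) - P (n + 1) (T f)⟫_ℂ =
      ⟪Q (n + 1) g, T (Q n f)⟫_ℂ - ⟪Q n g, T (Q (n + 1) f)⟫_ℂ := by
    intro n g
    have a1 : ⟪P (n + 1 + 1) g, T (P (n + 1) f)⟫_ℂ = ⟪g, T (P (n + 1) f)⟫_ℂ := by
      rw [hsa, hT]
    have a2 : ⟪P (n + 1 + 1) g, T (P n f)⟫_ℂ = ⟪g, T (P n f)⟫_ℂ := by
      rw [hsa, ← hT n f, hinc]
    have a3 : ⟪P (n + 1) g, T (P n f)⟫_ℂ = ⟪g, T (P n f)⟫_ℂ := by
      rw [hsa, hT]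
    have b1 : ⟪P (n + 1) g, T (P (n + 1 + 1) f)⟫_ℂ = ⟪g, P (n + 1) (T f)⟫_ℂ := by
      rw [← adjoint_inner_left, ← hsa, hT', adjoint_inner_left, hsa]
    have b2 : ⟪P n g, T (P (n + 1 + 1) f)⟫_ℂ = ⟪adjoint T (P n g), f⟫_ℂ := by
      rw [← adjoint_inner_left, ← hsa, ← hT' n g, hinc]
    have b3 : ⟪P n g, T (P (n + 1) f)⟫_ℂ = ⟪adjoint T (P n g), f⟫_ℂ := by
      rw [← adjoint_inner_left, ← hsa, hT']
    rw [hQ', hQ', hQ', hQ', map_sub, map_sub, inner_sub_left, inner_sub_right, inner_sub_right,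
      inner_sub_right, inner_sub_left, inner_sub_right, inner_sub_right, a1, a2, a3, b1, b2, b3]
    ring
  obtain ⟨z, hz⟩ : ∃ z, z = T (∑ n ∈ Finset.range m, P (n + 1) f) -
    ∑ n ∈ Finset.range m, P (n + 1) (T f) := ⟨_, rfl⟩
  have hin : ∀ g, ‖⟪g, z⟫_ℂ‖ ≤ 2 * ‖T‖ * ‖f‖ * ‖g‖ := by
    intro g
    have e1 : ⟪g, z⟫_ℂ = ∑ n ∈ Finset.range m,
        (⟪Q (n + 1) g, T (Q n f)⟫_ℂ - ⟪Q n g, T (Q (n + 1) f)⟫_ℂ) := by
      rw [hz, map_sum, ← Finset.sum_sub_distrib, inner_sum]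
      exact Finset.sum_congr rfl fun n _ => hkey n g
    rw [e1]
    refine (norm_sum_le _ _).trans ?_
    have e2 : ∀ n ∈ Finset.range m,
        ‖⟪Q (n + 1) g, T (Q n f)⟫_ℂ - ⟪Q n g, T (Q (n + 1) f)⟫_ℂ‖ ≤
        ‖T‖ * (‖Q n f‖ * ‖Q (n + 1) g‖ + ‖Q (n + 1) f‖ * ‖Q n g‖) := by
      intro n _
      refine (norm_sub_le _ _).trans ?_
      have g1 : ‖⟪Q (n + 1) g, T (Q n f)⟫_ℂ‖ ≤ ‖Q (n + 1) g‖ * (‖T‖ * ‖Q n f‖) :=
        (norm_inner_le_norm _ _).trans (mul_le_mul_of_nonneg_left (T.le_opNorm _)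
          (norm_nonneg _))
      have g2 : ‖⟪Q n g, T (Q (n + 1) f)⟫_ℂ‖ ≤ ‖Q n g‖ * (‖T‖ * ‖Q (n + 1) f‖) :=
        (norm_inner_le_norm _ _).trans (mul_le_mul_of_nonneg_left (T.le_opNorm _)
          (norm_nonneg _))
      calc _ ≤ ‖Q (n + 1) g‖ * (‖T‖ * ‖Q n f‖) + ‖Q n g‖ * (‖T‖ * ‖Q (n + 1) f‖) :=
            add_le_add g1 g2
        _ = _ := by ring
    refine (Finset.sum_le_sum e2).trans ?_
    rw [← Finset.mul_sum, Finset.sum_add_distrib]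
    have e3 := hcs (fun n => ‖Q n f‖) (fun n => ‖Q (n + 1) g‖) (hsum f m) ‖g‖ (norm_nonneg _)
      (hsum' g m)
    have e4 := hcs (fun n => ‖Q (n + 1) f‖) (fun n => ‖Q n g‖) (hsum' f m) ‖g‖ (norm_nonneg _)
      (hsum g m)
    calc ‖T‖ * (∑ n ∈ Finset.range m, ‖Q n f‖ * ‖Q (n + 1) g‖ +
          ∑ n ∈ Finset.range m, ‖Q (n + 1) f‖ * ‖Q n g‖) ≤ ‖T‖ * (‖f‖ * ‖g‖ + ‖f‖ * ‖g‖) := by
          gcongr
      _ = _ := by ring
  rw [← hz]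
  have h1 := hin z
  have h2 : ‖⟪z, z⟫_ℂ‖ = ‖z‖ ^ 2 := by
    rw [inner_self_eq_norm_sq_to_K]
    simp
  rw [h2] at h1
  by_cases h3 : ‖z‖ = 0
  · rw [h3]
    positivity
  · have h4 : 0 < ‖z‖ := lt_of_le_of_ne (norm_nonneg _) (Ne.symm h3)
    nlinarith

end Comm

/-! ### Uniform convergence on finite-dimensional subspaces -/

section Fin

variable {F : Type u} [NormedAddCommGroup F] [InnerProductSpace ℂ F]
variable {H : Type v} [NormedAddCommGroup H] [NormedSpace ℂ H] {ι : Type w} {l : Filter ι}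

theorem eventually_le_of_finite (G : Submodule ℂ F) [FiniteDimensional ℂ G]
    (T : ι → (F →ₗ[ℂ] H)) (hT : ∀ g ∈ G, Tendsto (fun k => T k g) l (𝓝 0)) {ε : ℝ} (hε : 0 < ε) :
    ∀ᶠ k in l, ∀ g ∈ G, ‖T k g‖ ≤ ε * ‖g‖ := by
  let e := stdOrthonormalBasis ℂ G
  have h1 : Tendsto (fun k => ∑ i, ‖T k (e i : F)‖) l
      (𝓝 (∑ _i : Fin (Module.finrank ℂ G), (0 : ℝ))) := by
    refine tendsto_finsetSum _ fun i _ => ?_
    have := (hT (e i : F) (e i).2).norm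
    rwa [norm_zero] at this
  rw [Finset.sum_const_zero] at h1
  filter_upwards [h1.eventually (gt_mem_nhds hε)] with k hk g hg
  have h2 : g = ∑ i, ⟪(e i : F), g⟫_ℂ • (e i : F) := by
    have h3 := e.sum_repr' ⟨g, hg⟩
    have h4 := congrArg (Subtype.val) h3
    rw [Submodule.coe_sum] at h4
    exact h4.symm
  have h3 : T k g = ∑ i, ⟪(e i : F), g⟫_ℂ • T k (e i : F) := by
    conv_lhs => rw [h2]
    rw [map_sum]
    exact Finset.sum_congr rfl fun i _ => map_smul _ _ _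
  rw [h3]
  refine (norm_sum_le _ _).trans ?_
  have h4 : ∀ i ∈ Finset.univ, ‖⟪(e i : F), g⟫_ℂ • T k (e i : F)‖ ≤ ‖T k (e i : F)‖ * ‖g‖ := by
    intro i _
    rw [norm_smul, mul_comm]
    refine mul_le_mul_of_nonneg_left ?_ (norm_nonneg _)
    refine (norm_inner_le_norm _ _).trans ?_
    have h5 : ‖(e i : F)‖ = 1 := e.orthonormal.1 i
    rw [h5, one_mul]
  refine (Finset.sum_le_sum h4).trans ?_
  rw [← Finset.sum_mul]
  exact mul_le_mul_of_nonneg_right hk.le (norm_nonneg _)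

/-- almost isometric families are uniformly bounded on finite-dimensional subspaces -/
theorem eventually_norm_le_two {H : Type v} [NormedAddCommGroup H] [InnerProductSpace ℂ H]
    (G : Submodule ℂ F) [FiniteDimensional ℂ G]
    (T : ι → (F →ₗ[ℂ] H))
    (hT : ∀ g ∈ G, ∀ h ∈ G, Tendsto (fun k => ⟪T k g, T k h⟫_ℂ) l (𝓝 ⟪g, h⟫_ℂ)) :
    ∀ᶠ k in l, ∀ g ∈ G, ‖T k g‖ ≤ 2 * ‖g‖ := by
  let e := stdOrthonormalBasis ℂ G
  let d : ℝ := (Fintype.card (Fin (Module.finrank ℂ G)) : ℝ) + 1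
  have hd : 0 < d := by positivity
  have h1 : ∀ᶠ k in l, ∀ i, ∀ g ∈ G, ‖⟪T k (e i : F), T k g⟫_ℂ - ⟪(e i : F), g⟫_ℂ‖ ≤
      1 / d * ‖g‖ := by
    rw [Filter.eventually_all]
    intro i
    refine eventually_le_of_finite G (fun k => ((innerₛₗ ℂ (T k (e i : F))) ∘ₗ (T k)) -
      (innerₛₗ ℂ (e i : F))) (fun g hg => ?_) (by positivity)
    have h2 := (hT (e i : F) (e i).2 g hg).sub_const ⟪(e i : F), g⟫_ℂ
    rw [sub_self] at h2
    exact h2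
  filter_upwards [h1] with k hk g hg
  have h2 : g = ∑ i, ⟪(e i : F), g⟫_ℂ • (e i : F) := by
    have h3 := e.sum_repr' ⟨g, hg⟩
    have h4 := congrArg (Subtype.val) h3
    rw [Submodule.coe_sum] at h4
    exact h4.symm
  have h3 : ⟪T k g, T k g⟫_ℂ - ⟪g, g⟫_ℂ = ∑ i, (starRingEnd ℂ) ⟪(e i : F), g⟫_ℂ *
      (⟪T k (e i : F), T k g⟫_ℂ - ⟪(e i : F), g⟫_ℂ) := by
    have e1 : ⟪T k g, T k g⟫_ℂ = ∑ i, (starRingEnd ℂ) ⟪(e i : F), g⟫_ℂ *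
        ⟪T k (e i : F), T k g⟫_ℂ := by
      conv_lhs => arg 2; rw [h2]
      rw [map_sum, sum_inner]
      exact Finset.sum_congr rfl fun i _ => by rw [map_smul, inner_smul_left]
    have e2 : ⟪g, g⟫_ℂ = ∑ i, (starRingEnd ℂ) ⟪(e i : F), g⟫_ℂ * ⟪(e i : F), g⟫_ℂ := by
      conv_lhs => arg 2; rw [h2]
      rw [sum_inner]
      exact Finset.sum_congr rfl fun i _ => by rw [inner_smul_left]
    rw [e1, e2, ← Finset.sum_sub_distrib]
    exact Finset.sum_congr rfl fun i _ => by rw [mul_sub]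
  have h4 : ‖⟪T k g, T k g⟫_ℂ - ⟪g, g⟫_ℂ‖ ≤ ‖g‖ ^ 2 := by
    rw [h3]
    refine (norm_sum_le _ _).trans ?_
    have e1 : ∀ i ∈ Finset.univ, ‖(starRingEnd ℂ) ⟪(e i : F), g⟫_ℂ *
      (⟪T k (e i : F), T k g⟫_ℂ - ⟪(e i : F), g⟫_ℂ)‖ ≤ ‖g‖ * (1 / d * ‖g‖) := by
      intro i _
      rw [norm_mul, RCLike.norm_conj]
      refine mul_le_mul ?_ (hk i g hg) (norm_nonneg _) (norm_nonneg _)
      refine (norm_inner_le_norm _ _).trans ?_
      have h5 : ‖(e i : F)‖ = 1 := e.orthonormal.1 i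
      rw [h5, one_mul]
    refine (Finset.sum_le_sum e1).trans ?_
    rw [Finset.sum_const, Finset.card_univ, nsmul_eq_mul]
    have e2 : (Fintype.card (Fin (Module.finrank ℂ G)) : ℝ) ≤ d := by
      show _ ≤ (Fintype.card (Fin (Module.finrank ℂ G)) : ℝ) + 1
      linarith
    calc (Fintype.card (Fin (Module.finrank ℂ G)) : ℝ) * (‖g‖ * (1 / d * ‖g‖)) ≤
          d * (‖g‖ * (1 / d * ‖g‖)) := by gcongr
      _ = ‖g‖ ^ 2 := by field_simp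
  have h5 : ‖T k g‖ ^ 2 ≤ 2 * ‖g‖ ^ 2 := by
    have e1 : ⟪T k g, T k g⟫_ℂ - ⟪g, g⟫_ℂ = ((‖T k g‖ ^ 2 - ‖g‖ ^ 2 : ℝ) : ℂ) := by
      rw [inner_self_eq_norm_sq_to_K, inner_self_eq_norm_sq_to_K]
      push_cast
      rfl
    rw [e1, Complex.norm_real] at h4
    have := le_of_abs_le h4
    linarith
  nlinarith [norm_nonneg g, norm_nonneg (T k g)]

end Fin

end CS

end Pool.Agent.MP_a77edb_an
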