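import Pool.Agent.MP_a77edb_an.CApprox

/-!
# States, vectors and limit functionals
-/

set_option autoImplicit false
set_option linter.unusedSectionVars false

noncomputable section

namespace Pool.Agent.MP_a77edb_an

universe u v w

open ContinuousLinearMap Filter Topology
open scoped InnerProductSpace ComplexOrder

namespace CS

section

variable {B : Type u} [CStarAlgebra B] [PartialOrder B] [StarOrderedRing B]

/-- The hermitian part of a functional whose real part is nonnegative on positive elements. -/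
def posOf (f : B →L[ℂ] ℂ) (hf : ∀ a, 0 ≤ a → 0 ≤ (f a).re) : B →ₚ[ℂ] ℂ :=
  PositiveLinearMap.mk₀
    { toFun := fun a => (f a + (starRingEnd ℂ) (f (star a))) / 2
      map_add' := fun a b => by
        rw [star_add, map_add, map_add, map_add]
        ring
      map_smul' := fun c a => by
        rw [star_smul, map_smul, map_smul, smul_eq_mul, smul_eq_mul, map_mul, RingHom.id_apply,
          smul_eq_mul]
        have h : (starRingEnd ℂ) (star c) = c := by simp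
        rw [h]
        ring }
    (fun a ha => by
      show (0 : ℂ) ≤ (f a + (starRingEnd ℂ) (f (star a))) / 2
      rw [(IsSelfAdjoint.of_nonneg ha).star_eq, Complex.add_conj]
      have h1 := hf a ha
      have h2 : (((2 * (f a).re : ℝ) : ℂ)) / 2 = (((f a).re : ℝ) : ℂ) := by
        push_cast
        ring
      rw [h2]
      exact Complex.zero_le_real.2 h1)

theorem posOf_apply (f : B →L[ℂ] ℂ) (hf : ∀ a, 0 ≤ a → 0 ≤ (f a).re) (a : B) :
    posOf f hf a = (f a + (starRingEnd ℂ) (f (star a))) / 2 := rfl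

theorem posOf_ne_zero (f : B →L[ℂ] ℂ) (hf : ∀ a, 0 ≤ a → 0 ≤ (f a).re) (a : B)
    (ha : IsSelfAdjoint a) (h : (f a).re ≠ 0) : posOf f hf a ≠ 0 := by
  rw [posOf_apply, ha.star_eq, Complex.add_conj]
  intro h0
  apply h
  have h1 : ((2 * (f a).re : ℝ) : ℂ) = 0 := by
    rcases div_eq_zero_iff.1 h0 with h | h
    · exact h
    · norm_num at h
  have h2 := Complex.ofReal_eq_zero.1 h1
  linarith

/-- A norming functional for `c* c` which is positive. -/
theorem exists_functional (c : B) (hc : c ≠ 0) :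
    ∃ f : B →L[ℂ] ℂ, ‖f‖ ≤ 1 ∧ (∀ a, 0 ≤ a → 0 ≤ (f a).re) ∧ 0 < (f (star c * c)).re := by
  have : Nontrivial B := ⟨c, 0, hc⟩
  let p : B := star c * c
  have hp : 0 ≤ p := star_mul_self_nonneg c
  have hpn : ‖p‖ = ‖c‖ * ‖c‖ := CStarRing.norm_star_mul_self
  have hp0 : 0 < ‖p‖ := by
    rw [hpn]
    have := norm_pos_iff.2 hc
    positivity
  -- the norm of `‖p‖ + p`
  obtain ⟨f, hf1, hf2⟩ := exists_dual_vector'' ℂ (algebraMap ℂ B (‖p‖ : ℂ) + p)
  have hspec : ‖p‖ ∈ spectrum ℝ p := CStarAlgebra.norm_mem_spectrum_of_nonneg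
  have hle : ‖p‖ + ‖p‖ ≤ ‖algebraMap ℂ B (‖p‖ : ℂ) + p‖ := by
    have h1 : ((‖p‖ + ‖p‖ : ℝ) : ℂ) ∈ spectrum ℂ (algebraMap ℂ B (‖p‖ : ℂ) + p) := by
      have h2 : (‖p‖ : ℂ) ∈ spectrum ℂ p := spectrum.algebraMap_mem ℂ hspec
      have h3 := (spectrum.add_mem_add_iff (R := ℂ) (a := p) (r := (‖p‖ : ℂ)) (s := (‖p‖ : ℂ))).2 h2
      rw [add_comm] at h3
      push_cast
      rw [add_comm p] at *
      exact h3
    have h2 := spectrum.norm_le_norm_of_mem h1
    rwa [Complex.norm_real, Real.norm_of_nonneg (by positivity)] at h2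
  have hn : ‖f (algebraMap ℂ B (‖p‖ : ℂ))‖ ≤ ‖p‖ := by
    refine (f.le_opNorm _).trans ?_
    refine (mul_le_of_le_one_left (norm_nonneg _) hf1).trans ?_
    rw [norm_algebraMap', Complex.norm_real, norm_norm]
  have hn2 : ‖f p‖ ≤ ‖p‖ := (f.le_opNorm _).trans (mul_le_of_le_one_left (norm_nonneg _) hf1)
  have hsum : (f (algebraMap ℂ B (‖p‖ : ℂ))).re + (f p).re =
      ‖algebraMap ℂ B (‖p‖ : ℂ) + p‖ := by
    rw [← Complex.add_re, ← map_add, hf2]
    simp
  have hr1 : (f (algebraMap ℂ B (‖p‖ : ℂ))).re ≤ ‖p‖ :=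
    (Complex.re_le_norm _).trans hn
  have hr2 : (f p).re ≤ ‖p‖ := (Complex.re_le_norm _).trans hn2
  have e1 : (f (algebraMap ℂ B (‖p‖ : ℂ))).re = ‖p‖ := by linarith
  have e2 : (f p).re = ‖p‖ := by linarith
  have e3 : (f 1).re = 1 := by
    rw [Algebra.algebraMap_eq_smul_one, map_smul, smul_eq_mul, Complex.re_ofReal_mul] at e1
    have h4 : ‖p‖ * (f 1).re = ‖p‖ * 1 := by rw [e1, mul_one]
    exact mul_left_cancel₀ hp0.ne' h4
  refine ⟨f, hf1, fun a ha => ?_, ?_⟩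
  · -- positivity
    have h1 : ‖algebraMap ℝ B ‖a‖ - a‖ ≤ ‖a‖ := by
      have h2 : 0 ≤ algebraMap ℝ B ‖a‖ - a := sub_nonneg.2 (IsSelfAdjoint.le_algebraMap_norm_self)
      have h3 : algebraMap ℝ B ‖a‖ - a ≤ algebraMap ℝ B ‖a‖ := sub_le_self _ ha
      refine (CStarAlgebra.norm_le_norm_of_nonneg_of_le h2 h3).trans ?_
      rw [norm_algebraMap', norm_norm]
    have h2 : (f (algebraMap ℝ B ‖a‖ - a)).re ≤ ‖a‖ := by
      refine (Complex.re_le_norm _).trans ((f.le_opNorm _).trans ?_)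
      exact (mul_le_of_le_one_left (norm_nonneg _) hf1).trans h1
    have h3 : algebraMap ℝ B ‖a‖ = (‖a‖ : ℂ) • (1 : B) := by
      rw [Algebra.algebraMap_eq_smul_one]
      simp
    rw [map_sub, h3, map_smul, smul_eq_mul, Complex.sub_re, Complex.re_ofReal_mul, e3,
      mul_one] at h2
    linarith
  · show 0 < (f p).re
    rw [e2]
    exact hp0

/-- A positive functional which does not vanish on countably many given positive elements. -/
theorem exists_posFunctional (c : ℕ → B) (hc : ∀ k, c k ≠ 0) :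
    ∃ φ : B →ₚ[ℂ] ℂ, ∀ k, φ (star (c k) * c k) ≠ 0 := by
  choose f h1 h2 h3 using fun k => exists_functional (c k) (hc k)
  have hs : Summable fun k : ℕ => ((1 / 2 : ℂ) ^ k) • f k := by
    refine Summable.of_norm_bounded (g := fun k : ℕ => (1 / 2 : ℝ) ^ k) (summable_geometric_two)
      fun k => ?_
    rw [norm_smul, norm_pow]
    have : ‖(1 / 2 : ℂ)‖ = 1 / 2 := by simp
    rw [this]
    exact mul_le_of_le_one_right (by positivity) (h1 k)
  have hF : ∀ a, HasSum (fun k => (1 / 2 : ℝ) ^ k * (f k a).re)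
      ((∑' k : ℕ, ((1 / 2 : ℂ) ^ k) • f k) a).re := by
    intro a
    have e1 := ((ContinuousLinearMap.apply ℂ ℂ a : (B →L[ℂ] ℂ) →L[ℂ] ℂ).hasSum hs.hasSum)
    have e2 := Complex.reCLM.hasSum e1
    have e3 : (fun k => (1 / 2 : ℝ) ^ k * (f k a).re) = fun k : ℕ =>
        Complex.reCLM ((ContinuousLinearMap.apply ℂ ℂ a : (B →L[ℂ] ℂ) →L[ℂ] ℂ)
          (((1 / 2 : ℂ) ^ k) • f k)) := by
      funext k
      show _ = (((1 / 2 : ℂ) ^ k) * f k a).re
      have : ((1 / 2 : ℂ) ^ k) = (((1 / 2 : ℝ) ^ k : ℝ) : ℂ) := by push_cast; rfl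
      rw [this, Complex.re_ofReal_mul]
    rw [e3]
    exact e2
  have hpos : ∀ a, 0 ≤ a → 0 ≤ ((∑' k : ℕ, ((1 / 2 : ℂ) ^ k) • f k) a).re := by
    intro a ha
    exact (hF a).nonneg fun k => mul_nonneg (by positivity) (h2 k a ha)
  refine ⟨posOf _ hpos, fun k => ?_⟩
  refine posOf_ne_zero _ hpos _ (IsSelfAdjoint.star_mul_self _) ?_
  have e1 : (1 / 2 : ℝ) ^ k * (f k (star (c k) * c k)).re ≤
      ((∑' k : ℕ, ((1 / 2 : ℂ) ^ k) • f k) (star (c k) * c k)).re :=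
    le_hasSum (hF _) k fun j _ => mul_nonneg (by positivity)
      (h2 j _ (star_mul_self_nonneg (c k)))
  have e2 : 0 < (1 / 2 : ℝ) ^ k * (f k (star (c k) * c k)).re :=
    mul_pos (by positivity) (h3 k)
  exact (e2.trans_le e1).ne'

/-- Unit vectors in a representation fixed by given elements. -/
theorem exists_vectors (b c : ℕ → B) (hc : ∀ k, c k ≠ 0) (hbc : ∀ k, b k * c k = c k) :
    ∃ (φ : B →ₚ[ℂ] ℂ) (ξ : ℕ → φ.GNS), (∀ k, ‖ξ k‖ = 1) ∧
      ∀ k, φ.gnsStarAlgHom (b k) (ξ k) = ξ k := by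
  obtain ⟨φ, hφ⟩ := exists_posFunctional c hc
  let v : ℕ → φ.GNS := fun k => ((φ.toPreGNS (c k) : φ.PreGNS) : φ.GNS)
  have hv : ∀ k, ‖v k‖ ≠ 0 := by
    intro k h0
    apply hφ k
    have h1 : ‖(φ.toPreGNS (c k) : φ.PreGNS)‖ = 0 := by
      rw [← UniformSpace.Completion.norm_coe]
      exact h0
    have h2 := φ.preGNS_norm_sq (φ.toPreGNS (c k))
    rw [h1] at h2
    rw [PositiveLinearMap.ofPreGNS_toPreGNS] at h2
    rw [← h2]
    simp
  refine ⟨φ, fun k => ((‖v k‖⁻¹ : ℝ) : ℂ) • v k, fun k => ?_, fun k => ?_⟩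
  · rw [norm_smul, Complex.norm_real, norm_inv, norm_norm, inv_mul_cancel₀ (hv k)]
  · rw [map_smul]
    congr 1
    show φ.gnsNonUnitalStarAlgHom (b k) (v k) = v k
    rw [PositiveLinearMap.gnsNonUnitalStarAlgHom_apply_coe]
    congr 1
    show φ.toPreGNS (b k * φ.ofPreGNS (φ.toPreGNS (c k))) = _
    rw [PositiveLinearMap.ofPreGNS_toPreGNS, hbc]

/-- The limit functional. -/
theorem exists_limit {E : Type v} [NormedAddCommGroup E] [InnerProductSpace ℂ E] [CompleteSpace E]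
    (π : B →⋆ₐ[ℂ] (E →L[ℂ] E)) (ξ : ℕ → E) (hξ : ∀ k, ‖ξ k‖ = 1) (𝒰 : Ultrafilter ℕ) :
    ∃ φ : B →ₚ[ℂ] ℂ, ∀ a, Tendsto (fun k => ⟪ξ k, π a (ξ k)⟫_ℂ) 𝒰 (𝓝 (φ a)) := by
  have h1 : ∀ a : B, ∃ z : ℂ, Tendsto (fun k => ⟪ξ k, π a (ξ k)⟫_ℂ) 𝒰 (𝓝 z) := by
    intro a
    have hb : ∀ k, ⟪ξ k, π a (ξ k)⟫_ℂ ∈ Metric.closedBall (0 : ℂ) ‖π a‖ := by
      intro k
      rw [mem_closedBall_zero_iff]
      refine (norm_inner_le_norm _ _).trans ?_
      rw [hξ, one_mul]
      refine ((π a).le_opNorm _).trans ?_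
      rw [hξ, mul_one]
    have hcpt := isCompact_closedBall (0 : ℂ) ‖π a‖
    obtain ⟨z, -, hz⟩ := hcpt.ultrafilter_le_nhds (𝒰.map fun k => ⟪ξ k, π a (ξ k)⟫_ℂ)
      (by
        rw [le_principal_iff, Ultrafilter.coe_map]
        exact Filter.mem_map.2 (Filter.univ_mem' hb))
    exact ⟨z, hz⟩
  choose z hz using h1
  refine ⟨PositiveLinearMap.mk₀
    { toFun := z
      map_add' := fun a b => ?_
      map_smul' := fun c a => ?_ } (fun a ha => ?_), fun a => hz a⟩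
  · refine tendsto_nhds_unique (hz (a + b)) ?_
    refine ((hz a).add (hz b)).congr fun k => ?_
    rw [map_add, add_apply, inner_add_right]
  · refine tendsto_nhds_unique (hz (c • a)) ?_
    refine ((hz a).const_mul c).congr fun k => ?_
    rw [map_smul, smul_apply, inner_smul_right]
  · show (0 : ℂ) ≤ z a
    refine ge_of_tendsto (hz a) (Filter.Eventually.of_forall fun k => ?_)
    have h2 : 0 ≤ π a := map_nonneg π ha
    rw [ContinuousLinearMap.nonneg_iff_isPositive] at h2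
    have h3 := h2.inner_nonneg_right (ξ k)
    exact h3

/-- the cyclic vector -/
theorem gns_cyclic (φ : B →ₚ[ℂ] ℂ) (a : B) :
    ⟪((φ.toPreGNS 1 : φ.PreGNS) : φ.GNS), φ.gnsStarAlgHom a ((φ.toPreGNS 1 : φ.PreGNS) : φ.GNS)⟫_ℂ
      = φ a := by
  show ⟪((φ.toPreGNS 1 : φ.PreGNS) : φ.GNS), φ.gnsNonUnitalStarAlgHom a
    ((φ.toPreGNS 1 : φ.PreGNS) : φ.GNS)⟫_ℂ = φ a
  rw [PositiveLinearMap.gnsNonUnitalStarAlgHom_apply_coe, UniformSpace.Completion.inner_coe,
    PositiveLinearMap.preGNS_inner_def]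
  show φ (star (φ.ofPreGNS (φ.toPreGNS 1)) *
    (a * φ.ofPreGNS (φ.toPreGNS 1))) = φ a
  rw [PositiveLinearMap.ofPreGNS_toPreGNS, star_one, one_mul, mul_one]

end

end CS

end Pool.Agent.MP_a77edb_an
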