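import Mathlib

/-!
# Homological dimensions of Banach algebras

`A` is a complex Banach algebra, not assumed to have an identity.

* `LMod A` : Banach left `A`-modules (Banach spaces with a bounded bilinear associative action).
* `BMod A` : Banach `A`-bimodules.
* `IsHom` : bounded module maps.
* `IsProjective` : every morphism onto `P` that has a right inverse as a bounded linear map has a
  right inverse which is a morphism.
* `ProjRes X` : projective resolutions, i.e. complexes `0 ← X ← P 0 ← P 1 ← ...` of projective
  modules that split as complexes of Banach spaces.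
* `dh`, `dg`, `db` : homological dimension of a module, left global dimension and bidimension.
-/

set_option autoImplicit false

noncomputable section

namespace Pool.Agent.MP_a77edb_an.HomDim

universe u

/-! ### Left modules -/

/-- A Banach left module over the complex Banach algebra `A`: a complex Banach space with a bounded
bilinear map `act : A × X → X` such that `(ab)·x = a·(b·x)`. -/
structure LMod (A : Type u) [NonUnitalNormedRing A] [NormedSpace ℂ A] where
  /-- the underlying Banach space -/
  carrier : Type u
  [instNormedAddCommGroup : NormedAddCommGroup carrier]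
  [instNormedSpace : NormedSpace ℂ carrier]
  [instCompleteSpace : CompleteSpace carrier]
  /-- the outer multiplication `a·x` -/
  act : A → carrier → carrier
  bilinear : IsBoundedBilinearMap ℂ fun p : A × carrier => act p.1 p.2
  mul_act : ∀ (a b : A) (x : carrier), act (a * b) x = act a (act b x)

namespace LMod

variable {A : Type u} [NonUnitalNormedRing A] [NormedSpace ℂ A]

instance : CoeSort (LMod A) (Type u) := ⟨LMod.carrier⟩

attribute [instance] LMod.instNormedAddCommGroup LMod.instNormedSpace LMod.instCompleteSpace

/-- Morphisms of Banach left modules: bounded linear maps commuting with the actions. -/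
def IsHom (X Y : LMod A) (f : X → Y) : Prop :=
  IsBoundedLinearMap ℂ f ∧ ∀ (a : A) (x : X), f (X.act a x) = Y.act a (f x)

/-- `P` is projective: every morphism `f : Y → P` which has a right inverse as a bounded linear map
of Banach spaces has a right inverse which is a morphism. -/
def IsProjective (P : LMod A) : Prop :=
  ∀ (Y : LMod A) (f : Y → P), IsHom Y P f →
    (∃ s : P → Y, IsBoundedLinearMap ℂ s ∧ ∀ x, f (s x) = x) →
      ∃ g : P → Y, IsHom P Y g ∧ ∀ x, f (g x) = x

/-- A projective resolution `0 ← X ← P 0 ← P 1 ← ...`: a complex of left modules, all `P k` being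
projective, together with bounded linear maps `s`, `h k` which split it as a complex of Banach
spaces. -/
structure ProjRes (X : LMod A) where
  /-- the modules of the resolution -/
  P : ℕ → LMod A
  proj : ∀ k, (P k).IsProjective
  /-- the augmentation -/
  ε : P 0 → X
  /-- the differentials -/
  d : ∀ k, P (k + 1) → P k
  /-- contracting homotopy, in degree `-1` -/
  s : X → P 0
  /-- contracting homotopy, in degrees `≥ 0` -/
  h : ∀ k, P k → P (k + 1)
  hom_ε : IsHom (P 0) X ε
  hom_d : ∀ k, IsHom (P (k + 1)) (P k) (d k)
  bdd_s : IsBoundedLinearMap ℂ s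
  bdd_h : ∀ k, IsBoundedLinearMap ℂ (h k)
  ε_d : ∀ y, ε (d 0 y) = 0
  d_d : ∀ k y, d k (d (k + 1) y) = 0
  ε_s : ∀ x, ε (s x) = x
  split_zero : ∀ y, s (ε y) + d 0 (h 0 y) = y
  split_succ : ∀ k y, h k (d k y) + d (k + 1) (h (k + 1) y) = y

/-- The homological dimension `dh_A X`: the least `n` such that `X` has a projective resolution with
`P k = 0` for all `k > n`, and `⊤` if there is none. -/
def dh (X : LMod A) : ℕ∞ :=
  ⨅ (n : ℕ) (_ : ∃ R : ProjRes X, ∀ k, n < k → Subsingleton (R.P k)), (n : ℕ∞)

end LMod

/-- The left global dimension `dg A`: the supremum of `dh_A X` over all Banach left modules `X`. -/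
def dg (A : Type u) [NonUnitalNormedRing A] [NormedSpace ℂ A] : ℕ∞ :=
  ⨆ X : LMod A, X.dh

/-! ### Bimodules -/

/-- A Banach `A`-bimodule: a complex Banach space with bounded bilinear maps `act a x = a·x` and
`ract x a = x·a` such that `(ab)·x = a·(b·x)`, `x·(ab) = (x·a)·b` and `(a·x)·b = a·(x·b)`. -/
structure BMod (A : Type u) [NonUnitalNormedRing A] [NormedSpace ℂ A] where
  /-- the underlying Banach space -/
  carrier : Type u
  [instNormedAddCommGroup : NormedAddCommGroup carrier]
  [instNormedSpace : NormedSpace ℂ carrier]
  [instCompleteSpace : CompleteSpace carrier]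
  /-- the left outer multiplication `a·x` -/
  act : A → carrier → carrier
  /-- the right outer multiplication `x·a` -/
  ract : carrier → A → carrier
  act_bilinear : IsBoundedBilinearMap ℂ fun p : A × carrier => act p.1 p.2
  ract_bilinear : IsBoundedBilinearMap ℂ fun p : carrier × A => ract p.1 p.2
  mul_act : ∀ (a b : A) (x : carrier), act (a * b) x = act a (act b x)
  ract_mul : ∀ (x : carrier) (a b : A), ract x (a * b) = ract (ract x a) b
  act_ract : ∀ (a : A) (x : carrier) (b : A), ract (act a x) b = act a (ract x b)

namespace BMod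

variable {A : Type u} [NonUnitalNormedRing A] [NormedSpace ℂ A]

instance : CoeSort (BMod A) (Type u) := ⟨BMod.carrier⟩

attribute [instance] BMod.instNormedAddCommGroup BMod.instNormedSpace BMod.instCompleteSpace

/-- Morphisms of Banach bimodules. -/
def IsHom (X Y : BMod A) (f : X → Y) : Prop :=
  IsBoundedLinearMap ℂ f ∧ (∀ (a : A) (x : X), f (X.act a x) = Y.act a (f x)) ∧
    ∀ (x : X) (a : A), f (X.ract x a) = Y.ract (f x) a

/-- `P` is projective: every morphism `f : Y → P` of bimodules which has a right inverse as a
bounded linear map of Banach spaces has a right inverse which is a morphism. -/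
def IsProjective (P : BMod A) : Prop :=
  ∀ (Y : BMod A) (f : Y → P), IsHom Y P f →
    (∃ s : P → Y, IsBoundedLinearMap ℂ s ∧ ∀ x, f (s x) = x) →
      ∃ g : P → Y, IsHom P Y g ∧ ∀ x, f (g x) = x

/-- A projective resolution in the category of bimodules (see `LMod.ProjRes`). -/
structure ProjRes (X : BMod A) where
  /-- the modules of the resolution -/
  P : ℕ → BMod A
  proj : ∀ k, (P k).IsProjective
  /-- the augmentation -/
  ε : P 0 → X
  /-- the differentials -/
  d : ∀ k, P (k + 1) → P k
  /-- contracting homotopy, in degree `-1` -/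
  s : X → P 0
  /-- contracting homotopy, in degrees `≥ 0` -/
  h : ∀ k, P k → P (k + 1)
  hom_ε : IsHom (P 0) X ε
  hom_d : ∀ k, IsHom (P (k + 1)) (P k) (d k)
  bdd_s : IsBoundedLinearMap ℂ s
  bdd_h : ∀ k, IsBoundedLinearMap ℂ (h k)
  ε_d : ∀ y, ε (d 0 y) = 0
  d_d : ∀ k y, d k (d (k + 1) y) = 0
  ε_s : ∀ x, ε (s x) = x
  split_zero : ∀ y, s (ε y) + d 0 (h 0 y) = y
  split_succ : ∀ k y, h k (d k y) + d (k + 1) (h (k + 1) y) = y

/-- The homological dimension `dh_{A-A} X` of a bimodule. -/
def dh (X : BMod A) : ℕ∞ :=
  ⨅ (n : ℕ) (_ : ∃ R : ProjRes X, ∀ k, n < k → Subsingleton (R.P k)), (n : ℕ∞)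

end BMod

section Unitization

variable (A : Type u) [NonUnitalNormedRing A] [NormedSpace ℂ A]
  [IsScalarTower ℂ A A] [SMulCommClass ℂ A A]

/-- The unitization `A₊` with the norm `‖λ + a‖ = |λ| + ‖a‖`. -/
abbrev APlus : Type u := WithLp 1 (Unitization ℂ A)

variable {A}

/-- The embedding `A → A₊`. -/
def toAPlus (a : A) : APlus A := WithLp.toLp 1 (Unitization.inr a)

theorem toAPlus_mul (a b : A) : toAPlus (a * b) = toAPlus a * toAPlus b := by
  rw [toAPlus, Unitization.inr_mul]
  rfl

theorem norm_toAPlus (a : A) : ‖toAPlus a‖ = ‖a‖ := WithLp.unitization_norm_inr a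

theorem toAPlus_add (a b : A) : toAPlus (a + b) = toAPlus a + toAPlus b := by
  rw [toAPlus, Unitization.inr_add]
  rfl

omit [IsScalarTower ℂ A A] [SMulCommClass ℂ A A] in
theorem toAPlus_smul (c : ℂ) (a : A) : toAPlus (c • a) = c • toAPlus a := by
  rw [toAPlus, Unitization.inr_smul]
  rfl

theorem act_bilinear_APlus :
    IsBoundedBilinearMap ℂ fun p : A × APlus A => toAPlus p.1 * p.2 where
  add_left a b x := by simp only [toAPlus_add, add_mul]
  smul_left c a x := by simp only [toAPlus_smul, smul_mul_assoc]
  add_right a x y := by simp only [mul_add]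
  smul_right c a x := by simp only [mul_smul_comm]
  bound := ⟨1, one_pos, fun a x => by
    rw [one_mul, ← norm_toAPlus a]
    exact norm_mul_le _ _⟩

theorem ract_bilinear_APlus :
    IsBoundedBilinearMap ℂ fun p : APlus A × A => p.1 * toAPlus p.2 where
  add_left x y a := by simp only [add_mul]
  smul_left c x a := by simp only [smul_mul_assoc]
  add_right x a b := by simp only [toAPlus_add, mul_add]
  smul_right c x a := by simp only [toAPlus_smul, mul_smul_comm]
  bound := ⟨1, one_pos, fun x a => by
    rw [one_mul, ← norm_toAPlus a]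
    exact norm_mul_le _ _⟩

variable (A) in
/-- The unitization `A₊` with the norm `‖λ + a‖ = |λ| + ‖a‖`, as a Banach `A`-bimodule
(multiplication in `A₊` on both sides). -/
def unitizationBMod [CompleteSpace A] : BMod A where
  carrier := APlus A
  act a x := toAPlus a * x
  ract x a := x * toAPlus a
  act_bilinear := act_bilinear_APlus
  ract_bilinear := ract_bilinear_APlus
  mul_act a b x := by rw [toAPlus_mul, mul_assoc]
  ract_mul x a b := by rw [toAPlus_mul, mul_assoc]
  act_ract a x b := mul_assoc _ _ _

end Unitization

/-- The bidimension `db A = dh_{A-A} A₊`. -/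
def db (A : Type u) [NonUnitalNormedRing A] [NormedSpace ℂ A]
    [IsScalarTower ℂ A A] [SMulCommClass ℂ A A] [CompleteSpace A] : ℕ∞ :=
  (unitizationBMod A).dh

/-- `A` is radical: it equals its Jacobson radical, i.e. the Jacobson radical of the unitization
contains `A`. -/
def IsRadicalAlgebra (A : Type u) [NonUnitalNormedRing A] [NormedSpace ℂ A]
    [IsScalarTower ℂ A A] [SMulCommClass ℂ A A] : Prop :=
  ∀ a : A, (a : Unitization ℂ A) ∈ Ring.jacobson (Unitization ℂ A)

end Pool.Agent.MP_a77edb_an.HomDim
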