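import Pool.Agent.MP_a77edb_an.Vanishing

/-!
# Lifting properties and short resolutions
-/

set_option autoImplicit false
set_option linter.unusedSectionVars false

noncomputable section

namespace Pool.Agent.MP_a77edb_an

universe u

open ContinuousLinearMap

section Left

variable {A : Type u} [NonUnitalNormedRing A] [NormedSpace ℂ A]

/-- The lifting property. -/
def LeftMod.Lifts (P : LeftMod A) : Prop :=
  ∀ (Y Z : LeftMod A) (f : LeftMod.Hom Y Z) (s : Z →L[ℂ] Y), (∀ z, f.toCLM (s z) = z) →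
    ∀ φ : LeftMod.Hom P Z, ∃ g : LeftMod.Hom P Y, ∀ x, f.toCLM (g.toCLM x) = φ.toCLM x

theorem LeftMod.Lifts.isProjective {P : LeftMod A} (h : P.Lifts) : P.IsProjective := by
  intro Y f hs
  obtain ⟨s, hs⟩ := hs
  exact h Y P f s hs ⟨ContinuousLinearMap.id ℂ P, fun a x => rfl⟩

/-- The product of two modules. -/
def LeftMod.prod (P Q : LeftMod A) : LeftMod A where
  carrier := P × Q
  act := ((compL ℂ (P × Q) P (P × Q) (inl ℂ P Q)).comp
      (((compL ℂ (P × Q) P P).flip (fst ℂ P Q)).comp P.act)) +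
    ((compL ℂ (P × Q) Q (P × Q) (inr ℂ P Q)).comp
      (((compL ℂ (P × Q) Q Q).flip (snd ℂ P Q)).comp Q.act))
  act_mul := fun a b x => by
    show ((P.act (a * b) x.1, (0 : Q)) + ((0 : P), Q.act (a * b) x.2) : P × Q) =
      ((P.act a (P.act b x.1 + 0), (0 : Q)) + ((0 : P), Q.act a (0 + Q.act b x.2)) : P × Q)
    rw [add_zero, zero_add, P.act_mul, Q.act_mul]

theorem LeftMod.prod_act (P Q : LeftMod A) (a : A) (x : P) (y : Q) :
    (LeftMod.prod P Q).act a ((x, y) : P × Q) = ((P.act a x, Q.act a y) : P × Q) := by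
  show ((P.act a x, (0 : Q)) + ((0 : P), Q.act a y) : P × Q) = _
  rw [Prod.mk_add_mk, add_zero, zero_add]

theorem LeftMod.Lifts.prod {P Q : LeftMod A} (hP : P.Lifts) (hQ : Q.Lifts) :
    (LeftMod.prod P Q).Lifts := by
  intro Y Z f s hs φ
  let φ' : P × Q →L[ℂ] Z := φ.toCLM
  have hφ' : ∀ a (x : P) (y : Q), φ' (P.act a x, Q.act a y) = Z.act a (φ' (x, y)) := by
    intro a x y
    have := φ.map_act a ((x, y) : P × Q)
    rw [LeftMod.prod_act] at this
    exact this
  obtain ⟨g₁, hg₁⟩ := hP Y Z f s hs ⟨φ'.comp (inl ℂ P Q), fun a x => by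
    have := hφ' a x 0
    rw [map_zero] at this
    exact this⟩
  obtain ⟨g₂, hg₂⟩ := hQ Y Z f s hs ⟨φ'.comp (inr ℂ P Q), fun a x => by
    have := hφ' a 0 x
    rw [map_zero] at this
    exact this⟩
  refine ⟨⟨g₁.toCLM.comp (fst ℂ P Q) + g₂.toCLM.comp (snd ℂ P Q), fun a x => ?_⟩, fun x => ?_⟩
  · obtain ⟨x, y⟩ : P × Q := x
    rw [LeftMod.prod_act]
    show g₁.toCLM (P.act a x) + g₂.toCLM (Q.act a y) = Y.act a (g₁.toCLM x + g₂.toCLM y)
    rw [g₁.map_act, g₂.map_act, map_add]
  · obtain ⟨x, y⟩ : P × Q := x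
    show f.toCLM (g₁.toCLM x + g₂.toCLM y) = φ' (x, y)
    rw [map_add, hg₁, hg₂]
    show φ' (x, 0) + φ' (0, y) = φ' (x, y)
    rw [← map_add, Prod.mk_add_mk, add_zero, zero_add]

/-- A trivial module. -/
def LeftMod.triv (X : LeftMod A) : LeftMod A where
  carrier := (⊥ : Submodule ℂ X)
  act := 0
  act_mul := fun a b x => by simp

instance (X : LeftMod A) : Subsingleton (LeftMod.triv X) :=
  inferInstanceAs (Subsingleton (⊥ : Submodule ℂ X))

theorem LeftMod.triv_lifts (X : LeftMod A) : (LeftMod.triv X).Lifts := by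
  intro Y Z f s hs φ
  refine ⟨⟨0, fun a x => by simp⟩, fun x => ?_⟩
  have : x = 0 := Subsingleton.elim _ _
  rw [this, map_zero, map_zero, map_zero]

/-- A short resolution bounds the homological dimension. -/
theorem LeftMod.dh_le_one {X P₀ P₁ : LeftMod A} (h₀ : P₀.IsProjective) (h₁ : P₁.IsProjective)
    (ε : LeftMod.Hom P₀ X) (d : LeftMod.Hom P₁ P₀) (s : X →L[ℂ] P₀) (k : P₀ →L[ℂ] P₁)
    (hεd : ∀ y, ε.toCLM (d.toCLM y) = 0) (hεs : ∀ x, ε.toCLM (s x) = x)
    (hsd : ∀ y, s (ε.toCLM y) + d.toCLM (k y) = y) (hkd : ∀ y, k (d.toCLM y) = y) :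
    X.dh ≤ 1 := by
  refine iInf₂_le 1 ⟨?_, ?_⟩
  · exact
    { P := fun n => match n with
        | 0 => P₀
        | 1 => P₁
        | _ + 2 => LeftMod.triv X
      proj := fun n => match n with
        | 0 => h₀
        | 1 => h₁
        | _ + 2 => (LeftMod.triv_lifts X).isProjective
      ε := ε
      d := fun n => match n with
        | 0 => d
        | _ + 1 => ⟨0, fun a x => by simp⟩
      ε_d := hεd
      d_d := fun n y => match n with
        | 0 => map_zero _
        | _ + 1 => rfl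
      s := s
      h := fun n => match n with
        | 0 => k
        | _ + 1 => 0
      ε_s := hεs
      split_zero := hsd
      split_succ := fun n y => match n with
        | 0 => by
          show k (d.toCLM y) + 0 = y
          rw [add_zero, hkd]
        | _ + 1 => by
          exact Subsingleton.elim (α := LeftMod.triv X) _ _ }
  · intro n hn
    match n, hn with
    | n + 2, _ => exact inferInstanceAs (Subsingleton (LeftMod.triv X))

/-- Homological dimension zero means projective. -/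
theorem LeftMod.isProjective_of_dh (X : LeftMod A) (h : X.dh < 1) : X.IsProjective := by
  have h1 : ∃ n : ℕ, n < 1 ∧ ∃ R : LeftMod.ProjRes X, ∀ k, n < k → Subsingleton (R.P k) := by
    by_contra hcon
    push Not at hcon
    have h2 : (1 : ℕ∞) ≤ X.dh := by
      refine le_iInf₂ fun n hn => ?_
      by_contra hlt
      have h3 : n < 1 := by
        have h3 : (n : ℕ∞) < 1 := not_le.1 hlt
        exact_mod_cast h3
      obtain ⟨R, hR⟩ := hn
      obtain ⟨k, hk, hk'⟩ := hcon n h3 R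
      exact absurd (hR k hk) (not_subsingleton_iff_nontrivial.2 hk')
    exact absurd h (not_lt.2 h2)
  obtain ⟨n, hn, R, hR⟩ := h1
  have hsub : Subsingleton (R.P 1) := hR 1 (by omega)
  have hsε : ∀ y, R.s (R.ε.toCLM y) = y := fun y => by
    have h1 := R.split_zero y
    have h2 : R.h 0 y = 0 := Subsingleton.elim _ _
    rw [h2, map_zero, add_zero] at h1
    exact h1
  have hsa : ∀ a x, R.s (X.act a x) = (R.P 0).act a (R.s x) := fun a x => by
    have h1 : R.ε.toCLM ((R.P 0).act a (R.s x)) = X.act a x := by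
      rw [R.ε.map_act, R.ε_s]
    rw [← h1, hsε]
  intro Y f ht
  obtain ⟨t, ht⟩ := ht
  obtain ⟨g, hg⟩ := R.proj 0 Y ⟨R.s.comp f.toCLM, fun a y => by
    show R.s (f.toCLM (Y.act a y)) = (R.P 0).act a (R.s (f.toCLM y))
    rw [f.map_act, hsa]⟩ ⟨t.comp R.ε.toCLM, fun x => by
      show R.s (f.toCLM (t (R.ε.toCLM x))) = x
      rw [ht, hsε]⟩
  refine ⟨⟨g.toCLM.comp R.s, fun a x => ?_⟩, fun x => ?_⟩
  · show g.toCLM (R.s (X.act a x)) = Y.act a (g.toCLM (R.s x))
    rw [hsa, g.map_act]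
  · show f.toCLM (g.toCLM (R.s x)) = x
    have h1 : R.s (f.toCLM (g.toCLM (R.s x))) = R.s x := hg (R.s x)
    have h2 := congrArg R.ε.toCLM h1
    rwa [R.ε_s, R.ε_s] at h2

end Left

section Bi

variable {A : Type u} [NonUnitalNormedRing A] [NormedSpace ℂ A]

/-- The lifting property. -/
def Bimod.Lifts (P : Bimod A) : Prop :=
  ∀ (Y Z : Bimod A) (f : Bimod.Hom Y Z) (s : Z →L[ℂ] Y), (∀ z, f.toCLM (s z) = z) →
    ∀ φ : Bimod.Hom P Z, ∃ g : Bimod.Hom P Y, ∀ x, f.toCLM (g.toCLM x) = φ.toCLM x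

theorem Bimod.Lifts.isProjective {P : Bimod A} (h : P.Lifts) : P.IsProjective := by
  intro Y f hs
  obtain ⟨s, hs⟩ := hs
  exact h Y P f s hs ⟨ContinuousLinearMap.id ℂ P, fun a x => rfl, fun a x => rfl⟩

/-- The product of two bimodules. -/
def Bimod.prod (P Q : Bimod A) : Bimod A where
  carrier := P × Q
  act := ((compL ℂ (P × Q) P (P × Q) (inl ℂ P Q)).comp
      (((compL ℂ (P × Q) P P).flip (fst ℂ P Q)).comp P.act)) +
    ((compL ℂ (P × Q) Q (P × Q) (inr ℂ P Q)).comp
      (((compL ℂ (P × Q) Q Q).flip (snd ℂ P Q)).comp Q.act))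
  ract := ((compL ℂ (P × Q) P (P × Q) (inl ℂ P Q)).comp
      (((compL ℂ (P × Q) P P).flip (fst ℂ P Q)).comp P.ract)) +
    ((compL ℂ (P × Q) Q (P × Q) (inr ℂ P Q)).comp
      (((compL ℂ (P × Q) Q Q).flip (snd ℂ P Q)).comp Q.ract))
  act_mul := fun a b x => by
    show ((P.act (a * b) x.1, (0 : Q)) + ((0 : P), Q.act (a * b) x.2) : P × Q) =
      ((P.act a (P.act b x.1 + 0), (0 : Q)) + ((0 : P), Q.act a (0 + Q.act b x.2)) : P × Q)
    rw [add_zero, zero_add, P.act_mul, Q.act_mul]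
  ract_mul := fun a b x => by
    show ((P.ract (a * b) x.1, (0 : Q)) + ((0 : P), Q.ract (a * b) x.2) : P × Q) =
      ((P.ract b (P.ract a x.1 + 0), (0 : Q)) + ((0 : P), Q.ract b (0 + Q.ract a x.2)) : P × Q)
    rw [add_zero, zero_add, P.ract_mul, Q.ract_mul]
  act_ract := fun a b x => by
    show ((P.act a (P.ract b x.1 + 0), (0 : Q)) + ((0 : P), Q.act a (0 + Q.ract b x.2)) : P × Q) =
      ((P.ract b (P.act a x.1 + 0), (0 : Q)) + ((0 : P), Q.ract b (0 + Q.act a x.2)) : P × Q)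
    rw [add_zero, add_zero, zero_add, zero_add, P.act_ract, Q.act_ract]

theorem Bimod.prod_act (P Q : Bimod A) (a : A) (x : P) (y : Q) :
    (Bimod.prod P Q).act a ((x, y) : P × Q) = ((P.act a x, Q.act a y) : P × Q) := by
  show ((P.act a x, (0 : Q)) + ((0 : P), Q.act a y) : P × Q) = _
  rw [Prod.mk_add_mk, add_zero, zero_add]

theorem Bimod.prod_ract (P Q : Bimod A) (a : A) (x : P) (y : Q) :
    (Bimod.prod P Q).ract a ((x, y) : P × Q) = ((P.ract a x, Q.ract a y) : P × Q) := by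
  show ((P.ract a x, (0 : Q)) + ((0 : P), Q.ract a y) : P × Q) = _
  rw [Prod.mk_add_mk, add_zero, zero_add]

theorem Bimod.Lifts.prod {P Q : Bimod A} (hP : P.Lifts) (hQ : Q.Lifts) :
    (Bimod.prod P Q).Lifts := by
  intro Y Z f s hs φ
  let φ' : P × Q →L[ℂ] Z := φ.toCLM
  have hφ' : ∀ a (x : P) (y : Q), φ' (P.act a x, Q.act a y) = Z.act a (φ' (x, y)) := by
    intro a x y
    have := φ.map_act a ((x, y) : P × Q)
    rw [Bimod.prod_act] at this
    exact this
  have hφr : ∀ a (x : P) (y : Q), φ' (P.ract a x, Q.ract a y) = Z.ract a (φ' (x, y)) := by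
    intro a x y
    have := φ.map_ract a ((x, y) : P × Q)
    rw [Bimod.prod_ract] at this
    exact this
  obtain ⟨g₁, hg₁⟩ := hP Y Z f s hs ⟨φ'.comp (inl ℂ P Q), fun a x => by
    have := hφ' a x 0
    rw [map_zero] at this
    exact this, fun a x => by
    have := hφr a x 0
    rw [map_zero] at this
    exact this⟩
  obtain ⟨g₂, hg₂⟩ := hQ Y Z f s hs ⟨φ'.comp (inr ℂ P Q), fun a x => by
    have := hφ' a 0 x
    rw [map_zero] at this
    exact this, fun a x => by
    have := hφr a 0 x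
    rw [map_zero] at this
    exact this⟩
  refine ⟨⟨g₁.toCLM.comp (fst ℂ P Q) + g₂.toCLM.comp (snd ℂ P Q), fun a x => ?_,
    fun a x => ?_⟩, fun x => ?_⟩
  · obtain ⟨x, y⟩ : P × Q := x
    rw [Bimod.prod_act]
    show g₁.toCLM (P.act a x) + g₂.toCLM (Q.act a y) = Y.act a (g₁.toCLM x + g₂.toCLM y)
    rw [g₁.map_act, g₂.map_act, map_add]
  · obtain ⟨x, y⟩ : P × Q := x
    rw [Bimod.prod_ract]
    show g₁.toCLM (P.ract a x) + g₂.toCLM (Q.ract a y) = Y.ract a (g₁.toCLM x + g₂.toCLM y)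
    rw [g₁.map_ract, g₂.map_ract, map_add]
  · obtain ⟨x, y⟩ : P × Q := x
    show f.toCLM (g₁.toCLM x + g₂.toCLM y) = φ' (x, y)
    rw [map_add, hg₁, hg₂]
    show φ' (x, 0) + φ' (0, y) = φ' (x, y)
    rw [← map_add, Prod.mk_add_mk, add_zero, zero_add]

/-- A trivial bimodule. -/
def Bimod.triv (X : Bimod A) : Bimod A where
  carrier := (⊥ : Submodule ℂ X)
  act := 0
  ract := 0
  act_mul := fun a b x => by simp
  ract_mul := fun a b x => by simp
  act_ract := fun a b x => by simp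

instance (X : Bimod A) : Subsingleton (Bimod.triv X) :=
  inferInstanceAs (Subsingleton (⊥ : Submodule ℂ X))

theorem Bimod.triv_lifts (X : Bimod A) : (Bimod.triv X).Lifts := by
  intro Y Z f s hs φ
  refine ⟨⟨0, fun a x => by simp, fun a x => by simp⟩, fun x => ?_⟩
  have : x = 0 := Subsingleton.elim _ _
  rw [this, map_zero, map_zero, map_zero]

/-- A short resolution bounds the homological dimension. -/
theorem Bimod.dh_le_one {X P₀ P₁ : Bimod A} (h₀ : P₀.IsProjective) (h₁ : P₁.IsProjective)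
    (ε : Bimod.Hom P₀ X) (d : Bimod.Hom P₁ P₀) (s : X →L[ℂ] P₀) (k : P₀ →L[ℂ] P₁)
    (hεd : ∀ y, ε.toCLM (d.toCLM y) = 0) (hεs : ∀ x, ε.toCLM (s x) = x)
    (hsd : ∀ y, s (ε.toCLM y) + d.toCLM (k y) = y) (hkd : ∀ y, k (d.toCLM y) = y) :
    X.dh ≤ 1 := by
  refine iInf₂_le 1 ⟨?_, ?_⟩
  · exact
    { P := fun n => match n with
        | 0 => P₀
        | 1 => P₁
        | _ + 2 => Bimod.triv X
      proj := fun n => match n with
        | 0 => h₀
        | 1 => h₁
        | _ + 2 => (Bimod.triv_lifts X).isProjective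
      ε := ε
      d := fun n => match n with
        | 0 => d
        | _ + 1 => ⟨0, fun a x => by simp, fun a x => by simp⟩
      ε_d := hεd
      d_d := fun n y => match n with
        | 0 => map_zero _
        | _ + 1 => rfl
      s := s
      h := fun n => match n with
        | 0 => k
        | _ + 1 => 0
      ε_s := hεs
      split_zero := hsd
      split_succ := fun n y => match n with
        | 0 => by
          show k (d.toCLM y) + 0 = y
          rw [add_zero, hkd]
        | _ + 1 => by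
          exact Subsingleton.elim (α := Bimod.triv X) _ _ }
  · intro n hn
    match n, hn with
    | n + 2, _ => exact inferInstanceAs (Subsingleton (Bimod.triv X))

/-- Homological dimension zero means projective. -/
theorem Bimod.isProjective_of_dh (X : Bimod A) (h : X.dh < 1) : X.IsProjective := by
  have h1 : ∃ n : ℕ, n < 1 ∧ ∃ R : Bimod.ProjRes X, ∀ k, n < k → Subsingleton (R.P k) := by
    by_contra hcon
    push Not at hcon
    have h2 : (1 : ℕ∞) ≤ X.dh := by
      refine le_iInf₂ fun n hn => ?_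
      by_contra hlt
      have h3 : n < 1 := by
        have h3 : (n : ℕ∞) < 1 := not_le.1 hlt
        exact_mod_cast h3
      obtain ⟨R, hR⟩ := hn
      obtain ⟨k, hk, hk'⟩ := hcon n h3 R
      exact absurd (hR k hk) (not_subsingleton_iff_nontrivial.2 hk')
    exact absurd h (not_lt.2 h2)
  obtain ⟨n, hn, R, hR⟩ := h1
  have hsub : Subsingleton (R.P 1) := hR 1 (by omega)
  have hsε : ∀ y, R.s (R.ε.toCLM y) = y := fun y => by
    have h1 := R.split_zero y
    have h2 : R.h 0 y = 0 := Subsingleton.elim _ _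
    rw [h2, map_zero, add_zero] at h1
    exact h1
  have hsa : ∀ a x, R.s (X.act a x) = (R.P 0).act a (R.s x) := fun a x => by
    have h1 : R.ε.toCLM ((R.P 0).act a (R.s x)) = X.act a x := by
      rw [R.ε.map_act, R.ε_s]
    rw [← h1, hsε]
  have hsr : ∀ a x, R.s (X.ract a x) = (R.P 0).ract a (R.s x) := fun a x => by
    have h1 : R.ε.toCLM ((R.P 0).ract a (R.s x)) = X.ract a x := by
      rw [R.ε.map_ract, R.ε_s]
    rw [← h1, hsε]
  intro Y f ht
  obtain ⟨t, ht⟩ := ht
  obtain ⟨g, hg⟩ := R.proj 0 Y ⟨R.s.comp f.toCLM, fun a y => by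
    show R.s (f.toCLM (Y.act a y)) = (R.P 0).act a (R.s (f.toCLM y))
    rw [f.map_act, hsa], fun a y => by
    show R.s (f.toCLM (Y.ract a y)) = (R.P 0).ract a (R.s (f.toCLM y))
    rw [f.map_ract, hsr]⟩ ⟨t.comp R.ε.toCLM, fun x => by
      show R.s (f.toCLM (t (R.ε.toCLM x))) = x
      rw [ht, hsε]⟩
  refine ⟨⟨g.toCLM.comp R.s, fun a x => ?_, fun a x => ?_⟩, fun x => ?_⟩
  · show g.toCLM (R.s (X.act a x)) = Y.act a (g.toCLM (R.s x))
    rw [hsa, g.map_act]
  · show g.toCLM (R.s (X.ract a x)) = Y.ract a (g.toCLM (R.s x))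
    rw [hsr, g.map_ract]
  · show f.toCLM (g.toCLM (R.s x)) = x
    have h1 : R.s (f.toCLM (g.toCLM (R.s x))) = R.s x := hg (R.s x)
    have h2 := congrArg R.ε.toCLM h1
    rwa [R.ε_s, R.ε_s] at h2

end Bi

end Pool.Agent.MP_a77edb_an
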