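import Pool.Agent.MP_a77edb_an.TensorOps

/-!
# Bounded families over a directed set
-/

set_option autoImplicit false

noncomputable section

namespace Pool.Agent.MP_a77edb_an

universe u v

open ContinuousLinearMap Filter Topology
open scoped ENNReal

/-! ### Index type -/

/-- Finite binary trees with labelled leaves. -/
inductive Idx (α : Type u) : Type u
  | leaf : α → Idx α
  | node : Idx α → Idx α → Idx α

namespace Idx

variable {α : Type u}

/-- The set of labels of a tree. -/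
def lab : Idx α → Set α
  | leaf x => {x}
  | node p q => p.lab ∪ q.lab

theorem lab_finite (p : Idx α) : p.lab.Finite := by
  induction p with
  | leaf x => exact Set.finite_singleton x
  | node p q hp hq => exact hp.union hq

instance : Preorder (Idx α) := Preorder.lift lab

theorem le_iff (p q : Idx α) : p ≤ q ↔ p.lab ⊆ q.lab := Iff.rfl

theorem le_node_left (p q : Idx α) : p ≤ node p q := Set.subset_union_left

theorem le_node_right (p q : Idx α) : q ≤ node p q := Set.subset_union_right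

instance : IsDirectedOrder (Idx α) := ⟨fun p q => ⟨node p q, le_node_left p q, le_node_right p q⟩⟩

instance [Nonempty α] : Nonempty (Idx α) := ⟨leaf (Classical.arbitrary α)⟩

theorem eventually_mem_lab [Nonempty α] (x : α) : ∀ᶠ p : Idx α in atTop, x ∈ p.lab := by
  filter_upwards [eventually_ge_atTop (leaf x)] with p hp
  exact hp rfl

theorem eventually_ne [Infinite α] (p : Idx α) : ∀ᶠ q : Idx α in atTop, q ≠ p := by
  obtain ⟨x, hx⟩ := p.lab_finite.exists_notMem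
  filter_upwards [eventually_mem_lab x] with q hq hqp
  exact hx (hqp ▸ hq)

end Idx

/-! ### Bounded families -/

/-- Bounded families of elements of `E`. -/
abbrev Linf (Γ : Type u) (E : Type v) [NormedAddCommGroup E] := lp (fun _ : Γ => E) ⊤

section Linf

variable {Γ : Type u} {E : Type v} [NormedAddCommGroup E]

theorem linf_mem {f : Γ → E} {C : ℝ} (h : ∀ γ, ‖f γ‖ ≤ C) : Memℓp f ⊤ :=
  memℓp_infty ⟨C, by rintro _ ⟨γ, rfl⟩; exact h γ⟩

theorem linf_apply_le (f : Linf Γ E) (γ : Γ) : ‖f γ‖ ≤ ‖f‖ :=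
  lp.norm_apply_le_norm (by simp) f γ

end Linf

section Z0

/-- complex-valued bounded families -/
abbrev LC (Γ : Type u) := lp (fun _ : Γ => ℂ) ⊤

theorem lc_apply_le {Γ : Type u} (f : LC Γ) (γ : Γ) : ‖f γ‖ ≤ ‖f‖ :=
  lp.norm_apply_le_norm (by simp) f γ

variable (Γ : Type u) [Preorder Γ]

/-- Bounded families of scalars tending to zero along the directed set. -/
def Z0 : Submodule ℂ (LC Γ) where
  carrier := {w | Tendsto (fun γ => w γ) atTop (𝓝 0)}
  add_mem' := by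
    intro v w hv hw
    have hv' : Tendsto (fun γ => v γ) atTop (𝓝 0) := hv
    have hw' : Tendsto (fun γ => w γ) atTop (𝓝 0) := hw
    have h := hv'.add hw'
    rw [add_zero] at h
    exact h
  zero_mem' := by
    show Tendsto (fun _ : Γ => (0 : ℂ)) atTop (𝓝 0)
    exact tendsto_const_nhds
  smul_mem' := by
    intro c w hw
    have hw' : Tendsto (fun γ => w γ) atTop (𝓝 0) := hw
    have h := hw'.const_smul c
    rw [smul_zero] at h
    exact h

variable {Γ}

theorem mem_Z0 {w : LC Γ} : w ∈ Z0 Γ ↔ Tendsto (fun γ => w γ) atTop (𝓝 0) := Iff.rfl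

theorem isClosed_Z0 : IsClosed (Z0 Γ : Set (LC Γ)) := by
  refine isClosed_of_closure_subset fun w hw => ?_
  rw [SetLike.mem_coe, mem_Z0, NormedAddGroup.tendsto_nhds_zero]
  intro ε hε
  obtain ⟨v, hv, hvw⟩ := Metric.mem_closure_iff.1 hw (ε / 2) (by positivity)
  have hv' := NormedAddGroup.tendsto_nhds_zero.1 (mem_Z0.1 hv) (ε / 2) (by positivity)
  filter_upwards [hv'] with γ hγ
  have h1 : ‖(w - v) γ‖ ≤ ‖w - v‖ := lc_apply_le _ _
  rw [dist_eq_norm] at hvw
  have h2 : w γ = (w - v) γ + v γ := by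
    rw [lp.coeFn_sub, Pi.sub_apply, sub_add_cancel]
  rw [h2]
  calc ‖(w - v) γ + v γ‖ ≤ ‖(w - v) γ‖ + ‖v γ‖ := norm_add_le _ _
    _ < ε := by linarith

instance : CompleteSpace (Z0 Γ) := isClosed_Z0.completeSpace_coe

/-- Evaluation functional. -/
def ev (γ : Γ) : Z0 Γ →L[ℂ] ℂ := (lp.evalCLM ℂ (fun _ : Γ => ℂ) ⊤ γ).comp (Z0 Γ).subtypeL

theorem ev_apply (γ : Γ) (w : Z0 Γ) : ev γ w = (w : LC Γ) γ := rfl

theorem norm_ev_apply_le (γ : Γ) (w : Z0 Γ) : ‖ev γ w‖ ≤ ‖w‖ := lc_apply_le (w : LC Γ) γ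

theorem norm_ev_le (γ : Γ) : ‖ev γ‖ ≤ 1 := by
  refine ContinuousLinearMap.opNorm_le_bound _ zero_le_one fun w => ?_
  rw [one_mul]
  exact norm_ev_apply_le γ w

theorem Z0_ext {v w : Z0 Γ} (h : ∀ γ, ev γ v = ev γ w) : v = w :=
  Subtype.ext (lp.ext (funext h))

theorem norm_Z0_le {w : Z0 Γ} {C : ℝ} (hC : 0 ≤ C) (h : ∀ γ, ‖ev γ w‖ ≤ C) : ‖w‖ ≤ C := by
  show ‖(w : LC Γ)‖ ≤ C
  exact lp.norm_le_of_forall_le hC h

theorem tendsto_ev (w : Z0 Γ) : Tendsto (fun γ => ev γ w) atTop (𝓝 0) := w.2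

/-- Construct an element of `Z0`. -/
def mkZ0 (f : Γ → ℂ) (hb : Memℓp f ⊤) (ht : Tendsto f atTop (𝓝 0)) : Z0 Γ := ⟨⟨f, hb⟩, ht⟩

@[simp] theorem ev_mkZ0 (f : Γ → ℂ) (hb : Memℓp f ⊤) (ht : Tendsto f atTop (𝓝 0)) (γ : Γ) :
    ev γ (mkZ0 f hb ht) = f γ := rfl

/-- Multiplication by a bounded family of scalars of absolute value at most one, as a function. -/
def diagFun (d : Γ → ℂ) (hd : ∀ γ, ‖d γ‖ ≤ 1) (w : Z0 Γ) : Z0 Γ :=
  mkZ0 (fun γ => d γ * ev γ w)
    (linf_mem (C := ‖w‖) fun γ => by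
      rw [norm_mul]
      have h1 : ‖ev γ w‖ ≤ ‖w‖ := norm_ev_apply_le γ w
      nlinarith [hd γ, norm_nonneg (ev γ w)])
    (by
      refine squeeze_zero_norm (a := fun γ => ‖ev γ w‖) (fun γ => ?_)
        (tendsto_zero_iff_norm_tendsto_zero.1 (tendsto_ev w))
      rw [norm_mul]
      exact mul_le_of_le_one_left (norm_nonneg _) (hd γ))

theorem ev_diagFun (d : Γ → ℂ) (hd : ∀ γ, ‖d γ‖ ≤ 1) (γ : Γ) (w : Z0 Γ) :
    ev γ (diagFun d hd w) = d γ * ev γ w := rfl

/-- Multiplication by a bounded family of scalars, as a linear map. -/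
def diagLin (d : Γ → ℂ) (hd : ∀ γ, ‖d γ‖ ≤ 1) : Z0 Γ →ₗ[ℂ] Z0 Γ where
  toFun := diagFun d hd
  map_add' := fun v w => Z0_ext fun γ => by
    rw [ev_diagFun, map_add, map_add, ev_diagFun, ev_diagFun, mul_add]
  map_smul' := fun c w => Z0_ext fun γ => by
    rw [ev_diagFun, RingHom.id_apply, map_smul, map_smul, ev_diagFun, smul_eq_mul, smul_eq_mul]
    ring

/-- Multiplication by a bounded family of scalars of absolute value at most one. -/
def diagZ (d : Γ → ℂ) (hd : ∀ γ, ‖d γ‖ ≤ 1) : Z0 Γ →L[ℂ] Z0 Γ :=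
  LinearMap.mkContinuous (diagLin d hd) 1
    (fun w => by
      rw [one_mul]
      refine norm_Z0_le (norm_nonneg _) fun γ => ?_
      show ‖d γ * ev γ w‖ ≤ ‖w‖
      rw [norm_mul]
      have h1 : ‖ev γ w‖ ≤ ‖w‖ := norm_ev_apply_le γ w
      nlinarith [hd γ, norm_nonneg (ev γ w)])

theorem ev_diagZ (d : Γ → ℂ) (hd : ∀ γ, ‖d γ‖ ≤ 1) (γ : Γ) (w : Z0 Γ) :
    ev γ (diagZ d hd w) = d γ * ev γ w := rfl

theorem norm_diagZ_le (d : Γ → ℂ) (hd : ∀ γ, ‖d γ‖ ≤ 1) : ‖diagZ d hd‖ ≤ 1 :=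
  LinearMap.mkContinuous_norm_le _ zero_le_one _

variable {A : Type u} [NormedAddCommGroup A] [NormedSpace ℂ A] [CompleteSpace A]

theorem slice_mapR_diagZ (d : Γ → ℂ) (hd : ∀ γ, ‖d γ‖ ≤ 1) (γ : Γ) (t : PT A (Z0 Γ)) :
    PT.slice (ev γ) (PT.mapR (diagZ d hd) t) = d γ • PT.slice (ev γ) t := by
  have h : (PT.slice (ev γ)).comp (PT.mapR (E := A) (diagZ d hd)) = d γ • PT.slice (ev γ) := by
    refine PT.ext' fun u w => ?_
    rw [comp_apply, PT.mapR_tmul, PT.slice_tmul, smul_apply, PT.slice_tmul, ev_diagZ, mul_smul]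
  exact congrArg (fun (T : PT A (Z0 Γ) →L[ℂ] A) => T t) h

/-- slices along the net tend to zero -/
theorem tendsto_slice (t : PT A (Z0 Γ)) :
    Tendsto (fun γ => PT.slice (ev γ) t) atTop (𝓝 0) := by
  obtain ⟨α, rfl⟩ := PT.mkQ_surjective t
  have h1 : ∀ γ : Γ, HasSum (fun w : UBall (Z0 Γ) => ev γ (w : Z0 Γ) • α w)
      (PT.slice (ev γ) (PT.mkQ A (Z0 Γ) α)) := by
    intro γ
    have := (PT.slice (ev γ)).hasSum (PT.hasSum_mkQ α)
    simpa using this
  have h2 : (fun γ : Γ => PT.slice (ev γ) (PT.mkQ A (Z0 Γ) α)) =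
      fun γ => ∑' w : UBall (Z0 Γ), ev γ (w : Z0 Γ) • α w := by
    funext γ
    exact (h1 γ).tsum_eq.symm
  rw [h2]
  have h3 : Tendsto (fun γ => ∑' w : UBall (Z0 Γ), ev γ (w : Z0 Γ) • α w) atTop
      (𝓝 (∑' w : UBall (Z0 Γ), (0 : A))) := by
    refine tendsto_tsum_of_dominated_convergence (l1_summable_norm α) (fun w => ?_)
      (Eventually.of_forall fun γ w => ?_)
    · have := (tendsto_ev (w : Z0 Γ)).smul_const (α w)
      rwa [zero_smul] at this
    · rw [norm_smul]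
      have h4 : ‖ev γ (w : Z0 Γ)‖ ≤ 1 := (norm_ev_apply_le γ _).trans w.2
      exact mul_le_of_le_one_left (norm_nonneg _) h4
  rwa [tsum_zero] at h3

end Z0

end Pool.Agent.MP_a77edb_an
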