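import Mathlib

/-!
# The projective tensor product of two complex Banach spaces

`PT E F` is a quotient of `ℓ¹(ball F; E)`.
-/

set_option autoImplicit false

noncomputable section

namespace Pool.Agent.MP_a77edb_an

open scoped ENNReal
open Classical

universe u v w

section L1

variable {ι : Type v} {E : Type u} [NormedAddCommGroup E]

theorem l1_summable_norm (f : lp (fun _ : ι => E) 1) : Summable (fun i => ‖f i‖) := by
  have := (lp.memℓp f).summable (by simp)
  simpa using this

theorem l1_norm_eq (f : lp (fun _ : ι => E) 1) : ‖f‖ = ∑' i, ‖f i‖ := by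
  rw [lp.norm_eq_tsum_rpow (by simp)]
  simp

theorem l1_mem {f : ι → E} (h : Summable (fun i => ‖f i‖)) : Memℓp f 1 :=
  memℓp_gen (by simpa using h)

end L1

/-- the closed unit ball of `F`, as a type -/
abbrev UBall (F : Type v) [NormedAddCommGroup F] : Type v := {w : F // ‖w‖ ≤ 1}

variable (E : Type u) (F : Type v) [NormedAddCommGroup E] [NormedSpace ℂ E]
  [NormedAddCommGroup F] [NormedSpace ℂ F]

/-- `ℓ¹` families of elements of `E` indexed by the unit ball of `F`. -/
abbrev PreT := lp (fun _ : UBall F => E) 1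

variable {E F}
variable {G : Type w} [NormedAddCommGroup G] [NormedSpace ℂ G]

theorem preLift_bound (β : E →L[ℂ] F →L[ℂ] G) (α : PreT E F) (w : UBall F) :
    ‖β (α w) w‖ ≤ ‖β‖ * ‖α w‖ := by
  refine (β.le_opNorm₂ _ _).trans ?_
  have hw : ‖(w : F)‖ ≤ 1 := w.2
  nlinarith [mul_nonneg (norm_nonneg β) (norm_nonneg (α w)), norm_nonneg (w : F)]

theorem preLift_summable_norm (β : E →L[ℂ] F →L[ℂ] G) (α : PreT E F) :
    Summable (fun w : UBall F => ‖β (α w) w‖) :=
  Summable.of_nonneg_of_le (fun _ => norm_nonneg _) (fun w => preLift_bound β α w)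
    ((l1_summable_norm α).mul_left ‖β‖)

variable [CompleteSpace G]

theorem preLift_summable (β : E →L[ℂ] F →L[ℂ] G) (α : PreT E F) :
    Summable (fun w : UBall F => β (α w) w) :=
  (preLift_summable_norm β α).of_norm

/-- The linear map on `ℓ¹(ball F; E)` induced by a bounded bilinear map. -/
def preLiftLin (β : E →L[ℂ] F →L[ℂ] G) : PreT E F →ₗ[ℂ] G where
  toFun α := ∑' w : UBall F, β (α w) w
  map_add' α α' := by
    rw [← Summable.tsum_add (preLift_summable β α) (preLift_summable β α')]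
    refine tsum_congr fun w => ?_
    rw [lp.coeFn_add, Pi.add_apply, map_add, add_apply]
  map_smul' c α := by
    rw [RingHom.id_apply, ← Summable.tsum_const_smul _ (preLift_summable β α)]
    refine tsum_congr fun w => ?_
    rw [lp.coeFn_smul, Pi.smul_apply, map_smul, smul_apply]

theorem norm_preLiftLin_apply_le (β : E →L[ℂ] F →L[ℂ] G) (α : PreT E F) :
    ‖preLiftLin β α‖ ≤ ‖β‖ * ‖α‖ := by
  show ‖∑' w : UBall F, β (α w) w‖ ≤ ‖β‖ * ‖α‖
  refine (norm_tsum_le_tsum_norm (preLift_summable_norm β α)).trans ?_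
  rw [l1_norm_eq, ← tsum_mul_left]
  exact Summable.tsum_le_tsum (fun w => preLift_bound β α w) (preLift_summable_norm β α)
    ((l1_summable_norm α).mul_left ‖β‖)

/-- The bounded linear map on `ℓ¹(ball F; E)` induced by a bounded bilinear map. -/
def preLift (β : E →L[ℂ] F →L[ℂ] G) : PreT E F →L[ℂ] G :=
  LinearMap.mkContinuous (preLiftLin β) ‖β‖ (norm_preLiftLin_apply_le β)

theorem preLift_apply (β : E →L[ℂ] F →L[ℂ] G) (α : PreT E F) :
    preLift β α = ∑' w : UBall F, β (α w) w := rfl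

theorem norm_preLift_apply_le (β : E →L[ℂ] F →L[ℂ] G) (α : PreT E F) :
    ‖preLift β α‖ ≤ ‖β‖ * ‖α‖ := norm_preLiftLin_apply_le β α

theorem preLift_single (β : E →L[ℂ] F →L[ℂ] G) (w : UBall F) (e : E) :
    preLift β (lp.single 1 w e) = β e w := by
  rw [preLift_apply, tsum_eq_single w]
  · simp
  · intro w' hw'
    rw [lp.single_apply_ne _ _ _ hw']
    simp

variable (E F) in
/-- The subspace by which we divide: the common kernel of all bounded bilinear forms. -/
def PTker : Submodule ℂ (PreT E F) :=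
  ⨅ β : E →L[ℂ] F →L[ℂ] ℂ, (preLift β).ker

instance PTker_isClosed : IsClosed (PTker E F : Set (PreT E F)) := by
  rw [PTker, Submodule.coe_iInf]
  exact isClosed_iInter fun β => (preLift β).isClosed_ker

variable (E F) in
/-- The (completed) projective tensor product. -/
def PT : Type (max u v) := PreT E F ⧸ PTker E F

instance : NormedAddCommGroup (PT E F) :=
  inferInstanceAs (NormedAddCommGroup (PreT E F ⧸ PTker E F))

instance : NormedSpace ℂ (PT E F) :=
  inferInstanceAs (NormedSpace ℂ (PreT E F ⧸ PTker E F))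

namespace PT

instance [CompleteSpace E] : CompleteSpace (PT E F) :=
  inferInstanceAs (CompleteSpace (PreT E F ⧸ PTker E F))

variable (E F) in
/-- the quotient map -/
def mkQ : PreT E F →L[ℂ] PT E F := (PTker E F).mkQL

theorem mkQ_surjective : Function.Surjective (mkQ E F) :=
  Submodule.mkQ_surjective _

theorem norm_mkQ_le (α : PreT E F) : ‖mkQ E F α‖ ≤ ‖α‖ :=
  Submodule.Quotient.norm_mk_le (PTker E F) α

theorem exists_rep (t : PT E F) {δ : ℝ} (hδ : 0 < δ) :
    ∃ α : PreT E F, mkQ E F α = t ∧ ‖α‖ < ‖t‖ + δ :=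
  Submodule.Quotient.norm_mk_lt (S := PTker E F) t hδ

theorem PTker_le_ker (β : E →L[ℂ] F →L[ℂ] G) : PTker E F ≤ (preLift β).ker := by
  intro α hα
  rw [LinearMap.mem_ker]
  refine SeparatingDual.eq_zero_of_forall_dual_eq_zero (R := ℂ) (x := preLift β α) ?_
  intro g
  have h1 : preLift ((ContinuousLinearMap.compL ℂ F G ℂ g).comp β) α = 0 := by
    have := (Submodule.mem_iInf _).1 hα ((ContinuousLinearMap.compL ℂ F G ℂ g).comp β)
    exact LinearMap.mem_ker.1 this
  rw [preLift_apply] at h1 ⊢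
  rw [ContinuousLinearMap.map_tsum g (preLift_summable β α)]
  exact h1

/-- The bounded linear map on the tensor product induced by a bounded bilinear map. -/
def lift (β : E →L[ℂ] F →L[ℂ] G) : PT E F →L[ℂ] G :=
  Submodule.liftQL (PTker E F) (preLift β) (PTker_le_ker β)

theorem lift_mkQ (β : E →L[ℂ] F →L[ℂ] G) (α : PreT E F) : lift β (mkQ E F α) = preLift β α := rfl

theorem norm_lift_apply_le (β : E →L[ℂ] F →L[ℂ] G) (t : PT E F) : ‖lift β t‖ ≤ ‖β‖ * ‖t‖ := by
  refine le_of_forall_pos_le_add fun ε hε => ?_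
  obtain ⟨α, hα, hn⟩ := exists_rep t (δ := ε / (‖β‖ + 1)) (by positivity)
  rw [← hα, lift_mkQ]
  refine (norm_preLift_apply_le β α).trans ?_
  rw [hα]
  have h1 : ‖β‖ * ‖α‖ ≤ ‖β‖ * (‖t‖ + ε / (‖β‖ + 1)) :=
    mul_le_mul_of_nonneg_left hn.le (norm_nonneg β)
  have h2 : ‖β‖ * (ε / (‖β‖ + 1)) ≤ ε := by
    have : ‖β‖ / (‖β‖ + 1) ≤ 1 := by
      rw [div_le_one (by positivity)]
      linarith
    calc ‖β‖ * (ε / (‖β‖ + 1)) = (‖β‖ / (‖β‖ + 1)) * ε := by ring
      _ ≤ 1 * ε := mul_le_mul_of_nonneg_right this hε.le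
      _ = ε := one_mul _
  calc ‖β‖ * ‖α‖ ≤ ‖β‖ * (‖t‖ + ε / (‖β‖ + 1)) := h1
    _ = ‖β‖ * ‖t‖ + ‖β‖ * (ε / (‖β‖ + 1)) := by ring
    _ ≤ ‖β‖ * ‖t‖ + ε := by linarith

/-- auxiliary pure tensor for an element of the unit ball -/
def mkBall (e : E) (w : UBall F) : PT E F := mkQ E F (lp.single 1 w e)

theorem lift_mkBall (β : E →L[ℂ] F →L[ℂ] G) (e : E) (w : UBall F) :
    lift β (mkBall e w) = β e w := by
  rw [mkBall, lift_mkQ, preLift_single]

theorem eq_of_forall_form {s t : PT E F} (h : ∀ β : E →L[ℂ] F →L[ℂ] ℂ, lift β s = lift β t) :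
    s = t := by
  obtain ⟨a, rfl⟩ := mkQ_surjective s
  obtain ⟨b, rfl⟩ := mkQ_surjective t
  rw [← sub_eq_zero, ← map_sub]
  have : a - b ∈ PTker E F := by
    rw [PTker, Submodule.mem_iInf]
    intro β
    rw [LinearMap.mem_ker]
    have := h β
    rw [lift_mkQ, lift_mkQ] at this
    show preLift β (a - b) = 0
    rw [map_sub, this, sub_self]
  exact (Submodule.Quotient.mk_eq_zero _).2 this

/-- normalisation of a vector -/
def nrm (f : F) : UBall F :=
  ⟨((‖f‖⁻¹ : ℝ) : ℂ) • f, by
    rw [norm_smul, Complex.norm_real, norm_inv, norm_norm]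
    by_cases hf : ‖f‖ = 0
    · simp [hf]
    · rw [inv_mul_cancel₀ hf]⟩

theorem norm_smul_nrm (f : F) : ((‖f‖ : ℝ) : ℂ) • ((nrm f : UBall F) : F) = f := by
  by_cases hf : f = 0
  · subst hf
    simp
  · have : ‖f‖ ≠ 0 := norm_ne_zero_iff.2 hf
    rw [nrm, smul_smul, ← Complex.ofReal_mul, mul_inv_cancel₀ this]
    simp

/-- pure tensor as a function -/
def tmulFun (e : E) (f : F) : PT E F := ((‖f‖ : ℝ) : ℂ) • mkBall e (nrm f)

theorem lift_tmulFun (β : E →L[ℂ] F →L[ℂ] G) (e : E) (f : F) : lift β (tmulFun e f) = β e f := by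
  rw [tmulFun, map_smul, lift_mkBall, ← map_smul, norm_smul_nrm]

/-- The canonical bounded bilinear map `(e, f) ↦ e ⊗ f`. -/
def tmul : E →L[ℂ] F →L[ℂ] PT E F :=
  LinearMap.mkContinuous₂
    (LinearMap.mk₂ ℂ tmulFun
      (fun e e' f => eq_of_forall_form fun β => by simp [lift_tmulFun])
      (fun c e f => eq_of_forall_form fun β => by simp [lift_tmulFun])
      (fun e f f' => eq_of_forall_form fun β => by simp [lift_tmulFun])
      (fun c e f => eq_of_forall_form fun β => by simp [lift_tmulFun])) 1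
    (fun e f => by
      rw [one_mul, LinearMap.mk₂_apply, tmulFun, norm_smul, Complex.norm_real, norm_norm, mkBall,
        mul_comm]
      refine mul_le_mul_of_nonneg_right ?_ (norm_nonneg _)
      refine (norm_mkQ_le _).trans ?_
      rw [lp.norm_single (by simp)])

theorem tmul_apply (e : E) (f : F) : tmul e f = tmulFun e f := rfl

@[simp] theorem lift_tmul (β : E →L[ℂ] F →L[ℂ] G) (e : E) (f : F) : lift β (tmul e f) = β e f :=
  lift_tmulFun β e f

theorem norm_tmul_le (e : E) (f : F) : ‖(tmul e f : PT E F)‖ ≤ ‖e‖ * ‖f‖ := by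
  have := (LinearMap.mkContinuous₂_norm_le (LinearMap.mk₂ ℂ (tmulFun (E := E) (F := F))
      (fun e e' f => eq_of_forall_form fun β => by simp [lift_tmulFun])
      (fun c e f => eq_of_forall_form fun β => by simp [lift_tmulFun])
      (fun e f f' => eq_of_forall_form fun β => by simp [lift_tmulFun])
      (fun c e f => eq_of_forall_form fun β => by simp [lift_tmulFun])) (C := 1) zero_le_one
    (fun e f => by
      rw [one_mul, LinearMap.mk₂_apply, tmulFun, norm_smul, Complex.norm_real, norm_norm, mkBall,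
        mul_comm]
      refine mul_le_mul_of_nonneg_right ?_ (norm_nonneg _)
      refine (norm_mkQ_le _).trans ?_
      rw [lp.norm_single (by simp)]))
  have h2 := (tmul (E := E) (F := F)).le_opNorm₂ e f
  refine h2.trans ?_
  have h3 : ‖(tmul : E →L[ℂ] F →L[ℂ] PT E F)‖ ≤ 1 := this
  have : ‖(tmul : E →L[ℂ] F →L[ℂ] PT E F)‖ * ‖e‖ * ‖f‖ ≤ 1 * ‖e‖ * ‖f‖ := by gcongr
  simpa using this

theorem mkBall_eq (e : E) (w : UBall F) :
    mkBall e w = (tmul e (w : F) : PT E F) :=
  eq_of_forall_form fun β => by rw [lift_mkBall, lift_tmul]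

omit [CompleteSpace G] in
/-- Two bounded linear maps on the tensor product agreeing on pure tensors are equal. -/
theorem ext' {f g : PT E F →L[ℂ] G} (h : ∀ e x, f (tmul e x) = g (tmul e x)) : f = g := by
  have key : f.comp (mkQ E F) = g.comp (mkQ E F) := by
    refine lp.ext_continuousLinearMap (by simp) ?_
    intro w
    ext e
    have := h e (w : F)
    rw [← mkBall_eq] at this
    exact this
  ext t
  obtain ⟨a, rfl⟩ := mkQ_surjective t
  exact congrArg (fun (L : PreT E F →L[ℂ] G) => L a) key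

/-- Representation of an element as a sum. -/
theorem hasSum_mkQ (α : PreT E F) :
    HasSum (fun w : UBall F => (tmul (α w) (w : F) : PT E F)) (mkQ E F α) := by
  have := (mkQ E F).hasSum (lp.hasSum_single (by simp) α)
  convert this using 2 with w
  exact (mkBall_eq _ _).symm

/-- `lift` as a linear map. -/
def liftLin : (E →L[ℂ] F →L[ℂ] G) →ₗ[ℂ] (PT E F →L[ℂ] G) where
  toFun := fun (β : E →L[ℂ] F →L[ℂ] G) => lift β
  map_add' := fun (β β' : E →L[ℂ] F →L[ℂ] G) => by
    refine ext' (fun (e : E) (x : F) => ?_)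
    rw [add_apply, lift_tmul, lift_tmul, lift_tmul]; rfl
  map_smul' := fun c (β : E →L[ℂ] F →L[ℂ] G) => by
    refine ext' (fun (e : E) (x : F) => ?_)
    rw [RingHom.id_apply, smul_apply, lift_tmul, lift_tmul]; rfl

theorem norm_lift_le (β : E →L[ℂ] F →L[ℂ] G) : ‖lift β‖ ≤ ‖β‖ :=
  ContinuousLinearMap.opNorm_le_bound (lift β) (norm_nonneg β) (norm_lift_apply_le β)

/-- `lift` as a bounded linear map. -/
def liftL : (E →L[ℂ] F →L[ℂ] G) →L[ℂ] (PT E F →L[ℂ] G) :=
  LinearMap.mkContinuous (liftLin (E := E) (F := F) (G := G)) 1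
    (fun (β : E →L[ℂ] F →L[ℂ] G) => by
      rw [one_mul]
      exact norm_lift_le β)

@[simp] theorem liftL_apply (β : E →L[ℂ] F →L[ℂ] G) : liftL β = lift β := rfl

end PT

end Pool.Agent.MP_a77edb_an
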