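import Pool.Agent.MP_a77edb_an.Defs

/-!
# Elements of commutative radical Banach algebras are quasi-nilpotent, and consequences
-/

set_option autoImplicit false

noncomputable section

namespace Pool.Agent.MP_a77edb_an

universe u

open Filter Topology
open scoped NNReal ENNReal

variable {A : Type u} [NonUnitalNormedCommRing A] [NormedSpace ℂ A]
  [IsScalarTower ℂ A A] [SMulCommClass ℂ A A]

/-- Multiplication by `a`, as a bounded operator. -/
def mulL (a : A) : A →L[ℂ] A := ContinuousLinearMap.mul ℂ A a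

@[simp] theorem mulL_apply (a x : A) : mulL a x = a * x := rfl

theorem mulL_pow_apply (a x : A) (n : ℕ) :
    WithLp.toLp 1 (((mulL a ^ n) x : A) : Unitization ℂ A) =
      (WithLp.toLp 1 (a : Unitization ℂ A)) ^ n * WithLp.toLp 1 (x : Unitization ℂ A) := by
  induction n generalizing x with
  | zero => simp
  | succ n ih =>
    rw [pow_succ, pow_succ, mul_assoc]
    have h1 : (mulL a ^ n * mulL a) x = (mulL a ^ n) (a * x) := rfl
    rw [h1, ih (a * x), Unitization.inr_mul]
    rfl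

theorem norm_mulL_pow_le (a : A) (n : ℕ) :
    ‖mulL a ^ n‖ ≤ ‖(WithLp.toLp 1 (a : Unitization ℂ A)) ^ n‖ := by
  refine ContinuousLinearMap.opNorm_le_bound _ (norm_nonneg _) fun x => ?_
  have h1 := mulL_pow_apply a x n
  have h2 : ‖(mulL a ^ n) x‖ = ‖WithLp.toLp 1 (((mulL a ^ n) x : A) : Unitization ℂ A)‖ :=
    (WithLp.unitization_norm_inr _).symm
  rw [h2, h1]
  refine (norm_mul_le _ _).trans ?_
  rw [WithLp.unitization_norm_inr]

theorem spectralRadius_eq_zero (hA : IsRadicalAlgebra A) (a : A) :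
    spectralRadius ℂ (WithLp.toLp 1 (a : Unitization ℂ A)) = 0 := by
  unfold spectralRadius
  refine le_antisymm (iSup₂_le fun k hk => ?_) bot_le
  by_cases hk0 : k = 0
  · simp [hk0]
  exfalso
  apply hk
  have h1 : ((-(k⁻¹ • a) : A) : Unitization ℂ A) ∈ Ring.jacobson (Unitization ℂ A) := hA _
  rw [← Ideal.jacobson_bot, Ideal.mem_jacobson_bot] at h1
  have h2 := h1 1
  rw [mul_one] at h2
  have h3 : IsUnit ((WithLp.unitizationAlgEquiv (𝕜 := ℂ) (A := A) ℂ).symm
      (((-(k⁻¹ • a) : A) : Unitization ℂ A) + 1)) := h2.map _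
  have h4 : algebraMap ℂ (WithLp 1 (Unitization ℂ A)) k - WithLp.toLp 1 (a : Unitization ℂ A) =
      k • ((WithLp.unitizationAlgEquiv (𝕜 := ℂ) (A := A) ℂ).symm
      (((-(k⁻¹ • a) : A) : Unitization ℂ A) + 1)) := by
    apply (WithLp.unitizationAlgEquiv (𝕜 := ℂ) (A := A) ℂ).injective
    rw [map_sub, map_smul, AlgEquiv.apply_symm_apply, AlgEquiv.commutes, smul_add,
      ← Unitization.inr_smul, smul_neg, smul_smul, mul_inv_cancel₀ hk0, one_smul,
      Unitization.inr_neg, ← Algebra.algebraMap_eq_smul_one]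
    show _ - (a : Unitization ℂ A) = _
    abel
  rw [spectrum.mem_resolventSet_iff, h4]
  exact (isUnit_iff_exists.2 ⟨algebraMap ℂ _ k⁻¹, by
    rw [← map_mul, mul_inv_cancel₀ hk0, map_one], by
    rw [← map_mul, inv_mul_cancel₀ hk0, map_one]⟩ : IsUnit (algebraMap ℂ
      (WithLp 1 (Unitization ℂ A)) k)).mul h3 |> fun h => by
        rwa [← Algebra.smul_def] at h

/-- Quasi-nilpotence. -/
theorem exists_pow_le [CompleteSpace A] (hA : IsRadicalAlgebra A) (a : A) {c : ℝ} (hc : 0 < c) :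
    ∃ N : ℕ, 1 ≤ N ∧ ∀ n, N ≤ n → ‖mulL a ^ n‖ ≤ c ^ n := by
  have h1 := spectrum.pow_norm_pow_one_div_tendsto_nhds_spectralRadius
    (WithLp.toLp 1 (a : Unitization ℂ A))
  rw [spectralRadius_eq_zero hA a] at h1
  have h2 : ∀ᶠ n : ℕ in atTop, ENNReal.ofReal
      (‖(WithLp.toLp 1 (a : Unitization ℂ A)) ^ n‖ ^ (1 / n : ℝ)) < ENNReal.ofReal c :=
    (tendsto_order.1 h1).2 _ (by simpa using hc)
  rw [eventually_atTop] at h2
  obtain ⟨N, hN⟩ := h2
  refine ⟨max N 1, le_max_right _ _, fun n hn => ?_⟩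
  have hn1 : 1 ≤ n := (le_max_right N 1).trans hn
  have h3 := hN n ((le_max_left N 1).trans hn)
  rw [ENNReal.ofReal_lt_ofReal_iff hc] at h3
  refine (norm_mulL_pow_le a n).trans ?_
  have hnpos : (0 : ℝ) < n := by exact_mod_cast hn1
  have h4 := Real.rpow_le_rpow (by positivity) h3.le hnpos.le
  rw [← Real.rpow_mul (norm_nonneg _), one_div, inv_mul_cancel₀ hnpos.ne', Real.rpow_one,
    Real.rpow_natCast] at h4
  exact h4

/-- `1 - q` is bounded below. -/
theorem exists_bound_one_sub [CompleteSpace A] (hA : IsRadicalAlgebra A) (q : A) :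
    ∃ K : ℝ, 0 < K ∧ ∀ x : A, ‖x‖ ≤ K * ‖x - q * x‖ := by
  obtain ⟨N, hN1, hN⟩ := exists_pow_le hA q (c := 1 / 2) (by norm_num)
  set S : A →L[ℂ] A := ∑ i ∈ Finset.range N, mulL q ^ i with hS
  refine ⟨2 * ‖S‖ + 1, by positivity, fun x => ?_⟩
  have h1 : S * (1 - mulL q) = 1 - mulL q ^ N := by
    rw [hS, geom_sum_mul_neg]
  have h2 : S (x - q * x) = x - (mulL q ^ N) x := by
    have := congrArg (fun T : A →L[ℂ] A => T x) h1
    simpa using this
  have h3 : ‖(mulL q ^ N) x‖ ≤ (1 / 2) * ‖x‖ := by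
    refine ((mulL q ^ N).le_opNorm x).trans (mul_le_mul_of_nonneg_right ?_ (norm_nonneg _))
    refine (hN N le_rfl).trans ?_
    calc ((1 : ℝ) / 2) ^ N ≤ (1 / 2) ^ 1 :=
          pow_le_pow_of_le_one (by norm_num) (by norm_num) hN1
      _ = 1 / 2 := pow_one _
  have h4 : ‖S (x - q * x)‖ ≤ ‖S‖ * ‖x - q * x‖ := S.le_opNorm _
  have h5 : ‖x‖ ≤ ‖S (x - q * x)‖ + ‖(mulL q ^ N) x‖ := by
    have : x = S (x - q * x) + (mulL q ^ N) x := by rw [h2]; abel
    calc ‖x‖ = ‖S (x - q * x) + (mulL q ^ N) x‖ := by rw [← this]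
      _ ≤ _ := norm_add_le _ _
  nlinarith [norm_nonneg (x - q * x)]

/-- An element fixed by multiplication by `w` vanishes. -/
theorem eq_zero_of_mul_eq_self [CompleteSpace A] (hA : IsRadicalAlgebra A) {v w : A}
    (h : w * v = v) : v = 0 := by
  obtain ⟨K, hK, hK'⟩ := exists_bound_one_sub hA w
  have := hK' v
  rw [h, sub_self, norm_zero, mul_zero] at this
  exact norm_le_zero_iff.1 this

/-- Approximate idempotents of a radical algebra are small. -/
theorem norm_le_of_near_idem [CompleteSpace A] (hA : IsRadicalAlgebra A) {x : A} {δ : ℝ}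
    (hδ : 4 * δ < 1) (h : ‖x - x * x‖ ≤ δ) : ‖x‖ ≤ 2 * δ := by
  have hδ0 : 0 ≤ δ := (norm_nonneg _).trans h
  set z : A := x - x * x with hz
  let y : ℕ → A := fun n => Nat.rec 0 (fun _ t => z + t * t) n
  have hy0 : y 0 = 0 := rfl
  have hys : ∀ n, y (n + 1) = z + y n * y n := fun n => rfl
  have hyb : ∀ n, ‖y n‖ ≤ 2 * δ := by
    intro n
    induction n with
    | zero => rw [hy0, norm_zero]; positivity
    | succ n ih =>
      rw [hys]
      refine (norm_add_le _ _).trans ?_
      have h1 : ‖y n * y n‖ ≤ (2 * δ) * (2 * δ) :=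
        (norm_mul_le _ _).trans (mul_le_mul ih ih (norm_nonneg _) (by positivity))
      nlinarith
  have hyc : ∀ n, dist (y n) (y (n + 1)) ≤ δ * (4 * δ) ^ n := by
    intro n
    induction n with
    | zero =>
      rw [dist_eq_norm, hys, hy0, mul_zero, add_zero, zero_sub, norm_neg, pow_zero, mul_one]
      exact h
    | succ n ih =>
      rw [dist_eq_norm] at ih ⊢
      have e1 : y (n + 1) - y (n + 1 + 1) = (y n - y (n + 1)) * (y n + y (n + 1)) := by
        have e0 : y (n + 1) - y (n + 1 + 1) = y n * y n - y (n + 1) * y (n + 1) := by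
          rw [hys (n + 1)]
          nth_rewrite 1 [hys n]
          abel
        have hid : ∀ u v : A, u * u - v * v = (u - v) * (u + v) := fun u v => by
          rw [mul_add, sub_mul, sub_mul, mul_comm v u]
          abel
        rw [e0]
        exact hid _ _
      rw [e1, pow_succ]
      refine (norm_mul_le _ _).trans ?_
      have e2 : ‖y n + y (n + 1)‖ ≤ 4 * δ :=
        (norm_add_le _ _).trans (by linarith [hyb n, hyb (n + 1)])
      calc ‖y n - y (n + 1)‖ * ‖y n + y (n + 1)‖ ≤ (δ * (4 * δ) ^ n) * (4 * δ) :=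
            mul_le_mul ih e2 (norm_nonneg _) (by positivity)
        _ = _ := by ring
  have hcau : CauchySeq y := cauchySeq_of_le_geometric (4 * δ) δ hδ hyc
  obtain ⟨X, hX⟩ := cauchySeq_tendsto_of_complete hcau
  have hXn : ‖X‖ ≤ 2 * δ :=
    le_of_tendsto hX.norm (Eventually.of_forall hyb)
  have hXe : X = z + X * X := by
    refine tendsto_nhds_unique (hX.comp (tendsto_add_atTop_nat 1)) ?_
    show Tendsto (fun n => y (n + 1)) atTop (𝓝 (z + X * X))
    simp only [hys]
    exact tendsto_const_nhds.add (hX.mul hX)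
  have hfix : (x + X) * (x - X) = x - X := by
    have e1 : x * x - X * X = x - X := by
      have : X = (x - x * x) + X * X := by rw [← hz]; exact hXe
      calc x * x - X * X = x - ((x - x * x) + X * X) := by abel
        _ = x - X := by rw [← this]
    rw [add_mul, mul_sub, mul_sub, mul_comm X x]
    rw [← e1]
    abel
  have h0 : x - X = 0 := eq_zero_of_mul_eq_self hA hfix
  rw [sub_eq_zero.1 h0]
  exact hXn

/-- Approximately invariant functionals. -/
theorem exists_dual_aux [CompleteSpace A] [Nontrivial A] (hA : IsRadicalAlgebra A)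
    (F : Finset A) : ∀ ε : ℝ, 0 < ε → ∃ f : A →L[ℂ] ℂ, f ≠ 0 ∧
      ∀ a ∈ F, ‖f.comp (mulL a)‖ ≤ ε * ‖f‖ := by
  classical
  induction F using Finset.induction_on with
  | empty =>
    intro ε hε
    obtain ⟨x, hx⟩ := exists_ne (0 : A)
    obtain ⟨g, hg, hgx⟩ := exists_dual_vector ℂ x (norm_ne_zero_iff.2 hx)
    refine ⟨g, fun h0 => ?_, by simp⟩
    rw [h0, norm_zero] at hg
    exact zero_ne_one hg
  | insert b F hb ih =>
    intro ε hε
    obtain ⟨N, hN1, hN⟩ := exists_pow_le hA b (c := ε / 2) (by positivity)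
    set K : ℝ := max 1 (‖mulL b‖ / ε) with hK
    have hK1 : 1 ≤ K := le_max_left _ _
    have hKpos : 0 < K := lt_of_lt_of_le one_pos hK1
    obtain ⟨f, hf0, hf⟩ := ih (ε / K ^ N) (by positivity)
    have hfpos : 0 < ‖f‖ := norm_pos_iff.2 hf0
    have hex : ∃ k, ‖f.comp (mulL b ^ (k + 1))‖ ≤ ε * ‖f.comp (mulL b ^ k)‖ := by
      by_contra hcon
      push Not at hcon
      have hlow : ∀ k, ε ^ k * ‖f‖ ≤ ‖f.comp (mulL b ^ k)‖ := by
        intro k
        induction k with
        | zero =>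
          have : f.comp (mulL b ^ 0) = f := by ext x; simp
          rw [this, pow_zero, one_mul]
        | succ k ihk =>
          rw [pow_succ]
          have := hcon k
          nlinarith
      have h1 := hlow N
      have h2 : ‖f.comp (mulL b ^ N)‖ ≤ ‖f‖ * (ε / 2) ^ N :=
        (f.opNorm_comp_le _).trans (mul_le_mul_of_nonneg_left (hN N le_rfl) (norm_nonneg _))
      have h3 : (ε / 2) ^ N < ε ^ N := pow_lt_pow_left₀ (by linarith) (by positivity) (by omega)
      nlinarith
    let k := Nat.find hex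
    have hk : ‖f.comp (mulL b ^ (k + 1))‖ ≤ ε * ‖f.comp (mulL b ^ k)‖ := Nat.find_spec hex
    have hkmin : ∀ j, j < k → ε * ‖f.comp (mulL b ^ j)‖ < ‖f.comp (mulL b ^ (j + 1))‖ :=
      fun j hj => not_le.1 (Nat.find_min hex hj)
    have hlow : ∀ j, j ≤ k → ε ^ j * ‖f‖ ≤ ‖f.comp (mulL b ^ j)‖ := by
      intro j
      induction j with
      | zero =>
        intro _
        have : f.comp (mulL b ^ 0) = f := by ext x; simp
        rw [this, pow_zero, one_mul]
      | succ j ihj =>
        intro hj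
        rw [pow_succ]
        have e1 := hkmin j (by omega)
        have e2 := ihj (by omega)
        nlinarith
    have hkN : k < N := by
      by_contra hcon
      push Not at hcon
      have h1 := hlow N hcon
      have h2 : ‖f.comp (mulL b ^ N)‖ ≤ ‖f‖ * (ε / 2) ^ N :=
        (f.opNorm_comp_le _).trans (mul_le_mul_of_nonneg_left (hN N le_rfl) (norm_nonneg _))
      have h3 : (ε / 2) ^ N < ε ^ N := pow_lt_pow_left₀ (by linarith) (by positivity) (by omega)
      nlinarith
    have hlk := hlow k le_rfl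
    have hpos' : 0 < ‖f.comp (mulL b ^ k)‖ := lt_of_lt_of_le (by positivity) hlk
    refine ⟨f.comp (mulL b ^ k), norm_pos_iff.1 hpos', fun a ha => ?_⟩
    rw [Finset.mem_insert] at ha
    rcases ha with rfl | ha
    · have e1 : (f.comp (mulL a ^ k)).comp (mulL a) = f.comp (mulL a ^ (k + 1)) := by
        ext x
        rw [pow_succ]
        rfl
      rw [e1]
      exact hk
    · have e1 : (f.comp (mulL b ^ k)).comp (mulL a) = (f.comp (mulL a)).comp (mulL b ^ k) := by
        have hc : Commute (mulL b ^ k) (mulL a) := by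
          refine Commute.pow_left ?_ k
          ext x
          show b * (a * x) = a * (b * x)
          rw [← mul_assoc, mul_comm b a, mul_assoc]
        ext x
        have := congrArg (fun T : A →L[ℂ] A => f (T x)) hc.eq
        exact this
      rw [e1]
      have e2 : ‖(f.comp (mulL a)).comp (mulL b ^ k)‖ ≤ (ε / K ^ N * ‖f‖) * ‖mulL b‖ ^ k := by
        refine (ContinuousLinearMap.opNorm_comp_le _ _).trans ?_
        refine mul_le_mul (hf a ha) ?_ (norm_nonneg _) (by positivity)
        exact norm_pow_le _ _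
      refine e2.trans ?_
      have e3 : ‖mulL b‖ ≤ K * ε := by
        have : ‖mulL b‖ / ε ≤ K := le_max_right _ _
        rwa [div_le_iff₀ hε] at this
      have e4 : ‖mulL b‖ ^ k ≤ (K * ε) ^ k := pow_le_pow_left₀ (norm_nonneg _) e3 k
      have e5 : K ^ k ≤ K ^ N := pow_le_pow_right₀ hK1 hkN.le
      calc ε / K ^ N * ‖f‖ * ‖mulL b‖ ^ k ≤ ε / K ^ N * ‖f‖ * (K * ε) ^ k := by gcongr
        _ = ε * (K ^ k / K ^ N) * (ε ^ k * ‖f‖) := by rw [mul_pow]; ring
        _ ≤ ε * 1 * ‖f.comp (mulL b ^ k)‖ := by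
          refine mul_le_mul ?_ hlk (by positivity) (by positivity)
          refine mul_le_mul_of_nonneg_left ?_ hε.le
          rw [div_le_one (by positivity)]
          exact e5
        _ = _ := by ring

theorem exists_dual [CompleteSpace A] [Nontrivial A] (hA : IsRadicalAlgebra A)
    (F : Finset A) {ε : ℝ} (hε : 0 < ε) : ∃ f : A →L[ℂ] ℂ, ‖f‖ = 1 ∧
      ∀ a ∈ F, ‖f.comp (mulL a)‖ ≤ ε := by
  obtain ⟨f, hf0, hf⟩ := exists_dual_aux hA F ε hε
  have hfn : ‖f‖ ≠ 0 := norm_ne_zero_iff.2 hf0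
  have hfpos : 0 < ‖f‖ := norm_pos_iff.2 hf0
  refine ⟨((‖f‖⁻¹ : ℝ) : ℂ) • f, ?_, fun a ha => ?_⟩
  · rw [norm_smul, Complex.norm_real, norm_inv, norm_norm, inv_mul_cancel₀ hfn]
  · rw [ContinuousLinearMap.smul_comp, norm_smul, Complex.norm_real, norm_inv, norm_norm]
    have := hf a ha
    calc ‖f‖⁻¹ * ‖f.comp (mulL a)‖ ≤ ‖f‖⁻¹ * (ε * ‖f‖) :=
          mul_le_mul_of_nonneg_left this (by positivity)
      _ = ε := by field_simp

end Pool.Agent.MP_a77edb_an
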