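import Pool.Agent.MP_a77edb_an.Defs

/-!
# Vanishing of products of 1-cocycles when `dg A ≤ 1` or `db A ≤ 1`
-/

set_option autoImplicit false

noncomputable section

namespace Pool.Agent.MP_a77edb_an

universe u

open ContinuousLinearMap

/-- The consequence of `dg A ≤ 1` (or `db A ≤ 1`) which we use: the product of two 1-cocycles is a
coboundary. -/
def Vanish (A : Type u) [NonUnitalNormedRing A] [NormedSpace ℂ A] : Prop :=
  ∀ (X N W : LeftMod A) (D₁ : A →L[ℂ] X →L[ℂ] N) (D₂ : A →L[ℂ] N →L[ℂ] W),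
    (∀ a b x, D₁ (a * b) x = N.act a (D₁ b x) + D₁ a (X.act b x)) →
    (∀ a b n, D₂ (a * b) n = W.act a (D₂ b n) + D₂ a (N.act b n)) →
    ∃ ψ : A →L[ℂ] X →L[ℂ] W, ∀ a b x,
      D₂ a (D₁ b x) = W.act a (ψ b x) - ψ (a * b) x + ψ a (X.act b x)

section Left

variable {A : Type u} [NonUnitalNormedRing A] [NormedSpace ℂ A]

/-- The extension of `P` by `N` given by a 1-cocycle. -/
def LeftMod.twist (P N : LeftMod A) (D : A →L[ℂ] P →L[ℂ] N)
    (hD : ∀ a b p, D (a * b) p = N.act a (D b p) + D a (P.act b p)) : LeftMod A where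
  carrier := N × P
  act := LinearMap.mkContinuous₂
    (LinearMap.mk₂ ℂ (fun (a : A) (z : N × P) => (N.act a z.1 + D a z.2, P.act a z.2))
      (fun a b z => by
        ext
        · simp; abel
        · simp)
      (fun c a z => by
        ext
        · simp
        · simp)
      (fun a z z' => by
        ext
        · simp; abel
        · simp)
      (fun c a z => by
        ext
        · simp
        · simp)) (‖N.act‖ + ‖D‖ + ‖P.act‖)
    (fun a z => by
      have h1 : ‖z.1‖ ≤ ‖z‖ := norm_fst_le z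
      have h2 : ‖z.2‖ ≤ ‖z‖ := norm_snd_le z
      have e1 : ‖N.act a z.1‖ ≤ ‖N.act‖ * ‖a‖ * ‖z‖ :=
        (N.act.le_opNorm₂ a z.1).trans (mul_le_mul_of_nonneg_left h1 (by positivity))
      have e2 : ‖D a z.2‖ ≤ ‖D‖ * ‖a‖ * ‖z‖ :=
        (D.le_opNorm₂ a z.2).trans (mul_le_mul_of_nonneg_left h2 (by positivity))
      have e3 : ‖P.act a z.2‖ ≤ ‖P.act‖ * ‖a‖ * ‖z‖ :=
        (P.act.le_opNorm₂ a z.2).trans (mul_le_mul_of_nonneg_left h2 (by positivity))
      have e4 : 0 ≤ ‖P.act‖ * ‖a‖ * ‖z‖ := by positivity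
      have e5 : 0 ≤ ‖N.act‖ * ‖a‖ * ‖z‖ := by positivity
      have e6 : 0 ≤ ‖D‖ * ‖a‖ * ‖z‖ := by positivity
      rw [LinearMap.mk₂_apply, Prod.norm_def, max_le_iff]
      constructor
      · refine (norm_add_le _ _).trans ?_
        nlinarith
      · show ‖P.act a z.2‖ ≤ _
        nlinarith)
  act_mul := fun a b z => by
    simp only [LinearMap.mkContinuous₂_apply, LinearMap.mk₂_apply]
    ext
    · simp only [map_add, N.act_mul, hD]
      abel
    · simp only [P.act_mul]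

theorem LeftMod.IsProjective.exists_primitive {P : LeftMod A} (hP : P.IsProjective)
    (N : LeftMod A) (D : A →L[ℂ] P →L[ℂ] N)
    (hD : ∀ a b p, D (a * b) p = N.act a (D b p) + D a (P.act b p)) :
    ∃ l : P →L[ℂ] N, ∀ a p, l (P.act a p) = N.act a (l p) + D a p := by
  obtain ⟨g, hg⟩ := hP (LeftMod.twist P N D hD)
    { toCLM := ContinuousLinearMap.snd ℂ N P
      map_act := fun a z => rfl }
    ⟨(ContinuousLinearMap.inr ℂ N P : P →L[ℂ] N × P), fun x => rfl⟩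
  let g' : P →L[ℂ] N × P := g.toCLM
  have hg2 : ∀ x, (g' x).2 = x := hg
  refine ⟨(ContinuousLinearMap.fst ℂ N P).comp g', fun a p => ?_⟩
  have h := g.map_act a p
  have h1 : (g' (P.act a p)).1 = N.act a (g' p).1 + D a (g' p).2 := congrArg Prod.fst h
  rw [hg2] at h1
  exact h1

/-- The data extracted from `dh X ≤ 1`. -/
theorem LeftMod.exists_short (X : LeftMod A) (h : X.dh ≤ 1) :
    ∃ (P₀ P₁ : LeftMod A) (ε : LeftMod.Hom P₀ X) (d : LeftMod.Hom P₁ P₀) (s : X →L[ℂ] P₀)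
      (k : P₀ →L[ℂ] P₁), P₀.IsProjective ∧ P₁.IsProjective ∧ (∀ y, ε.toCLM (d.toCLM y) = 0) ∧
      (∀ x, ε.toCLM (s x) = x) ∧ (∀ y, s (ε.toCLM y) + d.toCLM (k y) = y) ∧
      (∀ y, k (d.toCLM y) = y) := by
  have : ∃ n : ℕ, n ≤ 1 ∧ ∃ R : LeftMod.ProjRes X, ∀ k, n < k → Subsingleton (R.P k) := by
    by_contra hcon
    push Not at hcon
    have h2 : (2 : ℕ∞) ≤ X.dh := by
      unfold LeftMod.dh
      refine le_iInf₂ fun n hn => ?_
      by_contra hlt
      have : n ≤ 1 := by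
        have h3 : (n : ℕ∞) < 2 := not_le.1 hlt
        have h4 : n < 2 := by exact_mod_cast h3
        omega
      obtain ⟨R, hR⟩ := hn
      obtain ⟨k, hk, hk'⟩ := hcon n this R
      exact absurd (hR k hk) (not_subsingleton_iff_nontrivial.2 hk')
    have : (2 : ℕ∞) ≤ 1 := h2.trans h
    exact absurd this (by decide)
  obtain ⟨n, hn, R, hR⟩ := this
  have hsub : Subsingleton (R.P 2) := hR 2 (by omega)
  refine ⟨R.P 0, R.P 1, R.ε, R.d 0, R.s, R.h 0, R.proj 0, R.proj 1, R.ε_d, R.ε_s,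
    R.split_zero, fun y => ?_⟩
  have h1 := R.split_succ 0 y
  have h2 : R.h (0 + 1) y = 0 := Subsingleton.elim _ _
  rw [h2, map_zero, add_zero] at h1
  exact h1

theorem vanish_of_dg (h : dg A ≤ 1) : Vanish A := by
  intro X N W D₁ D₂ hD₁ hD₂
  obtain ⟨P₀, P₁, ε, d, s, k, hP₀, hP₁, hεd, hεs, hsd, hkd⟩ :=
    LeftMod.exists_short X ((le_iSup (fun X : LeftMod A => X.dh) X).trans h)
  -- the first primitive
  obtain ⟨l₀, hl₀⟩ := hP₀.exists_primitive N
    (((compL ℂ P₀ X N).flip ε.toCLM).comp D₁) (fun a b p => by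
      show D₁ (a * b) (ε.toCLM p) = N.act a (D₁ b (ε.toCLM p)) + D₁ a (ε.toCLM (P₀.act b p))
      rw [ε.map_act, hD₁])
  have hl₀' : ∀ a p, l₀ (P₀.act a p) = N.act a (l₀ p) + D₁ a (ε.toCLM p) := hl₀
  have hl₀d : ∀ a p, l₀ (d.toCLM (P₁.act a p)) = N.act a (l₀ (d.toCLM p)) := fun a p => by
    rw [d.map_act, hl₀', hεd, map_zero, add_zero]
  -- the second primitive
  obtain ⟨l₁, hl₁⟩ := hP₁.exists_primitive W
    (((compL ℂ P₁ N W).flip (l₀.comp d.toCLM)).comp D₂) (fun a b p => by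
      show D₂ (a * b) (l₀ (d.toCLM p)) = W.act a (D₂ b (l₀ (d.toCLM p))) +
        D₂ a (l₀ (d.toCLM (P₁.act b p)))
      rw [hl₀d, hD₂])
  have hl₁' : ∀ a p, l₁ (P₁.act a p) = W.act a (l₁ p) + D₂ a (l₀ (d.toCLM p)) := hl₁
  -- the universal cocycle
  let κ : A →L[ℂ] X →L[ℂ] P₁ := (compL ℂ X P₀ P₁ k).comp
    (((compL ℂ X P₀ P₀).flip s).comp P₀.act - (compL ℂ X X P₀ s).comp X.act)
  have hκ : ∀ a x, κ a x = k (P₀.act a (s x) - s (X.act a x)) := fun a x => rfl
  have hdκ : ∀ a x, d.toCLM (κ a x) = P₀.act a (s x) - s (X.act a x) := fun a x => by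
    have h1 := hsd (P₀.act a (s x) - s (X.act a x))
    rw [map_sub, ε.map_act, hεs, hεs, sub_self, map_zero, zero_add] at h1
    rw [hκ, h1]
  have hinj : ∀ y z, d.toCLM y = d.toCLM z → y = z := fun y z hyz => by
    rw [← hkd y, hyz, hkd]
  have hκc : ∀ a b x, κ (a * b) x = P₁.act a (κ b x) + κ a (X.act b x) := fun a b x => by
    apply hinj
    rw [map_add, hdκ, hdκ, d.map_act, hdκ, P₀.act_mul, X.act_mul, map_sub]
    abel
  refine ⟨-((compL ℂ X P₁ W l₁).comp κ) + ((compL ℂ X N W).flip (l₀.comp s)).comp D₂,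
    fun a b x => ?_⟩
  have hψ : ∀ a x, (-((compL ℂ X P₁ W l₁).comp κ) +
      ((compL ℂ X N W).flip (l₀.comp s)).comp D₂) a x = -(l₁ (κ a x)) + D₂ a (l₀ (s x)) :=
    fun a x => rfl
  rw [hψ, hψ, hψ, hκc, map_add l₁, hl₁', hdκ, hD₂]
  simp only [map_add, map_sub, map_neg, hl₀', hεs]
  abel

end Left

section Bi

variable {A : Type u} [NonUnitalNormedRing A] [NormedSpace ℂ A]

/-- The extension of the bimodule `Q` by `M` given by a cocycle in the left variable. -/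
def Bimod.twist (Q M : Bimod A) (D : A →L[ℂ] Q →L[ℂ] M)
    (hD : ∀ a b q, D (a * b) q = M.act a (D b q) + D a (Q.act b q))
    (hD' : ∀ a c q, D a (Q.ract c q) = M.ract c (D a q)) : Bimod A where
  carrier := M × Q
  act := LinearMap.mkContinuous₂
    (LinearMap.mk₂ ℂ (fun (a : A) (z : M × Q) => (M.act a z.1 + D a z.2, Q.act a z.2))
      (fun a b z => by
        ext
        · simp; abel
        · simp)
      (fun c a z => by
        ext
        · simp
        · simp)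
      (fun a z z' => by
        ext
        · simp; abel
        · simp)
      (fun c a z => by
        ext
        · simp
        · simp)) (‖M.act‖ + ‖D‖ + ‖Q.act‖)
    (fun a z => by
      have h1 : ‖z.1‖ ≤ ‖z‖ := norm_fst_le z
      have h2 : ‖z.2‖ ≤ ‖z‖ := norm_snd_le z
      have e1 : ‖M.act a z.1‖ ≤ ‖M.act‖ * ‖a‖ * ‖z‖ :=
        (M.act.le_opNorm₂ a z.1).trans (mul_le_mul_of_nonneg_left h1 (by positivity))
      have e2 : ‖D a z.2‖ ≤ ‖D‖ * ‖a‖ * ‖z‖ :=
        (D.le_opNorm₂ a z.2).trans (mul_le_mul_of_nonneg_left h2 (by positivity))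
      have e3 : ‖Q.act a z.2‖ ≤ ‖Q.act‖ * ‖a‖ * ‖z‖ :=
        (Q.act.le_opNorm₂ a z.2).trans (mul_le_mul_of_nonneg_left h2 (by positivity))
      have e4 : 0 ≤ ‖Q.act‖ * ‖a‖ * ‖z‖ := by positivity
      have e5 : 0 ≤ ‖M.act‖ * ‖a‖ * ‖z‖ := by positivity
      have e6 : 0 ≤ ‖D‖ * ‖a‖ * ‖z‖ := by positivity
      rw [LinearMap.mk₂_apply, Prod.norm_def, max_le_iff]
      constructor
      · refine (norm_add_le _ _).trans ?_
        nlinarith
      · show ‖Q.act a z.2‖ ≤ _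
        nlinarith)
  ract := LinearMap.mkContinuous₂
    (LinearMap.mk₂ ℂ (fun (a : A) (z : M × Q) => (M.ract a z.1, Q.ract a z.2))
      (fun a b z => by
        ext
        · simp
        · simp)
      (fun c a z => by
        ext
        · simp
        · simp)
      (fun a z z' => by
        ext
        · simp
        · simp)
      (fun c a z => by
        ext
        · simp
        · simp)) (‖M.ract‖ + ‖Q.ract‖)
    (fun a z => by
      have h1 : ‖z.1‖ ≤ ‖z‖ := norm_fst_le z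
      have h2 : ‖z.2‖ ≤ ‖z‖ := norm_snd_le z
      have e1 : ‖M.ract a z.1‖ ≤ ‖M.ract‖ * ‖a‖ * ‖z‖ :=
        (M.ract.le_opNorm₂ a z.1).trans (mul_le_mul_of_nonneg_left h1 (by positivity))
      have e3 : ‖Q.ract a z.2‖ ≤ ‖Q.ract‖ * ‖a‖ * ‖z‖ :=
        (Q.ract.le_opNorm₂ a z.2).trans (mul_le_mul_of_nonneg_left h2 (by positivity))
      have e4 : 0 ≤ ‖Q.ract‖ * ‖a‖ * ‖z‖ := by positivity
      have e5 : 0 ≤ ‖M.ract‖ * ‖a‖ * ‖z‖ := by positivity
      rw [LinearMap.mk₂_apply, Prod.norm_def, max_le_iff]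
      constructor
      · show ‖M.ract a z.1‖ ≤ _
        nlinarith
      · show ‖Q.ract a z.2‖ ≤ _
        nlinarith)
  act_mul := fun a b z => by
    simp only [LinearMap.mkContinuous₂_apply, LinearMap.mk₂_apply]
    ext
    · simp only [map_add, M.act_mul, hD]
      abel
    · simp only [Q.act_mul]
  ract_mul := fun a b z => by
    simp only [LinearMap.mkContinuous₂_apply, LinearMap.mk₂_apply]
    ext
    · simp only [M.ract_mul]
    · simp only [Q.ract_mul]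
  act_ract := fun a b z => by
    simp only [LinearMap.mkContinuous₂_apply, LinearMap.mk₂_apply]
    ext
    · simp only [map_add, M.act_ract, hD']
    · simp only [Q.act_ract]

theorem Bimod.IsProjective.exists_primitive {Q : Bimod A} (hQ : Q.IsProjective)
    (M : Bimod A) (D : A →L[ℂ] Q →L[ℂ] M)
    (hD : ∀ a b q, D (a * b) q = M.act a (D b q) + D a (Q.act b q))
    (hD' : ∀ a c q, D a (Q.ract c q) = M.ract c (D a q)) :
    ∃ l : Q →L[ℂ] M, (∀ a q, l (Q.act a q) = M.act a (l q) + D a q) ∧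
      ∀ a q, l (Q.ract a q) = M.ract a (l q) := by
  obtain ⟨g, hg⟩ := hQ (Bimod.twist Q M D hD hD')
    { toCLM := ContinuousLinearMap.snd ℂ M Q
      map_act := fun a z => rfl
      map_ract := fun a z => rfl }
    ⟨(ContinuousLinearMap.inr ℂ M Q : Q →L[ℂ] M × Q), fun x => rfl⟩
  let g' : Q →L[ℂ] M × Q := g.toCLM
  have hg2 : ∀ x, (g' x).2 = x := hg
  refine ⟨(ContinuousLinearMap.fst ℂ M Q).comp g', fun a p => ?_, fun a p => ?_⟩
  · have h := g.map_act a p
    have h1 : (g' (Q.act a p)).1 = M.act a (g' p).1 + D a (g' p).2 := congrArg Prod.fst h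
    rw [hg2] at h1
    exact h1
  · have h := g.map_ract a p
    have h1 : (g' (Q.ract a p)).1 = M.ract a (g' p).1 := congrArg Prod.fst h
    exact h1

/-- The data extracted from `dh X ≤ 1`. -/
theorem Bimod.exists_short (X : Bimod A) (h : X.dh ≤ 1) :
    ∃ (P₀ P₁ : Bimod A) (ε : Bimod.Hom P₀ X) (d : Bimod.Hom P₁ P₀) (s : X →L[ℂ] P₀)
      (k : P₀ →L[ℂ] P₁), P₀.IsProjective ∧ P₁.IsProjective ∧ (∀ y, ε.toCLM (d.toCLM y) = 0) ∧
      (∀ x, ε.toCLM (s x) = x) ∧ (∀ y, s (ε.toCLM y) + d.toCLM (k y) = y) ∧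
      (∀ y, k (d.toCLM y) = y) := by
  have : ∃ n : ℕ, n ≤ 1 ∧ ∃ R : Bimod.ProjRes X, ∀ k, n < k → Subsingleton (R.P k) := by
    by_contra hcon
    push Not at hcon
    have h2 : (2 : ℕ∞) ≤ X.dh := by
      unfold Bimod.dh
      refine le_iInf₂ fun n hn => ?_
      by_contra hlt
      have : n ≤ 1 := by
        have h3 : (n : ℕ∞) < 2 := not_le.1 hlt
        have h4 : n < 2 := by exact_mod_cast h3
        omega
      obtain ⟨R, hR⟩ := hn
      obtain ⟨k, hk, hk'⟩ := hcon n this R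
      exact absurd (hR k hk) (not_subsingleton_iff_nontrivial.2 hk')
    have : (2 : ℕ∞) ≤ 1 := h2.trans h
    exact absurd this (by decide)
  obtain ⟨n, hn, R, hR⟩ := this
  have hsub : Subsingleton (R.P 2) := hR 2 (by omega)
  refine ⟨R.P 0, R.P 1, R.ε, R.d 0, R.s, R.h 0, R.proj 0, R.proj 1, R.ε_d, R.ε_s,
    R.split_zero, fun y => ?_⟩
  have h1 := R.split_succ 0 y
  have h2 : R.h (0 + 1) y = 0 := Subsingleton.elim _ _
  rw [h2, map_zero, add_zero] at h1
  exact h1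

/-- The bimodule `B(X, N)` of bounded linear maps between left modules. -/
def homBimod (X N : LeftMod A) : Bimod A where
  carrier := X →L[ℂ] N
  act := (compL ℂ X N N).comp N.act
  ract := (compL ℂ X X N).flip.comp X.act
  act_mul := fun a b T => by
    ext x
    exact N.act_mul a b (T x)
  ract_mul := fun a b T => by
    ext x
    show T (X.act (a * b) x) = T (X.act a (X.act b x))
    rw [X.act_mul]
  act_ract := fun a b T => rfl

variable [IsScalarTower ℂ A A] [SMulCommClass ℂ A A]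

/-- The action of the unitization on a left module. -/
def LeftMod.uact (X : LeftMod A) : WithLp 1 (Unitization ℂ A) →L[ℂ] X →L[ℂ] X :=
  LinearMap.mkContinuous₂
    (LinearMap.mk₂ ℂ (fun (w : WithLp 1 (Unitization ℂ A)) (x : X) =>
        w.ofLp.fst • x + X.act w.ofLp.snd x)
      (fun a b x => by
        simp [add_smul]; abel)
      (fun c a x => by
        simp [mul_smul])
      (fun a x y => by
        simp; abel)
      (fun c a x => by
        simp [smul_comm c])) (1 + ‖X.act‖)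
    (fun w x => by
      rw [LinearMap.mk₂_apply]
      refine (norm_add_le _ _).trans ?_
      rw [norm_smul]
      have e1 : ‖X.act w.ofLp.snd x‖ ≤ ‖X.act‖ * ‖w.ofLp.snd‖ * ‖x‖ := X.act.le_opNorm₂ _ _
      rw [WithLp.unitization_norm_def]
      have e2 : 0 ≤ ‖w.ofLp.snd‖ * ‖x‖ := by positivity
      have e3 : 0 ≤ ‖X.act‖ * ‖w.ofLp.fst‖ * ‖x‖ := by positivity
      nlinarith)

theorem LeftMod.uact_apply (X : LeftMod A) (w : WithLp 1 (Unitization ℂ A)) (x : X) :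
    X.uact w x = w.ofLp.fst • x + X.act w.ofLp.snd x := rfl

theorem LeftMod.uact_one (X : LeftMod A) (x : X) :
    X.uact (1 : WithLp 1 (Unitization ℂ A)) x = x := by
  rw [LeftMod.uact_apply]
  have h1 : (1 : WithLp 1 (Unitization ℂ A)).ofLp.fst = 1 := rfl
  have h2 : (1 : WithLp 1 (Unitization ℂ A)).ofLp.snd = 0 := rfl
  rw [h1, h2]
  simp

theorem LeftMod.uact_mul_left (X : LeftMod A) (b : A) (w : WithLp 1 (Unitization ℂ A)) (x : X) :
    X.uact (WithLp.toLp 1 (b : Unitization ℂ A) * w) x = X.act b (X.uact w x) := by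
  have h1 : (WithLp.toLp 1 (b : Unitization ℂ A) * w).ofLp.fst = 0 := by
    simp
  have h2 : (WithLp.toLp 1 (b : Unitization ℂ A) * w).ofLp.snd =
      w.ofLp.fst • b + b * w.ofLp.snd := by
    simp
  rw [LeftMod.uact_apply, LeftMod.uact_apply, h1, h2]
  simp [X.act_mul]

theorem LeftMod.uact_mul_right (X : LeftMod A) (b : A) (w : WithLp 1 (Unitization ℂ A)) (x : X) :
    X.uact (w * WithLp.toLp 1 (b : Unitization ℂ A)) x = X.uact w (X.act b x) := by
  have h1 : (w * WithLp.toLp 1 (b : Unitization ℂ A)).ofLp.fst = 0 := by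
    simp
  have h2 : (w * WithLp.toLp 1 (b : Unitization ℂ A)).ofLp.snd =
      w.ofLp.fst • b + w.ofLp.snd * b := by
    simp
  rw [LeftMod.uact_apply, LeftMod.uact_apply, h1, h2]
  simp [X.act_mul]

variable [CompleteSpace A]

theorem vanish_of_db (h : db A ≤ 1) : Vanish A := by
  intro X N W D₁ D₂ hD₁ hD₂
  obtain ⟨Q₀, Q₁, ε', d, s', k, hQ₀, hQ₁, hεd', hεs', hsd', hkd⟩ :=
    Bimod.exists_short (unitizationBimod A) h
  let ε : Q₀ →L[ℂ] WithLp 1 (Unitization ℂ A) := ε'.toCLM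
  let s : WithLp 1 (Unitization ℂ A) →L[ℂ] Q₀ := s'
  have hεd : ∀ y, ε (d.toCLM y) = 0 := hεd'
  have hεs : ∀ x, ε (s x) = x := hεs'
  have hsd : ∀ y, s (ε y) + d.toCLM (k y) = y := hsd'
  have hεa : ∀ a q, ε (Q₀.act a q) = WithLp.toLp 1 (a : Unitization ℂ A) * ε q := ε'.map_act
  have hεr : ∀ a q, ε (Q₀.ract a q) = ε q * WithLp.toLp 1 (a : Unitization ℂ A) := ε'.map_ract
  -- `D₁ a · w`
  let E₁ : A →L[ℂ] Q₀ →L[ℂ] (X →L[ℂ] N) :=
    (((compL ℂ Q₀ (X →L[ℂ] X) (X →L[ℂ] N)).flip (X.uact.comp ε)).comp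
      ((compL ℂ X X N).comp D₁))
  have hE₁ : ∀ a q x, E₁ a q x = D₁ a (X.uact (ε q) x) := fun a q x => rfl
  obtain ⟨l₀, hl₀, hl₀'⟩ := hQ₀.exists_primitive (homBimod X N) E₁
    (fun a b q => by
      refine ContinuousLinearMap.ext fun x => ?_
      show E₁ (a * b) q x = N.act a (E₁ b q x) + E₁ a (Q₀.act b q) x
      rw [hE₁, hE₁, hE₁, hεa, LeftMod.uact_mul_left, hD₁])
    (fun a c q => by
      refine ContinuousLinearMap.ext fun x => ?_
      show E₁ a (Q₀.ract c q) x = E₁ a q (X.act c x)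
      rw [hE₁, hE₁, hεr, LeftMod.uact_mul_right])
  let L₀ : Q₀ →L[ℂ] (X →L[ℂ] N) := l₀
  have hL₀ : ∀ a q x, L₀ (Q₀.act a q) x = N.act a (L₀ q x) + D₁ a (X.uact (ε q) x) :=
    fun a q x => congrArg (fun (T : X →L[ℂ] N) => T x) (hl₀ a q)
  have hL₀' : ∀ a q x, L₀ (Q₀.ract a q) x = L₀ q (X.act a x) :=
    fun a q x => congrArg (fun (T : X →L[ℂ] N) => T x) (hl₀' a q)
  have hL₀d : ∀ a p x, L₀ (d.toCLM (Q₁.act a p)) x = N.act a (L₀ (d.toCLM p) x) :=
    fun a p x => by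
      rw [d.map_act, hL₀, hεd, map_zero]
      simp
  have hL₀d' : ∀ a p x, L₀ (d.toCLM (Q₁.ract a p)) x = L₀ (d.toCLM p) (X.act a x) :=
    fun a p x => by
      rw [d.map_ract, hL₀']
  let E₂ : A →L[ℂ] Q₁ →L[ℂ] (X →L[ℂ] W) :=
    (((compL ℂ Q₁ (X →L[ℂ] N) (X →L[ℂ] W)).flip (L₀.comp d.toCLM)).comp
      ((compL ℂ X N W).comp D₂))
  have hE₂ : ∀ a q x, E₂ a q x = D₂ a (L₀ (d.toCLM q) x) := fun a q x => rfl
  obtain ⟨l₁, hl₁, hl₁'⟩ := hQ₁.exists_primitive (homBimod X W) E₂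
    (fun a b q => by
      refine ContinuousLinearMap.ext fun x => ?_
      show E₂ (a * b) q x = W.act a (E₂ b q x) + E₂ a (Q₁.act b q) x
      rw [hE₂, hE₂, hE₂, hL₀d, hD₂])
    (fun a c q => by
      refine ContinuousLinearMap.ext fun x => ?_
      show E₂ a (Q₁.ract c q) x = E₂ a q (X.act c x)
      rw [hE₂, hE₂, hL₀d'])
  let L₁ : Q₁ →L[ℂ] (X →L[ℂ] W) := l₁
  have hL₁ : ∀ a q x, L₁ (Q₁.act a q) x = W.act a (L₁ q x) + D₂ a (L₀ (d.toCLM q) x) :=
    fun a q x => congrArg (fun (T : X →L[ℂ] W) => T x) (hl₁ a q)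
  have hL₁' : ∀ a q x, L₁ (Q₁.ract a q) x = L₁ q (X.act a x) :=
    fun a q x => congrArg (fun (T : X →L[ℂ] W) => T x) (hl₁' a q)
  -- the universal derivation
  let z : Q₀ := s 1
  let κ : A →L[ℂ] Q₁ := k.comp (Q₀.act.flip z - Q₀.ract.flip z)
  have hκ : ∀ a, κ a = k (Q₀.act a z - Q₀.ract a z) := fun a => rfl
  have hz : ε z = 1 := hεs 1
  have hdκ : ∀ a, d.toCLM (κ a) = Q₀.act a z - Q₀.ract a z := fun a => by
    have h1 := hsd (Q₀.act a z - Q₀.ract a z)
    rw [map_sub, hεa, hεr, hz, mul_one, one_mul, sub_self, map_zero, zero_add] at h1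
    rw [hκ, h1]
  have hinj : ∀ y z, d.toCLM y = d.toCLM z → y = z := fun y z hyz => by
    rw [← hkd y, hyz, hkd]
  have hκc : ∀ a b, κ (a * b) = Q₁.act a (κ b) + Q₁.ract b (κ a) := fun a b => by
    apply hinj
    rw [map_add, hdκ, d.map_act, d.map_ract, hdκ, hdκ, Q₀.act_mul, Q₀.ract_mul, map_sub, map_sub,
      Q₀.act_ract]
    abel
  refine ⟨-(L₁.comp κ) + ((compL ℂ X N W).flip (L₀ z)).comp D₂, fun a b x => ?_⟩
  have hψ : ∀ a x, (-(L₁.comp κ) + ((compL ℂ X N W).flip (L₀ z)).comp D₂) a x =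
      -(L₁ (κ a) x) + D₂ a (L₀ z x) := fun a x => rfl
  have h3 : ∀ a x, L₀ (d.toCLM (κ a)) x = N.act a (L₀ z x) + D₁ a x - L₀ z (X.act a x) :=
    fun a x => by
      rw [hdκ, map_sub, sub_apply, hL₀, hL₀', hz, X.uact_one x]
  rw [hψ, hψ, hψ, hκc, map_add L₁, add_apply, hL₁, hL₁', h3, hD₂]
  simp only [map_add, map_sub, map_neg]
  abel

end Bi

end Pool.Agent.MP_a77edb_an
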