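import Pool.Agent.MP_a77edb_an.TensorOps
import Pool.Agent.MP_a77edb_an.Vanishing

/-!
# Commutative radical algebras, first part: the module map `ρ : A → A ⊗ A`
-/

set_option autoImplicit false

noncomputable section

namespace Pool.Agent.MP_a77edb_an

universe u

open ContinuousLinearMap PT

variable {A : Type u} [NonUnitalNormedCommRing A] [NormedSpace ℂ A]
  [IsScalarTower ℂ A A] [SMulCommClass ℂ A A] [CompleteSpace A]

/-- Multiplication by a nonzero element is not bounded below. -/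
theorem not_bdd_below (hA : IsRadicalAlgebra A) {b : A} (hb : b ≠ 0) (K : ℝ)
    (h : ∀ a, ‖a‖ ≤ K * ‖b * a‖) : False := by
  have hbpos : 0 < ‖b‖ := norm_pos_iff.2 hb
  have hK : 0 < K := by
    by_contra hK
    have := h b
    nlinarith [norm_nonneg (b * b)]
  obtain ⟨N, hN1, hN⟩ := exists_pow_le hA b (c := 1 / (2 * K)) (by positivity)
  have h1 : ∀ n : ℕ, ‖b‖ ≤ K ^ n * ‖(mulL b ^ n) b‖ := by
    intro n
    induction n with
    | zero => simp
    | succ n ih =>
      have h2 := h ((mulL b ^ n) b)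
      have h3 : (mulL b ^ (n + 1)) b = b * (mulL b ^ n) b := by
        rw [pow_succ']
        rfl
      rw [h3]
      calc ‖b‖ ≤ K ^ n * ‖(mulL b ^ n) b‖ := ih
        _ ≤ K ^ n * (K * ‖b * (mulL b ^ n) b‖) := by gcongr
        _ = _ := by ring
  have h2 := h1 N
  have h3 : ‖(mulL b ^ N) b‖ ≤ (1 / (2 * K)) ^ N * ‖b‖ :=
    ((mulL b ^ N).le_opNorm b).trans (mul_le_mul_of_nonneg_right (hN N le_rfl) (norm_nonneg _))
  have h4 : K ^ N * ((1 / (2 * K)) ^ N * ‖b‖) = (1 / 2) ^ N * ‖b‖ := by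
    rw [← mul_assoc, ← mul_pow]
    congr 2
    field_simp
  have h5 : ‖b‖ ≤ (1 / 2) ^ N * ‖b‖ := by
    refine h2.trans ?_
    rw [← h4]
    exact mul_le_mul_of_nonneg_left h3 (by positivity)
  have h6 : ((1 : ℝ) / 2) ^ N ≤ 1 / 2 := by
    calc ((1 : ℝ) / 2) ^ N ≤ (1 / 2) ^ 1 :=
          pow_le_pow_of_le_one (by norm_num) (by norm_num) hN1
      _ = 1 / 2 := pow_one _
  nlinarith

/-- A Banach space with zero action. -/
def zeroMod (A : Type u) [NonUnitalNormedRing A] [NormedSpace ℂ A]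
    (Z : Type u) [NormedAddCommGroup Z] [NormedSpace ℂ Z] [CompleteSpace Z] : LeftMod A where
  carrier := Z
  act := 0
  act_mul := fun a b x => by simp

/-- The regular module. -/
def regMod (A : Type u) [NonUnitalNormedRing A] [NormedSpace ℂ A]
    [IsScalarTower ℂ A A] [SMulCommClass ℂ A A] [CompleteSpace A] : LeftMod A where
  carrier := A
  act := ContinuousLinearMap.mul ℂ A
  act_mul := fun a b x => mul_assoc a b x

/-- `A ⊗ A` with the twisted action `a * t = a t - a ⊗ π t`. -/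
def twistMod (A : Type u) [NonUnitalNormedCommRing A] [NormedSpace ℂ A]
    [IsScalarTower ℂ A A] [SMulCommClass ℂ A A] [CompleteSpace A] : LeftMod A where
  carrier := PT A A
  act := lact - ((compL ℂ (PT A A) A (PT A A)).flip prodT).comp tmul
  act_mul := fun a b t => by
    show lact (a * b) t - tmul (a * b) (prodT t) =
      lact a (lact b t - tmul b (prodT t)) - tmul a (prodT (lact b t - tmul b (prodT t)))
    rw [prodT_tmul_sub, map_zero, sub_zero, map_sub, lact_tmul, lact_mul]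

/-- The first consequence of the vanishing condition. -/
theorem exists_psi0 (hV : Vanish A) [Nontrivial A] :
    ∃ ψ : A →L[ℂ] PT A A, ∀ a b,
      (tmul a b : PT A A) = lact a (ψ b) - tmul a (prodT (ψ b)) - ψ (a * b) := by
  obtain ⟨x, hx⟩ := exists_ne (0 : A)
  obtain ⟨f, hf, hfx⟩ := exists_dual_vector ℂ x (norm_ne_zero_iff.2 hx)
  have hfx0 : f x ≠ 0 := by
    rw [hfx]
    simpa using hx
  let D₁ : A →L[ℂ] A →L[ℂ] A := smulRightL ℂ A A f
  let D₂ : A →L[ℂ] A →L[ℂ] PT A A := tmul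
  have hD₁ : ∀ a b x, D₁ (a * b) x = a * D₁ b x + D₁ a 0 := fun a b x => by
    show f x • (a * b) = a * (f x • b) + f 0 • a
    rw [map_zero, zero_smul, add_zero, mul_smul_comm]
  have hD₂ : ∀ a b n, D₂ (a * b) n = (lact a (D₂ b n) - tmul a (prodT (D₂ b n))) + D₂ a (b * n) :=
    fun a b n => by
      show tmul (a * b) n = (lact a (tmul b n) - tmul a (prodT (tmul b n))) + tmul a (b * n)
      rw [lact_tmul, prodT_tmul, sub_add_cancel]
  obtain ⟨ψ', hψ⟩ := hV (zeroMod A A) (regMod A) (twistMod A) D₁ D₂ hD₁ hD₂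
  let ψ : A →L[ℂ] A →L[ℂ] PT A A := ψ'
  have hψ' : ∀ a b y, (tmul a (f y • b) : PT A A) =
      (lact a (ψ b y) - tmul a (prodT (ψ b y))) - ψ (a * b) y + ψ a 0 := hψ
  refine ⟨ψ.flip ((f x)⁻¹ • x), fun a b => ?_⟩
  have h1 := hψ' a b ((f x)⁻¹ • x)
  have h2 : f ((f x)⁻¹ • x) = 1 := by
    rw [map_smul, smul_eq_mul, inv_mul_cancel₀ hfx0]
  rw [h2, one_smul, map_zero, add_zero] at h1
  exact h1

/-- The module map `ρ : A → A ⊗ A` which is a right inverse of the product map. -/
theorem exists_rho (hV : Vanish A) [Nontrivial A] (hA : IsRadicalAlgebra A) :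
    ∃ ρ : A →L[ℂ] PT A A, (∀ a b, ρ (a * b) = lact a (ρ b)) ∧ ∀ a, prodT (ρ a) = a := by
  obtain ⟨ψ, hψ⟩ := exists_psi0 hV
  have h1 : ∀ a b, (tmul a (b + prodT (ψ b)) : PT A A) = lact a (ψ b) - ψ (a * b) := by
    intro a b
    rw [map_add, hψ a b]
    abel
  have hθ : ∀ b, b + prodT (ψ b) = 0 := by
    intro b
    by_contra hne
    obtain ⟨f, hf, hfx⟩ := exists_dual_vector ℂ (b + prodT (ψ b)) (norm_ne_zero_iff.2 hne)
    have hfx0 : f (b + prodT (ψ b)) ≠ 0 := by
      rw [hfx]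
      simpa using hne
    set φ : A →L[ℂ] ℂ := (f (b + prodT (ψ b)))⁻¹ • f with hφ
    have hφ1 : φ (b + prodT (ψ b)) = 1 := by
      rw [hφ, smul_apply, smul_eq_mul, inv_mul_cancel₀ hfx0]
    have hq : ∀ a, a = a * slice φ (ψ b) - slice φ (ψ (a * b)) := by
      intro a
      have := congrArg (slice φ) (h1 a b)
      rw [slice_tmul, hφ1, one_smul, map_sub, slice_lact] at this
      exact this
    have hb0 : b ≠ 0 := by
      rintro rfl
      apply hne
      rw [map_zero, map_zero, add_zero]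
    obtain ⟨K, hK, hK'⟩ := exists_bound_one_sub hA (slice φ (ψ b))
    refine not_bdd_below hA hb0 (K * ‖(slice φ).comp ψ‖) fun a => ?_
    have h2 : ‖a - slice φ (ψ b) * a‖ ≤ ‖(slice φ).comp ψ‖ * ‖b * a‖ := by
      have h3 : a - slice φ (ψ b) * a = -((slice φ).comp ψ (b * a)) := by
        have h4 := hq a
        show a - slice φ (ψ b) * a = -(slice φ (ψ (b * a)))
        nth_rewrite 1 [h4]
        rw [mul_comm a (slice φ (ψ b)), mul_comm a b]
        abel
      rw [h3, norm_neg]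
      exact ContinuousLinearMap.le_opNorm _ _
    calc ‖a‖ ≤ K * ‖a - slice φ (ψ b) * a‖ := hK' a
      _ ≤ K * (‖(slice φ).comp ψ‖ * ‖b * a‖) := by gcongr
      _ = _ := by ring
  refine ⟨-ψ, fun a b => ?_, fun a => ?_⟩
  · have h2 := h1 a b
    rw [hθ b, map_zero] at h2
    rw [neg_apply, neg_apply, map_neg, eq_comm]
    rw [sub_eq_zero.1 h2.symm]
  · rw [neg_apply, map_neg]
    have := hθ a
    rw [neg_eq_iff_eq_neg]
    exact eq_neg_of_add_eq_zero_right this

/-- The symmetrised map. -/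
theorem exists_rho' {ρ : A →L[ℂ] PT A A} (hρ : ∀ a b, ρ (a * b) = lact a (ρ b))
    (hπ : ∀ a, prodT (ρ a) = a) :
    ∃ ρ' : A →L[ℂ] PT A A, ∃ m : A →L[ℂ] PT A A, (∀ a b, ρ' (a * b) = lact a (ρ' b)) ∧
      (∀ a, prodT (ρ' a) = a) ∧ (∀ a, prodT (m a) = a) ∧
      ∀ a b, ract b (ρ' a) = lact a (m b) := by
  let L : PT A A →L[ℂ] PT A A := lift
    (((compL ℂ A (PT A A) (PT A A)).flip (flipT.comp ρ)).comp lact)
  have hL : ∀ u v, L (tmul u v) = lact u (flipT (ρ v)) := fun u v => by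
    show lift _ _ = _
    rw [lift_tmul]
    rfl
  have hLa : ∀ a t, L (lact a t) = lact a (L t) := by
    intro a t
    have h : L.comp (lact a) = (lact a).comp L := by
      refine ext' fun u v => ?_
      rw [comp_apply, lact_tmul, hL, comp_apply, hL, lact_mul]
    exact congrArg (fun (T : PT A A →L[ℂ] PT A A) => T t) h
  have hLπ : ∀ t, prodT (L t) = prodT t := by
    intro t
    have h : prodT.comp L = prodT := by
      refine ext' fun u v => ?_
      rw [comp_apply, hL, prodT_lact, prodT_flipT, hπ, prodT_tmul]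
    exact congrArg (fun (T : PT A A →L[ℂ] A) => T t) h
  have hLr : ∀ b t, ract b (L t) = mulT t (flipT (ρ b)) := by
    intro b t
    have h : (ract b).comp L = mulT.flip (flipT (ρ b)) := by
      refine ext' fun u v => ?_
      rw [comp_apply, hL, flip_apply, mulT_tmul, ract_lact, ← flipT_lact, ← flipT_lact, ← hρ,
        ← hρ, mul_comm b v]
    exact congrArg (fun (T : PT A A →L[ℂ] PT A A) => T t) h
  refine ⟨L.comp ρ, flipT.comp (L.comp ρ), fun a b => ?_, fun a => ?_, fun a => ?_,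
    fun a b => ?_⟩
  · rw [comp_apply, comp_apply, hρ, hLa]
  · rw [comp_apply, hLπ, hπ]
  · rw [comp_apply, prodT_flipT, comp_apply, hLπ, hπ]
  · rw [comp_apply, comp_apply, comp_apply, hLr, ← flipT_ract, hLr, flipT_mulT, flipT_flipT,
      mulT_comm]

end Pool.Agent.MP_a77edb_an
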