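import Mathlib

/-!
# A cofinal version of the Rosenthal disjointification lemma, and dyadic averages
-/

set_option autoImplicit false

noncomputable section

namespace Pool.Agent.MP_a77edb_an

universe u v

theorem rosenthal {Γ : Type u} [Nonempty Γ] (le : Γ → Γ → Prop) (hrefl : ∀ x, le x x)
    (htrans : ∀ x y z, le x y → le y z → le x z)
    (P : Γ → Γ → Γ) (hPinj : ∀ x y x' y', P x y = P x' y' → x = x' ∧ y = y')
    (hP1 : ∀ x y, le x (P x y)) (hP2 : ∀ x y, le y (P x y))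
    (μ : Γ → Set Γ → ℝ) (C : ℝ) (h0 : ∀ γ S, 0 ≤ μ γ S) (hC : ∀ γ S, μ γ S ≤ C)
    (hadd : ∀ γ S S', Disjoint S S' → μ γ S + μ γ S' ≤ μ γ (S ∪ S'))
    {ε : ℝ} (hε : 0 < ε) :
    ∃ M : Set Γ, (∀ γ, ∃ γ' ∈ M, le γ γ') ∧ ∀ γ ∈ M, μ γ (M \ {γ}) < ε := by
  by_contra hcon
  push Not at hcon
  have hmono : ∀ γ S S', S ⊆ S' → μ γ S ≤ μ γ S' := by
    intro γ S S' hS
    have h1 := hadd γ S (S' \ S) Set.disjoint_sdiff_right
    rw [Set.union_sdiff_cancel hS] at h1
    linarith [h0 γ (S' \ S)]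
  have key : ∀ k : ℕ, ∃ κ : Γ → Γ, Function.Injective κ ∧ (∀ γ, le γ (κ γ)) ∧
      ∀ γ, μ (κ γ) (Set.range κ) ≤ C - k * ε := by
    intro k
    induction k with
    | zero =>
      refine ⟨id, Function.injective_id, hrefl, fun γ => ?_⟩
      simpa using hC γ _
    | succ k ih =>
      obtain ⟨κ, hκi, hκle, hκμ⟩ := ih
      have h1 : ∀ p, ∃ η, ε ≤ μ (κ (P p η)) (Set.range (fun η => κ (P p η)) \ {κ (P p η)}) := by
        intro p
        obtain ⟨γ, ⟨η, rfl⟩, hγ⟩ := hcon (Set.range (fun η => κ (P p η)))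
          (fun γ => ⟨κ (P p γ), ⟨γ, rfl⟩, htrans _ _ _ (hP2 p γ) (hκle _)⟩)
        exact ⟨η, hγ⟩
      choose η hη using h1
      refine ⟨fun p => κ (P p (η p)), fun p p' h => (hPinj _ _ _ _ (hκi h)).1,
        fun p => htrans _ _ _ (hP1 p (η p)) (hκle _), fun p => ?_⟩
      have hdis : Disjoint (Set.range fun p => κ (P p (η p)))
          (Set.range (fun η => κ (P p η)) \ {κ (P p (η p))}) := by
        rw [Set.disjoint_left]
        rintro _ ⟨p', rfl⟩ ⟨⟨η', h2⟩, h3⟩
        have h4 := (hPinj _ _ _ _ (hκi h2)).1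
        apply h3
        rw [h4]
        rfl
      have h2 := hadd (κ (P p (η p))) _ _ hdis
      have h3 : μ (κ (P p (η p))) ((Set.range fun p => κ (P p (η p))) ∪
          (Set.range (fun η => κ (P p η)) \ {κ (P p (η p))})) ≤
          μ (κ (P p (η p))) (Set.range κ) := by
        refine hmono _ _ _ ?_
        rintro x (⟨p', rfl⟩ | ⟨⟨η', rfl⟩, -⟩)
        · exact ⟨_, rfl⟩
        · exact ⟨_, rfl⟩
      have h4 := hκμ (P p (η p))
      have h5 := hη p
      push_cast
      linarith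
  obtain ⟨k, hk⟩ := exists_nat_gt (C / ε)
  obtain ⟨κ, -, -, hκ⟩ := key k
  obtain ⟨γ⟩ := (inferInstance : Nonempty Γ)
  have h1 := hκ γ
  have h2 := h0 (κ γ) (Set.range κ)
  rw [div_lt_iff₀ hε] at hk
  linarith

/-! ### Dyadic averages -/

/-- `dav f l s` is the average of `f` over the block `[s, s + 2 ^ l)`. -/
def dav {E : Type v} [AddCommGroup E] [Module ℂ E] (f : ℕ → E) : ℕ → ℕ → E
  | 0, s => f s
  | l + 1, s => (1 / 2 : ℂ) • (dav f l s + dav f l (s + 2 ^ l))

section

variable {E : Type v} [AddCommGroup E] [Module ℂ E]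

@[simp] theorem dav_zero (f : ℕ → E) (s : ℕ) : dav f 0 s = f s := rfl

theorem dav_succ (f : ℕ → E) (l s : ℕ) :
    dav f (l + 1) s = (1 / 2 : ℂ) • (dav f l s + dav f l (s + 2 ^ l)) := rfl

/-- Linear maps commute with dyadic averages. -/
theorem map_dav {E' : Type v} [AddCommGroup E'] [Module ℂ E'] (T : E →ₗ[ℂ] E') (f : ℕ → E)
    (l s : ℕ) : T (dav f l s) = dav (fun j => T (f j)) l s := by
  induction l generalizing s with
  | zero => rfl
  | succ l ih => rw [dav_succ, dav_succ, map_smul, map_add, ih, ih]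

/-- A bound for all the terms of a block gives a bound for the average. -/
theorem dav_norm_le {E : Type v} [NormedAddCommGroup E] [NormedSpace ℂ E] (f : ℕ → E) {C : ℝ}
    (l s : ℕ) (h : ∀ j, s ≤ j → j < s + 2 ^ l → ‖f j‖ ≤ C) : ‖dav f l s‖ ≤ C := by
  induction l generalizing s with
  | zero => exact h s le_rfl (by simp)
  | succ l ih =>
    rw [dav_succ, norm_smul]
    have h1 := ih s (fun j hj hj' => h j hj (by rw [pow_succ]; omega))
    have h2 := ih (s + 2 ^ l) (fun j hj hj' => h j (by omega) (by rw [pow_succ]; omega))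
    have h3 := norm_add_le (dav f l s) (dav f l (s + 2 ^ l))
    have h4 : ‖(1 / 2 : ℂ)‖ = 1 / 2 := by simp
    rw [h4]
    linarith

/-- Termwise parallelogram law. -/
theorem norm_sq_half_add (x y : ℂ) :
    ‖(1 / 2 : ℂ) • (x + y)‖ ^ 2 = (‖x‖ ^ 2 + ‖y‖ ^ 2) / 2 - ‖x - y‖ ^ 2 / 4 := by
  have h := parallelogram_law_with_norm ℝ x y
  have h4 : ‖(1 / 2 : ℂ)‖ = 1 / 2 := by simp
  rw [norm_smul, h4]
  nlinarith

/-- If the `g j` are `ℓ¹`-averages, then two consecutive dyadic blocks have almost the same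
average. -/
theorem exists_close_blocks {A : Type u} [NormedAddCommGroup A] [NormedSpace ℂ A]
    [CompleteSpace A] {ι : Type v}
    (a : ι → A) (ha : Summable fun i => ‖a i‖) {C : ℝ} (haC : ∑' i, ‖a i‖ ≤ C)
    (w : ι → ℕ → ℂ) (hw : ∀ i j, ‖w i j‖ ≤ 1) (g : ℕ → A) (hg : ∀ j, g j = ∑' i, w i j • a i)
    {t : ℝ} (ht : 0 < t) (m : ℕ) (hm : 4 * C < m * t ^ 2) :
    ∃ l s, l < m ∧ s + 2 ^ (l + 1) ≤ 2 ^ m ∧
      ‖dav g l s - dav g l (s + 2 ^ l)‖ ≤ t * (C + 1) / 2 := by
  have hC0 : 0 ≤ C := (tsum_nonneg fun i => norm_nonneg (a i)).trans haC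
  have hdb : ∀ i l s, ‖dav (w i) l s‖ ≤ 1 := fun i l s =>
    dav_norm_le _ _ _ fun j _ _ => hw i j
  have hdd : ∀ i l s s', ‖dav (w i) l s - dav (w i) l s'‖ ≤ 2 := fun i l s s' => by
    have := norm_sub_le (dav (w i) l s) (dav (w i) l s')
    linarith [hdb i l s, hdb i l s']
  -- the averages of `g`
  have hsumg : ∀ j, Summable fun i => w i j • a i := fun j => by
    refine Summable.of_norm_bounded ha fun i => ?_
    rw [norm_smul]
    exact mul_le_of_le_one_left (norm_nonneg _) (hw i j)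
  have hsumd : ∀ l s, Summable fun i => dav (w i) l s • a i := fun l s => by
    refine Summable.of_norm_bounded ha fun i => ?_
    rw [norm_smul]
    exact mul_le_of_le_one_left (norm_nonneg _) (hdb i l s)
  have hdg : ∀ l s, dav g l s = ∑' i, dav (w i) l s • a i := by
    intro l
    induction l with
    | zero => exact fun s => hg s
    | succ l ih =>
      intro s
      rw [dav_succ, ih, ih, ← (hsumd l s).tsum_add (hsumd l _), ← Summable.tsum_const_smul]
      · refine tsum_congr fun i => ?_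
        rw [dav_succ, ← add_smul, smul_smul, smul_eq_mul]
      · exact (hsumd l s).add (hsumd l _)
  -- the quadratic form
  have hsumV : ∀ (x : ι → ℂ), (∀ i, ‖x i‖ ≤ 2) → Summable fun i => ‖a i‖ * ‖x i‖ ^ 2 := by
    intro x hx
    refine Summable.of_nonneg_of_le (fun i => by positivity) (fun i => ?_) (ha.mul_right 4)
    refine mul_le_mul_of_nonneg_left ?_ (norm_nonneg _)
    nlinarith [hx i, norm_nonneg (x i)]
  let V : (ι → ℂ) → ℝ := fun x => ∑' i, ‖a i‖ * ‖x i‖ ^ 2
  have hV0 : ∀ x, 0 ≤ V x := fun x => tsum_nonneg fun i => by positivity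
  have hVs : ∀ l s, V (fun i => dav (w i) (l + 1) s) =
      (V (fun i => dav (w i) l s) + V (fun i => dav (w i) l (s + 2 ^ l))) / 2 -
        V (fun i => dav (w i) l s - dav (w i) l (s + 2 ^ l)) / 4 := by
    intro l s
    have e1 := hsumV (fun i => dav (w i) l s) (fun i => (hdb i l s).trans (by norm_num))
    have e2 := hsumV (fun i => dav (w i) l (s + 2 ^ l))
      (fun i => (hdb i l (s + 2 ^ l)).trans (by norm_num))
    have e3 := hsumV (fun i => dav (w i) l s - dav (w i) l (s + 2 ^ l))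
      (fun i => hdd i l s _)
    have e4 : HasSum (fun i => ‖a i‖ * ‖dav (w i) (l + 1) s‖ ^ 2)
        ((V (fun i => dav (w i) l s) + V (fun i => dav (w i) l (s + 2 ^ l))) / 2 -
        V (fun i => dav (w i) l s - dav (w i) l (s + 2 ^ l)) / 4) := by
      have e5 := ((e1.hasSum.add e2.hasSum).div_const 2).sub (e3.hasSum.div_const 4)
      have e6 : (fun i => ‖a i‖ * ‖dav (w i) (l + 1) s‖ ^ 2) =
          fun i => (‖a i‖ * ‖dav (w i) l s‖ ^ 2 + ‖a i‖ * ‖dav (w i) l (s + 2 ^ l)‖ ^ 2) / 2 -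
            ‖a i‖ * ‖dav (w i) l s - dav (w i) l (s + 2 ^ l)‖ ^ 2 / 4 := by
        funext i
        rw [dav_succ, norm_sq_half_add]
        ring
      rw [e6]
      exact e5
    exact e4.tsum_eq
  have hclaim : ∃ l s, l < m ∧ s + 2 ^ (l + 1) ≤ 2 ^ m ∧
      V (fun i => dav (w i) l s - dav (w i) l (s + 2 ^ l)) < t ^ 2 := by
    by_contra hcon
    push Not at hcon
    have h1 : ∀ l, l ≤ m → ∀ s, s + 2 ^ l ≤ 2 ^ m →
        V (fun i => dav (w i) l s) ≤ C - l * (t ^ 2 / 4) := by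
      intro l
      induction l with
      | zero =>
        intro _ s _
        refine le_trans ?_ (le_trans haC (by simp))
        refine Summable.tsum_le_tsum (fun i => ?_)
          (hsumV _ fun i => (hdb i 0 s).trans (by norm_num)) ha
        refine mul_le_of_le_one_right (norm_nonneg _) ?_
        exact pow_le_one₀ (norm_nonneg _) (hw i s)
      | succ l ih =>
        intro hl s hs
        have e1 := ih (by omega) s (by rw [pow_succ] at hs; omega)
        have e2 := ih (by omega) (s + 2 ^ l) (by rw [pow_succ] at hs; omega)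
        have e3 := hcon l s (by omega) hs
        rw [hVs]
        push_cast
        linarith
    have h2 := h1 m le_rfl 0 (by simp)
    have h3 := hV0 (fun i => dav (w i) m 0)
    linarith
  obtain ⟨l, s, hl, hs, hV⟩ := hclaim
  refine ⟨l, s, hl, hs, ?_⟩
  have e3 := hsumV (fun i => dav (w i) l s - dav (w i) l (s + 2 ^ l))
    (fun i => hdd i l s _)
  have e5 : Summable fun i => ‖a i‖ * (t / 2) + ‖a i‖ * ‖dav (w i) l s -
      dav (w i) l (s + 2 ^ l)‖ ^ 2 / (2 * t) :=
    (ha.mul_right _).add (e3.div_const _)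
  rw [hdg, hdg, ← (hsumd l s).tsum_sub (hsumd l _)]
  have e6 : ∀ i, ‖dav (w i) l s • a i - dav (w i) l (s + 2 ^ l) • a i‖ ≤
      ‖a i‖ * (t / 2) + ‖a i‖ * ‖dav (w i) l s - dav (w i) l (s + 2 ^ l)‖ ^ 2 / (2 * t) := by
    intro i
    rw [← sub_smul, norm_smul]
    set d := ‖dav (w i) l s - dav (w i) l (s + 2 ^ l)‖ with hd
    have h7 : d ≤ t / 2 + d ^ 2 / (2 * t) := by
      rw [div_add_div _ _ (by norm_num) (by positivity), le_div_iff₀ (by positivity)]
      nlinarith [sq_nonneg (t - d)]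
    calc d * ‖a i‖ ≤ (t / 2 + d ^ 2 / (2 * t)) * ‖a i‖ := by gcongr
      _ = _ := by ring
  refine (tsum_of_norm_bounded e5.hasSum e6).trans ?_
  rw [(ha.mul_right _).tsum_add (e3.div_const _), tsum_mul_right, tsum_div_const]
  have h8 : (∑' i, ‖a i‖ * ‖dav (w i) l s - dav (w i) l (s + 2 ^ l)‖ ^ 2) / (2 * t) ≤ t / 2 := by
    rw [div_le_iff₀ (by positivity)]
    have : t / 2 * (2 * t) = t ^ 2 := by ring
    rw [this]
    exact hV.le
  nlinarith

end

end Pool.Agent.MP_a77edb_an
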