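import Pool.Agent.MP_a77edb_an.Net
import Pool.Agent.MP_a77edb_an.Radical1
import Pool.Agent.MP_a77edb_an.Rosenthal

/-!
# Commutative radical algebras, second part
-/

set_option autoImplicit false
set_option linter.unusedSectionVars false

noncomputable section

namespace Pool.Agent.MP_a77edb_an

universe u

open ContinuousLinearMap Filter Topology PT

variable {A : Type u} [NonUnitalNormedCommRing A] [NormedSpace ℂ A]
  [IsScalarTower ℂ A A] [SMulCommClass ℂ A A] [CompleteSpace A]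

section Modules

variable (Γ : Type u)

/-- The action of `A` on bounded families, as a function. -/
def xactFun (a : A) (x : Linf Γ A) : Linf Γ A :=
  ⟨fun γ => a * x γ, linf_mem (C := ‖a‖ * ‖x‖) fun γ =>
    (norm_mul_le _ _).trans (mul_le_mul_of_nonneg_left (linf_apply_le x γ) (norm_nonneg a))⟩

variable {Γ}

theorem xactFun_apply (a : A) (x : Linf Γ A) (γ : Γ) : xactFun Γ a x γ = a * x γ := rfl

theorem linf_ext {E : Type u} [NormedAddCommGroup E] {x y : Linf Γ E} (h : ∀ γ, x γ = y γ) :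
    x = y := lp.ext (funext h)

theorem linf_add_apply {E : Type u} [NormedAddCommGroup E] (x y : Linf Γ E) (γ : Γ) :
    (x + y) γ = x γ + y γ := rfl

theorem linf_smul_apply {E : Type u} [NormedAddCommGroup E] [NormedSpace ℂ E] (c : ℂ)
    (x : Linf Γ E) (γ : Γ) : (c • x) γ = c • x γ := rfl

variable (A Γ) in
/-- The action of `A` on bounded families. -/
def xact : A →L[ℂ] Linf Γ A →L[ℂ] Linf Γ A :=
  LinearMap.mkContinuous₂
    (LinearMap.mk₂ ℂ (xactFun Γ)
      (fun a b x => linf_ext fun γ => by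
        rw [linf_add_apply, xactFun_apply, xactFun_apply, xactFun_apply, add_mul])
      (fun c a x => linf_ext fun γ => by
        rw [linf_smul_apply, xactFun_apply, xactFun_apply, smul_mul_assoc])
      (fun a x y => linf_ext fun γ => by
        rw [linf_add_apply, xactFun_apply, xactFun_apply, xactFun_apply, linf_add_apply, mul_add])
      (fun c a x => linf_ext fun γ => by
        rw [linf_smul_apply, xactFun_apply, xactFun_apply, linf_smul_apply, mul_smul_comm])) 1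
    (fun a x => by
      rw [one_mul, LinearMap.mk₂_apply]
      refine lp.norm_le_of_forall_le (by positivity) fun γ => ?_
      exact (norm_mul_le _ _).trans
        (mul_le_mul_of_nonneg_left (linf_apply_le x γ) (norm_nonneg a)))

theorem xact_apply (a : A) (x : Linf Γ A) (γ : Γ) : xact A Γ a x γ = a * x γ := rfl

variable (A Γ) in
/-- The module of bounded families. -/
def linfMod : LeftMod A where
  carrier := Linf Γ A
  act := xact A Γ
  act_mul := fun a b x => linf_ext fun γ => by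
    show xact A Γ (a * b) x γ = xact A Γ a (xact A Γ b x) γ
    rw [xact_apply, xact_apply, xact_apply, mul_assoc]

variable (A) in
/-- The module `A ⊗ Z` with the action on the first factor. -/
def tensMod (Z : Type u) [NormedAddCommGroup Z] [NormedSpace ℂ Z] : LeftMod A where
  carrier := PT A Z
  act := lact
  act_mul := fun a b t => lact_mul a b t

end Modules

/-- The choice of functionals and vectors. -/
theorem exists_data [Nontrivial A] (hA : IsRadicalAlgebra A) :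
    ∃ (f : Idx (A × ℕ) → (A →L[ℂ] ℂ)) (b : Idx (A × ℕ) → A),
      (∀ γ, ‖f γ‖ = 1) ∧ (∀ γ, ∀ p ∈ γ.lab, ‖(f γ).comp (mulL p.1)‖ ≤ 1 / (p.2 + 1)) ∧
      (∀ γ, ‖b γ‖ ≤ 2) ∧ ∀ γ, f γ (b γ) = 1 := by
  classical
  have h : ∀ γ : Idx (A × ℕ), ∃ f : A →L[ℂ] ℂ, ∃ b : A, ‖f‖ = 1 ∧
      (∀ p ∈ γ.lab, ‖f.comp (mulL p.1)‖ ≤ 1 / (p.2 + 1)) ∧ ‖b‖ ≤ 2 ∧ f b = 1 := by
    intro γ
    set F : Finset (A × ℕ) := γ.lab_finite.toFinset with hF
    obtain ⟨f, hf1, hf2⟩ := exists_dual hA (F.image Prod.fst)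
      (ε := 1 / ((∑ p ∈ F, p.2 : ℕ) + 1)) (by positivity)
    have hx : ∃ x : A, ‖x‖ ≤ 1 ∧ 1 / 2 < ‖f x‖ := by
      by_contra hcon
      push Not at hcon
      have h1 : ‖f‖ ≤ 1 / 2 := by
        refine ContinuousLinearMap.opNorm_le_of_unit_norm (𝕜 := ℂ) (by norm_num) fun x hx => ?_
        exact hcon x hx.le
      rw [hf1] at h1
      norm_num at h1
    obtain ⟨x, hx1, hx2⟩ := hx
    have hfx : f x ≠ 0 := by
      intro h0
      rw [h0, norm_zero] at hx2
      norm_num at hx2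
    refine ⟨f, (f x)⁻¹ • x, hf1, fun p hp => ?_, ?_, ?_⟩
    · have hpF : p ∈ F := by
        rw [hF, Set.Finite.mem_toFinset]
        exact hp
      refine (hf2 p.1 (Finset.mem_image_of_mem _ hpF)).trans ?_
      have h1 : p.2 ≤ ∑ p ∈ F, p.2 := Finset.single_le_sum (f := fun p : A × ℕ => p.2)
        (fun _ _ => Nat.zero_le _) hpF
      have h2 : (p.2 : ℝ) ≤ ((∑ p ∈ F, p.2 : ℕ) : ℝ) := by exact_mod_cast h1
      exact one_div_le_one_div_of_le (by positivity) (by linarith)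
    · rw [norm_smul, norm_inv]
      have h1 : ‖f x‖⁻¹ ≤ 2 := by
        rw [inv_le_comm₀ (by linarith) (by norm_num)]
        linarith
      calc ‖f x‖⁻¹ * ‖x‖ ≤ 2 * 1 := by gcongr
        _ = 2 := by norm_num
    · rw [map_smul, smul_eq_mul, inv_mul_cancel₀ hfx]
  choose f b h1 h2 h3 h4 using h
  exact ⟨f, b, h1, h2, h3, h4⟩

section Cocycle

variable [Nontrivial A] (f : Idx (A × ℕ) → (A →L[ℂ] ℂ)) (hf1 : ∀ γ, ‖f γ‖ = 1)
  (hf2 : ∀ γ, ∀ p ∈ γ.lab, ‖(f γ).comp (mulL p.1)‖ ≤ 1 / (p.2 + 1))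

include hf1 in
theorem cocFun_bound (a : A) (x : Linf (Idx (A × ℕ)) A) (γ : Idx (A × ℕ)) :
    ‖f γ (a * x γ)‖ ≤ ‖a‖ * ‖x‖ := by
  refine ((f γ).le_opNorm _).trans ?_
  rw [hf1, one_mul]
  exact (norm_mul_le _ _).trans (mul_le_mul_of_nonneg_left (linf_apply_le x γ) (norm_nonneg a))

include hf2 in
theorem cocFun_tendsto (a : A) (x : Linf (Idx (A × ℕ)) A) :
    Tendsto (fun γ => f γ (a * x γ)) atTop (𝓝 0) := by
  rw [NormedAddGroup.tendsto_nhds_zero]
  intro ε hε
  obtain ⟨n, hn⟩ := exists_nat_gt (‖x‖ / ε)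
  filter_upwards [Idx.eventually_mem_lab ((a, n) : A × ℕ)] with γ hγ
  have h1 := hf2 γ (a, n) hγ
  have h2 : ‖f γ (a * x γ)‖ ≤ 1 / (n + 1) * ‖x‖ := by
    have h3 : f γ (a * x γ) = (f γ).comp (mulL a) (x γ) := rfl
    rw [h3]
    refine (((f γ).comp (mulL a)).le_opNorm _).trans ?_
    exact mul_le_mul h1 (linf_apply_le x γ) (norm_nonneg _) (by positivity)
  refine lt_of_le_of_lt h2 ?_
  rw [div_lt_iff₀ hε] at hn
  rw [div_mul_eq_mul_div, one_mul, div_lt_iff₀ (by positivity)]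
  nlinarith [norm_nonneg x]

/-- The 1-cocycle `D`. -/
def coc : A →L[ℂ] Linf (Idx (A × ℕ)) A →L[ℂ] Z0 (Idx (A × ℕ)) :=
  LinearMap.mkContinuous₂
    (LinearMap.mk₂ ℂ (fun a x => mkZ0 (fun γ => f γ (a * x γ))
        (linf_mem (cocFun_bound f hf1 a x)) (cocFun_tendsto f hf2 a x))
      (fun a b x => Z0_ext fun γ => by
        rw [map_add, ev_mkZ0, ev_mkZ0, ev_mkZ0, add_mul, map_add])
      (fun c a x => Z0_ext fun γ => by
        rw [map_smul, ev_mkZ0, ev_mkZ0, smul_mul_assoc, map_smul])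
      (fun a x y => Z0_ext fun γ => by
        rw [map_add, ev_mkZ0, ev_mkZ0, ev_mkZ0, linf_add_apply, mul_add, map_add])
      (fun c a x => Z0_ext fun γ => by
        rw [map_smul, ev_mkZ0, ev_mkZ0, linf_smul_apply, mul_smul_comm, map_smul])) 1
    (fun a x => by
      rw [one_mul, LinearMap.mk₂_apply]
      exact norm_Z0_le (by positivity) (cocFun_bound f hf1 a x))

theorem ev_coc (a : A) (x : Linf (Idx (A × ℕ)) A) (γ : Idx (A × ℕ)) :
    ev γ (coc f hf1 hf2 a x) = f γ (a * x γ) := rfl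

/-- The second consequence of the vanishing condition. -/
theorem exists_psi (hV : Vanish A) :
    ∃ ψ : A →L[ℂ] Linf (Idx (A × ℕ)) A →L[ℂ] PT A (Z0 (Idx (A × ℕ))), ∀ a b x,
      (tmul a (coc f hf1 hf2 b x) : PT A (Z0 (Idx (A × ℕ)))) =
        lact a (ψ b x) - ψ (a * b) x + ψ a (xact A _ b x) := by
  let D₂ : A →L[ℂ] Z0 (Idx (A × ℕ)) →L[ℂ] PT A (Z0 (Idx (A × ℕ))) := tmul
  have hD₁ : ∀ a b x, coc f hf1 hf2 (a * b) x =
      (0 : A →L[ℂ] Z0 (Idx (A × ℕ)) →L[ℂ] Z0 (Idx (A × ℕ))) a (coc f hf1 hf2 b x) +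
        coc f hf1 hf2 a (xact A _ b x) := fun a b x => by
    refine Z0_ext fun γ => ?_
    have h1 : ev γ (coc f hf1 hf2 a (xact A (Idx (A × ℕ)) b x)) = f γ (a * (b * x γ)) := rfl
    rw [map_add, h1, ev_coc, zero_apply, zero_apply, map_zero, zero_add, mul_assoc]
  have hD₂ : ∀ a b n, D₂ (a * b) n = lact a (D₂ b n) +
      D₂ a ((0 : A →L[ℂ] Z0 (Idx (A × ℕ)) →L[ℂ] Z0 (Idx (A × ℕ))) b n) := fun a b n => by
    show tmul (a * b) n = lact a (tmul b n) + tmul a 0
    rw [lact_tmul, map_zero, add_zero]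
  obtain ⟨ψ', hψ⟩ := hV (linfMod A (Idx (A × ℕ))) (zeroMod A (Z0 (Idx (A × ℕ))))
    (tensMod A (Z0 (Idx (A × ℕ)))) (coc f hf1 hf2) D₂ hD₁ hD₂
  exact ⟨ψ', hψ⟩

end Cocycle

end Pool.Agent.MP_a77edb_an
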