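import Pool.Agent.MP_a77edb_an.Radical2

/-!
# Commutative radical algebras, third part: the approximate identity
-/

set_option autoImplicit false
set_option linter.unusedSectionVars false

noncomputable section

namespace Pool.Agent.MP_a77edb_an

universe u

open ContinuousLinearMap Filter Topology PT
open Classical

/-! ### Variation of a functional -/

section Variation

variable {Γ : Type u}

theorem lc_ext {x y : LC Γ} (h : ∀ γ, x γ = y γ) : x = y := lp.ext (funext h)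

theorem lc_add_apply (x y : LC Γ) (γ : Γ) : (x + y) γ = x γ + y γ := rfl

theorem lc_smul_apply (c : ℂ) (x : LC Γ) (γ : Γ) : (c • x) γ = c * x γ := rfl

/-- The variation of a functional on a set. -/
def variation (L : LC Γ →L[ℂ] ℂ) (S : Set Γ) : ℝ :=
  sSup {r | ∃ c : LC Γ, ‖c‖ ≤ 1 ∧ (∀ γ, γ ∉ S → c γ = 0) ∧ r = ‖L c‖}

theorem variation_bdd (L : LC Γ →L[ℂ] ℂ) (S : Set Γ) :
    BddAbove {r | ∃ c : LC Γ, ‖c‖ ≤ 1 ∧ (∀ γ, γ ∉ S → c γ = 0) ∧ r = ‖L c‖} := by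
  refine ⟨‖L‖, ?_⟩
  rintro _ ⟨c, hc, -, rfl⟩
  refine (L.le_opNorm c).trans ?_
  exact mul_le_of_le_one_right (norm_nonneg _) hc

theorem le_variation (L : LC Γ →L[ℂ] ℂ) {S : Set Γ} {c : LC Γ} (hc : ‖c‖ ≤ 1)
    (hS : ∀ γ, γ ∉ S → c γ = 0) : ‖L c‖ ≤ variation L S :=
  le_csSup (variation_bdd L S) ⟨c, hc, hS, rfl⟩

theorem variation_nonneg (L : LC Γ →L[ℂ] ℂ) (S : Set Γ) : 0 ≤ variation L S := by
  have := le_variation L (S := S) (c := 0) (by simp) (fun γ _ => rfl)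
  exact (norm_nonneg _).trans this

theorem variation_nonempty (L : LC Γ →L[ℂ] ℂ) (S : Set Γ) :
    {r | ∃ c : LC Γ, ‖c‖ ≤ 1 ∧ (∀ γ, γ ∉ S → c γ = 0) ∧ r = ‖L c‖}.Nonempty :=
  ⟨_, 0, by simp, fun _ _ => rfl, rfl⟩

theorem variation_le (L : LC Γ →L[ℂ] ℂ) (S : Set Γ) : variation L S ≤ ‖L‖ := by
  refine csSup_le (variation_nonempty L S) ?_
  rintro _ ⟨c, hc, -, rfl⟩
  refine (L.le_opNorm c).trans ?_
  exact mul_le_of_le_one_right (norm_nonneg _) hc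

theorem variation_add_le (L : LC Γ →L[ℂ] ℂ) (S S' : Set Γ) (hd : Disjoint S S') :
    variation L S + variation L S' ≤ variation L (S ∪ S') := by
  have key : ∀ c c' : LC Γ, ‖c‖ ≤ 1 → (∀ γ, γ ∉ S → c γ = 0) → ‖c'‖ ≤ 1 →
      (∀ γ, γ ∉ S' → c' γ = 0) → ‖L c‖ + ‖L c'‖ ≤ variation L (S ∪ S') := by
    intro c c' hc hcS hc' hcS'
    obtain ⟨α, hα, hαc⟩ := RCLike.exists_norm_eq_mul_self (L c)
    obtain ⟨β, hβ, hβc⟩ := RCLike.exists_norm_eq_mul_self (L c')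
    have h1 : L (α • c + β • c') = ((‖L c‖ + ‖L c'‖ : ℝ) : ℂ) := by
      rw [map_add, map_smul, map_smul, smul_eq_mul, smul_eq_mul, ← hαc, ← hβc]
      push_cast
      rfl
    have h2 : ‖L (α • c + β • c')‖ = ‖L c‖ + ‖L c'‖ := by
      rw [h1, Complex.norm_real, Real.norm_of_nonneg (by positivity)]
    rw [← h2]
    refine le_variation L ?_ ?_
    · refine lp.norm_le_of_forall_le zero_le_one fun γ => ?_
      rw [lc_add_apply, lc_smul_apply, lc_smul_apply]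
      by_cases hγ : γ ∈ S
      · have h3 : γ ∉ S' := fun h => Set.disjoint_left.1 hd hγ h
        rw [hcS' γ h3, mul_zero, add_zero, norm_mul, hα, one_mul]
        exact (lc_apply_le c γ).trans hc
      · rw [hcS γ hγ, mul_zero, zero_add, norm_mul, hβ, one_mul]
        exact (lc_apply_le c' γ).trans hc'
    · intro γ hγ
      rw [lc_add_apply, lc_smul_apply, lc_smul_apply, hcS γ fun h => hγ (Or.inl h),
        hcS' γ fun h => hγ (Or.inr h), mul_zero, mul_zero, add_zero]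
  rw [← le_sub_iff_add_le]
  refine csSup_le (variation_nonempty L S) ?_
  rintro _ ⟨c, hc, hcS, rfl⟩
  rw [le_sub_comm]
  refine csSup_le (variation_nonempty L S') ?_
  rintro _ ⟨c', hc', hcS', rfl⟩
  rw [le_sub_iff_add_le, add_comm]
  exact key c c' hc hcS hc' hcS'

/-- The indicator of a set. -/
def indLC (S : Set Γ) : LC Γ :=
  ⟨fun γ => if γ ∈ S then 1 else 0, linf_mem (C := 1) fun γ => by
    by_cases h : γ ∈ S <;> simp [h]⟩

theorem indLC_apply (S : Set Γ) (γ : Γ) : indLC S γ = if γ ∈ S then 1 else 0 := rfl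

theorem norm_indLC_le (S : Set Γ) : ‖indLC S‖ ≤ 1 := by
  refine lp.norm_le_of_forall_le zero_le_one fun γ => ?_
  rw [indLC_apply]
  by_cases h : γ ∈ S <;> simp [h]

theorem indLC_eq {S : Set Γ} {γ : Γ} (h : γ ∈ S) : indLC S = indLC {γ} + indLC (S \ {γ}) := by
  refine lc_ext fun γ' => ?_
  rw [lc_add_apply, indLC_apply, indLC_apply, indLC_apply]
  by_cases h1 : γ' = γ
  · subst h1
    simp [h]
  · simp [h1]

end Variation

variable {A : Type u} [NonUnitalNormedCommRing A] [NormedSpace ℂ A]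
  [IsScalarTower ℂ A A] [SMulCommClass ℂ A A] [CompleteSpace A] [Nontrivial A]

/-- The index set. -/
abbrev Gam (A : Type u) : Type u := Idx (A × ℕ)

/-- Families concentrated at one point. -/
def sg (γ : Gam A) : A →L[ℂ] Linf (Gam A) A := lp.singleContinuousLinearMap ℂ (fun _ => A) ⊤ γ

theorem sg_apply_self (γ : Gam A) (v : A) : sg γ v γ = v :=
  lp.single_apply_self (E := fun _ : Gam A => A) ⊤ γ v

theorem sg_apply_ne {γ γ' : Gam A} (h : γ' ≠ γ) (v : A) : sg γ v γ' = 0 :=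
  lp.single_apply_ne (E := fun _ : Gam A => A) ⊤ γ v h

theorem sg_apply (γ γ' : Gam A) (v : A) : sg γ v γ' = if γ' = γ then v else 0 := by
  by_cases h : γ' = γ
  · rw [if_pos h, h, sg_apply_self]
  · rw [if_neg h, sg_apply_ne h]

theorem xact_sg (γ : Gam A) (v w : A) : xact A (Gam A) v (sg γ w) = sg γ (v * w) := by
  refine linf_ext fun γ' => ?_
  rw [xact_apply, sg_apply, sg_apply]
  split_ifs
  · rfl
  · rw [mul_zero]

/-- The unit vectors in `Z0`. -/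
def eZ (γ : Gam A) : Z0 (Gam A) :=
  mkZ0 (fun γ' => if γ' = γ then 1 else 0)
    (linf_mem (C := 1) fun γ' => by by_cases h : γ' = γ <;> simp [h])
    (by
      refine tendsto_const_nhds.congr' ?_
      filter_upwards [Idx.eventually_ne γ] with γ' h
      rw [if_neg h])

theorem ev_eZ (γ γ' : Gam A) : ev γ' (eZ γ) = if γ' = γ then 1 else 0 := rfl

theorem ev_eZ_self (γ : Gam A) : ev γ (eZ γ) = 1 := by rw [ev_eZ, if_pos rfl]

section

variable (f : Gam A → (A →L[ℂ] ℂ)) (hf1 : ∀ γ, ‖f γ‖ = 1)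
  (hf2 : ∀ γ, ∀ p ∈ γ.lab, ‖(f γ).comp (mulL p.1)‖ ≤ 1 / (p.2 + 1))

theorem coc_sg (a : A) (γ : Gam A) (v : A) :
    coc f hf1 hf2 a (sg γ v) = f γ (a * v) • eZ γ := by
  refine Z0_ext fun γ' => ?_
  rw [ev_coc, map_smul, ev_eZ, sg_apply]
  by_cases h : γ' = γ
  · rw [if_pos h, if_pos h, h, smul_eq_mul, mul_one]
  · rw [if_neg h, if_neg h, mul_zero, map_zero, smul_zero]

end

section Psi

variable (ψ : A →L[ℂ] Linf (Gam A) A →L[ℂ] PT A (Z0 (Gam A)))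

/-- The map `x ↦ Ψ̂_x`, `Ψ̂_x (c ⊗ v) = ψ(c, v x)`. -/
def Psih : Linf (Gam A) A →L[ℂ] (PT A A →L[ℂ] PT A (Z0 (Gam A))) :=
  liftL.comp (((compL ℂ A (Linf (Gam A) A →L[ℂ] PT A (Z0 (Gam A)))
    (A →L[ℂ] PT A (Z0 (Gam A)))).flip ψ).comp
      ((compL ℂ A (Linf (Gam A) A) (PT A (Z0 (Gam A)))).flip.comp (xact A (Gam A)).flip))

theorem Psih_tmul (x : Linf (Gam A) A) (c v : A) :
    Psih ψ x (tmul c v) = ψ c (xact A (Gam A) v x) := by
  show lift _ (tmul c v) = _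
  rw [lift_tmul]
  rfl

/-- The map `Ψ^γ (c ⊗ v) = ψ(c, e_γ ⊗ v)`. -/
def Psig (γ : Gam A) : PT A A →L[ℂ] PT A (Z0 (Gam A)) :=
  lift (((compL ℂ A (Linf (Gam A) A) (PT A (Z0 (Gam A)))).flip (sg γ)).comp ψ)

theorem Psig_tmul (γ : Gam A) (c v : A) : Psig ψ γ (tmul c v) = ψ c (sg γ v) := by
  rw [Psig, lift_tmul]
  rfl

theorem norm_sg_le (γ : Gam A) (v : A) : ‖sg γ v‖ ≤ ‖v‖ := by
  refine lp.norm_le_of_forall_le (norm_nonneg _) fun γ' => ?_
  rw [sg_apply]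
  split_ifs
  · exact le_rfl
  · rw [norm_zero]
    exact norm_nonneg _

theorem norm_Psig_apply_le (γ : Gam A) (t : PT A A) : ‖Psig ψ γ t‖ ≤ ‖ψ‖ * ‖t‖ := by
  refine (norm_lift_apply_le _ t).trans ?_
  refine mul_le_mul_of_nonneg_right ?_ (norm_nonneg _)
  refine ContinuousLinearMap.opNorm_le_bound₂ _ (ContinuousLinearMap.opNorm_nonneg ψ)
    fun c v => ?_
  show ‖ψ c (sg γ v)‖ ≤ _
  refine (ψ.le_opNorm₂ _ _).trans ?_
  exact mul_le_mul_of_nonneg_left (norm_sg_le γ v) (by positivity)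

theorem Psih_sg (γ : Gam A) (b : A) (t : PT A A) :
    Psih ψ (sg γ b) t = Psig ψ γ (ract b t) := by
  have h : Psih ψ (sg γ b) = (Psig ψ γ).comp (ract b) := by
    refine ext' fun c v => ?_
    rw [Psih_tmul, comp_apply, ract_tmul, Psig_tmul, xact_sg, mul_comm]
  exact congrArg (fun (T : PT A A →L[ℂ] PT A (Z0 (Gam A))) => T t) h

variable (f : Gam A → (A →L[ℂ] ℂ)) (hf1 : ∀ γ, ‖f γ‖ = 1)
  (hf2 : ∀ γ, ∀ p ∈ γ.lab, ‖(f γ).comp (mulL p.1)‖ ≤ 1 / (p.2 + 1))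
  (hψ : ∀ a b x, (tmul a (coc f hf1 hf2 b x) : PT A (Z0 (Gam A))) =
        lact a (ψ b x) - ψ (a * b) x + ψ a (xact A _ b x))

include hψ in
theorem Psig_lact (γ : Gam A) (c : A) (t : PT A A) :
    Psig ψ γ (lact c t) = lact c (Psig ψ γ t) + ψ c (sg γ (prodT t)) -
      f γ (prodT t) • tmul c (eZ γ) := by
  have h : (Psig ψ γ).comp (lact c) = (lact c).comp (Psig ψ γ) +
      ((ψ c).comp ((sg γ).comp prodT)) - ((f γ).comp prodT).smulRight (tmul c (eZ γ)) := by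
    refine ext' fun u v => ?_
    have h1 := hψ c u (sg γ v)
    rw [xact_sg, coc_sg, map_smul] at h1
    show Psig ψ γ (lact c (tmul u v)) = lact c (Psig ψ γ (tmul u v)) +
      ψ c (sg γ (prodT (tmul u v))) - f γ (prodT (tmul u v)) • tmul c (eZ γ)
    rw [lact_tmul, Psig_tmul, Psig_tmul, prodT_tmul, h1]
    abel
  exact congrArg (fun (T : PT A A →L[ℂ] PT A (Z0 (Gam A))) => T t) h

variable (ρ : A →L[ℂ] PT A A) (m : A →L[ℂ] PT A A)

/-- The remainder `r(x)(a) = ψ(a,x) - Ψ̂_x(ρ a)`. -/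
def Rem : Linf (Gam A) A →L[ℂ] (A →L[ℂ] PT A (Z0 (Gam A))) :=
  ψ.flip - ((compL ℂ A (PT A A) (PT A (Z0 (Gam A)))).flip ρ).comp (Psih ψ)

theorem Rem_apply (x : Linf (Gam A) A) (a : A) : Rem ψ ρ x a = ψ a x - Psih ψ x (ρ a) := rfl

variable (hρm : ∀ a b, ract b (ρ a) = lact a (m b)) (hm : ∀ a, prodT (m a) = a)

include hψ hρm hm in
theorem Rem_sg (γ : Gam A) (b a : A) :
    Rem ψ ρ (sg γ b) a = f γ b • tmul a (eZ γ) - lact a (Psig ψ γ (m b)) := by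
  rw [Rem_apply, Psih_sg, hρm, Psig_lact ψ f hf1 hf2 hψ, hm]
  abel

variable (bb : Gam A → A) (hbb : ∀ γ, ‖bb γ‖ ≤ 2) (hfb : ∀ γ, f γ (bb γ) = 1)

/-- `S_γ = Ψ^γ(m(b_γ))`. -/
def Sga (γ : Gam A) : PT A (Z0 (Gam A)) := Psig ψ γ (m (bb γ))

/-- `g_γ = p_γ(S_γ)`. -/
def gga (γ : Gam A) : A := slice (ev γ) (Sga ψ m bb γ)

include hbb in
theorem norm_gga_le (γ : Gam A) : ‖gga ψ m bb γ‖ ≤ ‖ψ‖ * (‖m‖ * 2) := by
  refine (norm_slice_apply_le _ _).trans ?_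
  have h1 := norm_ev_le γ
  have h2 : ‖Sga ψ m bb γ‖ ≤ ‖ψ‖ * (‖m‖ * 2) := by
    refine (norm_Psig_apply_le _ _ _).trans ?_
    refine mul_le_mul_of_nonneg_left ?_ (ContinuousLinearMap.opNorm_nonneg ψ)
    exact (m.le_opNorm _).trans (mul_le_mul_of_nonneg_left (hbb γ) (norm_nonneg _))
  exact (mul_le_of_le_one_left (norm_nonneg _) h1).trans h2

include hψ hρm hm hfb in
theorem slice_Rem_sg (γ : Gam A) (a : A) :
    slice (ev γ) (Rem ψ ρ (sg γ (bb γ)) a) = a - a * gga ψ m bb γ := by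
  rw [Rem_sg ψ f hf1 hf2 hψ ρ m hρm hm, hfb, one_smul, map_sub, slice_tmul, ev_eZ_self, one_smul,
    slice_lact]
  rfl

/-- Multiplication of the family `b` by scalars. -/
def Bx : LC (Gam A) →L[ℂ] Linf (Gam A) A :=
  LinearMap.mkContinuous
    { toFun := fun c => ⟨fun γ => c γ • bb γ, linf_mem (C := ‖c‖ * 2) fun γ => by
        rw [norm_smul]
        exact mul_le_mul (lc_apply_le c γ) (hbb γ) (norm_nonneg _) (norm_nonneg _)⟩
      map_add' := fun c c' => linf_ext fun γ => add_smul _ _ _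
      map_smul' := fun c x => linf_ext fun γ => mul_smul _ _ _ } 2
    (fun c => by
      refine lp.norm_le_of_forall_le (by positivity) fun γ => ?_
      show ‖c γ • bb γ‖ ≤ _
      rw [norm_smul, mul_comm 2]
      exact mul_le_mul (lc_apply_le c γ) (hbb γ) (norm_nonneg _) (norm_nonneg _))

theorem Bx_apply (c : LC (Gam A)) (γ : Gam A) : Bx bb hbb c γ = c γ • bb γ := rfl

theorem Bx_ind (γ : Gam A) : Bx bb hbb (indLC {γ}) = sg γ (bb γ) := by
  refine linf_ext fun γ' => ?_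
  rw [Bx_apply, sg_apply, indLC_apply]
  by_cases h : γ' = γ
  · rw [if_pos h, if_pos (Set.mem_singleton_iff.2 h), one_smul, h]
  · rw [if_neg h, if_neg (fun h' => h (Set.mem_singleton_iff.1 h')), zero_smul]

include hψ hρm hm hfb hbb in
theorem exists_approx (F : Finset A) {ε : ℝ} (hε : 0 < ε) :
    ∃ γ, ∀ a ∈ F, ‖a - a * gga ψ m bb γ‖ < ε := by
  by_contra hcon
  push Not at hcon
  choose a haF ha using hcon
  have hh : ∀ γ, ∃ h : A →L[ℂ] ℂ, ‖h‖ ≤ 1 ∧ h (a γ - a γ * gga ψ m bb γ) =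
      ((‖a γ - a γ * gga ψ m bb γ‖ : ℝ) : ℂ) := fun γ => by
    obtain ⟨h, h1, h2⟩ := exists_dual_vector'' ℂ (a γ - a γ * gga ψ m bb γ)
    exact ⟨h, h1, h2⟩
  choose h hh1 hh2 using hh
  let L : Gam A → (LC (Gam A) →L[ℂ] ℂ) := fun γ =>
    (h γ).comp ((slice (ev γ)).comp (((Rem ψ ρ).flip (a γ)).comp (Bx bb hbb)))
  have hL : ∀ γ c, L γ c = h γ (slice (ev γ) (Rem ψ ρ (Bx bb hbb c) (a γ))) := fun γ c => rfl
  have hLle : ∀ γ c, ‖L γ c‖ ≤ ‖slice (ev γ) (Rem ψ ρ (Bx bb hbb c) (a γ))‖ := fun γ c => by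
    rw [hL]
    exact ((h γ).le_opNorm _).trans (mul_le_of_le_one_left (norm_nonneg _) (hh1 γ))
  have hLn : ∀ γ, ‖L γ‖ ≤ ‖Rem ψ ρ‖ * 2 * ∑ x ∈ F, ‖x‖ := by
    intro γ
    refine ContinuousLinearMap.opNorm_le_bound _ (by positivity) fun c => ?_
    refine (hLle γ c).trans ?_
    refine (norm_slice_apply_le _ _).trans ?_
    refine (mul_le_of_le_one_left (norm_nonneg _) (norm_ev_le γ)).trans ?_
    refine ((Rem ψ ρ).le_opNorm₂ _ _).trans ?_
    have h1 : ‖Bx bb hbb c‖ ≤ 2 * ‖c‖ :=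
      (Bx bb hbb).le_of_opNorm_le (LinearMap.mkContinuous_norm_le _ (by norm_num) _) c
    have h2 : ‖a γ‖ ≤ ∑ x ∈ F, ‖x‖ :=
      Finset.single_le_sum (f := fun x : A => ‖x‖) (fun x _ => norm_nonneg x) (haF γ)
    calc ‖Rem ψ ρ‖ * ‖Bx bb hbb c‖ * ‖a γ‖ ≤ ‖Rem ψ ρ‖ * (2 * ‖c‖) * ∑ x ∈ F, ‖x‖ := by gcongr
      _ = _ := by ring
  obtain ⟨M, hM, hMμ⟩ := rosenthal (Γ := Gam A) (fun x y => x ≤ y) (fun x => le_refl x)
    (fun x y z => le_trans) Idx.node (fun x y x' y' h => by simpa using h)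
    (fun x y => Idx.le_node_left x y) (fun x y => Idx.le_node_right x y)
    (fun γ S => variation (L γ) S) _ (fun γ S => variation_nonneg _ _)
    (fun γ S => (variation_le (L γ) S).trans (hLn γ))
    (fun γ S S' hd => variation_add_le (L γ) S S' hd) (ε := ε / 2) (by positivity)
  -- lower bound on M
  have hlow : ∀ γ ∈ M, ε / 2 ≤ ‖slice (ev γ) (Rem ψ ρ (Bx bb hbb (indLC M)) (a γ))‖ := by
    intro γ hγ
    refine le_trans ?_ (hLle γ _)
    rw [indLC_eq hγ, map_add]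
    have h1 : ‖L γ (indLC (M \ {γ}))‖ ≤ variation (L γ) (M \ {γ}) :=
      le_variation _ (norm_indLC_le _) fun γ' hγ' => by rw [indLC_apply, if_neg hγ']
    have h2 := hMμ γ hγ
    have h3 : L γ (indLC {γ}) = ((‖a γ - a γ * gga ψ m bb γ‖ : ℝ) : ℂ) := by
      rw [hL, Bx_ind, slice_Rem_sg ψ f hf1 hf2 hψ ρ m hρm hm bb hfb, hh2]
    have h4 : ‖L γ (indLC {γ})‖ = ‖a γ - a γ * gga ψ m bb γ‖ := by
      rw [h3, Complex.norm_real, norm_norm]
    have h5 := ha γ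
    have h6 : ‖L γ (indLC {γ})‖ - ‖L γ (indLC (M \ {γ}))‖ ≤
        ‖L γ (indLC {γ}) + L γ (indLC (M \ {γ}))‖ := by
      have := norm_sub_norm_le (L γ (indLC {γ})) (-(L γ (indLC (M \ {γ}))))
      rwa [norm_neg, sub_neg_eq_add] at this
    linarith
  have hev : ∀ᶠ γ : Gam A in atTop, ∀ x ∈ F,
      ‖slice (ev γ) (Rem ψ ρ (Bx bb hbb (indLC M)) x)‖ < ε / 2 := by
    rw [Filter.eventually_all_finset]
    intro x _
    exact NormedAddGroup.tendsto_nhds_zero.1 (tendsto_slice _) _ (by positivity)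
  obtain ⟨γ₀, hγ₀⟩ := eventually_atTop.1 hev
  obtain ⟨γ, hγM, hγ⟩ := hM γ₀
  have h1 := hγ₀ γ hγ (a γ) (haF γ)
  have h2 := hlow γ hγM
  linarith

end Psi

end Pool.Agent.MP_a77edb_an
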