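import Pool.Agent.MP_a77edb_an.Radical3

/-!
# Commutative radical algebras, fourth part: the contradiction
-/

set_option autoImplicit false
set_option linter.unusedSectionVars false

noncomputable section

namespace Pool.Agent.MP_a77edb_an

universe u

open ContinuousLinearMap Filter Topology PT
open Classical

section Net

variable {A : Type u} [NonUnitalNormedCommRing A] [NormedSpace ℂ A]
  [IsScalarTower ℂ A A] [SMulCommClass ℂ A A] [CompleteSpace A]

/-- A bounded approximate identity of `A` acts as an approximate identity on `A ⊗ A`. -/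
theorem tendsto_lact {ι : Type u} {l : Filter ι} (G : ι → A) {C : ℝ} (hC : ∀ i, ‖G i‖ ≤ C)
    (hG : ∀ a : A, Tendsto (fun i => G i * a) l (𝓝 a)) (t : PT A A) :
    Tendsto (fun i => lact (G i) t) l (𝓝 t) := by
  obtain ⟨α, rfl⟩ := PT.mkQ_surjective t
  have h0 : HasSum (fun w : UBall A => (tmul (α w) (w : A) : PT A A)) (mkQ A A α) :=
    PT.hasSum_mkQ α
  have h1 : ∀ i : ι, HasSum (fun w : UBall A => (tmul (G i * α w) (w : A) : PT A A))
      (lact (G i) (PT.mkQ A A α)) := by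
    intro i
    have h2 := (lact (G i)).hasSum h0
    have h3 : (fun w : UBall A => lact (G i) (tmul (α w) (w : A) : PT A A)) =
        fun w : UBall A => (tmul (G i * α w) (w : A) : PT A A) := by
      funext w
      exact lact_tmul _ _ _
    rw [← h3]
    exact h2
  have h2 : (fun i => lact (G i) (PT.mkQ A A α)) =
      fun i => ∑' w : UBall A, (tmul (G i * α w) (w : A) : PT A A) := by
    funext i
    exact (h1 i).tsum_eq.symm
  rw [h2, ← h0.tsum_eq]
  refine tendsto_tsum_of_dominated_convergence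
    (bound := fun w : UBall A => C * ‖α w‖) ((l1_summable_norm α).mul_left C) (fun w => ?_)
    (Eventually.of_forall fun i w => ?_)
  · have h3 : Tendsto (fun x : A => (tmul x (w : A) : PT A A)) (𝓝 (α w))
        (𝓝 (tmul (α w) (w : A))) := by
      have h4 : Continuous (fun x : A => (tmul x (w : A) : PT A A)) :=
        ((tmul : A →L[ℂ] A →L[ℂ] PT A A).flip (w : A)).continuous
      exact h4.tendsto _
    exact h3.comp (hG (α w))
  · refine (norm_tmul_le _ _).trans ?_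
    have h3 : ‖(w : A)‖ ≤ 1 := w.2
    have h4 : ‖G i * α w‖ ≤ C * ‖α w‖ :=
      (norm_mul_le _ _).trans (mul_le_mul_of_nonneg_right (hC i) (norm_nonneg _))
    exact (mul_le_of_le_one_right (norm_nonneg _) h3).trans h4

end Net

section Dav

variable {E : Type u} [AddCommGroup E] [Module ℂ E]

theorem dav_congr {f g : ℕ → E} (l s : ℕ) (h : ∀ j, s ≤ j → j < s + 2 ^ l → f j = g j) :
    dav f l s = dav g l s := by
  induction l generalizing s with
  | zero => exact h s le_rfl (by simp)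
  | succ l ih =>
    rw [dav_succ, dav_succ, ih s (fun j hj hj' => h j hj (by rw [pow_succ]; omega)),
      ih (s + 2 ^ l) (fun j hj hj' => h j (by omega) (by rw [pow_succ]; omega))]

theorem dav_affine {E' : Type u} [AddCommGroup E'] [Module ℂ E'] (T : E →ₗ[ℂ] E') (c : E')
    (f : ℕ → E) (l s : ℕ) : dav (fun j => T (f j) - c) l s = T (dav f l s) - c := by
  induction l generalizing s with
  | zero => rfl
  | succ l ih =>
    rw [dav_succ, dav_succ, ih, ih, map_smul, map_add, smul_add, smul_add, smul_sub, smul_sub]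
    have h : (1 / 2 : ℂ) • c + (1 / 2 : ℂ) • c = c := by
      rw [← add_smul]
      norm_num
    calc (1 / 2 : ℂ) • T (dav f l s) - (1 / 2 : ℂ) • c +
          ((1 / 2 : ℂ) • T (dav f l (s + 2 ^ l)) - (1 / 2 : ℂ) • c) =
        (1 / 2 : ℂ) • T (dav f l s) + (1 / 2 : ℂ) • T (dav f l (s + 2 ^ l)) -
          ((1 / 2 : ℂ) • c + (1 / 2 : ℂ) • c) := by abel
      _ = _ := by rw [h]

end Dav

/-- Orthogonality relations for roots of unity. -/
theorem sum_roots {n : ℕ} {ω : ℂ} (hω : IsPrimitiveRoot ω n) {i j : ℕ}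
    (hi : i < n) (hj : j < n) :
    ∑ k ∈ Finset.range n, (ω ^ (k * j))⁻¹ * ω ^ (k * i) = if i = j then (n : ℂ) else 0 := by
  have hn : n ≠ 0 := by omega
  have hω0 : ω ≠ 0 := hω.ne_zero hn
  have h1 : ∀ k ∈ Finset.range n, (ω ^ (k * j))⁻¹ * ω ^ (k * i) = ((ω ^ j)⁻¹ * ω ^ i) ^ k := by
    intro k _
    rw [mul_pow, ← inv_pow, ← inv_pow, ← pow_mul, ← pow_mul, mul_comm k j, mul_comm k i]
  rw [Finset.sum_congr rfl h1]
  by_cases hij : i = j
  · rw [if_pos hij, hij, inv_mul_cancel₀ (pow_ne_zero _ hω0)]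
    simp
  · rw [if_neg hij]
    have hne : (ω ^ j)⁻¹ * ω ^ i ≠ 1 := by
      intro h
      apply hij
      have h2 : ω ^ i = ω ^ j := by
        rw [inv_mul_eq_iff_eq_mul₀ (pow_ne_zero _ hω0), mul_one] at h
        exact h
      exact hω.pow_inj hi hj h2
    rw [geom_sum_eq hne]
    have h3 : ((ω ^ j)⁻¹ * ω ^ i) ^ n = 1 := by
      rw [mul_pow, inv_pow, ← pow_mul, ← pow_mul, mul_comm j, mul_comm i, pow_mul, pow_mul,
        hω.pow_eq_one]
      simp
    rw [h3, sub_self, zero_div]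

variable {A : Type u} [NonUnitalNormedCommRing A] [NormedSpace ℂ A]
  [IsScalarTower ℂ A A] [SMulCommClass ℂ A A] [CompleteSpace A] [Nontrivial A]

section Psi

variable (ψ : A →L[ℂ] Linf (Gam A) A →L[ℂ] PT A (Z0 (Gam A)))
variable (f : Gam A → (A →L[ℂ] ℂ)) (hf1 : ∀ γ, ‖f γ‖ = 1)
  (hf2 : ∀ γ, ∀ p ∈ γ.lab, ‖(f γ).comp (mulL p.1)‖ ≤ 1 / (p.2 + 1))
  (hψ : ∀ a b x, (tmul a (coc f hf1 hf2 b x) : PT A (Z0 (Gam A))) =
        lact a (ψ b x) - ψ (a * b) x + ψ a (xact A _ b x))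
variable (ρ : A →L[ℂ] PT A A) (m : A →L[ℂ] PT A A)
variable (hρm : ∀ a b, ract b (ρ a) = lact a (m b)) (hm : ∀ a, prodT (m a) = a)
variable (bb : Gam A → A) (hbb : ∀ γ, ‖bb γ‖ ≤ 2) (hfb : ∀ γ, f γ (bb γ) = 1)

include hbb in
/-- The family `Σ c_j e_{γ_j} ⊗ b_{γ_j}` is bounded by `2`. -/
theorem norm_sum_sg_le (γ : ℕ → Gam A) (hγ : Function.Injective γ) (c : ℕ → ℂ)
    (hc : ∀ j, ‖c j‖ ≤ 1) (n : ℕ) :
    ‖∑ j ∈ Finset.range n, c j • sg (γ j) (bb (γ j))‖ ≤ 2 := by
  refine lp.norm_le_of_forall_le (by norm_num) fun γ' => ?_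
  have h1 : (∑ j ∈ Finset.range n, c j • sg (γ j) (bb (γ j)) : Linf (Gam A) A) γ' =
      ∑ j ∈ Finset.range n, c j • (if γ' = γ j then bb (γ j) else 0) := by
    rw [lp.coeFn_sum, Finset.sum_apply]
    refine Finset.sum_congr rfl fun j _ => ?_
    rw [linf_smul_apply, sg_apply]
  rw [h1]
  by_cases h : ∃ i ∈ Finset.range n, γ' = γ i
  · obtain ⟨i, hi, rfl⟩ := h
    rw [Finset.sum_eq_single i]
    · rw [if_pos rfl, norm_smul]
      calc ‖c i‖ * ‖bb (γ i)‖ ≤ 1 * 2 :=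
            mul_le_mul (hc i) (hbb _) (norm_nonneg _) zero_le_one
        _ = 2 := one_mul _
    · intro j _ hj
      rw [if_neg fun h => hj (hγ h).symm, smul_zero]
    · intro h
      exact absurd hi h
  · push Not at h
    rw [Finset.sum_eq_zero]
    · rw [norm_zero]
      norm_num
    · intro j hj
      rw [if_neg (h j hj), smul_zero]

include hψ hρm hm hfb hbb in
theorem exists_net : ∃ G : Finset A × ℕ → A, (∀ i, ‖G i‖ ≤ ‖ψ‖ * (‖m‖ * 2)) ∧
    ∀ a : A, Tendsto (fun i => G i * a) atTop (𝓝 a) := by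
  have h := fun i : Finset A × ℕ => exists_approx ψ f hf1 hf2 hψ ρ m hρm hm bb hbb hfb i.1
    (ε := 1 / ((i.2 : ℝ) + 1)) (by positivity)
  choose γ hγ using h
  refine ⟨fun i => gga ψ m bb (γ i), fun i => norm_gga_le ψ m bb hbb _, fun a => ?_⟩
  rw [Metric.tendsto_nhds]
  intro ε hε
  obtain ⟨n, hn⟩ := exists_nat_one_div_lt hε
  filter_upwards [eventually_ge_atTop (({a}, n) : Finset A × ℕ)] with i hi
  have h1 := hγ i a (hi.1 (Finset.mem_singleton_self a))
  rw [dist_comm, dist_eq_norm, mul_comm]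
  refine h1.trans (lt_of_le_of_lt ?_ hn)
  have h2 : (n : ℝ) ≤ i.2 := by exact_mod_cast hi.2
  exact one_div_le_one_div_of_le (by positivity) (by linarith)

include hψ hρm hm hfb hbb in
theorem norm_sum_Sga_le (γ : ℕ → Gam A) (hγ : Function.Injective γ) (c : ℕ → ℂ)
    (hc : ∀ j, ‖c j‖ ≤ 1) (n : ℕ) :
    ‖∑ j ∈ Finset.range n, c j • Sga ψ m bb (γ j)‖ ≤
      ‖Psih ψ‖ * 2 * (‖ρ‖ * (‖ψ‖ * (‖m‖ * 2))) := by
  obtain ⟨G, hG1, hG2⟩ := exists_net ψ f hf1 hf2 hψ ρ m hρm hm bb hbb hfb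
  have h1 : Tendsto (fun i => ∑ j ∈ Finset.range n, c j • Psig ψ (γ j)
      (lact (G i) (m (bb (γ j))))) atTop
      (𝓝 (∑ j ∈ Finset.range n, c j • Sga ψ m bb (γ j))) := by
    refine tendsto_finsetSum _ fun j _ => ?_
    refine Tendsto.const_smul ?_ _
    exact ((Psig ψ (γ j)).continuous.tendsto _).comp
      (tendsto_lact G hG1 hG2 (m (bb (γ j))))
  refine le_of_tendsto h1.norm (Eventually.of_forall fun i => ?_)
  have h2 : ∑ j ∈ Finset.range n, c j • Psig ψ (γ j) (lact (G i) (m (bb (γ j)))) =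
      Psih ψ (∑ j ∈ Finset.range n, c j • sg (γ j) (bb (γ j))) (ρ (G i)) := by
    rw [map_sum, sum_apply]
    refine Finset.sum_congr rfl fun j _ => ?_
    rw [map_smul, smul_apply, Psih_sg, hρm]
  rw [h2]
  refine ((Psih ψ).le_opNorm₂ _ _).trans ?_
  have h3 := norm_sum_sg_le bb hbb γ hγ c hc n
  have h4 : ‖ρ (G i)‖ ≤ ‖ρ‖ * (‖ψ‖ * (‖m‖ * 2)) :=
    (ρ.le_opNorm _).trans (mul_le_mul_of_nonneg_left (hG1 i) (norm_nonneg _))
  have h5 : 0 ≤ ‖Psih ψ‖ := ContinuousLinearMap.opNorm_nonneg _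
  exact mul_le_mul (mul_le_mul_of_nonneg_left h3 h5) h4 (norm_nonneg _) (by positivity)

end Psi

end Pool.Agent.MP_a77edb_an
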