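import Pool.Agent.MP_a77edb_an.Radical4

/-!
# Commutative radical algebras, fifth part: conclusion
-/

set_option autoImplicit false
set_option linter.unusedSectionVars false

noncomputable section

namespace Pool.Agent.MP_a77edb_an

universe u

open ContinuousLinearMap Filter Topology PT
open Classical

variable {A : Type u} [NonUnitalNormedCommRing A] [NormedSpace ℂ A]
  [IsScalarTower ℂ A A] [SMulCommClass ℂ A A] [CompleteSpace A] [Nontrivial A]

/-- Averaging over roots of unity: from bounded sums `Σ c_j S_j` to one tensor whose slices are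
the diagonal slices of the `S_j`. -/
theorem exists_diag_tensor (S : ℕ → PT A (Z0 (Gam A))) (γ : ℕ → Gam A)
    (hγ : Function.Injective γ) (C : ℝ) (n : ℕ) (hn : n ≠ 0)
    (hS : ∀ c : ℕ → ℂ, (∀ j, ‖c j‖ ≤ 1) → ‖∑ j ∈ Finset.range n, c j • S j‖ ≤ C) :
    ∃ t : PT A (Z0 (Gam A)), ‖t‖ ≤ C ∧ ∀ j, j < n → slice (ev (γ j)) t = slice (ev (γ j)) (S j) := by
  have hω := Complex.isPrimitiveRoot_exp n hn
  set ω : ℂ := Complex.exp (2 * Real.pi * Complex.I / n) with hωdef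
  have hω1 : ‖ω‖ = 1 := Complex.norm_eq_one_of_pow_eq_one hω.pow_eq_one hn
  let d : ℕ → Gam A → ℂ := fun k => Function.extend γ (fun j => (ω ^ (k * j))⁻¹) 0
  have hd1 : ∀ k j, d k (γ j) = (ω ^ (k * j))⁻¹ := fun k j => hγ.extend_apply _ _ j
  have hd : ∀ k x, ‖d k x‖ ≤ 1 := by
    intro k x
    by_cases h : ∃ j, γ j = x
    · obtain ⟨j, rfl⟩ := h
      rw [hd1, norm_inv, norm_pow, hω1, one_pow, inv_one]
    · have : d k x = 0 := Function.extend_apply' _ _ _ h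
      rw [this, norm_zero]
      exact zero_le_one
  let Sk : ℕ → PT A (Z0 (Gam A)) := fun k => ∑ j ∈ Finset.range n, ω ^ (k * j) • S j
  have hSk : ∀ k, ‖Sk k‖ ≤ C := fun k => hS _ fun j => by
    rw [norm_pow, hω1, one_pow]
  refine ⟨(n : ℂ)⁻¹ • ∑ k ∈ Finset.range n, mapR (diagZ (d k) (hd k)) (Sk k), ?_, fun j hj => ?_⟩
  · rw [norm_smul, norm_inv, Complex.norm_natCast]
    have h1 : ‖∑ k ∈ Finset.range n, mapR (diagZ (d k) (hd k)) (Sk k)‖ ≤ n * C := by
      refine (norm_sum_le _ _).trans ?_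
      have h2 : ∀ k ∈ Finset.range n, ‖mapR (diagZ (d k) (hd k)) (Sk k)‖ ≤ C := fun k _ => by
        refine (norm_mapR_apply_le _ _).trans ?_
        exact (mul_le_of_le_one_left (norm_nonneg _) (norm_diagZ_le _ _)).trans (hSk k)
      refine (Finset.sum_le_sum h2).trans ?_
      rw [Finset.sum_const, Finset.card_range, nsmul_eq_mul]
    have h3 : (0 : ℝ) < n := by exact_mod_cast Nat.pos_of_ne_zero hn
    calc (n : ℝ)⁻¹ * ‖∑ k ∈ Finset.range n, mapR (diagZ (d k) (hd k)) (Sk k)‖ ≤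
          (n : ℝ)⁻¹ * (n * C) := by gcongr
      _ = C := by field_simp
  · rw [map_smul, map_sum]
    have h1 : ∀ k ∈ Finset.range n, slice (ev (γ j)) (mapR (diagZ (d k) (hd k)) (Sk k)) =
        ∑ i ∈ Finset.range n, ((ω ^ (k * j))⁻¹ * ω ^ (k * i)) • slice (ev (γ j)) (S i) := by
      intro k _
      rw [slice_mapR_diagZ, hd1]
      show _ • slice (ev (γ j)) (∑ i ∈ Finset.range n, ω ^ (k * i) • S i) = _
      rw [map_sum, Finset.smul_sum]
      refine Finset.sum_congr rfl fun i _ => ?_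
      rw [map_smul, smul_smul]
    rw [Finset.sum_congr rfl h1, Finset.sum_comm]
    have h2 : ∀ i ∈ Finset.range n, ∑ k ∈ Finset.range n,
        ((ω ^ (k * j))⁻¹ * ω ^ (k * i)) • slice (ev (γ j)) (S i) =
        (if i = j then (n : ℂ) else 0) • slice (ev (γ j)) (S i) := by
      intro i hi
      rw [← Finset.sum_smul, sum_roots hω (Finset.mem_range.1 hi) hj]
    rw [Finset.sum_congr rfl h2, Finset.sum_eq_single j]
    · rw [if_pos rfl, smul_smul, inv_mul_cancel₀ (by exact_mod_cast hn), one_smul]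
    · intro i _ hij
      rw [if_neg hij, zero_smul]
    · intro h
      exact absurd (Finset.mem_range.2 hj) h

/-- A nonzero commutative radical Banach algebra does not have the vanishing property. -/
theorem not_vanish (hA : IsRadicalAlgebra A) : ¬ Vanish A := by
  intro hV
  obtain ⟨f, bb, hf1, hf2, hbb, hfb⟩ := exists_data hA
  obtain ⟨ψ, hψ⟩ := exists_psi f hf1 hf2 hV
  obtain ⟨ρ₀, hρ₀, hρ₀'⟩ := exists_rho hV hA
  obtain ⟨ρ, m, -, -, hm, hρm⟩ := exists_rho' hρ₀ hρ₀'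
  obtain ⟨g, hg⟩ : ∃ g : Gam A → A, g = gga ψ m bb := ⟨_, rfl⟩
  obtain ⟨Cg, hCg⟩ : ∃ Cg : ℝ, Cg = ‖ψ‖ * (‖m‖ * 2) := ⟨_, rfl⟩
  obtain ⟨CS, hCS⟩ : ∃ CS : ℝ, CS = ‖Psih ψ‖ * 2 * (‖ρ‖ * (‖ψ‖ * (‖m‖ * 2))) := ⟨_, rfl⟩
  have hCg0 : 0 ≤ Cg := by
    rw [hCg]
    have : 0 ≤ ‖ψ‖ := ContinuousLinearMap.opNorm_nonneg _
    positivity
  have hCS0 : 0 ≤ CS := by
    rw [hCS]
    have h1 : 0 ≤ ‖ψ‖ := ContinuousLinearMap.opNorm_nonneg _
    have h2 : 0 ≤ ‖Psih ψ‖ := ContinuousLinearMap.opNorm_nonneg _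
    positivity
  have hgC : ∀ γ, ‖g γ‖ ≤ Cg := fun γ => by
    rw [hg, hCg]
    exact norm_gga_le ψ m bb hbb γ
  have happ : ∀ (F : Finset A) {ε : ℝ}, 0 < ε → ∃ γ, ∀ a ∈ F, ‖a - a * g γ‖ < ε :=
    fun F ε hε => by
      rw [hg]
      exact exists_approx ψ f hf1 hf2 hψ ρ m hρm hm bb hbb hfb F hε
  have hSum : ∀ (γ : ℕ → Gam A), Function.Injective γ → ∀ (n : ℕ) (c : ℕ → ℂ),
      (∀ j, ‖c j‖ ≤ 1) → ‖∑ j ∈ Finset.range n, c j • Sga ψ m bb (γ j)‖ ≤ CS :=
    fun γ hγ n c hc => by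
      rw [hCS]
      exact norm_sum_Sga_le ψ f hf1 hf2 hψ ρ m hρm hm bb hbb hfb γ hγ c hc n
  obtain ⟨a₀, ha₀⟩ := exists_ne (0 : A)
  have ha₀' : 0 < ‖a₀‖ := norm_pos_iff.2 ha₀
  -- parameters
  obtain ⟨t, ht, htC⟩ : ∃ t : ℝ, 0 < t ∧ Cg * (t * (CS + 1 + 1) / 2) ≤ 1 / 16 := by
    have hK : 0 < Cg * (CS + 2) + 1 := by positivity
    refine ⟨1 / (8 * (Cg * (CS + 2) + 1)), by positivity, ?_⟩
    have h1 : Cg * (1 / (8 * (Cg * (CS + 2) + 1)) * (CS + 1 + 1) / 2) =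
        (Cg * (CS + 2)) / (16 * (Cg * (CS + 2) + 1)) := by
      field_simp
      ring
    rw [h1, div_le_div_iff₀ (by positivity) (by norm_num)]
    linarith
  obtain ⟨M, hM⟩ := exists_nat_gt (4 * (CS + 1) / t ^ 2)
  have hM' : 4 * (CS + 1) < M * t ^ 2 := by
    rwa [div_lt_iff₀ (by positivity)] at hM
  -- the sequence
  obtain ⟨γ, hγ1, hγ2⟩ := exists_seq_of_forall_finset_exists
    (fun x : Gam A => ‖a₀ - a₀ * g x‖ ≤ ‖a₀‖ / 2)
    (fun x y : Gam A => ‖g x - g x * g y‖ ≤ 1 / 16) (fun s _ => by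
      obtain ⟨y, hy⟩ := happ (insert a₀ (s.image g)) (ε := min (‖a₀‖ / 2) (1 / 16))
        (lt_min (by positivity) (by norm_num))
      refine ⟨y, ?_, fun x hx => ?_⟩
      · exact (hy a₀ (Finset.mem_insert_self _ _)).le.trans (min_le_left _ _)
      · exact (hy (g x) (Finset.mem_insert_of_mem (Finset.mem_image_of_mem g hx))).le.trans
          (min_le_right _ _))
  -- a vector `x` with `‖a₀ - a₀ x‖ ≤ ‖a₀‖ / 2` has norm at least `1 / 2`
  have hhalf : ∀ x : A, ‖a₀ - a₀ * x‖ ≤ ‖a₀‖ / 2 → 1 / 2 ≤ ‖x‖ := by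
    intro x hx
    have h1 : ‖a₀‖ ≤ ‖a₀ - a₀ * x‖ + ‖a₀ * x‖ := by
      have := norm_add_le (a₀ - a₀ * x) (a₀ * x)
      rwa [sub_add_cancel] at this
    have h2 : ‖a₀ * x‖ ≤ ‖a₀‖ * ‖x‖ := norm_mul_le _ _
    by_contra h3
    push Not at h3
    nlinarith
  have hinj : Function.Injective γ := by
    have key : ∀ i j, i < j → γ i ≠ γ j := by
      intro i j hij heq
      have h1 := hγ2 i j hij
      rw [← heq] at h1
      have h2 := norm_le_of_near_idem hA (δ := 1 / 16) (by norm_num) h1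
      have h3 := hhalf _ (hγ1 i)
      linarith
    intro i j hij
    by_contra hne
    rcases lt_or_gt_of_ne hne with h | h
    · exact key i j h hij
    · exact key j i h hij.symm
  -- the diagonal tensor
  obtain ⟨τ, hτ1, hτ2⟩ := exists_diag_tensor (fun j => Sga ψ m bb (γ j)) γ hinj CS (2 ^ M)
    (by positivity) (fun c hc => hSum γ hinj (2 ^ M) c hc)
  obtain ⟨α, hα, hαn⟩ := exists_rep τ one_pos
  have hsl : ∀ j, slice (ev (γ j)) τ =
      ∑' i : UBall (Z0 (Gam A)), ev (γ j) (i : Z0 (Gam A)) • α i := by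
    intro j
    rw [← hα]
    have h1 := (slice (ev (γ j))).hasSum (PT.hasSum_mkQ α)
    have h2 : (fun i : UBall (Z0 (Gam A)) =>
        slice (ev (γ j)) (tmul (α i) (i : Z0 (Gam A)) : PT A (Z0 (Gam A)))) =
        fun i : UBall (Z0 (Gam A)) => ev (γ j) (i : Z0 (Gam A)) • α i := by
      funext i
      rw [slice_tmul]
    have h3 : HasSum (fun i : UBall (Z0 (Gam A)) => ev (γ j) (i : Z0 (Gam A)) • α i)
        (slice (ev (γ j)) (mkQ A (Z0 (Gam A)) α)) := by
      rw [← h2]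
      exact h1
    exact h3.tsum_eq.symm
  obtain ⟨l, s, hl, hs, hclose⟩ := exists_close_blocks (fun i => α i) (l1_summable_norm α)
    (C := CS + 1) (by rw [← l1_norm_eq]; linarith)
    (fun i j => ev (γ j) (i : Z0 (Gam A)))
    (fun i j => (norm_ev_apply_le _ _).trans i.2)
    (fun j => slice (ev (γ j)) τ) hsl ht M hM'
  have hgs : ∀ j, j < 2 ^ M → slice (ev (γ j)) τ = g (γ j) := fun j hj => by
    rw [hτ2 j hj, hg]
    rfl
  have hpow : 2 ^ (l + 1) = 2 ^ l + 2 ^ l := by rw [pow_succ]; ring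
  rw [dav_congr (g := fun j => g (γ j)) l s (fun j _ hj => hgs j (by omega)),
    dav_congr (g := fun j => g (γ j)) l (s + 2 ^ l) (fun j _ hj => hgs j (by omega))] at hclose
  obtain ⟨x, hx⟩ : ∃ x, x = dav (fun j => g (γ j)) l s := ⟨_, rfl⟩
  obtain ⟨y, hy⟩ : ∃ y, y = dav (fun j => g (γ j)) l (s + 2 ^ l) := ⟨_, rfl⟩
  rw [← hx, ← hy] at hclose
  -- estimates
  have hxC : ‖x‖ ≤ Cg := by
    rw [hx]
    exact dav_norm_le _ _ _ fun j _ _ => hgC _
  have hxa : ‖a₀ - a₀ * x‖ ≤ ‖a₀‖ / 2 := by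
    have h1 : dav (fun j => mulL a₀ (g (γ j)) - a₀) l s = mulL a₀ x - a₀ := by
      rw [hx]
      exact dav_affine (mulL a₀ : A →ₗ[ℂ] A) a₀ (fun j => g (γ j)) l s
    have h2 : ‖dav (fun j => mulL a₀ (g (γ j)) - a₀) l s‖ ≤ ‖a₀‖ / 2 :=
      dav_norm_le _ _ _ fun j _ _ => by
        rw [mulL_apply, norm_sub_rev]
        exact hγ1 j
    rw [h1, mulL_apply, norm_sub_rev] at h2
    exact h2
  have hxy : ‖x - x * y‖ ≤ 1 / 16 := by
    have h1 : ∀ j, s + 2 ^ l ≤ j → ‖x - x * g (γ j)‖ ≤ 1 / 16 := by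
      intro j hj
      have h2 : dav (fun i => (ContinuousLinearMap.id ℂ A - mulL (g (γ j))) (g (γ i))) l s =
          (ContinuousLinearMap.id ℂ A - mulL (g (γ j))) x := by
        rw [hx]
        exact (map_dav ((ContinuousLinearMap.id ℂ A - mulL (g (γ j)) : A →L[ℂ] A) : A →ₗ[ℂ] A)
          (fun i => g (γ i)) l s).symm
      have h3 : ‖dav (fun i => (ContinuousLinearMap.id ℂ A - mulL (g (γ j))) (g (γ i))) l s‖ ≤
          1 / 16 := dav_norm_le _ _ _ fun i _ hi => by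
        show ‖g (γ i) - g (γ j) * g (γ i)‖ ≤ 1 / 16
        rw [mul_comm]
        exact hγ2 i j (by omega)
      rw [h2] at h3
      have h4 : (ContinuousLinearMap.id ℂ A - mulL (g (γ j))) x = x - x * g (γ j) := by
        show x - g (γ j) * x = _
        rw [mul_comm]
      rw [h4] at h3
      exact h3
    have h2 : dav (fun j => mulL x (g (γ j)) - x) l (s + 2 ^ l) = mulL x y - x := by
      rw [hy]
      exact dav_affine (mulL x : A →ₗ[ℂ] A) x (fun j => g (γ j)) l (s + 2 ^ l)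
    have h3 : ‖dav (fun j => mulL x (g (γ j)) - x) l (s + 2 ^ l)‖ ≤ 1 / 16 :=
      dav_norm_le _ _ _ fun j hj _ => by
        rw [mulL_apply, norm_sub_rev]
        exact h1 j hj
    rw [h2, mulL_apply, norm_sub_rev] at h3
    exact h3
  have hidem : ‖x - x * x‖ ≤ 1 / 8 := by
    have h1 : x - x * x = (x - x * y) - x * (x - y) := by
      rw [mul_sub]
      abel
    rw [h1]
    have h2 : ‖x * (x - y)‖ ≤ Cg * (t * (CS + 1 + 1) / 2) :=
      (norm_mul_le _ _).trans (mul_le_mul hxC hclose (norm_nonneg _) hCg0)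
    have h3 := norm_sub_le (x - x * y) (x * (x - y))
    linarith
  have h1 := norm_le_of_near_idem hA (δ := 1 / 8) (by norm_num) hidem
  have h2 := hhalf x hxa
  linarith

/-- The main theorem on commutative radical algebras. -/
theorem one_lt_dg_and_db (hA : IsRadicalAlgebra A) : 1 < dg A ∧ 1 < db A := by
  constructor
  · by_contra h
    exact not_vanish hA (vanish_of_dg (not_lt.1 h))
  · by_contra h
    exact not_vanish hA (vanish_of_db (not_lt.1 h))

end Pool.Agent.MP_a77edb_an
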