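import Pool.Agent.MP_a77edb_an.ProjTensor
import Pool.Agent.MP_a77edb_an.QuasiNil

/-!
# Operations on projective tensor products
-/

set_option autoImplicit false

noncomputable section

namespace Pool.Agent.MP_a77edb_an

universe u v w

open ContinuousLinearMap

namespace PT

section General

variable {E : Type u} {Z : Type v} {Z' : Type w} [NormedAddCommGroup E] [NormedSpace ℂ E]
  [NormedAddCommGroup Z] [NormedSpace ℂ Z] [NormedAddCommGroup Z'] [NormedSpace ℂ Z']
  [CompleteSpace E]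

/-- The map `1 ⊗ R`. -/
def mapR (R : Z →L[ℂ] Z') : PT E Z →L[ℂ] PT E Z' :=
  lift (((compL ℂ Z Z' (PT E Z')).flip R).comp tmul)

@[simp] theorem mapR_tmul (R : Z →L[ℂ] Z') (e : E) (z : Z) :
    mapR R (tmul e z : PT E Z) = tmul e (R z) := by
  rw [mapR, lift_tmul]
  rfl

theorem norm_mapR_apply_le (R : Z →L[ℂ] Z') (t : PT E Z) : ‖mapR R t‖ ≤ ‖R‖ * ‖t‖ := by
  refine (norm_lift_apply_le _ t).trans ?_
  refine mul_le_mul_of_nonneg_right ?_ (norm_nonneg _)
  refine ContinuousLinearMap.opNorm_le_bound₂ _ (norm_nonneg _) fun e z => ?_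
  show ‖(tmul e (R z) : PT E Z')‖ ≤ _
  refine (norm_tmul_le _ _).trans ?_
  have := R.le_opNorm z
  nlinarith [norm_nonneg e]

/-- Slice map by a functional on the second factor. -/
def slice (φ : Z →L[ℂ] ℂ) : PT E Z →L[ℂ] E :=
  lift (smulRightL ℂ Z E φ)

@[simp] theorem slice_tmul (φ : Z →L[ℂ] ℂ) (e : E) (z : Z) :
    slice φ (tmul e z : PT E Z) = φ z • e := by
  rw [slice, lift_tmul]
  rfl

theorem norm_slice_apply_le (φ : Z →L[ℂ] ℂ) (t : PT E Z) : ‖slice φ t‖ ≤ ‖φ‖ * ‖t‖ := by
  refine (norm_lift_apply_le _ t).trans ?_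
  refine mul_le_mul_of_nonneg_right ?_ (norm_nonneg _)
  refine ContinuousLinearMap.opNorm_le_bound₂ _ (norm_nonneg _) fun e z => ?_
  show ‖φ z • e‖ ≤ _
  rw [norm_smul]
  have := φ.le_opNorm z
  nlinarith [norm_nonneg e]

end General

section Alg

variable {A : Type u} [NonUnitalNormedCommRing A] [NormedSpace ℂ A]
  [IsScalarTower ℂ A A] [SMulCommClass ℂ A A] [CompleteSpace A]
variable {Z : Type u} [NormedAddCommGroup Z] [NormedSpace ℂ Z]

/-- The left action of `A` on `A ⊗ Z`. -/
def lact : A →L[ℂ] PT A Z →L[ℂ] PT A Z :=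
  liftL.comp (((compL ℂ A A (Z →L[ℂ] PT A Z)) (tmul : A →L[ℂ] Z →L[ℂ] PT A Z)).comp
    (ContinuousLinearMap.mul ℂ A))

@[simp] theorem lact_tmul (a u : A) (z : Z) :
    lact a (tmul u z : PT A Z) = tmul (a * u) z := by
  show lift _ (tmul u z) = _
  rw [lift_tmul]
  rfl

theorem lact_mul (a b : A) (t : PT A Z) : lact (a * b) t = lact a (lact b t) := by
  have h : (lact (a * b) : PT A Z →L[ℂ] PT A Z) = (lact a).comp (lact b) := by
    refine ext' fun u z => ?_
    rw [lact_tmul, comp_apply, lact_tmul, lact_tmul, mul_assoc]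
  exact congrArg (fun (T : PT A Z →L[ℂ] PT A Z) => T t) h

theorem norm_lact_apply_le (a : A) (t : PT A Z) : ‖lact a t‖ ≤ ‖a‖ * ‖t‖ := by
  show ‖lift _ t‖ ≤ _
  refine (norm_lift_apply_le _ t).trans ?_
  refine mul_le_mul_of_nonneg_right ?_ (norm_nonneg _)
  refine ContinuousLinearMap.opNorm_le_bound₂ _ (norm_nonneg _) fun e z => ?_
  show ‖(tmul (a * e) z : PT A Z)‖ ≤ _
  refine (norm_tmul_le _ _).trans ?_
  exact mul_le_mul_of_nonneg_right (norm_mul_le _ _) (norm_nonneg _)

theorem slice_lact (φ : Z →L[ℂ] ℂ) (a : A) (t : PT A Z) :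
    slice φ (lact a t) = a * slice φ t := by
  have h : (slice φ).comp (lact a : PT A Z →L[ℂ] PT A Z) = (mulL a).comp (slice φ) := by
    refine ext' fun u z => ?_
    rw [comp_apply, lact_tmul, slice_tmul, comp_apply, slice_tmul, mulL_apply, mul_smul_comm]
  exact congrArg (fun (T : PT A Z →L[ℂ] A) => T t) h

/-- The right action on `A ⊗ A`, on the second factor. -/
def ract : A →L[ℂ] PT A A →L[ℂ] PT A A :=
  liftL.comp (((compL ℂ A (A →L[ℂ] PT A A) (A →L[ℂ] PT A A)).flip tmul).comp
    ((compL ℂ A A (PT A A)).flip.comp (ContinuousLinearMap.mul ℂ A)))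

@[simp] theorem ract_tmul (a u v : A) :
    ract a (tmul u v : PT A A) = tmul u (a * v) := by
  show lift _ (tmul u v) = _
  rw [lift_tmul]
  rfl

/-- The multiplication of the algebra `A ⊗ A`. -/
def mulT : PT A A →L[ℂ] PT A A →L[ℂ] PT A A :=
  lift (((compL ℂ A (PT A A →L[ℂ] PT A A) (PT A A →L[ℂ] PT A A)).flip ract).comp
    ((compL ℂ (PT A A) (PT A A) (PT A A)).comp lact))

theorem mulT_tmul (u v : A) (t : PT A A) :
    mulT (tmul u v) t = lact u (ract v t) := by
  rw [mulT, lift_tmul]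
  rfl

/-- The flip `u ⊗ v ↦ v ⊗ u`. -/
def flipT : PT A A →L[ℂ] PT A A := lift (tmul : A →L[ℂ] A →L[ℂ] PT A A).flip

omit [IsScalarTower ℂ A A] [SMulCommClass ℂ A A] in
@[simp] theorem flipT_tmul (u v : A) : flipT (tmul u v : PT A A) = tmul v u := by
  rw [flipT, lift_tmul]
  rfl

/-- The product map `u ⊗ v ↦ uv`. -/
def prodT : PT A A →L[ℂ] A := lift (ContinuousLinearMap.mul ℂ A)

@[simp] theorem prodT_tmul (u v : A) : prodT (tmul u v : PT A A) = u * v := by
  rw [prodT, lift_tmul]
  rfl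

theorem prodT_lact (a : A) (t : PT A A) : prodT (lact a t) = a * prodT t := by
  have h : (prodT).comp (lact a : PT A A →L[ℂ] PT A A) = (mulL a).comp prodT := by
    refine ext' fun u z => ?_
    rw [comp_apply, lact_tmul, prodT_tmul, comp_apply, prodT_tmul, mulL_apply, mul_assoc]
  exact congrArg (fun (T : PT A A →L[ℂ] A) => T t) h

theorem prodT_flipT (t : PT A A) : prodT (flipT t) = prodT t := by
  have h : (prodT).comp (flipT : PT A A →L[ℂ] PT A A) = prodT := by
    refine ext' fun u z => ?_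
    rw [comp_apply, flipT_tmul, prodT_tmul, prodT_tmul, mul_comm]
  exact congrArg (fun (T : PT A A →L[ℂ] A) => T t) h

omit [IsScalarTower ℂ A A] [SMulCommClass ℂ A A] in
theorem flipT_flipT (t : PT A A) : flipT (flipT t) = t := by
  have h : (flipT).comp (flipT : PT A A →L[ℂ] PT A A) = ContinuousLinearMap.id ℂ _ := by
    refine ext' fun u z => ?_
    rw [comp_apply, flipT_tmul, flipT_tmul]
    rfl
  exact congrArg (fun (T : PT A A →L[ℂ] PT A A) => T t) h

theorem flipT_lact (a : A) (t : PT A A) : flipT (lact a t) = ract a (flipT t) := by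
  have h : (flipT).comp (lact a : PT A A →L[ℂ] PT A A) = (ract a).comp flipT := by
    refine ext' fun u z => ?_
    rw [comp_apply, lact_tmul, flipT_tmul, comp_apply, flipT_tmul, ract_tmul]
  exact congrArg (fun (T : PT A A →L[ℂ] PT A A) => T t) h

theorem flipT_ract (a : A) (t : PT A A) : flipT (ract a t) = lact a (flipT t) := by
  have h : (flipT).comp (ract a : PT A A →L[ℂ] PT A A) = (lact a).comp flipT := by
    refine ext' fun u z => ?_
    rw [comp_apply, ract_tmul, flipT_tmul, comp_apply, flipT_tmul, lact_tmul]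
  exact congrArg (fun (T : PT A A →L[ℂ] PT A A) => T t) h

theorem ract_lact (a b : A) (t : PT A A) : ract b (lact a t) = lact a (ract b t) := by
  have h : (ract b).comp (lact a : PT A A →L[ℂ] PT A A) = (lact a).comp (ract b) := by
    refine ext' fun u z => ?_
    rw [comp_apply, lact_tmul, ract_tmul, comp_apply, ract_tmul, lact_tmul]
  exact congrArg (fun (T : PT A A →L[ℂ] PT A A) => T t) h

theorem mulT_comm (s t : PT A A) : mulT s t = mulT t s := by
  have h : (mulT : PT A A →L[ℂ] PT A A →L[ℂ] PT A A) = mulT.flip := by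
    refine ext' fun u v => ?_
    refine ext' fun p q => ?_
    rw [mulT_tmul, flip_apply, mulT_tmul, ract_tmul, lact_tmul, ract_tmul, lact_tmul,
      mul_comm u p, mul_comm v q]
  exact congrArg (fun (T : PT A A →L[ℂ] PT A A →L[ℂ] PT A A) => T s t) h

theorem flipT_mulT (s t : PT A A) : flipT (mulT s t) = mulT (flipT s) (flipT t) := by
  have h : (compL ℂ (PT A A) (PT A A) (PT A A) flipT).comp mulT =
      ((compL ℂ (PT A A) (PT A A) (PT A A)).flip flipT).comp (mulT.comp flipT) := by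
    refine ext' fun u v => ?_
    refine ext' fun p q => ?_
    show flipT (mulT (tmul u v) (tmul p q)) = mulT (flipT (tmul u v)) (flipT (tmul p q))
    rw [mulT_tmul, flipT_tmul, flipT_tmul, mulT_tmul, ract_tmul, lact_tmul, flipT_tmul,
      ract_tmul, lact_tmul]
  exact congrArg (fun (T : PT A A →L[ℂ] PT A A →L[ℂ] PT A A) => T s t) h

/-- The twisted action of `A` on `A ⊗ A`. -/
theorem prodT_tmul_sub (a : A) (t : PT A A) :
    prodT (lact a t - tmul a (prodT t)) = 0 := by
  rw [map_sub, prodT_lact, prodT_tmul, sub_self]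

end Alg

end PT

end Pool.Agent.MP_a77edb_an
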