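import Pool.Agent.MP_a77edb_an.Defs

/-!
# The algebra of upper triangular matrices with corner `E`
-/

set_option autoImplicit false
set_option linter.unusedSectionVars false

noncomputable section

namespace Pool.Agent.MP_a77edb_an

open ComplexConjugate

/-- Upper triangular `2 × 2` matrices with diagonal entries in `ℂ` and corner entry in `E`, with
norm `max |a| |b| + ‖x‖`. -/
def Tri (E : Type) : Type := WithLp 1 ((ℂ × ℂ) × E)

namespace Tri

variable {E : Type}

/-- The matrix with diagonal `a`, `b` and corner `x`. -/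
def mk (a : ℂ) (x : E) (b : ℂ) : Tri E := WithLp.toLp 1 ((a, b), x)

/-- the upper left entry -/
def p (α : Tri E) : ℂ := (WithLp.ofLp α).1.1

/-- the lower right entry -/
def q (α : Tri E) : ℂ := (WithLp.ofLp α).1.2

/-- the corner entry -/
def v (α : Tri E) : E := (WithLp.ofLp α).2

@[simp] theorem p_mk (a : ℂ) (x : E) (b : ℂ) : p (mk a x b) = a := rfl
@[simp] theorem q_mk (a : ℂ) (x : E) (b : ℂ) : q (mk a x b) = b := rfl
@[simp] theorem v_mk (a : ℂ) (x : E) (b : ℂ) : v (mk a x b) = x := rfl

theorem ext {α β : Tri E} (h1 : p α = p β) (h2 : v α = v β) (h3 : q α = q β) : α = β := by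
  have : WithLp.ofLp α = WithLp.ofLp β := Prod.ext (Prod.ext h1 h3) h2
  exact congrArg (WithLp.toLp 1) this

variable [NormedAddCommGroup E] [NormedSpace ℂ E]

instance : NormedAddCommGroup (Tri E) :=
  inferInstanceAs (NormedAddCommGroup (WithLp 1 ((ℂ × ℂ) × E)))

instance : NormedSpace ℂ (Tri E) :=
  inferInstanceAs (NormedSpace ℂ (WithLp 1 ((ℂ × ℂ) × E)))

instance [CompleteSpace E] : CompleteSpace (Tri E) :=
  inferInstanceAs (CompleteSpace (WithLp 1 ((ℂ × ℂ) × E)))

@[simp] theorem p_zero : p (0 : Tri E) = 0 := rfl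
@[simp] theorem q_zero : q (0 : Tri E) = 0 := rfl
@[simp] theorem v_zero : v (0 : Tri E) = 0 := rfl
@[simp] theorem p_add (α β : Tri E) : p (α + β) = p α + p β := rfl
@[simp] theorem q_add (α β : Tri E) : q (α + β) = q α + q β := rfl
@[simp] theorem v_add (α β : Tri E) : v (α + β) = v α + v β := rfl
@[simp] theorem p_neg (α : Tri E) : p (-α) = -p α := rfl
@[simp] theorem q_neg (α : Tri E) : q (-α) = -q α := rfl
@[simp] theorem v_neg (α : Tri E) : v (-α) = -v α := rfl
@[simp] theorem p_sub (α β : Tri E) : p (α - β) = p α - p β := rfl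
@[simp] theorem q_sub (α β : Tri E) : q (α - β) = q α - q β := rfl
@[simp] theorem v_sub (α β : Tri E) : v (α - β) = v α - v β := rfl
@[simp] theorem p_smul (c : ℂ) (α : Tri E) : p (c • α) = c * p α := rfl
@[simp] theorem q_smul (c : ℂ) (α : Tri E) : q (c • α) = c * q α := rfl
@[simp] theorem v_smul (c : ℂ) (α : Tri E) : v (c • α) = c • v α := rfl

omit [NormedSpace ℂ E] in
theorem norm_def (α : Tri E) : ‖α‖ = max ‖p α‖ ‖q α‖ + ‖v α‖ := by
  have := WithLp.prod_norm_eq_add (p := 1) (by simp) (WithLp.toLp 1 (WithLp.ofLp α) :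
    WithLp 1 ((ℂ × ℂ) × E))
  simp only [ENNReal.toReal_one, Real.rpow_one, div_one] at this
  exact this

instance : Mul (Tri E) := ⟨fun α β => mk (p α * p β) (p α • v β + q β • v α) (q α * q β)⟩

instance : One (Tri E) := ⟨mk 1 0 1⟩

@[simp] theorem p_mul (α β : Tri E) : p (α * β) = p α * p β := rfl
@[simp] theorem q_mul (α β : Tri E) : q (α * β) = q α * q β := rfl
@[simp] theorem v_mul (α β : Tri E) : v (α * β) = p α • v β + q β • v α := rfl
omit [NormedSpace ℂ E] in
@[simp] theorem p_one : p (1 : Tri E) = 1 := rfl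
omit [NormedSpace ℂ E] in
@[simp] theorem q_one : q (1 : Tri E) = 1 := rfl
omit [NormedSpace ℂ E] in
@[simp] theorem v_one : v (1 : Tri E) = 0 := rfl

instance : NormedRing (Tri E) where
  __ := (inferInstance : NormedAddCommGroup (Tri E))
  left_distrib α β γ := ext (by simp [mul_add]) (by simp [add_smul]; abel) (by simp [mul_add])
  right_distrib α β γ := ext (by simp [add_mul]) (by simp [add_smul]; abel) (by simp [add_mul])
  zero_mul α := ext (by simp) (by simp) (by simp)
  mul_zero α := ext (by simp) (by simp) (by simp)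
  mul_assoc α β γ := ext (by simp [mul_assoc]) (by
    simp only [v_mul, p_mul, q_mul, smul_add, mul_smul, smul_comm (q γ) (p α),
      smul_comm (q γ) (q β)]
    abel)
    (by simp [mul_assoc])
  one_mul α := ext (by simp) (by simp) (by simp)
  mul_one α := ext (by simp) (by simp) (by simp)
  norm_mul_le α β := by
    rw [norm_def, norm_def, norm_def, p_mul, q_mul, v_mul, norm_mul, norm_mul]
    have h1 : ‖p α • v β + q β • v α‖ ≤ max ‖p α‖ ‖q α‖ * ‖v β‖ + ‖v α‖ * max ‖p β‖ ‖q β‖ := by
      refine (norm_add_le _ _).trans (add_le_add ?_ ?_)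
      · rw [norm_smul]
        exact mul_le_mul_of_nonneg_right (le_max_left _ _) (norm_nonneg _)
      · rw [norm_smul, mul_comm]
        exact mul_le_mul_of_nonneg_left (le_max_right _ _) (norm_nonneg _)
    have h2 : max (‖p α‖ * ‖p β‖) (‖q α‖ * ‖q β‖) ≤ max ‖p α‖ ‖q α‖ * max ‖p β‖ ‖q β‖ := by
      refine max_le ?_ ?_
      · exact mul_le_mul (le_max_left _ _) (le_max_left _ _) (norm_nonneg _)
          ((norm_nonneg _).trans (le_max_left _ _))
      · exact mul_le_mul (le_max_right _ _) (le_max_right _ _) (norm_nonneg _)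
          ((norm_nonneg _).trans (le_max_left _ _))
    have h3 : 0 ≤ ‖v α‖ * ‖v β‖ := by positivity
    calc _ ≤ max ‖p α‖ ‖q α‖ * max ‖p β‖ ‖q β‖ +
          (max ‖p α‖ ‖q α‖ * ‖v β‖ + ‖v α‖ * max ‖p β‖ ‖q β‖) := add_le_add h2 h1
      _ ≤ (max ‖p α‖ ‖q α‖ + ‖v α‖) * (max ‖p β‖ ‖q β‖ + ‖v β‖) := by nlinarith

instance : Algebra ℂ (Tri E) := Algebra.ofModule
  (fun c α β => ext (by simp [mul_assoc]) (by simp [mul_smul, smul_comm (q β) c])
    (by simp [mul_assoc]))
  (fun c α β => ext (by simp; ring) (by simp [mul_smul, smul_comm (p α) c])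
    (by simp; ring))

instance : NormedAlgebra ℂ (Tri E) where
  norm_smul_le := norm_smul_le

/-! ### The involution -/

section Star

variable [StarAddMonoid E] [StarModule ℂ E]

instance : Star (Tri E) := ⟨fun α => mk (conj (q α)) (star (v α)) (conj (p α))⟩

omit [NormedSpace ℂ E] [StarModule ℂ E] in
@[simp] theorem p_star (α : Tri E) : p (star α) = conj (q α) := rfl
omit [NormedSpace ℂ E] [StarModule ℂ E] in
@[simp] theorem q_star (α : Tri E) : q (star α) = conj (p α) := rfl
omit [NormedSpace ℂ E] [StarModule ℂ E] in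
@[simp] theorem v_star (α : Tri E) : v (star α) = star (v α) := rfl

instance : StarRing (Tri E) where
  star_involutive α := ext (by simp) (by simp) (by simp)
  star_mul α β := ext (by simp [mul_comm]) (by simp [add_comm]) (by simp [mul_comm])
  star_add α β := ext (by simp) (by simp) (by simp)

instance : StarModule ℂ (Tri E) where
  star_smul c α := ext (by simp) (by simp) (by simp)

instance [NormedStarGroup E] : NormedStarGroup (Tri E) where
  norm_star_le α := by
    rw [norm_def, norm_def, p_star, q_star, v_star, norm_star, RCLike.norm_conj,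
      RCLike.norm_conj, max_comm]

end Star

theorem not_finiteDimensional (h : ¬ FiniteDimensional ℂ E) : ¬ FiniteDimensional ℂ (Tri E) := by
  intro hf
  apply h
  let f : E →ₗ[ℂ] Tri E :=
    { toFun := fun x => mk 0 x 0
      map_add' := fun x y => ext (by simp) (by simp) (by simp)
      map_smul' := fun c x => ext (by simp) (by simp) (by simp) }
  exact FiniteDimensional.of_injective f fun x y hxy => congrArg v hxy

/-! ### Coordinates as bounded linear maps -/

/-- upper left entry -/
def pL : Tri E →L[ℂ] ℂ :=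
  LinearMap.mkContinuous { toFun := p, map_add' := p_add, map_smul' := p_smul } 1 fun α => by
    rw [one_mul, norm_def]
    have h1 : ‖p α‖ ≤ max ‖p α‖ ‖q α‖ := le_max_left _ _
    exact h1.trans (le_add_of_nonneg_right (norm_nonneg _))

/-- lower right entry -/
def qL : Tri E →L[ℂ] ℂ :=
  LinearMap.mkContinuous { toFun := q, map_add' := q_add, map_smul' := q_smul } 1 fun α => by
    rw [one_mul, norm_def]
    have h1 : ‖q α‖ ≤ max ‖p α‖ ‖q α‖ := le_max_right _ _
    exact h1.trans (le_add_of_nonneg_right (norm_nonneg _))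

/-- corner entry -/
def vL : Tri E →L[ℂ] E :=
  LinearMap.mkContinuous { toFun := v, map_add' := v_add, map_smul' := v_smul } 1 fun α => by
    rw [one_mul, norm_def]
    exact le_add_of_nonneg_left ((norm_nonneg _).trans (le_max_left _ _))

@[simp] theorem pL_apply (α : Tri E) : pL α = p α := rfl
@[simp] theorem qL_apply (α : Tri E) : qL α = q α := rfl
@[simp] theorem vL_apply (α : Tri E) : vL α = v α := rfl

/-- the corner embedding -/
def nL : E →L[ℂ] Tri E :=
  LinearMap.mkContinuous
    { toFun := fun x => mk 0 x 0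
      map_add' := fun x y => ext (by simp) (by simp) (by simp)
      map_smul' := fun c x => ext (by simp) (by simp) (by simp) } 1 fun x => by
    rw [one_mul, norm_def]
    simp

@[simp] theorem nL_apply (x : E) : nL x = mk 0 x 0 := rfl

/-- decomposition of an element -/
theorem eq_sum (α : Tri E) : α = p α • mk 1 0 0 + nL (v α) + q α • mk 0 0 1 :=
  ext (by simp) (by simp) (by simp)

end Tri

end Pool.Agent.MP_a77edb_an
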