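import Pool.Agent.MP_a77edb_an.TriLeft

/-!
# Bimodules over the triangular algebra
-/

set_option autoImplicit false
set_option linter.unusedSectionVars false

noncomputable section

namespace Pool.Agent.MP_a77edb_an

open ContinuousLinearMap Tri

universe u

/-! ### Coordinates on the unitization -/

section Unit

variable {A : Type u} [NonUnitalNormedRing A] [NormedSpace ℂ A]
  [IsScalarTower ℂ A A] [SMulCommClass ℂ A A]

/-- scalar part -/
def ufst : WithLp 1 (Unitization ℂ A) →L[ℂ] ℂ :=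
  LinearMap.mkContinuous
    { toFun := fun w => w.ofLp.fst
      map_add' := fun _ _ => rfl
      map_smul' := fun _ _ => rfl } 1 fun w => by
    rw [one_mul, WithLp.unitization_norm_def]
    exact le_add_of_nonneg_right (norm_nonneg _)

/-- algebra part -/
def usnd : WithLp 1 (Unitization ℂ A) →L[ℂ] A :=
  LinearMap.mkContinuous
    { toFun := fun w => w.ofLp.snd
      map_add' := fun _ _ => rfl
      map_smul' := fun _ _ => rfl } 1 fun w => by
    rw [one_mul, WithLp.unitization_norm_def]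
    exact le_add_of_nonneg_left (norm_nonneg _)

/-- embedding of the algebra -/
def uinr : A →L[ℂ] WithLp 1 (Unitization ℂ A) :=
  LinearMap.mkContinuous
    { toFun := fun a => WithLp.toLp 1 (a : Unitization ℂ A)
      map_add' := fun a b => by rw [Unitization.inr_add]; rfl
      map_smul' := fun c a => by rw [Unitization.inr_smul]; rfl } 1 fun a => by
    rw [one_mul]
    exact (WithLp.unitization_norm_inr a).le

theorem u_ext {w w' : WithLp 1 (Unitization ℂ A)} (h1 : ufst w = ufst w')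
    (h2 : usnd w = usnd w') : w = w' := by
  have h3 : w.ofLp = w'.ofLp := Unitization.ext h1 h2
  exact congrArg (WithLp.toLp 1) h3

theorem ufst_uinr (a : A) : ufst (uinr a) = 0 := rfl

theorem usnd_uinr (a : A) : usnd (uinr a) = a := rfl

theorem ufst_one : ufst (1 : WithLp 1 (Unitization ℂ A)) = 1 := rfl

theorem usnd_one : usnd (1 : WithLp 1 (Unitization ℂ A)) = 0 := rfl

/-- the map `w ↦ w e` -/
def uspan (e : WithLp 1 (Unitization ℂ A)) : ℂ →L[ℂ] WithLp 1 (Unitization ℂ A) :=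
  (ContinuousLinearMap.id ℂ ℂ).smulRight e

theorem ufst_uspan (e : WithLp 1 (Unitization ℂ A)) (w : ℂ) :
    ufst (uspan e w) = w * ufst e := rfl

theorem usnd_uspan (e : WithLp 1 (Unitization ℂ A)) (w : ℂ) :
    usnd (uspan e w) = w • usnd e := rfl

/-- the element `1 - c` -/
def ucompl (c : A) : WithLp 1 (Unitization ℂ A) := 1 - uinr c

theorem ufst_ucompl (c : A) : ufst (ucompl c) = 1 := by
  rw [ucompl, map_sub, ufst_one, ufst_uinr, sub_zero]

theorem usnd_ucompl (c : A) : usnd (ucompl c) = -c := by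
  rw [ucompl, map_sub, usnd_one, usnd_uinr, zero_sub]

variable [CompleteSpace A]

theorem ufst_act (a : A) (w : WithLp 1 (Unitization ℂ A)) :
    ufst ((unitizationBimod A).act a w) = 0 := by
  show (WithLp.toLp 1 (a : Unitization ℂ A) * w).ofLp.fst = 0
  simp

theorem usnd_act (a : A) (w : WithLp 1 (Unitization ℂ A)) :
    usnd ((unitizationBimod A).act a w) = ufst w • a + a * usnd w := by
  show (WithLp.toLp 1 (a : Unitization ℂ A) * w).ofLp.snd = w.ofLp.fst • a + a * w.ofLp.snd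
  simp

theorem ufst_ract (a : A) (w : WithLp 1 (Unitization ℂ A)) :
    ufst ((unitizationBimod A).ract a w) = 0 := by
  show (w * WithLp.toLp 1 (a : Unitization ℂ A)).ofLp.fst = 0
  simp

theorem usnd_ract (a : A) (w : WithLp 1 (Unitization ℂ A)) :
    usnd ((unitizationBimod A).ract a w) = ufst w • a + usnd w * a := by
  show (w * WithLp.toLp 1 (a : Unitization ℂ A)).ofLp.snd = w.ofLp.fst • a + w.ofLp.snd * a
  simp

/-- If `A₊` is projective, every derivation is inner. -/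
theorem inner_of_projective (hP : (unitizationBimod A).IsProjective) (M : Bimod A)
    (δ : A →L[ℂ] M) (hδ : ∀ a b, δ (a * b) = M.act a (δ b) + M.ract b (δ a)) :
    ∃ m : M, ∀ a, δ a = M.ract a m - M.act a m := by
  let D : A →L[ℂ] WithLp 1 (Unitization ℂ A) →L[ℂ] M :=
    ((smulRightL ℂ (WithLp 1 (Unitization ℂ A)) M) ufst).comp δ +
      ((compL ℂ (WithLp 1 (Unitization ℂ A)) A M).flip usnd).comp (M.ract.flip.comp δ)
  have hD : ∀ a w, D a w = ufst w • δ a + M.ract (usnd w) (δ a) := fun a w => rfl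
  obtain ⟨l, hl, hlr⟩ := hP.exists_primitive M D
    (fun a b w => by
      show D (a * b) w = M.act a (D b w) + D a ((unitizationBimod A).act b w)
      rw [hD, hD, hD, ufst_act, usnd_act, hδ, map_add (M.ract (usnd w)), map_add (M.act a),
        map_smul (M.act a), map_add M.ract, map_smul M.ract, add_apply, smul_apply, M.ract_mul,
        M.act_ract, zero_smul, zero_add, smul_add]
      abel)
    (fun a c w => by
      show D a ((unitizationBimod A).ract c w) = M.ract c (D a w)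
      rw [hD, hD, ufst_ract, usnd_ract, map_add (M.ract c), map_smul (M.ract c),
        map_add M.ract, map_smul M.ract, add_apply, smul_apply, M.ract_mul, zero_smul, zero_add])
  let l' : WithLp 1 (Unitization ℂ A) →L[ℂ] M := l
  have hl' : ∀ (a : A) (w : WithLp 1 (Unitization ℂ A)), l' ((unitizationBimod A).act a w) =
      M.act a (l' w) + (ufst w • δ a + M.ract (usnd w) (δ a)) := hl
  have hlr' : ∀ (a : A) (w : WithLp 1 (Unitization ℂ A)),
      l' ((unitizationBimod A).ract a w) = M.ract a (l' w) := hlr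
  refine ⟨l' 1, fun a => ?_⟩
  have h1 := hl' a 1
  have h2 := hlr' a 1
  have h3 : (unitizationBimod A).act a (1 : WithLp 1 (Unitization ℂ A)) =
      (unitizationBimod A).ract a (1 : WithLp 1 (Unitization ℂ A)) := by
    refine u_ext ?_ ?_
    · rw [ufst_act, ufst_ract]
    · rw [usnd_act, usnd_ract, usnd_one, mul_zero, zero_mul]
  have h4 := congrArg l' h3
  have h5 := (h1.symm.trans h4).trans h2
  rw [ufst_one, usnd_one, map_zero, zero_apply, add_zero, one_smul] at h5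
  rw [← h5, add_sub_cancel_left]

end Unit

variable (E : Type) [NormedAddCommGroup E] [NormedSpace ℂ E] [CompleteSpace E]

/-- The bimodule `E = e₁ A e₂`. -/
def bE : Bimod (Tri E) where
  carrier := E
  act := pL.smulRight (ContinuousLinearMap.id ℂ E)
  ract := qL.smulRight (ContinuousLinearMap.id ℂ E)
  act_mul := fun a b z => by
    show (p a * p b) • z = p a • p b • z
    rw [mul_smul]
  ract_mul := fun a b z => by
    show (q a * q b) • z = q b • q a • z
    rw [mul_comm, mul_smul]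
  act_ract := fun a b z => by
    show p a • q b • z = q b • p a • z
    rw [smul_comm]

/-- The nontrivial action on `ℂ ⊕ E`, with diagonal weights `P`, `Q`. -/
def wact (P Q : Tri E →L[ℂ] ℂ) : Tri E →L[ℂ] (ℂ × E) →L[ℂ] (ℂ × E) :=
  P.smulRight ((inl ℂ ℂ E).comp (fst ℂ ℂ E)) +
    (compL ℂ (ℂ × E) E (ℂ × E) (inr ℂ ℂ E)).comp
      ((smulRightL ℂ (ℂ × E) E (fst ℂ ℂ E)).comp vL) +
    Q.smulRight ((inr ℂ ℂ E).comp (snd ℂ ℂ E))

variable {E} in
theorem wact_apply (P Q : Tri E →L[ℂ] ℂ) (a : Tri E) (u : ℂ) (y : E) :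
    wact E P Q a (u, y) = (P a * u, u • v a + Q a • y) := by
  show (P a • (u, (0 : E)) + ((0 : ℂ), u • (v a)) + Q a • ((0 : ℂ), y) : ℂ × E) = _
  simp only [Prod.smul_mk, Prod.mk_add_mk, smul_zero, add_zero, zero_add, smul_eq_mul, mul_zero]

/-- The bimodule `ℂ e₁ ⊗ e₁ A`. -/
def bI : Bimod (Tri E) where
  carrier := ℂ × E
  act := pL.smulRight (ContinuousLinearMap.id ℂ (ℂ × E))
  ract := wact E pL qL
  act_mul := fun a b z => by
    show (p a * p b) • z = p a • p b • z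
    rw [mul_smul]
  ract_mul := fun a b z => by
    obtain ⟨u, y⟩ := z
    rw [wact_apply, wact_apply, wact_apply]
    ext
    · simp only [pL_apply, p_mul]
      ring
    · simp only [pL_apply, qL_apply, v_mul, q_mul, smul_add, mul_smul]
      rw [smul_comm u (p a), smul_comm u (q b), smul_comm (q b) (q a)]
      abel
  act_ract := fun a b z => ((wact E pL qL b).map_smul (p a) z).symm

/-- The bimodule `A e₂ ⊗ ℂ e₂`. -/
def bII : Bimod (Tri E) where
  carrier := ℂ × E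
  act := wact E qL pL
  ract := qL.smulRight (ContinuousLinearMap.id ℂ (ℂ × E))
  ract_mul := fun a b z => by
    show (q a * q b) • z = q b • q a • z
    rw [mul_comm, mul_smul]
  act_mul := fun a b z => by
    obtain ⟨u, y⟩ := z
    rw [wact_apply, wact_apply, wact_apply]
    ext
    · simp only [qL_apply, q_mul]
      ring
    · simp only [pL_apply, qL_apply, v_mul, p_mul, smul_add, mul_smul]
      rw [smul_comm u (p a), smul_comm u (q b)]
      abel
  act_ract := fun a b z => (wact E qL pL a).map_smul (q b) z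

/-- The zero bimodule structure on `ℂ`. -/
def bO : Bimod (Tri E) where
  carrier := ℂ
  act := 0
  ract := 0
  act_mul := fun a b z => by simp
  ract_mul := fun a b z => by simp
  act_ract := fun a b z => by simp

variable {E}

theorem bE_act (a : Tri E) (x : E) : (bE E).act a x = (p a • x : E) := rfl
theorem bE_ract (a : Tri E) (x : E) : (bE E).ract a x = (q a • x : E) := rfl

theorem bI_act (a : Tri E) (u : ℂ) (y : E) :
    (bI E).act a ((u, y) : ℂ × E) = (p a • (u, y) : ℂ × E) := rfl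

theorem bI_ract (a : Tri E) (u : ℂ) (y : E) :
    (bI E).ract a ((u, y) : ℂ × E) = ((p a * u, u • v a + q a • y) : ℂ × E) :=
  wact_apply pL qL a u y

theorem bII_ract (a : Tri E) (u : ℂ) (y : E) :
    (bII E).ract a ((u, y) : ℂ × E) = (q a • (u, y) : ℂ × E) := rfl

theorem bII_act (a : Tri E) (u : ℂ) (y : E) :
    (bII E).act a ((u, y) : ℂ × E) = ((q a * u, u • v a + p a • y) : ℂ × E) :=
  wact_apply qL pL a u y

theorem bE_lifts : (bE E).Lifts := by
  intro Y W f s hs φ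
  let φ' : E →L[ℂ] W := φ.toCLM
  have hφ : ∀ (a : Tri E) (z : E), φ' (p a • z) = W.act a (φ' z) := φ.map_act
  have hφr : ∀ (a : Tri E) (z : E), φ' (q a • z) = W.ract a (φ' z) := φ.map_ract
  refine ⟨⟨(Y.act e1).comp ((Y.ract e2).comp (s.comp φ')), fun a (z : E) => ?_,
    fun a (z : E) => ?_⟩, fun (z : E) => ?_⟩
  · show Y.act e1 (Y.ract e2 (s (φ' (p a • z)))) = Y.act a (Y.act e1 (Y.ract e2 (s (φ' z))))
    have h1 : s (φ' (p a • z)) = p a • s (φ' z) := by rw [map_smul, map_smul]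
    rw [h1, ← Y.act_mul, mul_e1, map_smul, map_smul, map_smul, smul_apply]
  · show Y.act e1 (Y.ract e2 (s (φ' (q a • z)))) = Y.ract a (Y.act e1 (Y.ract e2 (s (φ' z))))
    have h1 : s (φ' (q a • z)) = q a • s (φ' z) := by rw [map_smul, map_smul]
    rw [h1, ← Y.act_ract, ← Y.ract_mul, e2_mul, map_smul, map_smul, map_smul, smul_apply, map_smul]
  · show f.toCLM (Y.act e1 (Y.ract e2 (s (φ' z)))) = φ' z
    rw [f.map_act, f.map_ract, hs, ← hφr, ← hφ, p_e1, q_e2, one_smul, one_smul]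

theorem bO_lifts : (bO E).Lifts := by
  intro Y W f s hs φ
  let φ' : ℂ →L[ℂ] W := φ.toCLM
  have hφ : ∀ (a : Tri E) (z : ℂ), φ' 0 = W.act a (φ' z) := φ.map_act
  have hφr : ∀ (a : Tri E) (z : ℂ), φ' 0 = W.ract a (φ' z) := φ.map_ract
  let R : Y →L[ℂ] Y := ContinuousLinearMap.id ℂ Y - Y.ract 1
  let L : Y →L[ℂ] Y := ContinuousLinearMap.id ℂ Y - Y.act 1
  have hR : ∀ (a : Tri E) (y : Y), Y.ract a (R y) = 0 := fun a y => by
    show Y.ract a (y - Y.ract 1 y) = 0
    rw [map_sub, ← Y.ract_mul, one_mul, sub_self]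
  have hL : ∀ (a : Tri E) (y : Y), Y.act a (L y) = 0 := fun a y => by
    show Y.act a (y - Y.act 1 y) = 0
    rw [map_sub, ← Y.act_mul, mul_one, sub_self]
  have hLR : ∀ (a : Tri E) (y : Y), Y.ract a (L (R y)) = 0 := fun a y => by
    show Y.ract a (R y - Y.act 1 (R y)) = 0
    rw [map_sub, ← Y.act_ract, hR, map_zero, sub_zero]
  refine ⟨⟨L.comp (R.comp (s.comp φ')), fun a (z : ℂ) => ?_, fun a (z : ℂ) => ?_⟩,
    fun (z : ℂ) => ?_⟩
  · show L (R (s (φ' 0))) = Y.act a (L (R (s (φ' z))))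
    rw [hL, map_zero, map_zero, map_zero, map_zero]
  · show L (R (s (φ' 0))) = Y.ract a (L (R (s (φ' z))))
    rw [hLR, map_zero, map_zero, map_zero, map_zero]
  · show f.toCLM ((s (φ' z) - Y.ract 1 (s (φ' z))) - Y.act 1 (s (φ' z) - Y.ract 1 (s (φ' z)))) =
      φ' z
    rw [map_sub, f.map_act, map_sub, f.map_ract, hs, ← hφr, map_zero, sub_zero, ← hφ, map_zero,
      sub_zero]

theorem mk_e1_ract (a : Tri E) (u : ℂ) (y : E) :
    (mk u y 0 : Tri E) * a = mk (p a * u) (u • v a + q a • y) 0 := by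
  apply Tri.ext <;> simp [mul_comm]

theorem mk_e2_act (a : Tri E) (u : ℂ) (y : E) :
    a * (mk 0 y u : Tri E) = mk 0 (u • v a + p a • y) (q a * u) := by
  apply Tri.ext <;> simp [add_comm]

/-- `(u, y) ↦ mk u y 0` -/
def mkI : ℂ × E →L[ℂ] Tri E := (fst ℂ ℂ E).smulRight e1 + nL.comp (snd ℂ ℂ E)

theorem mkI_apply (u : ℂ) (y : E) : mkI (u, y) = mk u y 0 := by
  show u • e1 + nL y = _
  apply Tri.ext <;> simp [e1]

/-- `(u, y) ↦ mk 0 y u` -/
def mkII : ℂ × E →L[ℂ] Tri E := (fst ℂ ℂ E).smulRight e2 + nL.comp (snd ℂ ℂ E)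

theorem mkII_apply (u : ℂ) (y : E) : mkII (u, y) = mk 0 y u := by
  show u • e2 + nL y = _
  apply Tri.ext <;> simp [e2]

theorem bI_lifts : (bI E).Lifts := by
  intro Y W f s hs φ
  let φ' : ℂ × E →L[ℂ] W := φ.toCLM
  have hφ : ∀ (a : Tri E) (z : ℂ × E), φ' (p a • z) = W.act a (φ' z) := φ.map_act
  have hφr : ∀ (a : Tri E) (u : ℂ) (y : E),
      φ' (p a * u, u • v a + q a • y) = W.ract a (φ' (u, y)) := fun a u y => by
    have := φ.map_ract a ((u, y) : ℂ × E)
    rw [bI_ract] at this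
    exact this
  let η : Y := Y.act e1 (Y.ract e1 (s (φ' (1, 0))))
  have hη : ∀ a : Tri E, Y.act a η = p a • η := fun a => by
    show Y.act a (Y.act e1 _) = p a • Y.act e1 _
    rw [← Y.act_mul, mul_e1, map_smul, smul_apply]
  have hfη : f.toCLM η = φ' (1, 0) := by
    show f.toCLM (Y.act e1 (Y.ract e1 (s (φ' (1, 0))))) = _
    rw [f.map_act, f.map_ract, hs, ← hφr, ← hφ, p_e1, v_e1, q_e1, mul_one, smul_zero, zero_smul,
      add_zero, one_smul]
  refine ⟨⟨(Y.ract.flip η).comp mkI, fun a (z : ℂ × E) => ?_, fun a (z : ℂ × E) => ?_⟩,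
    fun (z : ℂ × E) => ?_⟩
  · show Y.ract (mkI (p a • z)) η = Y.act a (Y.ract (mkI z) η)
    rw [Y.act_ract, hη, map_smul, map_smul, map_smul, smul_apply]
  · obtain ⟨u, y⟩ := z
    rw [bI_ract]
    show Y.ract (mkI (p a * u, u • v a + q a • y)) η = Y.ract a (Y.ract (mkI (u, y)) η)
    rw [← Y.ract_mul, mkI_apply, mkI_apply, mk_e1_ract]
  · obtain ⟨u, y⟩ := z
    show f.toCLM (Y.ract (mkI (u, y)) η) = φ' (u, y)
    rw [f.map_ract, hfη, ← hφr, mkI_apply, p_mk, v_mk, q_mk, mul_one, one_smul, zero_smul,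
      add_zero]

theorem bII_lifts : (bII E).Lifts := by
  intro Y W f s hs φ
  let φ' : ℂ × E →L[ℂ] W := φ.toCLM
  have hφ : ∀ (a : Tri E) (z : ℂ × E), φ' (q a • z) = W.ract a (φ' z) := φ.map_ract
  have hφr : ∀ (a : Tri E) (u : ℂ) (y : E),
      φ' (q a * u, u • v a + p a • y) = W.act a (φ' (u, y)) := fun a u y => by
    have := φ.map_act a ((u, y) : ℂ × E)
    rw [bII_act] at this
    exact this
  let η : Y := Y.act e2 (Y.ract e2 (s (φ' (1, 0))))
  have hη : ∀ a : Tri E, Y.ract a η = q a • η := fun a => by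
    show Y.ract a (Y.act e2 (Y.ract e2 _)) = q a • Y.act e2 (Y.ract e2 _)
    rw [← Y.act_ract, ← Y.ract_mul, e2_mul, map_smul, smul_apply, map_smul]
  have hfη : f.toCLM η = φ' (1, 0) := by
    show f.toCLM (Y.act e2 (Y.ract e2 (s (φ' (1, 0))))) = _
    rw [f.map_act, f.map_ract, hs, ← hφ, q_e2, one_smul, ← hφr, p_e2, v_e2, q_e2, mul_one,
      smul_zero, zero_smul, add_zero]
  refine ⟨⟨(Y.act.flip η).comp mkII, fun a (z : ℂ × E) => ?_, fun a (z : ℂ × E) => ?_⟩,
    fun (z : ℂ × E) => ?_⟩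
  · obtain ⟨u, y⟩ := z
    rw [bII_act]
    show Y.act (mkII (q a * u, u • v a + p a • y)) η = Y.act a (Y.act (mkII (u, y)) η)
    rw [← Y.act_mul a (mkII (u, y)), mkII_apply, mkII_apply, mk_e2_act]
  · show Y.act (mkII (q a • z)) η = Y.ract a (Y.act (mkII z) η)
    rw [← Y.act_ract, hη, map_smul, map_smul, map_smul, smul_apply]
  · obtain ⟨u, y⟩ := z
    show f.toCLM (Y.act (mkII (u, y)) η) = φ' (u, y)
    rw [f.map_act, hfη, ← hφr, mkII_apply, p_mk, v_mk, q_mk, mul_one, one_smul, zero_smul,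
      add_zero]

theorem B0_act (a : Tri E) (u : ℂ) (y : E) (z : ℂ) (y' : E) (w : ℂ) :
    (Bimod.prod (Bimod.prod (bI E) (bII E)) (bO E)).act a
      ((((u, y), (z, y')), w) : ((ℂ × E) × (ℂ × E)) × ℂ) =
      (((p a • (u, y), (q a * z, z • v a + p a • y')), (0 : ℂ)) :
        ((ℂ × E) × (ℂ × E)) × ℂ) := by
  have h1 := Bimod.prod_act (Bimod.prod (bI E) (bII E)) (bO E) a
    (((u, y), (z, y')) : (ℂ × E) × (ℂ × E)) w
  have h2 := Bimod.prod_act (bI E) (bII E) a ((u, y) : ℂ × E) ((z, y') : ℂ × E)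
  have h3 := bII_act a z y'
  refine h1.trans ?_
  exact Prod.ext (h2.trans (Prod.ext rfl h3)) rfl

theorem B0_ract (a : Tri E) (u : ℂ) (y : E) (z : ℂ) (y' : E) (w : ℂ) :
    (Bimod.prod (Bimod.prod (bI E) (bII E)) (bO E)).ract a
      ((((u, y), (z, y')), w) : ((ℂ × E) × (ℂ × E)) × ℂ) =
      ((((p a * u, u • v a + q a • y), q a • (z, y')), (0 : ℂ)) :
        ((ℂ × E) × (ℂ × E)) × ℂ) := by
  have h1 := Bimod.prod_ract (Bimod.prod (bI E) (bII E)) (bO E) a
    (((u, y), (z, y')) : (ℂ × E) × (ℂ × E)) w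
  have h2 := Bimod.prod_ract (bI E) (bII E) a ((u, y) : ℂ × E) ((z, y') : ℂ × E)
  have h3 := bI_ract a u y
  refine h1.trans ?_
  exact Prod.ext (h2.trans (Prod.ext h3 rfl)) rfl

theorem tri_db_le_one : db (Tri E) ≤ 1 := by
  let P₀ : Bimod (Tri E) := Bimod.prod (Bimod.prod (bI E) (bII E)) (bO E)
  let P₁ : Bimod (Tri E) := bE E
  have hP₀ : P₀.Lifts := (bI_lifts.prod bII_lifts).prod bO_lifts
  have hP₁ : P₁.Lifts := bE_lifts
  let π₁ : (((ℂ × E) × (ℂ × E)) × ℂ) →L[ℂ] ℂ × E :=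
    (fst ℂ (ℂ × E) (ℂ × E)).comp (fst ℂ ((ℂ × E) × (ℂ × E)) ℂ)
  let π₂ : (((ℂ × E) × (ℂ × E)) × ℂ) →L[ℂ] ℂ × E :=
    (snd ℂ (ℂ × E) (ℂ × E)).comp (fst ℂ ((ℂ × E) × (ℂ × E)) ℂ)
  let π₃ : (((ℂ × E) × (ℂ × E)) × ℂ) →L[ℂ] ℂ := snd ℂ ((ℂ × E) × (ℂ × E)) ℂ
  let ε' : (((ℂ × E) × (ℂ × E)) × ℂ) →L[ℂ] WithLp 1 (Unitization ℂ (Tri E)) :=
    uinr.comp (mkI.comp π₁ + mkII.comp π₂) +
      (uspan (ucompl 1)).comp π₃
  have hε1 : ∀ (u : ℂ) (y : E) (z : ℂ) (y' : E) (w : ℂ),
      ufst (ε' (((u, y), (z, y')), w)) = w := fun u y z y' w => by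
    show ufst (uinr (mkI (u, y) + mkII (z, y')) + uspan (ucompl 1) w) = w
    rw [map_add, ufst_uinr, ufst_uspan, ufst_ucompl, zero_add, mul_one]
  have hε2 : ∀ (u : ℂ) (y : E) (z : ℂ) (y' : E) (w : ℂ),
      usnd (ε' (((u, y), (z, y')), w)) = mk (u - w) (y + y') (z - w) := fun u y z y' w => by
    show usnd (uinr (mkI (u, y) + mkII (z, y')) + uspan (ucompl 1) w) = _
    rw [map_add usnd, usnd_uinr, usnd_uspan, usnd_ucompl, mkI_apply, mkII_apply]
    apply Tri.ext
    · simp [sub_eq_add_neg]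
    · simp
    · simp [sub_eq_add_neg]
  let ε : Bimod.Hom P₀ (unitizationBimod (Tri E)) := ⟨ε', fun a x => by
    obtain ⟨⟨⟨u, y⟩, ⟨z, y'⟩⟩, w⟩ : ((ℂ × E) × (ℂ × E)) × ℂ := x
    refine (congrArg ε' (B0_act a u y z y' w)).trans ?_
    show ε' (((p a • u, p a • y), (q a * z, z • v a + p a • y')), 0) =
      (unitizationBimod (Tri E)).act a (ε' (((u, y), (z, y')), w))
    refine u_ext ?_ ?_
    · rw [hε1, ufst_act]
    · rw [hε2, usnd_act, hε1, hε2]
      apply Tri.ext
      · simp; ring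
      · simp [sub_smul]; abel
      · simp; ring, fun a x => by
    obtain ⟨⟨⟨u, y⟩, ⟨z, y'⟩⟩, w⟩ : ((ℂ × E) × (ℂ × E)) × ℂ := x
    refine (congrArg ε' (B0_ract a u y z y' w)).trans ?_
    show ε' (((p a * u, u • v a + q a • y), (q a • z, q a • y')), 0) =
      (unitizationBimod (Tri E)).ract a (ε' (((u, y), (z, y')), w))
    refine u_ext ?_ ?_
    · rw [hε1, ufst_ract]
    · rw [hε2, usnd_ract, hε1, hε2]
      apply Tri.ext
      · simp; ring
      · simp [sub_smul]; abel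
      · simp; ring⟩
  let d' : E →L[ℂ] (((ℂ × E) × (ℂ × E)) × ℂ) :=
    ((inr ℂ ℂ E).prod (-(inr ℂ ℂ E))).prod 0
  have hd' : ∀ x, d' x = ((((0 : ℂ), x), (-(0 : ℂ), -x)), (0 : ℂ)) := fun x => rfl
  have hd'' : ∀ x, d' x = ((((0 : ℂ), x), ((0 : ℂ), -x)), (0 : ℂ)) := fun x => by
    rw [hd', neg_zero]
  let d : Bimod.Hom P₁ P₀ := ⟨d', fun a (x : E) => by
    refine Eq.trans ?_ ((congrArg (P₀.act a) (hd'' x)).trans (B0_act a 0 x 0 (-x) 0)).symm
    show d' (p a • x) = _
    rw [hd'']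
    simp, fun a (x : E) => by
    refine Eq.trans ?_ ((congrArg (P₀.ract a) (hd'' x)).trans (B0_ract a 0 x 0 (-x) 0)).symm
    show d' (q a • x) = _
    rw [hd'']
    simp⟩
  let s : WithLp 1 (Unitization ℂ (Tri E)) →L[ℂ] (((ℂ × E) × (ℂ × E)) × ℂ) :=
    (((pL.comp usnd + ufst).prod (vL.comp usnd)).prod
      ((qL.comp usnd + ufst).prod 0)).prod ufst
  have hs : ∀ w, s w = (((p (usnd w) + ufst w, v (usnd w)), (q (usnd w) + ufst w, 0)),
    ufst w) := fun w => rfl
  let k : (((ℂ × E) × (ℂ × E)) × ℂ) →L[ℂ] E := -((snd ℂ ℂ E).comp π₂)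
  have hk : ∀ (u : ℂ) (y : E) (z : ℂ) (y' : E) (w : ℂ), k (((u, y), (z, y')), w) = -y' :=
    fun u y z y' w => rfl
  refine Bimod.dh_le_one hP₀.isProjective hP₁.isProjective ε d s k ?_ ?_ ?_ ?_
  · intro (x : E)
    show ε' (d' x) = 0
    rw [hd'']
    refine u_ext ?_ ?_
    · rw [hε1, map_zero]
    · rw [hε2, map_zero]
      apply Tri.ext <;> simp
  · intro w
    show ε' (s w) = w
    rw [hs]
    refine u_ext ?_ ?_
    · rw [hε1]
    · rw [hε2]
      apply Tri.ext <;> simp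
  · intro x
    obtain ⟨⟨⟨u, y⟩, ⟨z, y'⟩⟩, w⟩ : ((ℂ × E) × (ℂ × E)) × ℂ := x
    show s (ε' (((u, y), (z, y')), w)) + d' (k (((u, y), (z, y')), w)) =
      ((((u, y), (z, y')), w) : ((ℂ × E) × (ℂ × E)) × ℂ)
    rw [hs, hd'', hk, hε1, hε2]
    simp
  · intro (x : E)
    show k (d' x) = x
    rw [hd'', hk, neg_neg]

theorem tri_one_le_db [Nontrivial E] : 1 ≤ db (Tri E) := by
  by_contra hlt
  have hP := Bimod.isProjective_of_dh (unitizationBimod (Tri E)) (not_le.1 hlt)
  obtain ⟨m, hm⟩ := inner_of_projective hP (bE E) vL (fun a b => by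
    show v (a * b) = p a • v b + q b • v a
    rw [v_mul])
  obtain ⟨x, hx⟩ := exists_ne (0 : E)
  have h1 : v (nL x) = q (nL x) • (m : E) - p (nL x) • (m : E) := hm (nL x)
  rw [p_n, q_n, v_n, zero_smul, sub_zero] at h1
  exact hx h1

theorem tri_db [Nontrivial E] : db (Tri E) = 1 := le_antisymm tri_db_le_one tri_one_le_db

end Pool.Agent.MP_a77edb_an
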