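import Pool.Agent.MP_a77edb_an.Tri
import Pool.Agent.MP_a77edb_an.ProjTensor
import Pool.Agent.MP_a77edb_an.Lifting

/-!
# Left modules over the triangular algebra
-/

set_option autoImplicit false
set_option linter.unusedSectionVars false

noncomputable section

namespace Pool.Agent.MP_a77edb_an

open ContinuousLinearMap Tri

variable {E : Type} [NormedAddCommGroup E] [NormedSpace ℂ E] [CompleteSpace E]

/-- `ℂ e₁ ⊗ Z`. -/
def modI (E : Type) [NormedAddCommGroup E] [NormedSpace ℂ E]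
    (Z : Type) [NormedAddCommGroup Z] [NormedSpace ℂ Z] [CompleteSpace Z] :
    LeftMod (Tri E) where
  carrier := Z
  act := pL.smulRight (ContinuousLinearMap.id ℂ Z)
  act_mul := fun a b z => by
    show (p a * p b) • z = p a • p b • z
    rw [mul_smul]

/-- A Banach space with zero action. -/
def modO (E : Type) [NormedAddCommGroup E] [NormedSpace ℂ E]
    (Z : Type) [NormedAddCommGroup Z] [NormedSpace ℂ Z] [CompleteSpace Z] :
    LeftMod (Tri E) where
  carrier := Z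
  act := 0
  act_mul := fun a b z => by simp

/-- `A e₂ ⊗ Z`. -/
def modII (E : Type) [NormedAddCommGroup E] [NormedSpace ℂ E] [CompleteSpace E]
    (Z : Type) [NormedAddCommGroup Z] [NormedSpace ℂ Z] [CompleteSpace Z] :
    LeftMod (Tri E) where
  carrier := PT E Z × Z
  act := pL.smulRight ((inl ℂ (PT E Z) Z).comp (fst ℂ (PT E Z) Z)) +
    ((compL ℂ (PT E Z × Z) (PT E Z) (PT E Z × Z) (inl ℂ (PT E Z) Z)).comp
      (((compL ℂ (PT E Z × Z) Z (PT E Z)).flip (snd ℂ (PT E Z) Z)).comp (PT.tmul.comp vL))) +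
    qL.smulRight ((inr ℂ (PT E Z) Z).comp (snd ℂ (PT E Z) Z))
  act_mul := fun a b z => by
    obtain ⟨t, z⟩ := z
    show ((p a * p b) • (t, (0 : Z)) + (PT.tmul (v (a * b)) z, (0 : Z)) +
      (q a * q b) • ((0 : PT E Z), z) : PT E Z × Z) =
      (p a • (((p b • (t, (0 : Z)) + (PT.tmul (v b) z, (0 : Z)) +
      q b • ((0 : PT E Z), z)) : PT E Z × Z).1, (0 : Z)) +
      (PT.tmul (v a) (((p b • (t, (0 : Z)) + (PT.tmul (v b) z, (0 : Z)) +
      q b • ((0 : PT E Z), z)) : PT E Z × Z).2), (0 : Z)) +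
      q a • ((0 : PT E Z), (((p b • (t, (0 : Z)) + (PT.tmul (v b) z, (0 : Z)) +
      q b • ((0 : PT E Z), z)) : PT E Z × Z).2)) : PT E Z × Z)
    rw [v_mul, map_add, map_smul, map_smul, add_apply, smul_apply, smul_apply]
    ext
    · simp only [Prod.smul_mk, Prod.mk_add_mk, smul_zero, add_zero, zero_add, map_smul,
        smul_add, mul_smul]
      abel
    · simp only [Prod.smul_mk, Prod.mk_add_mk, smul_zero, add_zero, zero_add, mul_smul]

theorem modI_act (Z : Type) [NormedAddCommGroup Z] [NormedSpace ℂ Z] [CompleteSpace Z]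
    (a : Tri E) (z : Z) : (modI E Z).act a z = (p a • z : Z) := rfl

theorem modII_act (Z : Type) [NormedAddCommGroup Z] [NormedSpace ℂ Z] [CompleteSpace Z]
    (a : Tri E) (t : PT E Z) (z : Z) : (modII E Z).act a ((t, z) : PT E Z × Z) =
      ((p a • t + PT.tmul (v a) z, q a • z) : PT E Z × Z) := by
  show (p a • (t, (0 : Z)) + (PT.tmul (v a) z, (0 : Z)) +
    q a • ((0 : PT E Z), z) : PT E Z × Z) = _
  simp only [Prod.smul_mk, Prod.mk_add_mk, smul_zero, add_zero, zero_add]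

/-- the idempotent `e₁` -/
def e1 : Tri E := mk 1 0 0

/-- the idempotent `e₂` -/
def e2 : Tri E := mk 0 0 1

theorem mul_e1 (a : Tri E) : a * e1 = p a • e1 := by
  apply Tri.ext <;> simp [e1]

theorem e1_mul_n (x : E) : (e1 : Tri E) * nL x = nL x := by
  apply Tri.ext <;> simp [e1]

theorem mul_n (a : Tri E) (x : E) : a * nL x = p a • nL x := by
  apply Tri.ext <;> simp

theorem n_mul (a : Tri E) (x : E) : nL x * a = q a • nL x := by
  apply Tri.ext <;> simp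

theorem mul_e2 (a : Tri E) : a * e2 = nL (v a) + q a • e2 := by
  apply Tri.ext <;> simp [e2]

theorem e2_mul (a : Tri E) : e2 * a = q a • e2 := by
  apply Tri.ext <;> simp [e2]

theorem e1_mul (a : Tri E) : e1 * a = p a • e1 + nL (v a) := by
  apply Tri.ext <;> simp [e1]

theorem p_e1 : p (e1 : Tri E) = 1 := rfl
theorem q_e1 : q (e1 : Tri E) = 0 := rfl
theorem v_e1 : v (e1 : Tri E) = 0 := rfl
theorem p_e2 : p (e2 : Tri E) = 0 := rfl
theorem q_e2 : q (e2 : Tri E) = 1 := rfl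
theorem v_e2 : v (e2 : Tri E) = 0 := rfl
theorem p_n (x : E) : p (nL x) = 0 := rfl
theorem q_n (x : E) : q (nL x) = 0 := rfl
theorem v_n (x : E) : v (nL x) = x := rfl

theorem eq_sum' (a : Tri E) : a = p a • e1 + nL (v a) + q a • e2 := eq_sum a

section Lifts

variable (Z : Type) [NormedAddCommGroup Z] [NormedSpace ℂ Z] [CompleteSpace Z]

theorem modI_lifts : (modI E Z).Lifts := by
  intro Y W f s hs φ
  let φ' : Z →L[ℂ] W := φ.toCLM
  have hφ' : ∀ a z, φ' (p a • z) = W.act a (φ' z) := φ.map_act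
  refine ⟨⟨(Y.act e1).comp (s.comp φ'), fun a (z : Z) => ?_⟩, fun (z : Z) => ?_⟩
  · have h1 : s (φ' (p a • z)) = p a • s (φ' z) := by
      rw [map_smul, map_smul]
    show Y.act e1 (s (φ' (p a • z))) = Y.act a (Y.act e1 (s (φ' z)))
    rw [h1, ← Y.act_mul, mul_e1, map_smul, map_smul, smul_apply]
  · show f.toCLM (Y.act e1 (s (φ' z))) = φ' z
    rw [f.map_act, hs, ← hφ', p_e1, one_smul]

theorem modO_lifts : (modO E Z).Lifts := by
  intro Y W f s hs φ
  let φ' : Z →L[ℂ] W := φ.toCLM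
  have hφ' : ∀ (a : Tri E) (z : Z), φ' 0 = W.act a (φ' z) := φ.map_act
  refine ⟨⟨s.comp φ' - (Y.act 1).comp (s.comp φ'), fun a (z : Z) => ?_⟩, fun (z : Z) => ?_⟩
  · show s (φ' 0) - Y.act 1 (s (φ' 0)) = Y.act a (s (φ' z) - Y.act 1 (s (φ' z)))
    rw [map_sub (Y.act a), ← Y.act_mul, mul_one, sub_self, map_zero, map_zero, map_zero, sub_zero]
  · show f.toCLM (s (φ' z) - Y.act 1 (s (φ' z))) = φ' z
    rw [map_sub, f.map_act, hs, ← hφ', map_zero, sub_zero]

theorem modII_lifts : (modII E Z).Lifts := by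
  intro Y W f s hs φ
  let φ' : PT E Z × Z →L[ℂ] W := φ.toCLM
  have hφ' : ∀ (a : Tri E) (t : PT E Z) (z : Z),
      φ' (p a • t + PT.tmul (v a) z, q a • z) = W.act a (φ' (t, z)) := by
    intro a t z
    have := φ.map_act a ((t, z) : PT E Z × Z)
    rw [modII_act] at this
    exact this
  let h : Z →L[ℂ] Y := (Y.act e2).comp (s.comp (φ'.comp (inr ℂ (PT E Z) Z)))
  have hh : ∀ z, h z = Y.act e2 (s (φ' (0, z))) := fun z => rfl
  let L : PT E Z →L[ℂ] Y := PT.lift (((compL ℂ Z Y Y).flip h).comp (Y.act.comp nL))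
  have hL : ∀ (x : E) (z : Z), L (PT.tmul x z) = Y.act (nL x) (h z) := fun x z => by
    show PT.lift _ _ = _
    rw [PT.lift_tmul]
    rfl
  have hLa : ∀ (a : Tri E) (t : PT E Z), Y.act a (L t) = L (p a • t) := by
    intro a t
    have h1 : (Y.act a).comp L = L.comp (p a • ContinuousLinearMap.id ℂ (PT E Z)) := by
      refine PT.ext' fun x z => ?_
      show Y.act a (L (PT.tmul x z)) = L (p a • PT.tmul x z)
      rw [map_smul, hL, ← Y.act_mul, mul_n, map_smul, smul_apply]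
    exact congrArg (fun (T : PT E Z →L[ℂ] Y) => T t) h1
  have hha : ∀ (a : Tri E) (z : Z), Y.act a (h z) = L (PT.tmul (v a) z) + q a • h z := by
    intro a z
    have h1 : Y.act (nL (v a)) (Y.act e2 (s (φ' (0, z)))) = Y.act (nL (v a)) (s (φ' (0, z))) := by
      rw [← Y.act_mul, n_mul, q_e2, one_smul]
    rw [hL, hh, h1, ← Y.act_mul, mul_e2, map_add, map_smul, add_apply, smul_apply]
  have hfh : ∀ z, f.toCLM (h z) = φ' (0, z) := by
    intro z
    rw [hh, f.map_act, hs, ← hφ', p_e2, v_e2, q_e2, one_smul, map_zero, zero_apply, smul_zero,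
      add_zero]
  refine ⟨⟨L.comp (fst ℂ (PT E Z) Z) + h.comp (snd ℂ (PT E Z) Z), fun a x => ?_⟩,
    fun x => ?_⟩
  · obtain ⟨t, z⟩ : PT E Z × Z := x
    rw [modII_act]
    show L (p a • t + PT.tmul (v a) z) + h (q a • z) = Y.act a (L t + h z)
    rw [map_add (Y.act a), hLa, hha, map_add, map_smul h]
    abel
  · obtain ⟨t, z⟩ : PT E Z × Z := x
    show f.toCLM (L t + h z) = φ' (t, z)
    have h1 : f.toCLM.comp L = φ'.comp (inl ℂ (PT E Z) Z) := by
      refine PT.ext' fun x z => ?_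
      show f.toCLM (L (PT.tmul x z)) = φ' (PT.tmul x z, 0)
      rw [hL, f.map_act, hfh, ← hφ', p_n, v_n, q_n, zero_smul, zero_smul, zero_add]
    have h2 : f.toCLM (L t) = φ' (t, 0) := congrArg (fun (T : PT E Z →L[ℂ] W) => T t) h1
    rw [map_add, h2, hfh, ← map_add, Prod.mk_add_mk, add_zero, zero_add]

end Lifts

theorem P0_act (Z₁ Z₂ Z₀ : Type) [NormedAddCommGroup Z₁] [NormedSpace ℂ Z₁] [CompleteSpace Z₁]
    [NormedAddCommGroup Z₂] [NormedSpace ℂ Z₂] [CompleteSpace Z₂]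
    [NormedAddCommGroup Z₀] [NormedSpace ℂ Z₀] [CompleteSpace Z₀]
    (a : Tri E) (x₁ : Z₁) (t : PT E Z₂) (x₂ : Z₂) (x₀ : Z₀) :
    (LeftMod.prod (LeftMod.prod (modI E Z₁) (modII E Z₂)) (modO E Z₀)).act a
      (((x₁, (t, x₂)), x₀) : (Z₁ × (PT E Z₂ × Z₂)) × Z₀) =
      (((p a • x₁, (p a • t + PT.tmul (v a) x₂, q a • x₂)), (0 : Z₀)) :
        (Z₁ × (PT E Z₂ × Z₂)) × Z₀) := by
  have h1 := LeftMod.prod_act (LeftMod.prod (modI E Z₁) (modII E Z₂)) (modO E Z₀) a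
    ((x₁, (t, x₂)) : Z₁ × (PT E Z₂ × Z₂)) x₀
  have h2 := LeftMod.prod_act (modI E Z₁) (modII E Z₂) a x₁ ((t, x₂) : PT E Z₂ × Z₂)
  have h3 := modII_act (E := E) Z₂ a t x₂
  refine h1.trans ?_
  exact Prod.ext (h2.trans (Prod.ext rfl h3)) rfl

/-- Every left module over the triangular algebra has homological dimension at most one. -/
theorem tri_dh_le_one (X : LeftMod (Tri E)) : X.dh ≤ 1 := by
  let E₁ : X →L[ℂ] X := X.act e1
  let E₂ : X →L[ℂ] X := X.act e2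
  have e11 : ∀ x, E₁ (E₁ x) = E₁ x := fun x => by
    show X.act e1 (X.act e1 x) = X.act e1 x
    rw [← X.act_mul, mul_e1, p_e1, one_smul]
  have e22 : ∀ x, E₂ (E₂ x) = E₂ x := fun x => by
    show X.act e2 (X.act e2 x) = X.act e2 x
    rw [← X.act_mul, e2_mul, q_e2, one_smul]
  have e12 : ∀ x, E₁ (E₂ x) = 0 := fun x => by
    show X.act e1 (X.act e2 x) = 0
    rw [← X.act_mul, mul_e2, v_e1, q_e1, map_zero, zero_smul, add_zero, map_zero, zero_apply]
  have e21 : ∀ x, E₂ (E₁ x) = 0 := fun x => by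
    show X.act e2 (X.act e1 x) = 0
    rw [← X.act_mul, mul_e1, p_e2, zero_smul, map_zero, zero_apply]
  have en : ∀ (x : E) (y : X), E₁ (X.act (nL x) y) = X.act (nL x) y := fun x y => by
    show X.act e1 (X.act (nL x) y) = _
    rw [← X.act_mul, e1_mul_n]
  have e2n : ∀ (x : E) (y : X), E₂ (X.act (nL x) y) = 0 := fun x y => by
    show X.act e2 (X.act (nL x) y) = _
    rw [← X.act_mul, mul_n, p_e2, zero_smul, map_zero, zero_apply]
  have hact : ∀ (a : Tri E) (x : X), X.act a x = p a • E₁ x + X.act (nL (v a)) x + q a • E₂ x := by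
    intro a x
    show X.act a x = p a • X.act e1 x + X.act (nL (v a)) x + q a • X.act e2 x
    conv_lhs => rw [eq_sum' a]
    rw [map_add, map_add, map_smul, map_smul]
    rfl
  -- the three subspaces
  let X₁ : Submodule ℂ X := (E₁ - ContinuousLinearMap.id ℂ X).ker
  let X₂ : Submodule ℂ X := (E₂ - ContinuousLinearMap.id ℂ X).ker
  let X₀ : Submodule ℂ X := (E₁ + E₂).ker
  have m1 : ∀ {x : X}, x ∈ X₁ ↔ E₁ x = x := fun {x} => by
    show (E₁ - ContinuousLinearMap.id ℂ X) x = 0 ↔ _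
    rw [sub_apply, sub_eq_zero]
    rfl
  have m2 : ∀ {x : X}, x ∈ X₂ ↔ E₂ x = x := fun {x} => by
    show (E₂ - ContinuousLinearMap.id ℂ X) x = 0 ↔ _
    rw [sub_apply, sub_eq_zero]
    rfl
  have m0 : ∀ {x : X}, x ∈ X₀ ↔ E₁ x + E₂ x = 0 := fun {x} => Iff.rfl
  have m01 : ∀ {x : X}, x ∈ X₀ → E₁ x = 0 := fun {x} hx => by
    have h1 := congrArg E₁ (m0.1 hx)
    rw [map_add, e11, e12, add_zero, map_zero] at h1
    exact h1
  have m02 : ∀ {x : X}, x ∈ X₀ → E₂ x = 0 := fun {x} hx => by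
    have h1 := congrArg E₂ (m0.1 hx)
    rw [map_add, e22, e21, zero_add, map_zero] at h1
    exact h1
  have c1 : CompleteSpace X₁ :=
    (ContinuousLinearMap.isClosed_ker (E₁ - ContinuousLinearMap.id ℂ X)).completeSpace_coe
  have c2 : CompleteSpace X₂ :=
    (ContinuousLinearMap.isClosed_ker (E₂ - ContinuousLinearMap.id ℂ X)).completeSpace_coe
  have c0 : CompleteSpace X₀ :=
    (ContinuousLinearMap.isClosed_ker (E₁ + E₂)).completeSpace_coe
  -- the action map `E ⊗ X₂ → X`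
  let μ : PT E X₂ →L[ℂ] X :=
    PT.lift (((compL ℂ X₂ X X).flip X₂.subtypeL).comp (X.act.comp nL))
  have hμ : ∀ (x : E) (y : X₂), μ (PT.tmul x y) = X.act (nL x) (y : X) := fun x y => by
    show PT.lift _ _ = _
    rw [PT.lift_tmul]
    rfl
  have hμ1 : ∀ t, E₁ (μ t) = μ t := by
    intro t
    have h1 : E₁.comp μ = μ := by
      refine PT.ext' fun x y => ?_
      rw [comp_apply, hμ, en]
    exact congrArg (fun (T : PT E X₂ →L[ℂ] X) => T t) h1
  have hμ2 : ∀ t, E₂ (μ t) = 0 := by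
    intro t
    have h1 : E₂.comp μ = 0 := by
      refine PT.ext' fun x y => ?_
      rw [comp_apply, hμ, e2n]
      rfl
    exact congrArg (fun (T : PT E X₂ →L[ℂ] X) => T t) h1
  have hμn : ∀ (x : E) t, X.act (nL x) (μ t) = 0 := by
    intro x t
    have h1 : (X.act (nL x)).comp μ = 0 := by
      refine PT.ext' fun x' y => ?_
      rw [comp_apply, hμ, ← X.act_mul, mul_n, p_n, zero_smul, map_zero, zero_apply]
      rfl
    exact congrArg (fun (T : PT E X₂ →L[ℂ] X) => T t) h1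
  have hn1 : ∀ (x : E) (y : X), E₁ y = y → X.act (nL x) y = 0 := by
    intro x y hy
    rw [← hy]
    show X.act (nL x) (X.act e1 y) = 0
    rw [← X.act_mul, mul_e1, p_n, zero_smul, map_zero, zero_apply]
  have hn0 : ∀ (x : E) (y : X), E₂ y = 0 → X.act (nL x) y = 0 := by
    intro x y hy
    have h1 : X.act (nL x) y = X.act (nL x) (E₂ y) := by
      show _ = X.act (nL x) (X.act e2 y)
      rw [← X.act_mul, n_mul, q_e2, one_smul]
    rw [h1, hy, map_zero]
  -- the resolution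
  let μ' : PT E X₂ →L[ℂ] X₁ := μ.codRestrict X₁ fun t => m1.2 (hμ1 t)
  let P₀ : LeftMod (Tri E) := LeftMod.prod (LeftMod.prod (modI E X₁) (modII E X₂)) (modO E X₀)
  let P₁ : LeftMod (Tri E) := modI E (PT E X₂)
  have hP₀ : P₀.Lifts := ((modI_lifts X₁).prod (modII_lifts X₂)).prod (modO_lifts X₀)
  have hP₁ : P₁.Lifts := modI_lifts _
  let ε' : ((X₁ × (PT E X₂ × X₂)) × X₀) →L[ℂ] X :=
    X₁.subtypeL.comp ((fst ℂ X₁ (PT E X₂ × X₂)).comp (fst ℂ (X₁ × (PT E X₂ × X₂)) X₀)) +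
    μ.comp ((fst ℂ (PT E X₂) X₂).comp ((snd ℂ X₁ (PT E X₂ × X₂)).comp
      (fst ℂ (X₁ × (PT E X₂ × X₂)) X₀))) +
    X₂.subtypeL.comp ((snd ℂ (PT E X₂) X₂).comp ((snd ℂ X₁ (PT E X₂ × X₂)).comp
      (fst ℂ (X₁ × (PT E X₂ × X₂)) X₀))) +
    X₀.subtypeL.comp (snd ℂ (X₁ × (PT E X₂ × X₂)) X₀)
  have hε' : ∀ (x₁ : X₁) (t : PT E X₂) (x₂ : X₂) (x₀ : X₀),
      ε' ((x₁, (t, x₂)), x₀) = (x₁ : X) + μ t + (x₂ : X) + (x₀ : X) := fun _ _ _ _ => rfl
  let ε : LeftMod.Hom P₀ X := ⟨ε', fun a y => by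
    obtain ⟨⟨x₁, ⟨t, x₂⟩⟩, x₀⟩ : (X₁ × (PT E X₂ × X₂)) × X₀ := y
    have h1 : P₀.act a (((x₁, (t, x₂)), x₀) : (X₁ × (PT E X₂ × X₂)) × X₀) =
        (((p a • x₁, (p a • t + PT.tmul (v a) x₂, q a • x₂)), (0 : X₀)) :
          (X₁ × (PT E X₂ × X₂)) × X₀) := P0_act X₁ X₂ X₀ a x₁ t x₂ x₀
    refine (congrArg ε' h1).trans ?_
    show (((p a • x₁ : X₁) : X)) + μ (p a • t + PT.tmul (v a) x₂) + ((q a • x₂ : X₂) : X) +
      ((0 : X₀) : X) = X.act a ((x₁ : X) + μ t + (x₂ : X) + (x₀ : X))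
    rw [hact, map_add E₁, map_add E₁, map_add E₁, map_add E₂, map_add E₂, map_add E₂,
      map_add (X.act (nL (v a))), map_add (X.act (nL (v a))), map_add (X.act (nL (v a))),
      m1.1 x₁.2, hμ1, m01 x₀.2, m02 x₀.2, m2.1 x₂.2, hμ2, hμn, hn1 _ _ (m1.1 x₁.2),
      hn0 _ _ (m02 x₀.2), map_add, map_smul, hμ]
    have h2 : E₁ (x₂ : X) = 0 := by
      rw [← m2.1 x₂.2]
      exact e12 _
    have h3 : E₂ (x₁ : X) = 0 := by
      rw [← m1.1 x₁.2]
      exact e21 _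
    rw [h2, h3]
    simp only [Submodule.coe_smul, Submodule.coe_zero, add_zero, zero_add, smul_add]
    abel⟩
  let d' : PT E X₂ →L[ℂ] ((X₁ × (PT E X₂ × X₂)) × X₀) :=
    ((-μ').prod ((ContinuousLinearMap.id ℂ (PT E X₂)).prod 0)).prod 0
  have hd' : ∀ t, d' t = ((-(μ' t), (t, 0)), 0) := fun _ => rfl
  let d : LeftMod.Hom P₁ P₀ := ⟨d', fun a (t : PT E X₂) => by
    have h1 : P₀.act a (d' t) =
        (((p a • (-(μ' t)), (p a • t + PT.tmul (v a) (0 : X₂), q a • (0 : X₂))), (0 : X₀)) :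
          (X₁ × (PT E X₂ × X₂)) × X₀) := P0_act X₁ X₂ X₀ a (-(μ' t)) t 0 0
    refine Eq.trans ?_ h1.symm
    show (((-(μ' (p a • t)), (p a • t, (0 : X₂))), (0 : X₀)) : (X₁ × (PT E X₂ × X₂)) × X₀) = _
    rw [map_smul, map_zero, add_zero, smul_zero, smul_neg]⟩
  let s : X →L[ℂ] ((X₁ × (PT E X₂ × X₂)) × X₀) :=
    ((E₁.codRestrict X₁ fun x => m1.2 (e11 x)).prod
      ((0 : X →L[ℂ] PT E X₂).prod (E₂.codRestrict X₂ fun x => m2.2 (e22 x)))).prod
      ((ContinuousLinearMap.id ℂ X - E₁ - E₂).codRestrict X₀ fun x => by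
        rw [m0]
        show E₁ (x - E₁ x - E₂ x) + E₂ (x - E₁ x - E₂ x) = 0
        rw [map_sub, map_sub, map_sub, map_sub, e11, e12, e21, e22]
        abel)
  let k : ((X₁ × (PT E X₂ × X₂)) × X₀) →L[ℂ] PT E X₂ :=
    (fst ℂ (PT E X₂) X₂).comp ((snd ℂ X₁ (PT E X₂ × X₂)).comp
      (fst ℂ (X₁ × (PT E X₂ × X₂)) X₀))
  refine LeftMod.dh_le_one hP₀.isProjective hP₁.isProjective ε d s k ?_ ?_ ?_ ?_
  · intro (t : PT E X₂)
    show ((-(μ' t) : X₁) : X) + μ t + ((0 : X₂) : X) + ((0 : X₀) : X) = 0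
    have h1 : ((μ' t : X₁) : X) = μ t := rfl
    rw [Submodule.coe_neg, h1, Submodule.coe_zero, Submodule.coe_zero, add_zero, add_zero,
      neg_add_cancel]
  · intro x
    show E₁ x + μ 0 + E₂ x + (x - E₁ x - E₂ x) = x
    rw [map_zero, add_zero]
    abel
  · intro y
    obtain ⟨⟨x₁, ⟨t, x₂⟩⟩, x₀⟩ : (X₁ × (PT E X₂ × X₂)) × X₀ := y
    show s ((x₁ : X) + μ t + (x₂ : X) + (x₀ : X)) + d' t = (((x₁, (t, x₂)), x₀) :
      (X₁ × (PT E X₂ × X₂)) × X₀)
    have h2 : E₁ (x₂ : X) = 0 := by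
      rw [← m2.1 x₂.2]
      exact e12 _
    have h3 : E₂ (x₁ : X) = 0 := by
      rw [← m1.1 x₁.2]
      exact e21 _
    have h4 : E₁ ((x₁ : X) + μ t + (x₂ : X) + (x₀ : X)) = (x₁ : X) + μ t := by
      rw [map_add, map_add, map_add, m1.1 x₁.2, hμ1, h2, m01 x₀.2, add_zero, add_zero]
    have h5 : E₂ ((x₁ : X) + μ t + (x₂ : X) + (x₀ : X)) = (x₂ : X) := by
      rw [map_add, map_add, map_add, h3, hμ2, m2.1 x₂.2, m02 x₀.2, add_zero, zero_add, zero_add]
    refine Prod.ext (Prod.ext (Subtype.ext ?_) (Prod.ext ?_ (Subtype.ext ?_))) (Subtype.ext ?_)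
    · show E₁ ((x₁ : X) + μ t + (x₂ : X) + (x₀ : X)) + -(μ t) = x₁
      rw [h4]
      abel
    · show (0 : PT E X₂) + t = t
      rw [zero_add]
    · show E₂ ((x₁ : X) + μ t + (x₂ : X) + (x₀ : X)) + 0 = x₂
      rw [h5, add_zero]
    · show ((x₁ : X) + μ t + (x₂ : X) + (x₀ : X)) - E₁ ((x₁ : X) + μ t + (x₂ : X) + (x₀ : X)) -
        E₂ ((x₁ : X) + μ t + (x₂ : X) + (x₀ : X)) + 0 = x₀
      rw [h4, h5]
      abel
  · intro t
    rfl

theorem tri_dg_le_one : dg (Tri E) ≤ 1 := iSup_le fun X => tri_dh_le_one X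

/-- The left module `ℂ` on which the algebra acts by the lower right entry. -/
def modQ (E : Type) [NormedAddCommGroup E] [NormedSpace ℂ E] : LeftMod (Tri E) where
  carrier := ℂ
  act := qL.smulRight (ContinuousLinearMap.id ℂ ℂ)
  act_mul := fun a b z => by
    show (q a * q b) • z = q a • q b • z
    rw [mul_smul]

theorem tri_one_le_dg [Nontrivial E] : 1 ≤ dg (Tri E) := by
  have h0 : (1 : ℕ∞) ≤ (modQ E).dh := by
    by_contra hlt
    have hP := LeftMod.isProjective_of_dh (modQ E) (not_le.1 hlt)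
    let D : Tri E →L[ℂ] ℂ →L[ℂ] E := ((smulRightL ℂ ℂ E) (ContinuousLinearMap.id ℂ ℂ)).comp vL
    have hD : ∀ a z, D a z = z • v a := fun a z => rfl
    obtain ⟨l, hl⟩ := hP.exists_primitive (modI E E) D (fun a b (z : ℂ) => by
      show D (a * b) z = p a • D b z + D a (q b • z)
      rw [hD, hD, hD, v_mul, smul_add, smul_comm z (p a), smul_eq_mul, mul_comm (q b), mul_smul])
    let l' : ℂ →L[ℂ] E := l
    have hl' : ∀ (a : Tri E) (z : ℂ), l' (q a • z) = p a • l' z + z • v a := hl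
    obtain ⟨x, hx⟩ := exists_ne (0 : E)
    have h1 := hl' (nL x) 1
    rw [q_n, p_n, v_n, zero_smul, zero_smul, map_zero, zero_add, one_smul] at h1
    exact hx h1.symm
  exact h0.trans (le_iSup (fun X : LeftMod (Tri E) => X.dh) (modQ E))

theorem tri_dg [Nontrivial E] : dg (Tri E) = 1 := le_antisymm tri_dg_le_one tri_one_le_dg

end Pool.Agent.MP_a77edb_an
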