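import Pool.Agent.MP_a77edb_an.TriBi
import Pool.Agent.MP_a77edb_an.Bridge

/-!
# A Banach algebra with involution of homological dimension one
-/

set_option autoImplicit false
set_option linter.unusedSectionVars false

noncomputable section

namespace Pool.Agent.MP_a77edb_an

/-- the Hilbert space `ℓ²` -/
abbrev Ell2 : Type := lp (fun _ : ℕ => ℂ) 2

theorem ell2_not_finite : ¬ FiniteDimensional ℂ Ell2 := by
  intro h
  have hli : LinearIndependent ℂ (fun n : ℕ => (lp.single 2 n (1 : ℂ) : Ell2)) := by
    rw [linearIndependent_iff']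
    intro s g hg i hi
    have h1 := congrArg (fun x : Ell2 => x i) hg
    have h2 : (∑ j ∈ s, g j • (lp.single 2 j (1 : ℂ) : Ell2)) i = g i := by
      rw [lp.coeFn_sum, Finset.sum_apply, Finset.sum_eq_single i]
      · rw [lp.coeFn_smul, Pi.smul_apply, lp.single_apply_self, smul_eq_mul, mul_one]
      · intro j _ hj
        rw [lp.coeFn_smul, Pi.smul_apply, lp.single_apply_ne _ _ _ hj.symm, smul_zero]
      · intro hi'
        exact absurd hi hi'
    have h3 : (∑ j ∈ s, g j • (lp.single 2 j (1 : ℂ) : Ell2)) i = 0 := h1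
    rw [← h2, h3]
  have := hli.finite
  exact not_finite ℕ

instance : Nontrivial Ell2 := by
  refine ⟨lp.single 2 0 (1 : ℂ), 0, fun h => ?_⟩
  have h1 := congrArg (fun x : Ell2 => x 0) h
  have h2 : (lp.single 2 0 (1 : ℂ) : Ell2) 0 = 1 := lp.single_apply_self (E := fun _ : ℕ => ℂ) 2 0 1
  have h3 : (1 : ℂ) = 0 := h2.symm.trans h1
  exact one_ne_zero h3

/-- There is an infinite-dimensional unital Banach algebra with isometric involution of left
global dimension and bidimension one. -/
theorem exists_star_algebra : ∃ (A : Type) (_ : NormedRing A) (_ : NormedAlgebra ℂ A)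
    (_ : CompleteSpace A) (_ : StarRing A) (_ : StarModule ℂ A) (_ : NormedStarGroup A),
    ¬ FiniteDimensional ℂ A ∧ HomDim.dg A = 1 ∧ HomDim.db A = 1 := by
  refine ⟨Tri Ell2, inferInstance, inferInstance, inferInstance, inferInstance, inferInstance,
    inferInstance, Tri.not_finiteDimensional ell2_not_finite, ?_, ?_⟩
  · rw [dg_eq]
    exact tri_dg
  · rw [db_eq]
    exact tri_db

end Pool.Agent.MP_a77edb_an
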